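import Pool.Agent.J4.H53.CI.Core

set_option autoImplicit false

/-! # Irreducible factors of a polynomial which splits modulo many primes -/

open Polynomial Finset

namespace Pool.Agent.J4.H53.CI

lemma exists_fun' {K : Type*} (s : Multiset K) {r : ℕ} (hs : Multiset.card s = r) :
    ∃ x : Fin r → K, (Finset.univ.val.map x : Multiset K) = s := by
  obtain ⟨l, rfl⟩ := Quot.exists_rep s
  have hl : l.length = r := hs
  subst hl
  refine ⟨l.get, ?_⟩
  rw [Fin.univ_val_map, List.ofFn_get]
  rfl

/-- the roots as a family -/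
lemma exists_roots {K : Type*} [Field K] {Q : ℤ[X]} (hQ : Q.Monic)
    (hs : (Q.map (Int.castRingHom K)).Splits) :
    ∃ t : Fin Q.natDegree → K, (univ.val.map t : Multiset K) = (Q.map (Int.castRingHom K)).roots ∧
      Q.map (Int.castRingHom K) = ∏ i, (X - C (t i)) := by
  obtain ⟨t, ht⟩ := exists_fun' (Q.map (Int.castRingHom K)).roots (r := Q.natDegree) (by
    rw [← hs.natDegree_eq_card_roots, hQ.natDegree_map])
  refine ⟨t, ht, ?_⟩
  rw [hs.eq_prod_roots_of_monic (hQ.map _), ← ht, Multiset.map_map]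
  rfl

lemma splits_of_prod {K : Type*} [Field K] {r : ℕ} {P : ℤ[X]} {x : Fin r → K}
    (h : P.map (Int.castRingHom K) = ∏ i, (X - C (x i))) :
    (P.map (Int.castRingHom K)).Splits := by
  rw [h]
  exact Splits.prod fun i _ => Splits.X_sub_C _

/-- a monic factor splits -/
lemma factor_splits {K : Type*} [Field K] {r : ℕ} {P Q : ℤ[X]} (hP : P.Monic) (hQ : Q.Monic)
    (hQP : Q ∣ P) {x : Fin r → K} (h : P.map (Int.castRingHom K) = ∏ i, (X - C (x i))) :
    ∃ t : Fin Q.natDegree → K, Q.map (Int.castRingHom K) = ∏ i, (X - C (t i)) := by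
  have h1 : (Q.map (Int.castRingHom K)).Splits :=
    (splits_of_prod h).of_dvd (hP.map _).ne_zero (Polynomial.map_dvd _ hQP)
  obtain ⟨t, -, ht⟩ := exists_roots hQ h1
  exact ⟨t, ht⟩

lemma irr_rat {P : ℤ[X]} (hP : P.Monic) (hirr : Irreducible P) :
    Irreducible (P.map (Int.castRingHom ℚ)) :=
  (hP.irreducible_iff_irreducible_map_fraction_map (K := ℚ)).1 hirr

/-- an irreducible polynomial of degree at least two has no rational root -/
lemma eval_rat_ne {P : ℤ[X]} (hP : P.Monic) (hirr : Irreducible P) (h2 : 2 ≤ P.natDegree) (q : ℚ) :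
    (P.map (Int.castRingHom ℚ)).eval q ≠ 0 := by
  intro h
  have h1 := degree_eq_one_of_irreducible_of_root (irr_rat hP hirr) h
  have h3 : P.natDegree = 1 := by
    rw [← hP.natDegree_map (Int.castRingHom ℚ)]
    exact natDegree_eq_of_degree_eq_some h1
  omega

lemma form_ne_zero {P : ℤ[X]} (hP : P.Monic) (hirr : Irreducible P) (h2 : 2 ≤ P.natDegree)
    (x y : ℤ) (h : x ≠ 0 ∨ y ≠ 0) : form P x y ≠ 0 := by
  by_cases hy : y = 0
  · subst hy
    rw [form, scaleRoots_zero, hP.leadingCoeff, one_smul, eval_pow, eval_X]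
    rcases h with h | h
    · exact pow_ne_zero _ h
    · exact absurd rfl h
  · intro h0
    have hyq : (y : ℚ) ≠ 0 := by exact_mod_cast hy
    have h1 : ((form P x y : ℤ) : ℚ) =
        ((P.map (Int.castRingHom ℚ)).scaleRoots (y : ℚ)).eval (x : ℚ) := by
      have h2 := map_scaleRoots P y (Int.castRingHom ℚ) (by rw [hP.leadingCoeff]; simp)
      rw [eq_intCast] at h2
      rw [← h2, eval_intCast_map]
      rfl
    have h3 : (x : ℚ) = y * (x / y) := by field_simp
    rw [h0, h3, scaleRoots_eval_mul] at h1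
    have h4 : (P.map (Int.castRingHom ℚ)).eval ((x : ℚ) / y) = 0 := by
      have h5 : (y : ℚ) ^ (P.map (Int.castRingHom ℚ)).natDegree ≠ 0 := pow_ne_zero _ hyq
      rcases mul_eq_zero.1 h1.symm with h6 | h6
      · exact absurd h6 h5
      · exact h6
    exact eval_rat_ne hP hirr h2 _ h4

/-- the resultant of `Q` and its derivative -/
noncomputable def res (Q : ℤ[X]) : ℤ := resultant Q (derivative Q)

lemma res_ne_zero {Q : ℤ[X]} (hQ : Q.Monic) (hirr : Irreducible Q) : res Q ≠ 0 := by
  have h1 : IsCoprime (Q.map (Int.castRingHom ℚ)) (derivative (Q.map (Int.castRingHom ℚ))) :=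
    (irr_rat hQ hirr).separable
  have h2 := resultant_ne_zero _ _ h1
  rw [derivative_map, natDegree_map_eq_of_injective (RingHom.injective_int _),
    natDegree_map_eq_of_injective (RingHom.injective_int _), resultant_map_map] at h2
  intro h
  apply h2
  rw [res] at h
  rw [h, map_zero]

lemma injective_of_res {Q : ℤ[X]} (hm : Q.natDegree ≠ 0) {p : ℕ} (hp : p.Prime)
    (hpR : ¬ (p : ℤ) ∣ res Q) {m : ℕ} (t : Fin m → ZMod p)
    (ht : Q.map (Int.castRingHom (ZMod p)) = ∏ i, (X - C (t i))) : Function.Injective t := by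
  classical
  have : Fact p.Prime := ⟨hp⟩
  intro i j hij
  by_contra hne
  apply hpR
  obtain ⟨a, b, -, -, hab⟩ := exists_mul_add_mul_eq_C_resultant Q (derivative Q) le_rfl le_rfl
    (Or.inl hm)
  have h1 := congrArg (fun F : ℤ[X] => (F.map (Int.castRingHom (ZMod p))).eval (t i)) hab
  simp only [Polynomial.map_add, Polynomial.map_mul, eval_add, eval_mul, map_C, eval_C,
    ← derivative_map] at h1
  have h2 : (Q.map (Int.castRingHom (ZMod p))).eval (t i) = 0 := by
    rw [ht, eval_prod]
    exact prod_eq_zero (mem_univ i) (by simp)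
  have h3 : (derivative (Q.map (Int.castRingHom (ZMod p)))).eval (t i) = 0 := by
    rw [ht, derivative_prod_finset, eval_finsetSum]
    refine sum_eq_zero fun k _ => ?_
    rw [eval_mul, eval_prod]
    have h4 : ∏ l ∈ univ.erase k, (X - C (t l)).eval (t i) = 0 := by
      by_cases hk : k = i
      · exact prod_eq_zero (mem_erase.2 ⟨by rw [hk]; exact fun h => hne h.symm, mem_univ j⟩)
          (by simp [hij])
      · exact prod_eq_zero (mem_erase.2 ⟨fun h => hk h.symm, mem_univ i⟩) (by simp)
    rw [h4, zero_mul]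
  rw [h2, h3, zero_mul, zero_mul, add_zero] at h1
  rw [← ZMod.intCast_zmod_eq_zero_iff_dvd]
  exact h1.symm

lemma res_le {Q : ℤ[X]} (hQ : Q.Monic) (β : Fin Q.natDegree → ℂ)
    (hβr : (univ.val.map β : Multiset ℂ) = (Q.map (Int.castRingHom ℂ)).roots)
    (hβ : Q.map (Int.castRingHom ℂ) = ∏ i, (X - C (β i))) (H : ℝ) (hH : 1 ≤ H)
    (hb : ∀ i, ‖β i‖ ≤ H) (r : ℕ) (hr : Q.natDegree ≤ r) :
    |((res Q : ℤ) : ℝ)| ≤ (r * (2 * H) ^ r) ^ r := by
  classical
  rcases Nat.eq_zero_or_pos r with h0 | hr0
  · subst h0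
    have h1 : Q.natDegree = 0 := by omega
    have h2 : Q = 1 := hQ.natDegree_eq_zero.1 h1
    rw [h2, res]
    simp
  have hr1 : (1 : ℝ) ≤ r := by exact_mod_cast hr0
  have hK1 : (1 : ℝ) ≤ r * (2 * H) ^ r := by
    have h1 : (1 : ℝ) ≤ (2 * H) ^ r := one_le_pow₀ (by linarith)
    nlinarith
  have h1 := resultant_eq_prod_eval (Q.map (Int.castRingHom ℂ))
    (derivative (Q.map (Int.castRingHom ℂ))) (derivative Q).natDegree (by
      rw [derivative_map]
      exact natDegree_map_le) (IsAlgClosed.splits _)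
  rw [(hQ.map _).leadingCoeff, one_pow, one_mul, hQ.natDegree_map, derivative_map,
    resultant_map_map, ← derivative_map, ← hβr, Multiset.map_map] at h1
  have h2 : ((res Q : ℤ) : ℂ) = ∏ i, (derivative (Q.map (Int.castRingHom ℂ))).eval (β i) := by
    rw [res]
    rw [eq_intCast] at h1
    exact h1
  have h3 : |((res Q : ℤ) : ℝ)| = ‖((res Q : ℤ) : ℂ)‖ := by
    rw [Complex.norm_intCast]
  rw [h3, h2, norm_prod]
  calc ∏ i, ‖(derivative (Q.map (Int.castRingHom ℂ))).eval (β i)‖
      ≤ ∏ i : Fin Q.natDegree, (r * (2 * H) ^ r : ℝ) := by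
        refine prod_le_prod (fun i _ => norm_nonneg _) fun i _ => ?_
        rw [hβ, derivative_prod_finset, eval_finsetSum]
        refine (norm_sum_le _ _).trans ?_
        calc ∑ k, ‖((∏ l ∈ univ.erase k, (X - C (β l))) * derivative (X - C (β k))).eval (β i)‖
            ≤ ∑ k : Fin Q.natDegree, ((2 * H) ^ r : ℝ) := by
              refine sum_le_sum fun k _ => ?_
              rw [derivative_X_sub_C, mul_one, eval_prod, norm_prod]
              calc ∏ l ∈ univ.erase k, ‖(X - C (β l)).eval (β i)‖
                  ≤ ∏ l ∈ univ.erase k, (2 * H : ℝ) := by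
                    refine prod_le_prod (fun l _ => norm_nonneg _) fun l _ => ?_
                    rw [eval_sub, eval_X, eval_C]
                    refine (norm_sub_le _ _).trans ?_
                    linarith [hb i, hb l]
                _ = (2 * H) ^ (univ.erase k).card := by rw [prod_const]
                _ ≤ (2 * H) ^ r := by
                    apply pow_le_pow_right₀ (by linarith)
                    refine (card_le_univ _).trans ?_
                    rw [Fintype.card_fin]
                    exact hr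
          _ = (Q.natDegree : ℝ) * (2 * H) ^ r := by
              rw [sum_const, card_univ, Fintype.card_fin, nsmul_eq_mul]
          _ ≤ r * (2 * H) ^ r := by
              have : (Q.natDegree : ℝ) ≤ r := by exact_mod_cast hr
              gcongr
    _ = (r * (2 * H) ^ r) ^ Q.natDegree := by
        rw [prod_const, card_univ, Fintype.card_fin]
    _ ≤ (r * (2 * H) ^ r) ^ r := pow_le_pow_right₀ hK1 hr

end Pool.Agent.J4.H53.CI
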