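import Mathlib

/-!
# Project CI, part 2: an inequality of binomial coefficients (piece BIC)
-/

set_option autoImplicit false
set_option linter.all false

open Polynomial Finset

namespace Pool.Agent.J4.H53.CI

theorem bic_step (K p q : ℕ) (h : p ≤ q) :
    K.choose p * K.choose (q + 1) ≤ K.choose (p + 1) * K.choose q := by
  have h1 : (K.choose p * K.choose (q + 1)) * ((p + 1) * (q + 1)) ≤
      (K.choose (p + 1) * K.choose q) * ((p + 1) * (q + 1)) := by
    have e1 := Nat.choose_succ_right_eq K p
    have e2 := Nat.choose_succ_right_eq K q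
    calc (K.choose p * K.choose (q + 1)) * ((p + 1) * (q + 1))
        = K.choose p * (p + 1) * (K.choose (q + 1) * (q + 1)) := by ring
      _ = K.choose p * K.choose q * ((p + 1) * (K - q)) := by rw [e2]; ring
      _ ≤ K.choose p * K.choose q * ((q + 1) * (K - p)) := by
          refine Nat.mul_le_mul_left _ (Nat.mul_le_mul (by omega) (by omega))
      _ = (K.choose p * (K - p)) * (K.choose q * (q + 1)) := by ring
      _ = (K.choose (p + 1) * K.choose q) * ((p + 1) * (q + 1)) := by rw [← e1]; ring
  exact Nat.le_of_mul_le_mul_right h1 (by positivity)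

theorem bic_conc (K a t : ℕ) (ht : t ≤ a) :
    K.choose (a - t) * K.choose (a + t) ≤ K.choose a ^ 2 := by
  induction t with
  | zero => simp [sq]
  | succ t ih =>
    have h1 := bic_step K (a - (t + 1)) (a + t) (by omega)
    rw [show a - (t + 1) + 1 = a - t by omega] at h1
    exact h1.trans (ih (by omega))

theorem bic_term (K a i j : ℕ) (h : i + j = 2 * a) :
    K.choose i * K.choose j ≤ K.choose a ^ 2 := by
  rcases Nat.le_total i a with hi | hi
  · have h1 := bic_conc K a (a - i) (by omega)
    rw [show a - (a - i) = i by omega, show a + (a - i) = j by omega] at h1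
    exact h1
  · have h1 := bic_conc K a (i - a) (by omega)
    rw [show a - (i - a) = j by omega, show a + (i - a) = i by omega] at h1
    rw [mul_comm]
    exact h1

theorem bic_sum (K a : ℕ) : (2 * K).choose (2 * a) ≤ (K.choose a) ^ 2 * (2 * a + 1) := by
  rw [two_mul K, Nat.add_choose_eq]
  calc ∑ ij ∈ antidiagonal (2 * a), K.choose ij.1 * K.choose ij.2
      ≤ ∑ ij ∈ antidiagonal (2 * a), K.choose a ^ 2 := by
        refine Finset.sum_le_sum fun ij hij => ?_
        exact bic_term K a ij.1 ij.2 (Finset.HasAntidiagonal.mem_antidiagonal.1 hij)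
    _ = K.choose a ^ 2 * (2 * a + 1) := by
        rw [Finset.sum_const, Finset.Nat.card_antidiagonal, smul_eq_mul, mul_comm]

theorem bic_mono (K b c : ℕ) (h1 : b ≤ c) (h2 : c ≤ K) : (2 * K).choose b ≤ (2 * K).choose c := by
  induction c, h1 using Nat.le_induction with
  | base => exact le_rfl
  | succ c hbc ih =>
    exact (ih (by omega)).trans (Nat.choose_le_succ_of_lt_half_left (by omega))

theorem bic_prod (K b : ℕ) (h : b ≤ K) :
    (K + b).choose b * (2 * K) ^ b ≤ (2 * K).choose b * (K + b) ^ b := by
  have h1 : ((K + b).choose b * (2 * K) ^ b) * b.factorial ≤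
      ((2 * K).choose b * (K + b) ^ b) * b.factorial := by
    have e1 : ((K + b).choose b * (2 * K) ^ b) * b.factorial =
        ∏ i ∈ range b, ((K + b - i) * (2 * K)) := by
      rw [Finset.prod_mul_distrib, ← Nat.descFactorial_eq_prod_range,
        Nat.descFactorial_eq_factorial_mul_choose, Finset.prod_const, card_range]
      ring
    have e2 : ((2 * K).choose b * (K + b) ^ b) * b.factorial =
        ∏ i ∈ range b, ((2 * K - i) * (K + b)) := by
      rw [Finset.prod_mul_distrib, ← Nat.descFactorial_eq_prod_range,
        Nat.descFactorial_eq_factorial_mul_choose, Finset.prod_const, card_range]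
      ring
    rw [e1, e2]
    refine Finset.prod_le_prod' fun i hi => ?_
    rw [mem_range] at hi
    obtain ⟨c, rfl⟩ : ∃ c, K = i + c := ⟨K - i, by omega⟩
    rw [show i + c + b - i = c + b by omega, show 2 * (i + c) - i = i + 2 * c by omega]
    nlinarith [Nat.zero_le (i * i), Nat.zero_le (i * c), Nat.mul_le_mul_left i h]
  exact Nat.le_of_mul_le_mul_right h1 (Nat.factorial_pos b)

theorem binom_ineq (K a b : ℕ) (h1 : b ≤ 2 * a) (h2 : 2 * a ≤ K) :
    (K + b).choose b * (2 * K) ^ b ≤ (K.choose a) ^ 2 * (2 * a + 1) * (K + b) ^ b :=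
  (bic_prod K b (h1.trans h2)).trans
    (Nat.mul_le_mul_right _ ((bic_mono K b (2 * a) h1 h2).trans (bic_sum K a)))

end Pool.Agent.J4.H53.CI
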