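import Mathlib

/-!
# Project CI, part 3: an inequality of binomial coefficients (piece BIC3)
-/

set_option autoImplicit false
set_option linter.all false

open Polynomial Finset

namespace Pool.Agent.J4.H53.CI

namespace Bic3

theorem up (K a i : ℕ) (h : a ≤ i) :
    K.choose i * (a + 1) ^ i * (K - a) ^ a ≤ K.choose a * (a + 1) ^ a * (K - a) ^ i := by
  induction i, h using Nat.le_induction with
  | base => exact le_rfl
  | succ i hi ih =>
    have e1 := Nat.choose_succ_right_eq K i
    have h2 : (K - i) * (a + 1) ≤ (K - a) * (i + 1) := Nat.mul_le_mul (by omega) (by omega)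
    have h3 : (K.choose (i + 1) * (a + 1) ^ (i + 1) * (K - a) ^ a) * (i + 1) ≤
        (K.choose a * (a + 1) ^ a * (K - a) ^ (i + 1)) * (i + 1) := by
      calc (K.choose (i + 1) * (a + 1) ^ (i + 1) * (K - a) ^ a) * (i + 1)
          = (K.choose (i + 1) * (i + 1)) * ((a + 1) ^ (i + 1) * (K - a) ^ a) := by ring
        _ = (K.choose i * (a + 1) ^ i * (K - a) ^ a) * ((K - i) * (a + 1)) := by rw [e1]; ring
        _ ≤ (K.choose a * (a + 1) ^ a * (K - a) ^ i) * ((K - a) * (i + 1)) :=
            Nat.mul_le_mul ih h2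
        _ = (K.choose a * (a + 1) ^ a * (K - a) ^ (i + 1)) * (i + 1) := by ring
    exact Nat.le_of_mul_le_mul_right h3 (by omega)

theorem down (K a d : ℕ) (h : d ≤ a) (hK : a ≤ K) :
    K.choose (a - d) * (a + 1) ^ (a - d) * (K - a) ^ a ≤
      K.choose a * (a + 1) ^ a * (K - a) ^ (a - d) := by
  induction d with
  | zero => exact le_rfl
  | succ d ih =>
    have ih' := ih (by omega)
    obtain ⟨i, hi⟩ : ∃ i, a - (d + 1) = i := ⟨_, rfl⟩
    have hi' : a - d = i + 1 := by omega
    rw [hi'] at ih'
    rw [hi]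
    have e1 := Nat.choose_succ_right_eq K i
    have h2 : (K - a) * (i + 1) ≤ (K - i) * (a + 1) := Nat.mul_le_mul (by omega) (by omega)
    have h3 : (K.choose i * (a + 1) ^ i * (K - a) ^ a) * ((K - i) * (a + 1)) ≤
        (K.choose a * (a + 1) ^ a * (K - a) ^ i) * ((K - i) * (a + 1)) := by
      calc (K.choose i * (a + 1) ^ i * (K - a) ^ a) * ((K - i) * (a + 1))
          = (K.choose i * (K - i)) * ((a + 1) ^ (i + 1) * (K - a) ^ a) := by ring
        _ = (K.choose (i + 1) * (a + 1) ^ (i + 1) * (K - a) ^ a) * (i + 1) := by rw [← e1]; ring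
        _ ≤ (K.choose a * (a + 1) ^ a * (K - a) ^ (i + 1)) * (i + 1) := Nat.mul_le_mul_right _ ih'
        _ = (K.choose a * (a + 1) ^ a * (K - a) ^ i) * ((K - a) * (i + 1)) := by ring
        _ ≤ (K.choose a * (a + 1) ^ a * (K - a) ^ i) * ((K - i) * (a + 1)) :=
            Nat.mul_le_mul_left _ h2
    have h4 : 0 < K - i := by omega
    exact Nat.le_of_mul_le_mul_right h3 (by positivity)

theorem tangent (K a i : ℕ) (hK : a ≤ K) :
    K.choose i * (a + 1) ^ i * (K - a) ^ a ≤ K.choose a * (a + 1) ^ a * (K - a) ^ i := by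
  rcases Nat.le_total a i with h | h
  · exact up K a i h
  · have h1 := down K a (a - i) (by omega) hK
    rw [show a - (a - i) = i by omega] at h1
    exact h1

theorem term (K a i j l : ℕ) (hK : a < K) (h : i + j + l = 3 * a) :
    K.choose i * (K.choose j * K.choose l) ≤ K.choose a ^ 3 := by
  have h1 := tangent K a i hK.le
  have h2 := tangent K a j hK.le
  have h3 := tangent K a l hK.le
  have h4 := Nat.mul_le_mul h1 (Nat.mul_le_mul h2 h3)
  have h5 : 0 < K - a := by omega
  have h6 : (K.choose i * (K.choose j * K.choose l)) * ((a + 1) ^ (3 * a) * (K - a) ^ (3 * a)) ≤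
      (K.choose a ^ 3) * ((a + 1) ^ (3 * a) * (K - a) ^ (3 * a)) := by
    calc (K.choose i * (K.choose j * K.choose l)) * ((a + 1) ^ (3 * a) * (K - a) ^ (3 * a))
        = K.choose i * (a + 1) ^ i * (K - a) ^ a * (K.choose j * (a + 1) ^ j * (K - a) ^ a *
          (K.choose l * (a + 1) ^ l * (K - a) ^ a)) := by
          rw [show (a + 1) ^ (3 * a) = (a + 1) ^ i * (a + 1) ^ j * (a + 1) ^ l by
            rw [← h]; ring]
          rw [show (K - a) ^ (3 * a) = (K - a) ^ a * (K - a) ^ a * (K - a) ^ a by ring]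
          ring
      _ ≤ _ := h4
      _ = (K.choose a ^ 3) * ((a + 1) ^ (3 * a) * (K - a) ^ (3 * a)) := by
          rw [show (K - a) ^ (3 * a) = (K - a) ^ i * (K - a) ^ j * (K - a) ^ l by
            rw [← h]; ring]
          rw [show (a + 1) ^ (3 * a) = (a + 1) ^ a * (a + 1) ^ a * (a + 1) ^ a by ring]
          ring
  exact Nat.le_of_mul_le_mul_right h6 (by positivity)

theorem sum_le (K a : ℕ) (hK : a < K) :
    (3 * K).choose (3 * a) ≤ (K.choose a) ^ 3 * (3 * a + 1) ^ 2 := by
  rw [show 3 * K = K + (K + K) by ring, Nat.add_choose_eq]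
  calc ∑ ij ∈ antidiagonal (3 * a), K.choose ij.1 * (K + K).choose ij.2
      ≤ ∑ ij ∈ antidiagonal (3 * a), K.choose a ^ 3 * (3 * a + 1) := by
        refine Finset.sum_le_sum fun ij hij => ?_
        have h1 := Finset.HasAntidiagonal.mem_antidiagonal.1 hij
        rw [Nat.add_choose_eq, Finset.mul_sum]
        calc ∑ jl ∈ antidiagonal ij.2, K.choose ij.1 * (K.choose jl.1 * K.choose jl.2)
            ≤ ∑ jl ∈ antidiagonal ij.2, K.choose a ^ 3 := by
              refine Finset.sum_le_sum fun jl hjl => ?_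
              have h2 := Finset.HasAntidiagonal.mem_antidiagonal.1 hjl
              exact term K a _ _ _ hK (by omega)
          _ = K.choose a ^ 3 * (ij.2 + 1) := by
              rw [Finset.sum_const, Finset.Nat.card_antidiagonal, smul_eq_mul, mul_comm]
          _ ≤ K.choose a ^ 3 * (3 * a + 1) := Nat.mul_le_mul_left _ (by omega)
    _ = K.choose a ^ 3 * (3 * a + 1) ^ 2 := by
        rw [Finset.sum_const, Finset.Nat.card_antidiagonal, smul_eq_mul]
        ring

theorem mono (K b c : ℕ) (h1 : b ≤ c) (h2 : 2 * c ≤ 3 * K) :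
    (3 * K).choose b ≤ (3 * K).choose c := by
  induction c, h1 using Nat.le_induction with
  | base => exact le_rfl
  | succ c hbc ih =>
    exact (ih (by omega)).trans (Nat.choose_le_succ_of_lt_half_left (by omega))

theorem prod_le (K b : ℕ) (h : b ≤ 2 * K) :
    (K + b).choose b * (3 * K) ^ b ≤ (3 * K).choose b * (K + b) ^ b := by
  have h1 : ((K + b).choose b * (3 * K) ^ b) * b.factorial ≤
      ((3 * K).choose b * (K + b) ^ b) * b.factorial := by
    have e1 : ((K + b).choose b * (3 * K) ^ b) * b.factorial =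
        ∏ i ∈ range b, ((K + b - i) * (3 * K)) := by
      rw [Finset.prod_mul_distrib, ← Nat.descFactorial_eq_prod_range,
        Nat.descFactorial_eq_factorial_mul_choose, Finset.prod_const, card_range]
      ring
    have e2 : ((3 * K).choose b * (K + b) ^ b) * b.factorial =
        ∏ i ∈ range b, ((3 * K - i) * (K + b)) := by
      rw [Finset.prod_mul_distrib, ← Nat.descFactorial_eq_prod_range,
        Nat.descFactorial_eq_factorial_mul_choose, Finset.prod_const, card_range]
      ring
    rw [e1, e2]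
    refine Finset.prod_le_prod' fun i hi => ?_
    rw [mem_range] at hi
    have h3 : i * (K + b) ≤ i * (3 * K) := Nat.mul_le_mul_left _ (by omega)
    rw [Nat.sub_mul, Nat.sub_mul, mul_comm (3 * K) (K + b)]
    exact Nat.sub_le_sub_left h3 _
  exact Nat.le_of_mul_le_mul_right h1 (Nat.factorial_pos b)

end Bic3

theorem binom_ineq3 (K a b : ℕ) (h1 : b ≤ 3 * a) (h2 : 2 * a ≤ K) :
    (K + b).choose b * (3 * K) ^ b ≤ (K.choose a) ^ 3 * (3 * a + 1) ^ 2 * (K + b) ^ b := by
  rcases Nat.eq_zero_or_pos K with hK | hK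
  · subst hK
    obtain rfl : a = 0 := by omega
    obtain rfl : b = 0 := by omega
    simp
  · exact (Bic3.prod_le K b (by omega)).trans
      (Nat.mul_le_mul_right _ ((Bic3.mono K b (3 * a) h1 (by omega)).trans
        (Bic3.sum_le K a (by omega))))

end Pool.Agent.J4.H53.CI
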