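import Pool.Agent.J4.H53.CI.CutC

set_option autoImplicit false

/-! # The canonical class: one of the Chern roots is large -/

open Polynomial Finset

namespace Pool.Agent.J4.H53.CI

namespace Cut

/-- if there are Chern roots which are not integers, then there are conjugate non-integral Chern roots
such that the real part of one of them is larger than `U` -/
theorem exists_large (r N U V a : ℕ) (H : ℝ) (P : ℤ[X]) (β : Fin r → ℂ)
    (hβ : P.map (Int.castRingHom ℂ) = ∏ i, (X - C (β i)))
    (hint : ∀ t : ℤ, ∃ z : ℤ, ∑ S : Finset (Fin r), (-1) ^ S.card *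
      ((∏ j ∈ range N, ((t : ℂ) - ∑ i ∈ S, β i + j + 1)) / N.factorial) = z)
    (hre : ∀ i, 0 < (β i).re) (hV : ∀ i, |(β i).im| ≤ V)
    (hn : ∀ i, ‖β i‖ ≤ H) (hH : 1 ≤ H)
    (hsize : U + 2 * a + 1 + r + 2 ^ r ≤ N) (hVN : V + 1 ≤ N)
    (hbig : (2 : ℝ) ^ r * ((2 * N : ℝ) ^ (2 * V + 1) * (H ^ r *
      ((r + 1) * H + 1) ^ (2 ^ r))) < ((N - r - 2 ^ r).choose a : ℝ))
    (hcon : ∃ i, ∀ n : ℤ, β i ≠ n) :
    ∃ Q : ℤ[X], Q.Monic ∧ Irreducible Q ∧ Q ∣ P ∧ 2 ≤ Q.natDegree ∧
      (∃ i, (U : ℝ) < (β i).re ∧ (Q.map (Int.castRingHom ℂ)).eval (β i) = 0) ∧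
      (∀ n : ℤ, (Q.map (Int.castRingHom ℂ)).eval (n : ℂ) ≠ 0) ∧
      ∃ s, (Q.map (Int.castRingHom ℂ)).eval s = 0 ∧
        ∑ S : Finset (Fin r), (if ∑ i ∈ S, β i = s then (-1 : ℂ) ^ S.card else 0) ≠ 0 := by
  classical
  obtain ⟨i₁, hi₁⟩ := hcon
  set T : Finset (Fin r) := univ.filter (fun i => ∀ n : ℤ, β i ≠ n) with hT
  have hTne : T.Nonempty := ⟨i₁, by simp [hT, hi₁]⟩
  obtain ⟨i₀, hi₀, hmin⟩ := T.exists_min_image (fun i => (β i).re) hTne
  set s := β i₀ with hs
  have hsn : ∀ n : ℤ, s ≠ n := (Finset.mem_filter.1 hi₀).2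
  have hPm : P.Monic := monic_of_injective (RingHom.injective_int (Int.castRingHom ℂ)) (by
    rw [hβ]
    exact monic_prod_of_monic _ _ fun i _ => monic_X_sub_C _)
  have hPd : P.natDegree = r := by
    have h1 := hPm.natDegree_map (Int.castRingHom ℂ)
    rw [hβ, natDegree_prod_of_monic _ _ fun i _ => monic_X_sub_C _] at h1
    simp at h1
    exact h1.symm
  have hPs : aeval s P = 0 := by
    rw [aeval_def, ← eval_map]
    change eval s (P.map (Int.castRingHom ℂ)) = 0
    rw [hβ, eval_prod]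
    exact Finset.prod_eq_zero (mem_univ i₀) (by simp [hs])
  have hsint : IsIntegral ℤ s := ⟨P, hPm, hPs⟩
  set Q := minpoly ℤ s with hQ
  have hQm : Q.Monic := minpoly.monic hsint
  have hQi : Irreducible Q := minpoly.irreducible hsint
  have hQP : Q ∣ P := minpoly.isIntegrallyClosed_dvd hsint hPs
  have hQs : aeval s Q = 0 := minpoly.aeval ℤ s
  have hQs' : (Q.map (Int.castRingHom ℂ)).eval s = 0 := by
    rw [eval_map]; exact hQs
  have hQd2 : 2 ≤ Q.natDegree := by
    by_contra hlt
    have h0 : 0 < Q.natDegree := minpoly.natDegree_pos hsint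
    have h1 : Q.natDegree = 1 := by omega
    have h2 : Q = X + C (Q.coeff 0) := by
      have h3 := hQm.as_sum
      rw [h1] at h3
      rw [h3]
      simp
    apply hsn (-(Q.coeff 0))
    rw [h2, map_add, aeval_X, aeval_C] at hQs
    have h4 : s = -((Q.coeff 0 : ℤ) : ℂ) := by
      have h5 : (algebraMap ℤ ℂ) (Q.coeff 0) = ((Q.coeff 0 : ℤ) : ℂ) := rfl
      rw [h5] at hQs
      linear_combination hQs
    rw [h4]
    push_cast
    rfl
  -- only the subsets with the sum `s` count
  have hs0 : s ≠ 0 := fun h => hsn 0 (by simpa using h)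
  have hcard : ∀ S : Finset (Fin r), ∑ i ∈ S, β i = s → S.card = 1 := by
    intro S hS
    by_cases hTS : ∃ i ∈ S, i ∈ T
    · obtain ⟨i, hiS, hiT⟩ := hTS
      have h1 : (β i).re + ∑ j ∈ S.erase i, (β j).re = s.re := by
        rw [Finset.add_sum_erase S (fun j => (β j).re) hiS, ← hS, Complex.re_sum]
      have h2 : s.re ≤ (β i).re := hmin i hiT
      have h3 : S.erase i = ∅ := by
        by_contra hne
        have h4 : 0 < ∑ j ∈ S.erase i, (β j).re :=
          Finset.sum_pos (fun j _ => hre j) (Finset.nonempty_iff_ne_empty.2 hne)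
        linarith
      have h5 := Finset.card_erase_of_mem hiS
      rw [h3, Finset.card_empty] at h5
      have h6 : 0 < S.card := Finset.card_pos.2 ⟨i, hiS⟩
      omega
    · exfalso
      push Not at hTS
      have h1 : ∀ i ∈ S, ∃ n : ℤ, β i = n := by
        intro i hi
        have h2 := hTS i hi
        rw [hT, Finset.mem_filter] at h2
        push Not at h2
        exact h2 (mem_univ i)
      choose! n hn' using h1
      apply hsn (∑ i ∈ S, n i)
      rw [← hS]
      push_cast
      exact Finset.sum_congr rfl fun i hi => hn' i hi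
  have hweight : ∑ S : Finset (Fin r), (if ∑ i ∈ S, β i = s then (-1 : ℂ) ^ S.card else 0) ≠ 0 := by
    have h1 : ∑ S : Finset (Fin r), (if ∑ i ∈ S, β i = s then (-1 : ℂ) ^ S.card else 0) =
        ∑ S : Finset (Fin r), (if ∑ i ∈ S, β i = s then (-1 : ℂ) else 0) := by
      refine Finset.sum_congr rfl fun S _ => ?_
      split_ifs with hS
      · rw [hcard S hS, pow_one]
      · rfl
    rw [h1, ← Finset.sum_filter, Finset.sum_const, nsmul_eq_mul]
    intro h2
    have h3 : ((univ : Finset (Finset (Fin r))).filter (fun S => ∑ i ∈ S, β i = s)).card = 0 := by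
      have h4 := mul_eq_zero.1 h2
      rcases h4 with h4 | h4
      · exact_mod_cast h4
      · norm_num at h4
    rw [Finset.card_eq_zero, Finset.filter_eq_empty_iff] at h3
    exact h3 (mem_univ {i₀}) (by simp [hs])
  have hQint : ∀ n : ℤ, (Q.map (Int.castRingHom ℂ)).eval (n : ℂ) ≠ 0 := not_int Q hQi s hQs hsn
  by_contra hgoal
  have hU : ∀ i, (Q.map (Int.castRingHom ℂ)).eval (β i) = 0 → (β i).re ≤ U := by
    intro i hi
    by_contra hlt
    exact hgoal ⟨Q, hQm, hQi, hQP, hQd2, ⟨i, not_le.1 hlt, hi⟩, hQint, s, hQs', hweight⟩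
  obtain ⟨G, hGd, hG1, hG2, hG3⟩ := killer2 r P Q hPm β hβ hQm hQi H hH hn
  -- the roots of `Q`
  have hroot : ∀ w : ℂ, (Q.map (Int.castRingHom ℂ)).eval w = 0 → ∃ i ∈ T, w = β i := by
    intro w hw
    have h1 : (P.map (Int.castRingHom ℂ)).eval w = 0 := by
      obtain ⟨R, hR⟩ := hQP
      rw [hR, Polynomial.map_mul, eval_mul, hw, zero_mul]
    rw [hβ, eval_prod, Finset.prod_eq_zero_iff] at h1
    obtain ⟨i, -, hi⟩ := h1
    rw [eval_sub, eval_X, eval_C, sub_eq_zero] at hi
    refine ⟨i, Finset.mem_filter.2 ⟨mem_univ i, fun n hn' => ?_⟩, hi⟩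
    apply not_int Q hQi s hQs hsn n
    rw [← hn', ← hi]
    exact hw
  set O := (Q.map (Int.castRingHom ℂ)).roots.toFinset with hO
  have hQ0 : Q.map (Int.castRingHom ℂ) ≠ 0 := (hQm.map _).ne_zero
  have hmemO : ∀ w : ℂ, (Q.map (Int.castRingHom ℂ)).eval w = 0 → w ∈ O := by
    intro w hw
    rw [hO, Multiset.mem_toFinset, mem_roots hQ0]
    exact hw
  set L : ℂ[X] := ∏ w ∈ O.erase s, (X - C w) with hL
  have hLd : L.natDegree ≤ r := by
    rw [hL, natDegree_prod_of_monic _ _ fun i _ => monic_X_sub_C _]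
    simp only [natDegree_X_sub_C, sum_const, smul_eq_mul, mul_one]
    refine (Finset.card_erase_le).trans ?_
    refine (Multiset.toFinset_card_le _).trans ?_
    refine (card_roots' _).trans ?_
    rw [hQm.natDegree_map, ← hPd]
    exact natDegree_le_of_dvd hQP hPm.ne_zero
  have hLs : L.eval s ≠ 0 := by
    rw [hL, eval_prod, Finset.prod_ne_zero_iff]
    intro w hw
    rw [eval_sub, eval_X, eval_C, sub_ne_zero]
    exact (Finset.ne_of_mem_erase hw).symm
  have hLw : ∀ w : ℂ, (Q.map (Int.castRingHom ℂ)).eval w = 0 → w ≠ s → L.eval w = 0 := by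
    intro w hw hws
    rw [hL, eval_prod]
    exact Finset.prod_eq_zero (Finset.mem_erase.2 ⟨hws, hmemO w hw⟩) (by simp)
  set E := 2 ^ r with hE
  set K := N - r - E with hK
  set φ : ℚ[X] := (Fun.bin K).comp (X + C (a : ℚ)) with hφ
  set f : ℕ → ℚ[X] := fun b => φ * X ^ b * G.map (Int.castRingHom ℚ) with hf
  have hφint : ∀ m : ℤ, ∃ z : ℤ, φ.eval (m : ℚ) = z := by
    intro m
    obtain ⟨z, hz⟩ := bin_int K (m + a)
    refine ⟨z, ?_⟩
    rw [hφ, eval_comp, eval_add, eval_X, eval_C, ← hz]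
    push_cast
    rfl
  have hfint : ∀ (b : ℕ) (m : ℤ), ∃ z : ℤ, (f b).eval (m : ℚ) = z := by
    intro b m
    obtain ⟨z, hz⟩ := hφint m
    refine ⟨z * m ^ b * G.eval m, ?_⟩
    have h2 : (G.map (Int.castRingHom ℚ)).eval (m : ℚ) = ((G.eval m : ℤ) : ℚ) := by
      rw [eval_map]
      simp
    rw [hf]
    simp only [eval_mul, eval_pow, eval_X]
    rw [hz, h2]
    push_cast
    rfl
  have hφd : φ.natDegree ≤ K := by
    rw [hφ]
    refine (natDegree_comp_le).trans ?_
    calc (Fun.bin K).natDegree * (X + C (a : ℚ)).natDegree ≤ K * 1 :=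
          Nat.mul_le_mul (Fun.natDegree_bin K) (by rw [natDegree_X_add_C])
      _ = K := mul_one K
  have hfd : ∀ b ≤ r, (f b).natDegree ≤ N := by
    intro b hb
    rw [hf]
    refine (natDegree_mul_le).trans ?_
    have h1 : (φ * X ^ b).natDegree ≤ K + b := by
      refine (natDegree_mul_le).trans ?_
      rw [natDegree_X_pow]
      omega
    have h2 : (G.map (Int.castRingHom ℚ)).natDegree ≤ E := (natDegree_map_le).trans hGd
    omega
  have haev : ∀ (b : ℕ) (w : ℂ), aeval w (f b) =
      aeval w φ * w ^ b * (G.map (Int.castRingHom ℂ)).eval w := by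
    intro b w
    rw [hf]
    simp only [map_mul, map_pow, aeval_X]
    congr 1
    rw [aeval_def, eval₂_map, eval_map]
    congr 1
  -- the integers
  have hzero : ∀ b ≤ r, ∑ S : Finset (Fin r), (-1) ^ S.card * aeval (∑ i ∈ S, β i) (f b) = 0 := by
    intro b hb
    obtain ⟨z, hz⟩ := functional N r β hint (f b) (hfint b) (hfd b hb)
    have hch : (0 : ℝ) < K.choose a := lt_of_le_of_lt (by positivity) hbig
    set B : ℝ := (2 * N : ℝ) ^ (2 * V + 1) * (H ^ r * ((r + 1) * H + 1) ^ E) with hB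
    have hterm : ∀ S : Finset (Fin r),
        ‖(-1) ^ S.card * aeval (∑ i ∈ S, β i) (f b)‖ ≤ B / K.choose a := by
      intro S
      rw [norm_mul, norm_pow, norm_neg, norm_one, one_pow, one_mul, haev]
      by_cases hS : (Q.map (Int.castRingHom ℂ)).eval (∑ i ∈ S, β i) = 0
      · obtain ⟨i, hiT, hi⟩ := hroot _ hS
        rw [hi]
        have h1 := small K V a U (β i) (hre i) (hU i (by rw [← hi]; exact hS)) (hV i) (by omega)
        rw [← hφ, ← le_div_iff₀ hch] at h1
        have h2 : ‖β i ^ b‖ ≤ H ^ r := by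
          rw [norm_pow]
          calc ‖β i‖ ^ b ≤ H ^ b := pow_le_pow_left₀ (norm_nonneg _) (hn i) b
            _ ≤ _ := pow_le_pow_right₀ hH hb
        have h3 : ‖(G.map (Int.castRingHom ℂ)).eval (β i)‖ ≤ ((r + 1) * H + 1) ^ E := by
          refine (hG3 (β i)).trans ?_
          apply pow_le_pow_left₀ (by positivity)
          have := hn i
          linarith
        have h4 : ((K : ℝ) + V + 1) ^ (2 * V + 1) ≤ (2 * N : ℝ) ^ (2 * V + 1) := by
          apply pow_le_pow_left₀ (by positivity)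
          have h5 : (K : ℝ) ≤ N := by exact_mod_cast (by omega : K ≤ N)
          have h6 : (V : ℝ) + 1 ≤ N := by exact_mod_cast hVN
          linarith
        rw [norm_mul, norm_mul, mul_assoc]
        calc ‖aeval (β i) φ‖ * (‖β i ^ b‖ * ‖(G.map (Int.castRingHom ℂ)).eval (β i)‖)
            ≤ (((K : ℝ) + V + 1) ^ (2 * V + 1) / K.choose a) *
              (H ^ r * ((r + 1) * H + 1) ^ E) := by
              apply mul_le_mul h1 _ (by positivity) (by positivity)
              exact mul_le_mul h2 h3 (norm_nonneg _) (by positivity)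
          _ ≤ ((2 * N : ℝ) ^ (2 * V + 1) / K.choose a) *
              (H ^ r * ((r + 1) * H + 1) ^ E) := by
              apply mul_le_mul_of_nonneg_right _ (by positivity)
              exact div_le_div_of_nonneg_right h4 hch.le
          _ = B / K.choose a := by rw [hB]; ring
      · rw [hG1 S hS, mul_zero, norm_zero]
        positivity
    have hsum : ‖(z : ℂ)‖ < 1 := by
      rw [← hz]
      refine (norm_sum_le _ _).trans_lt ?_
      refine (Finset.sum_le_sum fun S _ => hterm S).trans_lt ?_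
      rw [Finset.sum_const, Finset.card_univ, Fintype.card_finset, Fintype.card_fin,
        nsmul_eq_mul, mul_div_assoc', div_lt_one hch]
      push_cast
      exact hbig
    rw [Complex.norm_intCast] at hsum
    have hz0 : z = 0 := by
      have h1 : |z| < 1 := by exact_mod_cast hsum
      exact Int.abs_lt_one_iff.1 h1
    rw [hz, hz0, Int.cast_zero]
  -- the sum with the polynomial `L`
  have hLsum : ∑ S : Finset (Fin r), (-1) ^ S.card * (aeval (∑ i ∈ S, β i) φ *
      (G.map (Int.castRingHom ℂ)).eval (∑ i ∈ S, β i) * L.eval (∑ i ∈ S, β i)) = 0 := by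
    have h1 : ∀ w : ℂ, L.eval w = ∑ b ∈ range (r + 1), L.coeff b * w ^ b := fun w =>
      eval_eq_sum_range' (by omega) w
    calc ∑ S : Finset (Fin r), (-1) ^ S.card * (aeval (∑ i ∈ S, β i) φ *
          (G.map (Int.castRingHom ℂ)).eval (∑ i ∈ S, β i) * L.eval (∑ i ∈ S, β i))
        = ∑ S : Finset (Fin r), ∑ b ∈ range (r + 1), L.coeff b *
            ((-1) ^ S.card * aeval (∑ i ∈ S, β i) (f b)) := by
          refine Finset.sum_congr rfl fun S _ => ?_
          rw [h1, Finset.mul_sum, Finset.mul_sum]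
          refine Finset.sum_congr rfl fun b _ => ?_
          rw [haev]
          ring
      _ = ∑ b ∈ range (r + 1), L.coeff b * ∑ S : Finset (Fin r),
            ((-1) ^ S.card * aeval (∑ i ∈ S, β i) (f b)) := by
          rw [Finset.sum_comm]
          refine Finset.sum_congr rfl fun b _ => ?_
          rw [Finset.mul_sum]
      _ = 0 := by
          refine Finset.sum_eq_zero fun b hb => ?_
          rw [hzero b (by have := mem_range.1 hb; omega), mul_zero]
  set c : ℂ := aeval s φ * (G.map (Int.castRingHom ℂ)).eval s * L.eval s with hc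
  have hφs : aeval s φ ≠ 0 := by
    have h3 : aeval s φ = (K.factorial : ℂ)⁻¹ * ∏ j ∈ range K, (s + a - j) := by
      rw [hφ, aeval_comp, ← Fun.aeval_bin]
      congr 1
      simp
    rw [h3]
    apply mul_ne_zero
    · exact inv_ne_zero (by exact_mod_cast K.factorial_ne_zero)
    · rw [Finset.prod_ne_zero_iff]
      intro j _ h4
      apply hsn (j - a)
      push_cast
      linear_combination h4
  have hc0 : c ≠ 0 := mul_ne_zero (mul_ne_zero hφs (hG2 s hQs')) hLs
  have hval : ∀ S : Finset (Fin r), (-1) ^ S.card * (aeval (∑ i ∈ S, β i) φ *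
      (G.map (Int.castRingHom ℂ)).eval (∑ i ∈ S, β i) * L.eval (∑ i ∈ S, β i)) =
      if ∑ i ∈ S, β i = s then -c else 0 := by
    intro S
    split_ifs with hS
    · rw [hcard S hS, hS, hc, pow_one]
      ring
    · by_cases h1 : (Q.map (Int.castRingHom ℂ)).eval (∑ i ∈ S, β i) = 0
      · rw [hLw _ h1 hS, mul_zero, mul_zero]
      · rw [hG1 S h1, mul_zero, zero_mul, mul_zero]
  rw [Finset.sum_congr rfl fun S _ => hval S, ← Finset.sum_filter, Finset.sum_const,
    nsmul_eq_mul, mul_eq_zero] at hLsum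
  rcases hLsum with h1 | h1
  · have h2 : ((univ : Finset (Finset (Fin r))).filter (fun S => ∑ i ∈ S, β i = s)).card = 0 := by
      exact_mod_cast h1
    rw [Finset.card_eq_zero, Finset.filter_eq_empty_iff] at h2
    exact h2 (mem_univ {i₀}) (by simp [hs])
  · exact hc0 (neg_eq_zero.1 h1)

end Cut

end Pool.Agent.J4.H53.CI
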