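import Pool.Agent.J4.H53.CI.CutA

set_option autoImplicit false

/-! # Varieties cut out by hypersurfaces of small degree: all Chern roots are integers -/

open Polynomial Finset

namespace Pool.Agent.J4.H53.CI

namespace Cut

lemma small (K V a U : ℕ) (s : ℂ) (h0 : 0 < s.re) (hU : s.re ≤ U) (hV : |s.im| ≤ V)
    (hK : U + 2 * a + 1 ≤ K) :
    ‖aeval s ((Fun.bin K).comp (X + C (a : ℚ)))‖ * (K.choose a : ℝ) ≤
      ((K : ℝ) + V + 1) ^ (2 * V + 1) := by
  set s' : ℂ := s + a with hs'
  have hre : s'.re = s.re + a := by simp [hs']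
  have him : s'.im = s.im := by simp [hs']
  have ha0 : (0 : ℝ) ≤ a := Nat.cast_nonneg _
  set x := ⌊s'.re⌋₊ with hx
  have hx1 : (x : ℝ) ≤ s'.re := Nat.floor_le (by rw [hre]; linarith)
  have hx2 : s'.re < x + 1 := Nat.lt_floor_add_one _
  have hxa : a ≤ x := Nat.le_floor (by rw [hre]; linarith)
  have hxU : x ≤ U + a := by
    have h : (x : ℝ) ≤ ((U + a : ℕ) : ℝ) := by
      push_cast
      linarith
    exact_mod_cast h
  have h1 := tiny' K V x s' hx1 hx2.le (by rw [him]; exact hV) (by omega)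
  have h2 : (K.choose a : ℝ) ≤ K.choose x := by
    exact_mod_cast choose_le K a x hxa (by omega)
  have h3 : aeval s ((Fun.bin K).comp (X + C (a : ℚ))) =
      (K.factorial : ℂ)⁻¹ * ∏ j ∈ range K, (s' - j) := by
    rw [aeval_comp, ← Fun.aeval_bin]
    congr 1
    simp [hs']
  have hK0 : (0 : ℝ) < K.factorial := by exact_mod_cast K.factorial_pos
  rw [h3, norm_mul, norm_inv, Complex.norm_natCast]
  calc (K.factorial : ℝ)⁻¹ * ‖∏ j ∈ range K, (s' - j)‖ * (K.choose a : ℝ)
      ≤ (K.factorial : ℝ)⁻¹ * ‖∏ j ∈ range K, (s' - j)‖ * (K.choose x : ℝ) :=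
        mul_le_mul_of_nonneg_left h2 (by positivity)
    _ = (K.factorial : ℝ)⁻¹ * (‖∏ j ∈ range K, (s' - j)‖ * (K.choose x : ℝ)) := by ring
    _ ≤ (K.factorial : ℝ)⁻¹ * (K.factorial * ((K : ℝ) + V + 1) ^ (2 * V + 1)) :=
        mul_le_mul_of_nonneg_left h1 (by positivity)
    _ = _ := by field_simp

/-- a root of an irreducible polynomial with a non-integral root is not an integer -/
lemma not_int (Q : ℤ[X]) (hQ : Irreducible Q) (s : ℂ) (hs : aeval s Q = 0)
    (hsn : ∀ n : ℤ, s ≠ n) (n : ℤ) : (Q.map (Int.castRingHom ℂ)).eval (n : ℂ) ≠ 0 := by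
  intro h
  have h1 : Q.eval n = 0 := by
    have h2 : (Q.map (Int.castRingHom ℂ)).eval (n : ℂ) = ((Q.eval n : ℤ) : ℂ) := by
      rw [eval_map]
      simp
    rw [h2] at h
    exact_mod_cast h
  obtain ⟨R, hR⟩ := dvd_iff_isRoot.2 (show IsRoot Q n from h1)
  rcases hQ.isUnit_or_isUnit hR with h2 | h2
  · exact not_isUnit_X_sub_C n h2
  · have h3 : aeval s R ≠ 0 := (h2.map (aeval s)).ne_zero
    rw [hR, map_mul, mul_eq_zero] at hs
    rcases hs with h4 | h4
    · rw [map_sub, aeval_X, aeval_C, sub_eq_zero] at h4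
      exact hsn n (by simpa using h4)
    · exact h3 h4

theorem all_integral (r N U V a : ℕ) (P : ℤ[X]) (β : Fin r → ℂ)
    (hβ : P.map (Int.castRingHom ℂ) = ∏ i, (X - C (β i)))
    (hint : ∀ t : ℤ, ∃ z : ℤ, ∑ S : Finset (Fin r), (-1) ^ S.card *
      ((∏ j ∈ range N, ((t : ℂ) - ∑ i ∈ S, β i + j + 1)) / N.factorial) = z)
    (hre : ∀ i, 0 < (β i).re) (hU : ∀ i, (β i).re ≤ U) (hV : ∀ i, |(β i).im| ≤ V)
    (hn : ∀ i, ‖β i‖ ≤ 2 * N) (hN1 : 1 ≤ N)
    (hsize : U + 2 * a + 1 + r + 2 ^ r ≤ N) (hVN : V + 1 ≤ N)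
    (hbig : (2 : ℝ) ^ r * ((2 * N : ℝ) ^ (2 * V + 1) * ((2 * N : ℝ) ^ r *
      ((2 * r + 3) * N : ℝ) ^ (2 ^ r))) <
      ((N - r - 2 ^ r).choose a : ℝ)) :
    ∀ i, ∃ n : ℤ, β i = n := by
  classical
  by_contra hcon
  push Not at hcon
  obtain ⟨i₁, hi₁⟩ := hcon
  set T : Finset (Fin r) := univ.filter (fun i => ∀ n : ℤ, β i ≠ n) with hT
  have hTne : T.Nonempty := ⟨i₁, by simp [hT, hi₁]⟩
  obtain ⟨i₀, hi₀, hmin⟩ := T.exists_min_image (fun i => (β i).re) hTne
  have hNr1 : (1 : ℝ) ≤ N := by exact_mod_cast hN1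
  set s := β i₀ with hs
  have hsn : ∀ n : ℤ, s ≠ n := (Finset.mem_filter.1 hi₀).2
  have hPm : P.Monic := monic_of_injective (RingHom.injective_int (Int.castRingHom ℂ)) (by
    rw [hβ]
    exact monic_prod_of_monic _ _ fun i _ => monic_X_sub_C _)
  have hPd : P.natDegree = r := by
    have h1 := hPm.natDegree_map (Int.castRingHom ℂ)
    rw [hβ, natDegree_prod_of_monic _ _ fun i _ => monic_X_sub_C _] at h1
    simp at h1
    exact h1.symm
  have hPs : aeval s P = 0 := by
    rw [aeval_def, ← eval_map]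
    change eval s (P.map (Int.castRingHom ℂ)) = 0
    rw [hβ, eval_prod]
    exact Finset.prod_eq_zero (mem_univ i₀) (by simp [hs])
  have hsint : IsIntegral ℤ s := ⟨P, hPm, hPs⟩
  set Q := minpoly ℤ s with hQ
  have hQm : Q.Monic := minpoly.monic hsint
  have hQi : Irreducible Q := minpoly.irreducible hsint
  have hQP : Q ∣ P := minpoly.isIntegrallyClosed_dvd hsint hPs
  have hQs : aeval s Q = 0 := minpoly.aeval ℤ s
  have hQs' : (Q.map (Int.castRingHom ℂ)).eval s = 0 := by
    rw [eval_map]; exact hQs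
  obtain ⟨G, hGd, hG1, hG2, hG3⟩ := killer2 r P Q hPm β hβ hQm hQi (2 * N) (by linarith) hn
  -- the roots of `Q`
  have hroot : ∀ w : ℂ, (Q.map (Int.castRingHom ℂ)).eval w = 0 → ∃ i ∈ T, w = β i := by
    intro w hw
    have h1 : (P.map (Int.castRingHom ℂ)).eval w = 0 := by
      obtain ⟨R, hR⟩ := hQP
      rw [hR, Polynomial.map_mul, eval_mul, hw, zero_mul]
    rw [hβ, eval_prod, Finset.prod_eq_zero_iff] at h1
    obtain ⟨i, -, hi⟩ := h1
    rw [eval_sub, eval_X, eval_C, sub_eq_zero] at hi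
    refine ⟨i, Finset.mem_filter.2 ⟨mem_univ i, fun n hn' => ?_⟩, hi⟩
    apply not_int Q hQi s hQs hsn n
    rw [← hn', ← hi]
    exact hw
  set O := (Q.map (Int.castRingHom ℂ)).roots.toFinset with hO
  have hQ0 : Q.map (Int.castRingHom ℂ) ≠ 0 := (hQm.map _).ne_zero
  have hmemO : ∀ w : ℂ, (Q.map (Int.castRingHom ℂ)).eval w = 0 → w ∈ O := by
    intro w hw
    rw [hO, Multiset.mem_toFinset, mem_roots hQ0]
    exact hw
  set L : ℂ[X] := ∏ w ∈ O.erase s, (X - C w) with hL
  have hLd : L.natDegree ≤ r := by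
    rw [hL, natDegree_prod_of_monic _ _ fun i _ => monic_X_sub_C _]
    simp only [natDegree_X_sub_C, sum_const, smul_eq_mul, mul_one]
    refine (Finset.card_erase_le).trans ?_
    refine (Multiset.toFinset_card_le _).trans ?_
    refine (card_roots' _).trans ?_
    rw [hQm.natDegree_map, ← hPd]
    exact natDegree_le_of_dvd hQP hPm.ne_zero
  have hLs : L.eval s ≠ 0 := by
    rw [hL, eval_prod, Finset.prod_ne_zero_iff]
    intro w hw
    rw [eval_sub, eval_X, eval_C, sub_ne_zero]
    exact (Finset.ne_of_mem_erase hw).symm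
  have hLw : ∀ w : ℂ, (Q.map (Int.castRingHom ℂ)).eval w = 0 → w ≠ s → L.eval w = 0 := by
    intro w hw hws
    rw [hL, eval_prod]
    exact Finset.prod_eq_zero (Finset.mem_erase.2 ⟨hws, hmemO w hw⟩) (by simp)
  set E := 2 ^ r with hE
  set K := N - r - E with hK
  set φ : ℚ[X] := (Fun.bin K).comp (X + C (a : ℚ)) with hφ
  set f : ℕ → ℚ[X] := fun b => φ * X ^ b * G.map (Int.castRingHom ℚ) with hf
  have hφint : ∀ m : ℤ, ∃ z : ℤ, φ.eval (m : ℚ) = z := by
    intro m
    obtain ⟨z, hz⟩ := bin_int K (m + a)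
    refine ⟨z, ?_⟩
    rw [hφ, eval_comp, eval_add, eval_X, eval_C, ← hz]
    push_cast
    rfl
  have hfint : ∀ (b : ℕ) (m : ℤ), ∃ z : ℤ, (f b).eval (m : ℚ) = z := by
    intro b m
    obtain ⟨z, hz⟩ := hφint m
    refine ⟨z * m ^ b * G.eval m, ?_⟩
    have h2 : (G.map (Int.castRingHom ℚ)).eval (m : ℚ) = ((G.eval m : ℤ) : ℚ) := by
      rw [eval_map]
      simp
    rw [hf]
    simp only [eval_mul, eval_pow, eval_X]
    rw [hz, h2]
    push_cast
    rfl
  have hφd : φ.natDegree ≤ K := by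
    rw [hφ]
    refine (natDegree_comp_le).trans ?_
    calc (Fun.bin K).natDegree * (X + C (a : ℚ)).natDegree ≤ K * 1 :=
          Nat.mul_le_mul (Fun.natDegree_bin K) (by rw [natDegree_X_add_C])
      _ = K := mul_one K
  have hfd : ∀ b ≤ r, (f b).natDegree ≤ N := by
    intro b hb
    rw [hf]
    refine (natDegree_mul_le).trans ?_
    have h1 : (φ * X ^ b).natDegree ≤ K + b := by
      refine (natDegree_mul_le).trans ?_
      rw [natDegree_X_pow]
      omega
    have h2 : (G.map (Int.castRingHom ℚ)).natDegree ≤ E := (natDegree_map_le).trans hGd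
    omega
  have haev : ∀ (b : ℕ) (w : ℂ), aeval w (f b) =
      aeval w φ * w ^ b * (G.map (Int.castRingHom ℂ)).eval w := by
    intro b w
    rw [hf]
    simp only [map_mul, map_pow, aeval_X]
    congr 1
    rw [aeval_def, eval₂_map, eval_map]
    congr 1
  -- the integers
  have hzero : ∀ b ≤ r, ∑ S : Finset (Fin r), (-1) ^ S.card * aeval (∑ i ∈ S, β i) (f b) = 0 := by
    intro b hb
    obtain ⟨z, hz⟩ := functional N r β hint (f b) (hfint b) (hfd b hb)
    have hch : (0 : ℝ) < K.choose a := lt_of_le_of_lt (by positivity) hbig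
    set B : ℝ := (2 * N : ℝ) ^ (2 * V + 1) * ((2 * N : ℝ) ^ r * ((2 * r + 3) * N : ℝ) ^ E) with hB
    have hterm : ∀ S : Finset (Fin r),
        ‖(-1) ^ S.card * aeval (∑ i ∈ S, β i) (f b)‖ ≤ B / K.choose a := by
      intro S
      rw [norm_mul, norm_pow, norm_neg, norm_one, one_pow, one_mul, haev]
      by_cases hS : (Q.map (Int.castRingHom ℂ)).eval (∑ i ∈ S, β i) = 0
      · obtain ⟨i, hiT, hi⟩ := hroot _ hS
        rw [hi]
        have h1 := small K V a U (β i) (hre i) (hU i) (hV i) (by omega)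
        rw [← hφ, ← le_div_iff₀ hch] at h1
        have h2 : ‖β i ^ b‖ ≤ (2 * N : ℝ) ^ r := by
          rw [norm_pow]
          calc ‖β i‖ ^ b ≤ (2 * N : ℝ) ^ b := pow_le_pow_left₀ (norm_nonneg _) (hn i) b
            _ ≤ _ := pow_le_pow_right₀ (by linarith) hb
        have h3 : ‖(G.map (Int.castRingHom ℂ)).eval (β i)‖ ≤ ((2 * r + 3) * N : ℝ) ^ E := by
          refine (hG3 (β i)).trans ?_
          apply pow_le_pow_left₀ (by positivity)
          have := hn i
          nlinarith
        have h4 : ((K : ℝ) + V + 1) ^ (2 * V + 1) ≤ (2 * N : ℝ) ^ (2 * V + 1) := by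
          apply pow_le_pow_left₀ (by positivity)
          have h5 : (K : ℝ) ≤ N := by exact_mod_cast (by omega : K ≤ N)
          have h6 : (V : ℝ) + 1 ≤ N := by exact_mod_cast hVN
          linarith
        rw [norm_mul, norm_mul, mul_assoc]
        calc ‖aeval (β i) φ‖ * (‖β i ^ b‖ * ‖(G.map (Int.castRingHom ℂ)).eval (β i)‖)
            ≤ (((K : ℝ) + V + 1) ^ (2 * V + 1) / K.choose a) *
              ((2 * N : ℝ) ^ r * ((2 * r + 3) * N : ℝ) ^ E) := by
              apply mul_le_mul h1 _ (by positivity) (by positivity)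
              exact mul_le_mul h2 h3 (norm_nonneg _) (by positivity)
          _ ≤ ((2 * N : ℝ) ^ (2 * V + 1) / K.choose a) *
              ((2 * N : ℝ) ^ r * ((2 * r + 3) * N : ℝ) ^ E) := by
              apply mul_le_mul_of_nonneg_right _ (by positivity)
              exact div_le_div_of_nonneg_right h4 hch.le
          _ = B / K.choose a := by rw [hB]; ring
      · rw [hG1 S hS, mul_zero, norm_zero]
        positivity
    have hsum : ‖(z : ℂ)‖ < 1 := by
      rw [← hz]
      refine (norm_sum_le _ _).trans_lt ?_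
      refine (Finset.sum_le_sum fun S _ => hterm S).trans_lt ?_
      rw [Finset.sum_const, Finset.card_univ, Fintype.card_finset, Fintype.card_fin,
        nsmul_eq_mul, mul_div_assoc', div_lt_one hch]
      push_cast
      exact hbig
    rw [Complex.norm_intCast] at hsum
    have hz0 : z = 0 := by
      have h1 : |z| < 1 := by exact_mod_cast hsum
      exact Int.abs_lt_one_iff.1 h1
    rw [hz, hz0, Int.cast_zero]
  -- the sum with the polynomial `L`
  have hLsum : ∑ S : Finset (Fin r), (-1) ^ S.card * (aeval (∑ i ∈ S, β i) φ *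
      (G.map (Int.castRingHom ℂ)).eval (∑ i ∈ S, β i) * L.eval (∑ i ∈ S, β i)) = 0 := by
    have h1 : ∀ w : ℂ, L.eval w = ∑ b ∈ range (r + 1), L.coeff b * w ^ b := fun w =>
      eval_eq_sum_range' (by omega) w
    calc ∑ S : Finset (Fin r), (-1) ^ S.card * (aeval (∑ i ∈ S, β i) φ *
          (G.map (Int.castRingHom ℂ)).eval (∑ i ∈ S, β i) * L.eval (∑ i ∈ S, β i))
        = ∑ S : Finset (Fin r), ∑ b ∈ range (r + 1), L.coeff b *
            ((-1) ^ S.card * aeval (∑ i ∈ S, β i) (f b)) := by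
          refine Finset.sum_congr rfl fun S _ => ?_
          rw [h1, Finset.mul_sum, Finset.mul_sum]
          refine Finset.sum_congr rfl fun b _ => ?_
          rw [haev]
          ring
      _ = ∑ b ∈ range (r + 1), L.coeff b * ∑ S : Finset (Fin r),
            ((-1) ^ S.card * aeval (∑ i ∈ S, β i) (f b)) := by
          rw [Finset.sum_comm]
          refine Finset.sum_congr rfl fun b _ => ?_
          rw [Finset.mul_sum]
      _ = 0 := by
          refine Finset.sum_eq_zero fun b hb => ?_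
          rw [hzero b (by have := mem_range.1 hb; omega), mul_zero]
  -- only the subsets with the sum `s` count
  have hs0 : s ≠ 0 := fun h => hsn 0 (by simpa using h)
  have hcard : ∀ S : Finset (Fin r), ∑ i ∈ S, β i = s → S.card = 1 := by
    intro S hS
    by_cases hTS : ∃ i ∈ S, i ∈ T
    · obtain ⟨i, hiS, hiT⟩ := hTS
      have h1 : (β i).re + ∑ j ∈ S.erase i, (β j).re = s.re := by
        rw [Finset.add_sum_erase S (fun j => (β j).re) hiS, ← hS, Complex.re_sum]
      have h2 : s.re ≤ (β i).re := hmin i hiT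
      have h3 : S.erase i = ∅ := by
        by_contra hne
        have h4 : 0 < ∑ j ∈ S.erase i, (β j).re :=
          Finset.sum_pos (fun j _ => hre j) (Finset.nonempty_iff_ne_empty.2 hne)
        linarith
      have h5 := Finset.card_erase_of_mem hiS
      rw [h3, Finset.card_empty] at h5
      have h6 : 0 < S.card := Finset.card_pos.2 ⟨i, hiS⟩
      omega
    · exfalso
      push Not at hTS
      have h1 : ∀ i ∈ S, ∃ n : ℤ, β i = n := by
        intro i hi
        have h2 := hTS i hi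
        rw [hT, Finset.mem_filter] at h2
        push Not at h2
        exact h2 (mem_univ i)
      choose! n hn' using h1
      apply hsn (∑ i ∈ S, n i)
      rw [← hS]
      push_cast
      exact Finset.sum_congr rfl fun i hi => hn' i hi
  set c : ℂ := aeval s φ * (G.map (Int.castRingHom ℂ)).eval s * L.eval s with hc
  have hφs : aeval s φ ≠ 0 := by
    have h3 : aeval s φ = (K.factorial : ℂ)⁻¹ * ∏ j ∈ range K, (s + a - j) := by
      rw [hφ, aeval_comp, ← Fun.aeval_bin]
      congr 1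
      simp
    rw [h3]
    apply mul_ne_zero
    · exact inv_ne_zero (by exact_mod_cast K.factorial_ne_zero)
    · rw [Finset.prod_ne_zero_iff]
      intro j _ h4
      apply hsn (j - a)
      push_cast
      linear_combination h4
  have hc0 : c ≠ 0 := mul_ne_zero (mul_ne_zero hφs (hG2 s hQs')) hLs
  have hval : ∀ S : Finset (Fin r), (-1) ^ S.card * (aeval (∑ i ∈ S, β i) φ *
      (G.map (Int.castRingHom ℂ)).eval (∑ i ∈ S, β i) * L.eval (∑ i ∈ S, β i)) =
      if ∑ i ∈ S, β i = s then -c else 0 := by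
    intro S
    split_ifs with hS
    · rw [hcard S hS, hS, hc, pow_one]
      ring
    · by_cases h1 : (Q.map (Int.castRingHom ℂ)).eval (∑ i ∈ S, β i) = 0
      · rw [hLw _ h1 hS, mul_zero, mul_zero]
      · rw [hG1 S h1, mul_zero, zero_mul, mul_zero]
  rw [Finset.sum_congr rfl fun S _ => hval S, ← Finset.sum_filter, Finset.sum_const,
    nsmul_eq_mul, mul_eq_zero] at hLsum
  rcases hLsum with h1 | h1
  · have h2 : ((univ : Finset (Finset (Fin r))).filter (fun S => ∑ i ∈ S, β i = s)).card = 0 := by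
      exact_mod_cast h1
    rw [Finset.card_eq_zero, Finset.filter_eq_empty_iff] at h2
    exact h2 (mem_univ {i₀}) (by simp [hs])
  · exact hc0 (neg_eq_zero.1 h1)

end Cut

end Pool.Agent.J4.H53.CI
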