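import Pool.Agent.J4.H53.CI.CutB
import Pool.Agent.J4.H53.CI.CutC

set_option autoImplicit false

/-! # Varieties cut out by hypersurfaces of small degree: the theorem -/

open Polynomial Finset

namespace Pool.Agent.J4.H53.CI

namespace Cut

/-- the Chern classes and the Chern roots -/
lemma sum_chern (r : ℕ) (P : ℤ[X]) (hP : P.natDegree = r) (b : ℂ) (hb0 : b ≠ 0)
    (hb : (P.map (Int.castRingHom ℂ)).eval b = 0) :
    ∑ j ∈ range (r + 1), ((((if j ≤ r then (-1) ^ j * P.coeff (r - j) else 0 : ℤ) : ℝ) : ℂ)) *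
      (-b⁻¹) ^ j = 0 := by
  have h1 : (P.map (Int.castRingHom ℂ)).eval b = ∑ j ∈ range (r + 1), (P.coeff j : ℂ) * b ^ j := by
    rw [eval_eq_sum_range' (n := r + 1)]
    · simp
    · have := natDegree_map_le (f := Int.castRingHom ℂ) (p := P)
      omega
  have h2 : b ^ r * ∑ j ∈ range (r + 1),
      ((((if j ≤ r then (-1) ^ j * P.coeff (r - j) else 0 : ℤ) : ℝ) : ℂ)) * (-b⁻¹) ^ j = 0 := by
    rw [← hb, h1, ← Finset.sum_range_reflect (fun j => (P.coeff j : ℂ) * b ^ j), Finset.mul_sum]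
    refine Finset.sum_congr rfl fun j hj => ?_
    have hj' : j ≤ r := by have := mem_range.1 hj; omega
    rw [if_pos hj', show r + 1 - 1 - j = r - j by omega]
    push_cast
    have h3 : b ^ r = b ^ (r - j) * b ^ j := by rw [← pow_add]; congr 1; omega
    have h4 : b ^ j * (b⁻¹) ^ j = 1 := by rw [← mul_pow, mul_inv_cancel₀ hb0, one_pow]
    have h5 : ((-1 : ℂ)) ^ j * (-1) ^ j = 1 := by rw [← mul_pow]; norm_num
    rw [h3, show -b⁻¹ = (-1) * b⁻¹ by ring, mul_pow]
    calc b ^ (r - j) * b ^ j * ((-1) ^ j * (P.coeff (r - j) : ℂ) * ((-1) ^ j * b⁻¹ ^ j))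
        = (P.coeff (r - j) : ℂ) * b ^ (r - j) * (b ^ j * b⁻¹ ^ j) * ((-1) ^ j * (-1) ^ j) := by ring
      _ = _ := by rw [h4, h5, mul_one, mul_one]
  exact (mul_eq_zero.1 h2).resolve_left (pow_ne_zero _ hb0)

/-- the determinants of the Chern classes -/
lemma det_of_partition (r N : ℕ) (c : ℕ → ℤ)
    (h : ∀ (l : ℕ) (lam : Fin l → ℕ), Monotone lam → (∀ i, lam i ≤ r) → ∑ i, lam i + r ≤ N →
      0 < Matrix.det (fun i j : Fin l => if (j : ℕ) ≤ lam i + i then c (lam i + i - j) else 0)) :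
    ∀ l, l * r + r ≤ N → ∀ R : Fin l → ℕ, StrictMono R → (∀ i, R i ≤ r + i) →
      0 < Matrix.det (fun i j : Fin l => if (j : ℕ) ≤ R i then ((c (R i - j) : ℤ) : ℝ) else 0) := by
  intro l hl R hR hRi
  have hRge : ∀ i : Fin l, (i : ℕ) ≤ R i := by
    intro i
    obtain ⟨n, hn⟩ := i
    induction n with
    | zero => exact Nat.zero_le _
    | succ n ih =>
      have h1 := ih (by omega)
      have h2 : R ⟨n, by omega⟩ < R ⟨n + 1, hn⟩ := hR (by simp [Fin.lt_def])
      simp only at h1 ⊢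
      omega
  have hmono : Monotone fun i : Fin l => R i - i := by
    intro i j hij
    obtain ⟨m, hm⟩ := j
    induction m with
    | zero =>
      have : i = ⟨0, hm⟩ := by
        apply Fin.ext
        have := Fin.le_def.1 hij
        simp only at this ⊢
        omega
      rw [this]
    | succ m ih =>
      rcases Nat.lt_or_ge m i with h1 | h1
      · have : i = ⟨m + 1, hm⟩ := by
          apply Fin.ext
          have := Fin.le_def.1 hij
          simp only at this ⊢
          omega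
        rw [this]
      · have h2 := ih (by omega) (Fin.le_def.2 h1)
        have h3 : R ⟨m, by omega⟩ < R ⟨m + 1, hm⟩ := hR (by simp [Fin.lt_def])
        simp only at h2 ⊢
        omega
  have h1 := h l (fun i => R i - i) hmono (fun i => by have := hRi i; omega) (by
    have h2 : ∑ i : Fin l, (R i - i) ≤ l * r := by
      calc ∑ i : Fin l, (R i - i) ≤ ∑ _i : Fin l, r :=
            Finset.sum_le_sum fun i _ => by have := hRi i; omega
        _ = l * r := by simp
    omega)
  have h2 : (fun i j : Fin l => if (j : ℕ) ≤ R i - i + i then c (R i - i + i - j) else 0) =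
      (fun i j : Fin l => if (j : ℕ) ≤ R i then c (R i - j) else 0) := by
    funext i j
    rw [Nat.sub_add_cancel (hRge i)]
  have h3 : (0 : ℤ) < Matrix.det (fun i j : Fin l => if (j : ℕ) ≤ R i then c (R i - j) else 0) := by
    rw [← h2]
    exact h1
  have h4 : ((Matrix.det (fun i j : Fin l => if (j : ℕ) ≤ R i then c (R i - j) else 0) : ℤ) : ℝ) =
      Matrix.det (fun i j : Fin l => if (j : ℕ) ≤ R i then ((c (R i - j) : ℤ) : ℝ) else 0) := by
    refine (Int.cast_det (R := ℝ)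
      (Matrix.of fun i j : Fin l => if (j : ℕ) ≤ R i then c (R i - j) else 0)).trans ?_
    congr 1
    ext i j
    simp only [Matrix.map_apply, Matrix.of_apply]
    split_ifs <;> simp
  rw [← h4]
  exact_mod_cast h3

lemma p1 (r : ℕ) : 8 * r ^ 2 ≤ 9 * 2 ^ r := by
  rcases Nat.lt_or_ge r 3 with h | h
  · interval_cases r <;> norm_num
  · induction r, h using Nat.le_induction with
    | base => norm_num
    | succ n hn ih =>
      rw [pow_succ 2 n]
      nlinarith

lemma p2 (r : ℕ) : r + 1 ≤ 2 ^ r := Nat.lt_two_pow_self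

lemma p3 (r : ℕ) : (2 * r + 3) * 4 ^ r ≤ 5 * 5 ^ r := by
  rcases Nat.lt_or_ge r 3 with h | h
  · interval_cases r <;> norm_num
  · induction r, h using Nat.le_induction with
    | base => norm_num
    | succ n hn ih =>
      rw [pow_succ 4 n, pow_succ 5 n]
      have h1 : (2 * (n + 1) + 3) * 4 ≤ 5 * (2 * n + 3) := by omega
      calc (2 * (n + 1) + 3) * (4 ^ n * 4) = ((2 * (n + 1) + 3) * 4) * 4 ^ n := by ring
        _ ≤ (5 * (2 * n + 3)) * 4 ^ n := Nat.mul_le_mul_right _ h1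
        _ = 5 * ((2 * n + 3) * 4 ^ n) := by ring
        _ ≤ 5 * (5 * 5 ^ n) := Nat.mul_le_mul_left _ ih
        _ = _ := by ring

lemma p4 (r : ℕ) : r ^ 3 ≤ 5 ^ r := by
  rcases Nat.lt_or_ge r 3 with h | h
  · interval_cases r <;> norm_num
  · induction r, h using Nat.le_induction with
    | base => norm_num
    | succ n hn ih =>
      rw [pow_succ 5 n]
      have h1 : (n + 1) ^ 3 ≤ 5 * n ^ 3 := by
        nlinarith [Nat.mul_le_mul hn hn, Nat.mul_le_mul (Nat.mul_le_mul hn hn) hn]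
      omega

lemma p5 (r : ℕ) : 2 ^ r ≤ 5 ^ r := Nat.pow_le_pow_left (by norm_num) r

/-- the exponent -/
def expo (r : ℕ) : ℕ := 26 * r ^ 2 + 1 + r + 2 ^ r

lemma expo_le (r : ℕ) : expo r ≤ 33 * 2 ^ r := by
  have h1 := p1 r
  have h2 := p2 r
  unfold expo
  omega

/-- the constant -/
lemma big (r N : ℕ) (hN : 10 ^ 6 * 5 ^ r ≤ N) :
    (2 : ℝ) ^ r * ((2 * N : ℝ) ^ (2 * (13 * r ^ 2) + 1) * ((2 * N : ℝ) ^ r *
      ((2 * r + 3) * N : ℝ) ^ (2 ^ r))) <
      ((N - r - 2 ^ r).choose (2 * expo r) : ℝ) := by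
  have h1 := expo_le r
  have h2 := p2 r
  have h3 := p3 r
  have h5 := p5 r
  set m := expo r with hm
  have hm1 : 1 ≤ m := by rw [hm, expo]; omega
  have hm1' : (1 : ℝ) ≤ m := by exact_mod_cast hm1
  have hN0 : (0 : ℝ) < N := by
    have : 0 < N := by
      have h : 0 < 5 ^ r := by positivity
      norm_num at hN
      omega
    exact_mod_cast this
  have hm2 : 64 * (2 * r + 3) * m ^ 2 < N := by
    have h6 : m ^ 2 ≤ 1089 * 4 ^ r := by
      calc m ^ 2 ≤ (33 * 2 ^ r) ^ 2 := Nat.pow_le_pow_left h1 2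
        _ = 1089 * (2 ^ r) ^ 2 := by ring
        _ = 1089 * 4 ^ r := by rw [← pow_mul, mul_comm r 2, pow_mul]; norm_num
    calc 64 * (2 * r + 3) * m ^ 2 ≤ 64 * (2 * r + 3) * (1089 * 4 ^ r) := Nat.mul_le_mul_left _ h6
      _ = 69696 * ((2 * r + 3) * 4 ^ r) := by ring
      _ ≤ 69696 * (5 * 5 ^ r) := Nat.mul_le_mul_left _ h3
      _ < 10 ^ 6 * 5 ^ r := by
        have : 0 < 5 ^ r := by positivity
        norm_num
        omega
      _ ≤ N := hN
  have hm2' : 64 * (2 * (r : ℝ) + 3) * m ^ 2 < N := by exact_mod_cast hm2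
  have hf : (0 : ℝ) < (2 * m).factorial := by exact_mod_cast (2 * m).factorial_pos
  have h6 := Nat.pow_le_choose (α := ℝ) (2 * m) (N - r - 2 ^ r)
  have h7 : (N : ℝ) / 2 ≤ ((N - r - 2 ^ r + 1 - 2 * m : ℕ) : ℝ) := by
    rw [div_le_iff₀ (by norm_num)]
    have : N ≤ (N - r - 2 ^ r + 1 - 2 * m) * 2 := by omega
    exact_mod_cast this
  have h8 : (((N : ℝ) / (4 * m)) ^ 2) ^ m ≤ ((N - r - 2 ^ r).choose (2 * m) : ℝ) := by
    refine le_trans ?_ h6
    rw [le_div_iff₀ hf]
    have h9 : ((2 * m).factorial : ℝ) ≤ (2 * m : ℝ) ^ (2 * m) := by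
      exact_mod_cast Nat.factorial_le_pow (2 * m)
    calc (((N : ℝ) / (4 * m)) ^ 2) ^ m * (2 * m).factorial
        ≤ (((N : ℝ) / (4 * m)) ^ 2) ^ m * (2 * m : ℝ) ^ (2 * m) :=
          mul_le_mul_of_nonneg_left h9 (by positivity)
      _ = ((N : ℝ) / 2) ^ (2 * m) := by
          rw [← pow_mul, ← mul_pow]
          congr 1
          field_simp
          norm_num
      _ ≤ _ := pow_le_pow_left₀ (by positivity) h7 _
  refine lt_of_lt_of_le ?_ h8
  have h10 : (2 : ℝ) ^ r * ((2 * N : ℝ) ^ (2 * (13 * r ^ 2) + 1) * ((2 * N : ℝ) ^ r *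
      ((2 * r + 3) * N : ℝ) ^ (2 ^ r))) ≤ (4 * (2 * r + 3) * N : ℝ) ^ m := by
    have hb : (1 : ℝ) ≤ 2 * r + 3 := by
      have : (0 : ℝ) ≤ r := Nat.cast_nonneg _
      linarith
    have e1 : (2 : ℝ) ^ r * ((2 * N : ℝ) ^ (2 * (13 * r ^ 2) + 1) * ((2 * N : ℝ) ^ r *
        ((2 * r + 3) * N : ℝ) ^ (2 ^ r))) =
        2 ^ (2 * (13 * r ^ 2) + 1 + r + r) * (2 * r + 3 : ℝ) ^ (2 ^ r) * (N : ℝ) ^ m := by
      rw [hm, expo, show 26 * r ^ 2 + 1 + r + 2 ^ r = (2 * (13 * r ^ 2) + 1) + r + 2 ^ r by ring,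
        mul_pow (2 * (r : ℝ) + 3), mul_pow 2 (N : ℝ), mul_pow 2 (N : ℝ), pow_add (N : ℝ),
        pow_add (N : ℝ), pow_add (2 : ℝ) _ r, pow_add (2 : ℝ) _ r]
      ring
    rw [e1, mul_pow, mul_pow]
    apply mul_le_mul_of_nonneg_right _ (by positivity)
    apply mul_le_mul _ _ (by positivity) (by positivity)
    · rw [show (4 : ℝ) = 2 ^ 2 by norm_num, ← pow_mul]
      apply pow_le_pow_right₀ (by norm_num)
      rw [hm, expo]
      have := p2 r
      nlinarith
    · apply pow_le_pow_right₀ hb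
      rw [hm, expo]
      omega
  refine lt_of_le_of_lt h10 ?_
  apply pow_lt_pow_left₀ _ (by positivity) (by omega)
  rw [div_pow, lt_div_iff₀ (by positivity)]
  calc (4 * (2 * (r : ℝ) + 3) * (N : ℝ)) * (4 * (m : ℝ)) ^ 2 =
        (64 * (2 * (r : ℝ) + 3) * (m : ℝ) ^ 2) * (N : ℝ) := by ring
    _ < (N : ℝ) * (N : ℝ) := mul_lt_mul_of_pos_right hm2' hN0
    _ = (N : ℝ) ^ 2 := by ring

theorem cutout (r N D : ℕ) (hN : D + 10 ^ 6 * 5 ^ r ≤ N) (P : ℤ[X]) (β : Fin r → ℂ)
    (hβ : P.map (Int.castRingHom ℂ) = ∏ i, (X - C (β i)))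
    (hschur : ∀ (l : ℕ) (lam : Fin l → ℕ), Monotone lam → (∀ i, lam i ≤ r) →
      ∑ i, lam i + r ≤ N →
      0 < Matrix.det (fun i j : Fin l => if (j : ℕ) ≤ lam i + i then
        (if lam i + i - j ≤ r then (-1) ^ (lam i + i - (j : ℕ)) * P.coeff (r - (lam i + i - j))
          else 0) else 0))
    (hint : ∀ t : ℤ, ∃ z : ℤ, ∑ S : Finset (Fin r), (-1) ^ S.card *
      ((∏ j ∈ range N, ((t : ℂ) - ∑ i ∈ S, β i + j + 1)) / N.factorial) = z)
    (hD : ∀ i, 0 ≤ (P.comp (X + C (D : ℤ))).coeff i) :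
    ∃ a : Fin r → ℤ, (∀ i, 1 ≤ a i ∧ a i ≤ D) ∧ P = ∏ i, (X - C (a i)) := by
  have q1 := p1 r
  have q2 := p2 r
  have q4 := p4 r
  have q5 := p5 r
  have q6 := expo_le r
  have q7 : r ≤ 2 ^ r := by omega
  have hinj : Function.Injective (Int.castRingHom ℂ) := RingHom.injective_int (Int.castRingHom ℂ)
  have hPm : P.Monic := monic_of_injective hinj (by
    rw [hβ]
    exact monic_prod_of_monic _ _ fun i _ => monic_X_sub_C _)
  have hPd : P.natDegree = r := by
    have h1 := hPm.natDegree_map (Int.castRingHom ℂ)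
    rw [hβ, natDegree_prod_of_monic _ _ fun i _ => monic_X_sub_C _] at h1
    simp at h1
    exact h1.symm
  rcases Nat.eq_zero_or_pos r with hr0 | hr
  · subst hr0
    refine ⟨fun i => i.elim0, fun i => i.elim0, ?_⟩
    rw [hPm.natDegree_eq_zero.1 hPd]
    simp
  have hroot : ∀ i, (P.map (Int.castRingHom ℂ)).eval (β i) = 0 := by
    intro i
    rw [hβ, eval_prod]
    exact Finset.prod_eq_zero (mem_univ i) (by simp)
  set c : ℕ → ℤ := fun j => if j ≤ r then (-1) ^ j * P.coeff (r - j) else 0 with hc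
  set e : ℕ → ℝ := fun j => ((c j : ℤ) : ℝ) with he
  have hdet := det_of_partition r N c hschur
  have he0 : e 0 = 1 := by
    have h1 : P.coeff r = 1 := by
      have := hPm.coeff_natDegree
      rwa [hPd] at this
    simp [he, hc, h1]
  have her : ∀ j, r < j → e j = 0 := by
    intro j hj
    simp [he, hc, show ¬ j ≤ r by omega]
  have hcr : 0 < c r := by
    have h1 : 0 < Matrix.det (Matrix.of fun i j : Fin 1 =>
        if (j : ℕ) ≤ r then ((c (r - j) : ℤ) : ℝ) else 0) :=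
      hdet 1 (by omega) (fun _ => r) (Subsingleton.strictMono _) (fun i => by simp)
    rw [Matrix.det_fin_one] at h1
    simp only [Matrix.of_apply, Fin.val_zero, Nat.zero_le, if_true, Nat.sub_zero] at h1
    exact_mod_cast h1
  have hβ0 : ∀ i, β i ≠ 0 := by
    intro i hi
    have h1 := hroot i
    rw [hi, ← coeff_zero_eq_eval_zero, coeff_map] at h1
    have h2 : P.coeff 0 = 0 := by
      have : ((P.coeff 0 : ℤ) : ℂ) = 0 := h1
      exact_mod_cast this
    have h3 : c r = 0 := by simp [hc, h2]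
    omega
  have hsec : ∀ i, 0 < (β i).re ∧ ‖β i‖ ≤ 2 * (β i).re ∧
      |(β i).im| * N ≤ 13 * r ^ 2 * (β i).re := fun i =>
    root_sector r N hr (by omega) e he0 her hdet (β i) (hβ0 i)
      (sum_chern r P hPd (β i) (hβ0 i) (hroot i))
  have hwedge : ∀ i, β i - D ≠ 0 → Real.pi ≤ r * |(β i - D).arg| := by
    intro i hi
    have hcm : (P.comp (X + C (D : ℤ))).Monic := hPm.comp_X_add_C _
    have hcd : (P.comp (X + C (D : ℤ))).natDegree = r := by
      rw [natDegree_comp, natDegree_X_add_C, mul_one, hPd]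
    refine wedge r (fun j => (((P.comp (X + C (D : ℤ))).coeff j : ℤ) : ℝ)) ?_ ?_ _ hi ?_
    · intro j
      exact_mod_cast hD j
    · have h1 := hcm.coeff_natDegree
      rw [hcd] at h1
      simp only [h1]
      norm_num
    · have h1 : ((P.comp (X + C (D : ℤ))).map (Int.castRingHom ℂ)).eval (β i - D) = 0 := by
        rw [Polynomial.map_comp, eval_comp, Polynomial.map_add, map_X, map_C, eval_add, eval_X,
          eval_C]
        have h2 : β i - (D : ℂ) + (Int.castRingHom ℂ) (D : ℤ) = β i := by simp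
        rw [h2]
        exact hroot i
      rw [eval_eq_sum_range' (n := r + 1)] at h1
      · rw [← h1]
        refine Finset.sum_congr rfl fun j _ => ?_
        rw [coeff_map]
        simp
      · have := natDegree_map_le (f := Int.castRingHom ℂ) (p := P.comp (X + C (D : ℤ)))
        omega
  have hU : ∀ i, (β i).re ≤ ((D + 7 * r ^ 3 : ℕ) : ℝ) := by
    intro i
    push_cast
    exact root_upper r N D hr (by omega) (by omega) (β i) (hsec i).2.2 (hwedge i)
  have hN0 : (0 : ℝ) < N := by exact_mod_cast (by omega : 0 < N)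
  have hUN : ∀ i, (β i).re ≤ N := fun i => (hU i).trans (by exact_mod_cast (by omega))
  have hV : ∀ i, |(β i).im| ≤ ((13 * r ^ 2 : ℕ) : ℝ) := by
    intro i
    have h1 := (hsec i).2.2
    have h2 : |(β i).im| * N ≤ (13 * r ^ 2) * N :=
      h1.trans (mul_le_mul_of_nonneg_left (hUN i) (by positivity))
    push_cast
    exact le_of_mul_le_mul_right h2 hN0
  have hall := all_integral r N (D + 7 * r ^ 3) (13 * r ^ 2) (2 * expo r) P β hβ hint
    (fun i => (hsec i).1) hU hV (fun i => (hsec i).2.1.trans (by linarith [hUN i])) (by omega)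
    (by omega) (by omega) (big r N (by omega))
  choose n hn using hall
  refine ⟨n, fun i => ?_, ?_⟩
  · have h1 := (hsec i).1
    rw [hn i, Complex.intCast_re] at h1
    have h2 : 0 < n i := by exact_mod_cast h1
    refine ⟨by omega, ?_⟩
    by_contra hcon
    push Not at hcon
    have h3 : β i - D = (((n i - D : ℤ) : ℝ) : ℂ) := by
      rw [hn i]
      push_cast
      rfl
    have h4 : (0 : ℝ) < ((n i - D : ℤ) : ℝ) := by exact_mod_cast (by omega : 0 < n i - D)
    have h5 := hwedge i (by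
      rw [h3]
      exact_mod_cast h4.ne')
    rw [h3, Complex.arg_ofReal_of_nonneg h4.le, abs_zero, mul_zero] at h5
    linarith [Real.pi_pos]
  · apply Polynomial.map_injective _ hinj
    rw [hβ, Polynomial.map_prod]
    refine Finset.prod_congr rfl fun i _ => ?_
    rw [Polynomial.map_sub, map_X, map_C, hn i]
    simp

end Cut

end Pool.Agent.J4.H53.CI
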