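import Pool.Agent.J4.H53.CI.Fac

set_option autoImplicit false

/-! # The product of the roots and the length of `P(T + 1)` -/

open Polynomial Finset Filter

namespace Pool.Agent.J4.H53.CI

open Pool.Agent.N17.HC

lemma mah_one (c : ℤ) : mah 1 c = 1 := by
  simp [mah, rootsOf]

lemma mah_mul (P Q : ℤ[X]) (hP : P ≠ 0) (hQ : Q ≠ 0) (c : ℤ) :
    mah (P * Q) c = mah P c * mah Q c := by
  have h1 : (P.map (Int.castRingHom ℂ)) * (Q.map (Int.castRingHom ℂ)) ≠ 0 :=
    mul_ne_zero ((Polynomial.map_ne_zero_iff (RingHom.injective_int _)).2 hP)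
      ((Polynomial.map_ne_zero_iff (RingHom.injective_int _)).2 hQ)
  rw [mah, mah, mah, rootsOf, Polynomial.map_mul, roots_mul h1, Multiset.map_add,
    Multiset.prod_add]
  rfl

lemma one_le_mah (P : ℤ[X]) (c : ℤ) : 1 ≤ mah P c := by
  rw [mah]
  apply Multiset.prod_induction (fun x : ℝ => 1 ≤ x)
  · intro a b ha hb
    nlinarith
  · exact le_rfl
  · intro x hx
    obtain ⟨b, -, rfl⟩ := Multiset.mem_map.1 hx
    exact le_max_left _ _

lemma mah_dvd {P Q : ℤ[X]} (hP : P ≠ 0) (hQP : Q ∣ P) (c : ℤ) : mah Q c ≤ mah P c := by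
  obtain ⟨R, rfl⟩ := hQP
  rw [mah_mul Q R (left_ne_zero_of_mul hP) (right_ne_zero_of_mul hP)]
  have h1 := one_le_mah Q c
  have h2 := one_le_mah R c
  nlinarith

lemma norm_le_mah {Q : ℤ[X]} {b : ℂ} (hb : b ∈ rootsOf Q) (c : ℤ) : ‖b - c‖ ≤ mah Q c := by
  obtain ⟨s, hs⟩ := Multiset.exists_cons_of_mem hb
  rw [mah, hs, Multiset.map_cons, Multiset.prod_cons]
  have h1 : (1 : ℝ) ≤ (s.map fun b : ℂ => max 1 ‖b - c‖).prod := by
    apply Multiset.prod_induction (fun x : ℝ => 1 ≤ x)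
    · intro a b ha hb
      nlinarith
    · exact le_rfl
    · intro x hx
      obtain ⟨b, -, rfl⟩ := Multiset.mem_map.1 hx
      exact le_max_left _ _
  have h2 := le_max_right (1 : ℝ) ‖b - c‖
  have h3 : (0 : ℝ) ≤ max 1 ‖b - c‖ := by positivity
  calc ‖b - c‖ ≤ max 1 ‖b - c‖ * 1 := by linarith
    _ ≤ _ := mul_le_mul_of_nonneg_left h1 h3

lemma mah_prod (s : Multiset ℤ[X]) (hs : ∀ Q ∈ s, Q ≠ 0) (c : ℤ) :
    mah s.prod c = (s.map fun Q => mah Q c).prod := by
  induction s using Multiset.induction_on with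
  | empty => simp [mah_one]
  | cons a s ih =>
    have h0 : s.prod ≠ 0 := Multiset.prod_ne_zero fun h => hs 0 (Multiset.mem_cons_of_mem h) rfl
    rw [Multiset.prod_cons, Multiset.map_cons, Multiset.prod_cons,
      mah_mul _ _ (hs a (Multiset.mem_cons_self a s)) h0,
      ih fun Q hQ => hs Q (Multiset.mem_cons_of_mem hQ)]

lemma X_one : (X + 1 : ℤ[X]) = X + C 1 := by simp

lemma natDegree_comp1 (P : ℤ[X]) : (P.comp (X + 1)).natDegree = P.natDegree := by
  rw [natDegree_comp, X_one, natDegree_X_add_C, mul_one]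

/-- the length of `P(T + 1)` -/
lemma length_eq {P : ℤ[X]} {r : ℕ} (hr : P.natDegree = r)
    (hpos : ∀ i, 0 ≤ (-1) ^ (r - i) * (P.comp (X + 1)).coeff i) :
    ∑ k ∈ range (r + 1), |(P.comp (X + 1)).coeff k| = |P.coeff 0| := by
  have h1 : ∀ k ∈ range (r + 1), |(P.comp (X + 1)).coeff k| =
      (-1) ^ r * ((P.comp (X + 1)).coeff k * (-1) ^ k) := by
    intro k hk
    rw [mem_range] at hk
    have h2 := hpos k
    have h3 : (-1 : ℤ) ^ r = (-1) ^ (r - k) * (-1) ^ k := by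
      rw [← pow_add]
      congr 1
      omega
    have h4 : (-1 : ℤ) ^ k * (-1) ^ k = 1 := by
      rw [← mul_pow]
      simp
    have h5 : |(P.comp (X + 1)).coeff k| = |(-1) ^ (r - k) * (P.comp (X + 1)).coeff k| := by
      rw [abs_mul, abs_pow, abs_neg, abs_one, one_pow, one_mul]
    rw [h5, abs_of_nonneg h2, h3]
    linear_combination (-(-1) ^ (r - k) * (P.comp (X + 1)).coeff k) * h4
  rw [sum_congr rfl h1, ← mul_sum]
  have h2 : ∑ k ∈ range (r + 1), (P.comp (X + 1)).coeff k * (-1) ^ k = P.coeff 0 := by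
    rw [← hr, ← natDegree_comp1 P, ← eval_eq_sum_range, eval_comp, coeff_zero_eq_eval_zero]
    simp
  rw [h2]
  have h3 : (-1) ^ r * P.coeff 0 = |(-1) ^ r * P.coeff 0| := by
    rw [eq_comm, abs_eq_self, ← h2, mul_sum]
    refine sum_nonneg fun k hk => ?_
    rw [← h1 k hk]
    exact abs_nonneg _
  rw [h3, abs_mul, abs_pow, abs_neg, abs_one, one_pow, one_mul]

lemma mah_le {P : ℤ[X]} (hP : P.Monic) {r : ℕ} (hr : P.natDegree = r)
    (hpos : ∀ i, 0 ≤ (-1) ^ (r - i) * (P.comp (X + 1)).coeff i) :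
    mah P 1 ≤ |((P.coeff 0 : ℤ) : ℝ)| := by
  obtain ⟨β, hβr, hβ⟩ := exists_roots hP (IsAlgClosed.splits (P.map (Int.castRingHom ℂ)))
  rw [mah, roots_prod β hβr]
  set F : ℂ[X] := (P.comp (X + 1)).map (Int.castRingHom ℂ) with hF
  have h1 : F = ∏ i, (X - C (β i - 1)) := by
    rw [hF, Polynomial.map_comp, hβ, Polynomial.prod_comp]
    refine prod_congr rfl fun i _ => ?_
    simp
    ring
  have h2 : F.mahlerMeasure = ∏ i, max 1 ‖β i - ((1 : ℤ) : ℂ)‖ := by
    have h3 : F = ((univ.val : Multiset (Fin P.natDegree)).map fun i => (X - C (β i - 1))).prod := h1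
    rw [h3, prod_mahlerMeasure_eq_mahlerMeasure_prod, Multiset.map_map]
    show ∏ i, mahlerMeasure (X - C (β i - 1)) = _
    refine prod_congr rfl fun i _ => ?_
    rw [mahlerMeasure_X_sub_C]
    simp
  rw [← h2]
  refine (mahlerMeasure_le_sum_norm_coeff F).trans ?_
  rw [sum_over_range' _ _ (r + 1) _]
  · have h3 : ∀ k ∈ range (r + 1), ‖F.coeff k‖ = ((|(P.comp (X + 1)).coeff k| : ℤ) : ℝ) := by
      intro k _
      rw [hF, coeff_map, eq_intCast, Complex.norm_intCast, Int.cast_abs]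
    rw [sum_congr rfl h3, ← Int.cast_sum, length_eq hr hpos, Int.cast_abs]
  · intro n
    simp
  · rw [hF]
    refine (natDegree_map_le).trans_lt ?_
    rw [natDegree_comp1, hr]
    omega

/-- the roots of `P` are not integers `≤ 0` -/
lemma root_pos {P : ℤ[X]} (hP : P.Monic) {r : ℕ} (hr : P.natDegree = r)
    (hpos : ∀ i, 0 ≤ (-1) ^ (r - i) * (P.comp (X + 1)).coeff i) {a : ℤ} (ha : P.eval a = 0) :
    1 ≤ a := by
  by_contra hcon
  have hs : 1 ≤ 1 - a := by omega
  have h1 : (P.comp (X + 1)).eval (-(1 - a)) = 0 := by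
    rw [eval_comp]
    simpa using ha
  rw [eval_eq_sum_range, natDegree_comp1, hr] at h1
  have h2 : (-1 : ℤ) ^ r * ∑ k ∈ range (r + 1), (P.comp (X + 1)).coeff k * (-(1 - a)) ^ k =
      ∑ k ∈ range (r + 1), ((-1) ^ (r - k) * (P.comp (X + 1)).coeff k) * (1 - a) ^ k := by
    rw [mul_sum]
    refine sum_congr rfl fun k hk => ?_
    rw [mem_range] at hk
    have h3 : (-1 : ℤ) ^ r = (-1) ^ (r - k) * (-1) ^ k := by
      rw [← pow_add]
      congr 1
      omega
    have h4 : (-1 : ℤ) ^ k * (-1) ^ k = 1 := by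
      rw [← mul_pow]
      simp
    have h5 : (-(1 - a)) ^ k = (-1) ^ k * (1 - a) ^ k := by
      rw [← mul_pow]
      ring
    rw [h5, h3]
    linear_combination ((-1) ^ (r - k) * (P.comp (X + 1)).coeff k * (1 - a) ^ k) * h4
  rw [h1, mul_zero] at h2
  have h3 : 0 < ∑ k ∈ range (r + 1), ((-1) ^ (r - k) * (P.comp (X + 1)).coeff k) * (1 - a) ^ k := by
    rw [sum_range_succ]
    have h4 : 0 ≤ ∑ k ∈ range r, ((-1) ^ (r - k) * (P.comp (X + 1)).coeff k) * (1 - a) ^ k :=
      sum_nonneg fun k _ => mul_nonneg (hpos k) (by positivity)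
    have h5 : (P.comp (X + 1)).coeff r = 1 := by
      have h6 : (P.comp (X + 1)).Monic := by
        rw [X_one]
        exact hP.comp_X_add_C 1
      have h7 := h6.coeff_natDegree
      rwa [natDegree_comp1, hr] at h7
    rw [h5]
    have h6 : 0 < (1 - a) ^ r := by positivity
    simp only [Nat.sub_self, pow_zero, mul_one, one_mul]
    linarith
  omega

end Pool.Agent.J4.H53.CI
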