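import Pool.Agent.J4.H53.CI.Low
import Pool.Agent.J4.H53.CI.Len

set_option autoImplicit false

/-! # The final theorems -/

open Polynomial Finset Filter

namespace Pool.Agent.J4.H53.CI

open Pool.Agent.N17.HC

/-- the cost of an irreducible factor of degree `m` -/
noncomputable def cost (m : ℕ) : ℝ :=
  if m ≤ 1 then 0 else if m = 2 then 2 * Real.exp (1 / 2) else
    if m = 3 then Real.exp (1 / 2) else (m : ℝ) / 2

lemma cost_le (m r : ℕ) (h : m ≤ r) : cost m ≤ r + 4 := by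
  have h1 := FIN.exp_ub
  have h2 : (m : ℝ) ≤ r := by exact_mod_cast h
  have h3 : (0 : ℝ) ≤ r := Nat.cast_nonneg _
  have h4 : (0 : ℝ) ≤ m := Nat.cast_nonneg _
  unfold cost
  split_ifs <;> linarith

lemma le_cost (m : ℕ) (h : 2 ≤ m) : Real.exp (1 / 2) ≤ cost m := by
  have h1 := FIN.exp_ub
  have h0 := Real.exp_pos (1 / 2)
  unfold cost
  split_ifs with h2 h3 h4
  · omega
  · linarith
  · exact le_rfl
  · have h5 : 4 ≤ m := by omega
    have h6 : (4 : ℝ) ≤ m := by exact_mod_cast h5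
    linarith

lemma conv {N y K e δ : ℝ} (hy : 1 ≤ y) (h2 : N ≤ 2 * y) (hyN : y ≤ N) (he : e ≤ K)
    (hδ : 0 ≤ δ) (h : (2 : ℝ) ^ K ≤ N ^ δ) : N ^ (e - δ) ≤ y ^ e := by
  have hN : 1 ≤ N := hy.trans hyN
  have hN0 : 0 < N := by linarith
  rcases le_or_gt 0 e with h0 | h0
  · have h3 : N ^ e ≤ 2 ^ e * y ^ e := by
      rw [← Real.mul_rpow (by norm_num) (by linarith)]
      exact Real.rpow_le_rpow hN0.le h2 h0
    have h4 : (2 : ℝ) ^ e ≤ 2 ^ K := Real.rpow_le_rpow_of_exponent_le (by norm_num) he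
    rw [Real.rpow_sub hN0, div_le_iff₀ (by positivity)]
    have h5 : (0 : ℝ) ≤ y ^ e := by positivity
    calc N ^ e ≤ 2 ^ e * y ^ e := h3
      _ ≤ N ^ δ * y ^ e := mul_le_mul_of_nonneg_right (h4.trans h) h5
      _ = _ := by ring
  · calc N ^ (e - δ) ≤ N ^ e := Real.rpow_le_rpow_of_exponent_le hN (by linarith)
      _ ≤ y ^ e := Real.rpow_le_rpow_of_nonpos (by linarith) hyN h0.le

theorem factor_cost (hM2 : S_M2) (hC : S_CUB) (r k : ℕ) (A ε : ℝ) (hA : 0 ≤ A) (hε : 0 < ε) :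
    ∀ᶠ y : ℕ in atTop, ∀ (P Q : ℤ[X]) (B : ℤ), P.Monic → P.natDegree = r → Q.Monic →
    Irreducible Q → Q ∣ P → B ≠ 0 → |(B : ℝ)| ≤ (y : ℝ) ^ A →
    (∀ b ∈ rootsOf Q, ‖b‖ ≤ (y : ℝ) ^ A) → SplitsModPrimes r k y P B →
    ∀ c : ℤ, (y : ℝ) ^ (cost Q.natDegree - ε) ≤ mah Q c := by
  filter_upwards [factor_two hM2 r k A ε hε, factor_three hC r k A ε hA hε,
    factor_mah r k A ε hA hε, eventually_ge_atTop 1]
    with y e2 e3 e4 hy1 P Q B hP hPr hQ hirr hQP hB hBA hroots hsp c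
  have hy1r : (1 : ℝ) ≤ y := by exact_mod_cast hy1
  unfold cost
  split_ifs with h1 h2 h3
  · refine le_trans ?_ (one_le_mah Q c)
    rw [zero_sub]
    exact Real.rpow_le_one_of_one_le_of_nonpos hy1r (by linarith)
  · exact e2 P Q B hP hQ hirr h2 hQP hB hBA hsp c
  · exact e3 P Q B hP hQ hirr h3 hQP hB hBA hroots hsp c
  · exact e4 P Q B hP hPr hQ hirr (by omega) hQP hB hBA hroots hsp c

/-- **The factors of the polynomial of the Chern roots.** -/
theorem main (hK : S_KOS) (hL : S_LSP) (hC : S_CUB) (hM2 : S_M2) (r : ℕ) (A ε : ℝ) (hA : 0 ≤ A)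
    (hε : 0 < ε) : ∀ᶠ N : ℕ in atTop, ∀ P : ℤ[X], P.Monic → P.natDegree = r →
    (∀ i, 0 ≤ (-1) ^ (r - i) * (P.comp (X + 1)).coeff i) →
    (∀ t : ℤ, ∃ z : ℤ, kos N (rootsOf P) (N + t) = z) →
    (∀ t : ℤ, ∃ z : ℤ, ((rootsOf P).map fun b => kos N (rootsOf P) (N + t - b)).sum = z) →
    |((P.coeff 0 : ℤ) : ℝ)| ≤ (N : ℝ) ^ A →
    ∀ Q : ℤ[X], Q.Monic → Irreducible Q → Q ∣ P →
      (∀ c : ℤ, (N : ℝ) ^ (cost Q.natDegree - ε) ≤ mah Q c) ∧
      (2 ≤ Q.natDegree → ∀ (c : ℤ) (Y : ℝ), 1 ≤ Y → Y ≤ N →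
        (N : ℝ) ^ ((Q.natDegree : ℝ) - ε) ≤
          ((rootsOf Q).map fun b : ℂ => (N : ℝ) / Y + Y * ‖b - c‖).prod) := by
  have hε2 : 0 < ε / 2 := by positivity
  have htend : Tendsto (fun N : ℕ => N + 1 - 2 * r) atTop atTop := by
    apply tendsto_atTop_atTop.2
    intro b
    exact ⟨b + 2 * r, fun n hn => by omega⟩
  have hy2 : ∀ᶠ y : ℕ in atTop, (2 : ℝ) ^ A + 1 ≤ (y : ℝ) :=
    tendsto_natCast_atTop_atTop.eventually_ge_atTop _
  have hN2 : ∀ᶠ N : ℕ in atTop, (2 : ℝ) ^ ((r : ℝ) + 4) ≤ (N : ℝ) ^ (ε / 2) :=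
    ((tendsto_rpow_atTop hε2).comp tendsto_natCast_atTop_atTop).eventually_ge_atTop _
  filter_upwards [htend.eventually (factor_cost hM2 hC r r (A + 1) (ε / 2) (by linarith) hε2),
    htend.eventually (factor_ineq r r (A + 1) (ε / 2) (by linarith) hε2), htend.eventually hy2,
    hN2, eventually_ge_atTop (4 * r + 2)]
    with N e1 e2 hy2 hN2 hNr P hP hr hpos h1 h2 hPA Q hQ hirr hQP
  set y : ℕ := N + 1 - 2 * r with hy
  have hyN' : y ≤ N + 1 := by omega
  have hr0 : r = 0 ∨ y ≤ N := by omega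
  -- the degree is positive
  have hdegQ : 0 < Q.natDegree := by
    rcases Nat.eq_zero_or_pos Q.natDegree with h | h
    · exfalso
      rw [hQ.natDegree_eq_zero.1 h] at hirr
      exact hirr.not_isUnit isUnit_one
    · exact h
  have hmr : Q.natDegree ≤ r := by
    rw [← hr]
    exact natDegree_le_of_dvd hQP hP.ne_zero
  have hyN : y ≤ N := by omega
  have hyNr : (y : ℝ) ≤ N := by exact_mod_cast hyN
  have hy1 : 1 ≤ y := by omega
  have hy1r : (1 : ℝ) ≤ y := by exact_mod_cast hy1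
  have hy0 : (0 : ℝ) < y := by linarith
  have hN1 : (1 : ℝ) ≤ N := hy1r.trans hyNr
  have h2y : (N : ℝ) ≤ 2 * y := by
    have : N ≤ 2 * y := by omega
    exact_mod_cast this
  -- the sizes
  have hNA : 1 + (N : ℝ) ^ A ≤ (y : ℝ) ^ (A + 1) := by
    have h3 : (N : ℝ) ^ A ≤ 2 ^ A * (y : ℝ) ^ A := by
      rw [← Real.mul_rpow (by norm_num) hy0.le]
      exact Real.rpow_le_rpow (by linarith) h2y hA
    have h4 : (1 : ℝ) ≤ (y : ℝ) ^ A := Real.one_le_rpow hy1r hA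
    rw [Real.rpow_add hy0, Real.rpow_one]
    nlinarith
  have hNA' : (N : ℝ) ^ A ≤ (y : ℝ) ^ (A + 1) := by linarith
  have hmah : mah P 1 ≤ (N : ℝ) ^ A := (mah_le hP hr hpos).trans hPA
  have hc0 : P.coeff 0 ≠ 0 := by
    intro h
    have h3 := mah_le hP hr hpos
    rw [h] at h3
    have h4 := one_le_mah P 1
    simp at h3
    linarith
  set d : ℤ := (-1) ^ r * P.coeff 0 with hd
  have hd0 : d ≠ 0 := mul_ne_zero (pow_ne_zero _ (by norm_num)) hc0
  have hdA : |((d : ℤ) : ℝ)| ≤ (y : ℝ) ^ (A + 1) := by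
    rw [hd]
    push_cast
    rw [abs_mul, abs_pow, abs_neg, abs_one, one_pow, one_mul]
    exact hPA.trans hNA'
  have hroots : ∀ b ∈ rootsOf Q, ‖b‖ ≤ (y : ℝ) ^ (A + 1) := by
    intro b hb
    have h3 := (norm_le_mah hb 1).trans ((mah_dvd hP.ne_zero hQP 1).trans hmah)
    have h4 : ‖b‖ ≤ ‖b - ((1 : ℤ) : ℂ)‖ + 1 := by
      have h5 : b = (b - ((1 : ℤ) : ℂ)) + ((1 : ℤ) : ℂ) := by ring
      calc ‖b‖ = ‖(b - ((1 : ℤ) : ℂ)) + ((1 : ℤ) : ℂ)‖ := by rw [← h5]
        _ ≤ ‖b - ((1 : ℤ) : ℂ)‖ + ‖((1 : ℤ) : ℂ)‖ := norm_add_le _ _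
        _ = _ := by simp
    linarith
  have hsp : SplitsModPrimes r r y P d := by
    intro p hp hrp hpy hpd
    exact FIN.loc hK hL N r P hP hr d rfl h1 h2 p hp hrp (by omega) hpd
  constructor
  · intro c
    have h3 := e1 P Q d hP hr hQ hirr hQP hd0 hdA hroots hsp c
    refine le_trans ?_ h3
    have h4 : (N : ℝ) ^ ((cost Q.natDegree - ε / 2) - ε / 2) ≤
        (y : ℝ) ^ (cost Q.natDegree - ε / 2) := by
      refine conv hy1r h2y hyNr (K := (r : ℝ) + 4) ?_ hε2.le hN2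
      have := cost_le _ _ hmr
      linarith
    have h5 : cost Q.natDegree - ε = (cost Q.natDegree - ε / 2) - ε / 2 := by ring
    rw [h5]
    exact h4
  · intro hd2 c Y hY1 hYN
    have hY0 : 0 < Y := by linarith
    obtain ⟨β, hβr, hβ⟩ := exists_roots hQ (IsAlgClosed.splits (Q.map (Int.castRingHom ℂ)))
    have h4 : (N : ℝ) ^ (((Q.natDegree : ℝ) - ε / 2) - ε / 2) ≤
        (y : ℝ) ^ ((Q.natDegree : ℝ) - ε / 2) := by
      refine conv hy1r h2y hyNr (K := (r : ℝ) + 4) ?_ hε2.le hN2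
      have : (Q.natDegree : ℝ) ≤ r := by exact_mod_cast hmr
      linarith
    have h5 : ((Q.natDegree : ℝ) - ε / 2) - ε / 2 = (Q.natDegree : ℝ) - ε := by ring
    rw [h5] at h4
    refine h4.trans ?_
    rcases le_or_gt Y (y : ℝ) with hYy | hYy
    · have h3 := e2 P Q d hP hr hQ hirr hd2 hQP hd0 hdA hroots hsp c Y hY1 hYy
      refine h3.trans ?_
      rw [roots_prod β hβr, roots_prod β hβr]
      refine prod_le_prod (fun i _ => by positivity) fun i _ => ?_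
      gcongr
    · have h3 := e2 P Q d hP hr hQ hirr hd2 hQP hd0 hdA hroots hsp c (y : ℝ) hy1r le_rfl
      refine h3.trans ?_
      rw [roots_prod β hβr, roots_prod β hβr]
      refine prod_le_prod (fun i _ => by positivity) fun i _ => ?_
      rw [div_self hy0.ne']
      have h6 : 1 ≤ (N : ℝ) / Y := by
        rw [le_div_iff₀ hY0]
        linarith
      have h7 : (y : ℝ) * ‖β i - c‖ ≤ Y * ‖β i - c‖ :=
        mul_le_mul_of_nonneg_right hYy.le (norm_nonneg _)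
      linarith

/-- a bound for the roots -/
lemma root_bound {F : ℂ[X]} (hF : F.Monic) {H : ℝ} (hH : 0 ≤ H)
    (hc : ∀ j, j ≤ F.natDegree → ‖F.coeff (F.natDegree - j)‖ ≤ H ^ j) {z : ℂ}
    (hz : F.eval z = 0) : ‖z‖ ≤ 2 * H := by
  by_contra hcon
  push Not at hcon
  set r := F.natDegree with hr
  have hz0 : 0 < ‖z‖ := by linarith
  have h1 : ∑ k ∈ range r, F.coeff k * z ^ k = - z ^ r := by
    rw [eval_eq_sum_range, ← hr, sum_range_succ] at hz
    have h2 : F.coeff r = 1 := hF.coeff_natDegree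
    rw [h2, one_mul] at hz
    linear_combination hz
  have h3 : ∀ k ∈ range r, ‖F.coeff k * z ^ k‖ ≤ ‖z‖ ^ r * (1 / 2) ^ (r - k) := by
    intro k hk
    rw [mem_range] at hk
    have h4 := hc (r - k) (by omega)
    have h5 : r - (r - k) = k := by omega
    rw [h5] at h4
    rw [norm_mul, norm_pow]
    have h6 : H ^ (r - k) ≤ (‖z‖ / 2) ^ (r - k) := pow_le_pow_left₀ hH (by linarith) _
    calc ‖F.coeff k‖ * ‖z‖ ^ k ≤ (‖z‖ / 2) ^ (r - k) * ‖z‖ ^ k := by
          apply mul_le_mul_of_nonneg_right (h4.trans h6) (by positivity)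
      _ = ‖z‖ ^ r * (1 / 2) ^ (r - k) := by
          have h7 : ‖z‖ ^ r = ‖z‖ ^ (r - k) * ‖z‖ ^ k := by
            rw [← pow_add]
            congr 1
            omega
          rw [h7, div_pow, one_div, inv_pow]
          field_simp
  have h4 : ∀ n : ℕ, ∑ k ∈ range n, ((1 : ℝ) / 2) ^ (n - k) < 1 := by
    intro n
    have h5 : ∑ k ∈ range n, ((1 : ℝ) / 2) ^ (n - k) = 1 - (1 / 2) ^ n := by
      induction n with
      | zero => simp
      | succ n ih =>
        rw [sum_range_succ]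
        have h6 : ∑ k ∈ range n, ((1 : ℝ) / 2) ^ (n + 1 - k) =
            (1 / 2) * ∑ k ∈ range n, ((1 : ℝ) / 2) ^ (n - k) := by
          rw [mul_sum]
          refine sum_congr rfl fun k hk => ?_
          rw [mem_range] at hk
          rw [← pow_succ']
          congr 1
          omega
        rw [h6, ih]
        have h7 : n + 1 - n = 1 := by omega
        rw [h7, pow_succ]
        ring
    rw [h5]
    have : (0 : ℝ) < (1 / 2) ^ n := by positivity
    linarith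
  have h5 : ‖z‖ ^ r ≤ ‖z‖ ^ r * ∑ k ∈ range r, ((1 : ℝ) / 2) ^ (r - k) := by
    calc ‖z‖ ^ r = ‖∑ k ∈ range r, F.coeff k * z ^ k‖ := by rw [h1, norm_neg, norm_pow]
      _ ≤ ∑ k ∈ range r, ‖F.coeff k * z ^ k‖ := norm_sum_le _ _
      _ ≤ ∑ k ∈ range r, ‖z‖ ^ r * (1 / 2) ^ (r - k) := sum_le_sum h3
      _ = _ := by rw [mul_sum]
  have h6 : 0 < ‖z‖ ^ r := by positivity
  have h7 := mul_lt_mul_of_pos_left (h4 r) h6
  linarith

lemma prod_cost {N ε : ℝ} (hN : 0 < N) (s : Multiset ℤ[X])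
    (hs : ∀ Q ∈ s, N ^ (cost Q.natDegree - ε) ≤ mah Q 1) :
    N ^ ((s.map fun Q => cost Q.natDegree).sum - (Multiset.card s : ℝ) * ε) ≤
      (s.map fun Q => mah Q 1).prod := by
  induction s using Multiset.induction_on with
  | empty => simp
  | cons a s ih =>
    have h1 := ih fun Q hQ => hs Q (Multiset.mem_cons_of_mem hQ)
    have h2 := hs a (Multiset.mem_cons_self a s)
    rw [Multiset.map_cons, Multiset.sum_cons, Multiset.map_cons, Multiset.prod_cons,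
      Multiset.card_cons]
    have h3 : cost a.natDegree + (s.map fun Q => cost Q.natDegree).sum -
        ((Multiset.card s + 1 : ℕ) : ℝ) * ε = (cost a.natDegree - ε) +
        ((s.map fun Q => cost Q.natDegree).sum - (Multiset.card s : ℝ) * ε) := by
      push_cast
      ring
    rw [h3, Real.rpow_add hN]
    exact mul_le_mul h2 h1 (by positivity) (by linarith [one_le_mah a 1])

lemma card_le_of_irr (s : Multiset ℤ[X]) (hs : ∀ Q ∈ s, Q.Monic ∧ Irreducible Q) :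
    Multiset.card s ≤ s.prod.natDegree := by
  rw [natDegree_multiset_prod_of_monic s fun Q hQ => (hs Q hQ).1]
  have h1 : ∀ x ∈ s.map natDegree, 1 ≤ x := by
    intro x hx
    obtain ⟨Q, hQ, rfl⟩ := Multiset.mem_map.1 hx
    obtain ⟨h2, h3⟩ := hs Q hQ
    rcases Nat.eq_zero_or_pos Q.natDegree with h | h
    · exfalso
      rw [h2.natDegree_eq_zero.1 h] at h3
      exact h3.not_isUnit isUnit_one
    · exact h
  have h4 := Multiset.card_nsmul_le_sum h1
  simpa using h4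

/-- a monic polynomial without irreducible factors of degree at least two -/
lemma linear_factors (n : ℕ) : ∀ P : ℤ[X], P.Monic → P.natDegree = n →
    (∀ Q : ℤ[X], Q.Monic → Irreducible Q → Q ∣ P → Q.natDegree ≤ 1) →
    ∃ a : Fin n → ℤ, P = ∏ i, (X - C (a i)) := by
  induction n with
  | zero =>
    intro P hP h _
    exact ⟨Fin.elim0, by rw [hP.natDegree_eq_zero.1 h]; simp⟩
  | succ n ih =>
    intro P hP hn hQ
    have hnu : ¬ IsUnit P := by
      intro h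
      have := natDegree_eq_zero_of_isUnit h
      omega
    obtain ⟨F, hF, R, hR⟩ := WfDvdMonoid.exists_irreducible_factor hnu hP.ne_zero
    have hlead : F.leadingCoeff * R.leadingCoeff = 1 := by
      rw [← leadingCoeff_mul, ← hR]
      exact hP
    have hu : IsUnit F.leadingCoeff := IsUnit.of_mul_eq_one _ hlead
    have hlR : F.leadingCoeff * F.leadingCoeff = 1 := by
      rcases Int.isUnit_iff.1 hu with h | h <;> rw [h] <;> norm_num
    set Q : ℤ[X] := C F.leadingCoeff * F with hQdef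
    have hQm : Q.Monic := by
      rw [Monic, hQdef, leadingCoeff_mul, leadingCoeff_C, hlR]
    have hQi : Irreducible Q := by
      have h1 : IsUnit (C F.leadingCoeff) := isUnit_C.2 hu
      exact (irreducible_isUnit_mul h1).2 hF
    have hPQ : P = Q * (C F.leadingCoeff * R) := by
      rw [hQdef, hR]
      have : C F.leadingCoeff * C F.leadingCoeff = (1 : ℤ[X]) := by
        rw [← C_mul, hlR, C_1]
      linear_combination (-(F * R)) * this
    have hQP : Q ∣ P := ⟨_, hPQ⟩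
    have hd1 := hQ Q hQm hQi hQP
    have hd : Q.natDegree = 1 := by
      rcases Nat.eq_zero_or_pos Q.natDegree with h | h
      · exfalso
        rw [hQm.natDegree_eq_zero.1 h] at hQi
        exact hQi.not_isUnit isUnit_one
      · omega
    set T : ℤ[X] := C F.leadingCoeff * R with hT
    have hTm : T.Monic := by
      have h1 : (Q * T).Monic := by rw [← hPQ]; exact hP
      exact hQm.of_mul_monic_left h1
    have hTn : T.natDegree = n := by
      have h1 := hQm.natDegree_mul hTm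
      rw [← hPQ, hn, hd] at h1
      omega
    obtain ⟨a, ha⟩ := ih T hTm hTn fun S hS hSi hST => hQ S hS hSi (hST.trans ⟨Q, by
      rw [hPQ]; ring⟩)
    have hQX : Q = X - C (-Q.coeff 0) := by
      have h1 : Q.coeff 1 = 1 := by
        rw [← hd]
        exact hQm.coeff_natDegree
      conv_lhs => rw [Q.as_sum_range_C_mul_X_pow, hd]
      simp only [Finset.sum_range_succ, Finset.sum_range_zero, h1, map_neg]
      simp only [map_one]
      ring
    refine ⟨Fin.cons (-Q.coeff 0) a, ?_⟩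
    rw [Fin.prod_univ_succ, Fin.cons_zero, ← hQX]
    simp only [Fin.cons_succ]
    rw [← ha]
    exact hPQ

lemma shift_bound {P Q : ℤ[X]} {r : ℕ} {H : ℝ} (hH : 0 ≤ H) (hP : P.Monic)
    (hr : P.natDegree = r) (hQP : Q ∣ P) (c : ℤ)
    (hc : ∀ j ≤ r, |(((P.comp (X + C c)).coeff (r - j) : ℤ) : ℝ)| ≤ H ^ j) (b : ℂ)
    (hb : (Q.map (Int.castRingHom ℂ)).eval b = 0) : ‖b - c‖ ≤ 2 * H := by
  have hm : ((P.comp (X + C c)).map (Int.castRingHom ℂ)).Monic :=
    (hP.comp_X_add_C c).map _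
  have hd : ((P.comp (X + C c)).map (Int.castRingHom ℂ)).natDegree = r := by
    rw [(hP.comp_X_add_C c).natDegree_map, natDegree_comp, natDegree_X_add_C, mul_one, hr]
  apply root_bound hm hH
  · intro j hj
    rw [hd] at hj ⊢
    rw [coeff_map, eq_intCast, Complex.norm_intCast]
    exact hc j hj
  · rw [Polynomial.map_comp, eval_comp, Polynomial.map_add, map_X, map_C, eval_add, eval_X, eval_C]
    have h7 : b - (c : ℂ) + (Int.castRingHom ℂ) c = b := by
      rw [eq_intCast]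
      ring
    obtain ⟨R, hR⟩ := hQP
    rw [h7, hR, Polynomial.map_mul, eval_mul, hb, zero_mul]

lemma cluster {P Q : ℤ[X]} {r N : ℕ} {ε δ : ℝ} (hP : P.Monic) (hr : P.natDegree = r)
    (hQ : Q.Monic) (hQP : Q ∣ P) (h2 : 2 ≤ Q.natDegree) (hN : (1 : ℝ) ≤ N)
    (h5 : (5 : ℝ) ^ r < (N : ℝ) ^ (ε / 2)) (hδ : δ ≤ ε / 2) (hε : 0 ≤ ε) (hε2 : ε ≤ 1) (c : ℤ)
    (hc : ∀ j ≤ r, |(((P.comp (X + C c)).coeff (r - j) : ℤ) : ℝ)| ≤ ((N : ℝ) ^ (1 - ε)) ^ j)
    (hY : ∀ Y : ℝ, 1 ≤ Y → Y ≤ N → (N : ℝ) ^ ((Q.natDegree : ℝ) - δ) ≤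
      ((rootsOf Q).map fun b : ℂ => (N : ℝ) / Y + Y * ‖b - c‖).prod) : False := by
  have hN0 : (0 : ℝ) < N := by linarith
  have hmr : Q.natDegree ≤ r := by
    rw [← hr]
    exact natDegree_le_of_dvd hQP hP.ne_zero
  have h3 := hY ((N : ℝ) ^ (ε / 2)) (Real.one_le_rpow hN (by linarith)) (by
    calc (N : ℝ) ^ (ε / 2) ≤ (N : ℝ) ^ (1 : ℝ) :=
          Real.rpow_le_rpow_of_exponent_le hN (by linarith)
      _ = N := Real.rpow_one _)
  obtain ⟨β, hβr, hβ⟩ := exists_roots hQ (IsAlgClosed.splits (Q.map (Int.castRingHom ℂ)))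
  have hb : ∀ i, ‖β i - c‖ ≤ 2 * (N : ℝ) ^ (1 - ε) := by
    intro i
    apply shift_bound (by positivity) hP hr hQP c hc
    rw [hβ, eval_prod]
    exact prod_eq_zero (mem_univ i) (by simp)
  have h4 : ((rootsOf Q).map fun b : ℂ => (N : ℝ) / (N : ℝ) ^ (ε / 2) +
      (N : ℝ) ^ (ε / 2) * ‖b - c‖).prod ≤ (5 : ℝ) ^ r *
        (N : ℝ) ^ ((Q.natDegree : ℝ) * (1 - ε / 2)) := by
    rw [roots_prod β hβr (fun b : ℂ => (N : ℝ) / (N : ℝ) ^ (ε / 2) +
      (N : ℝ) ^ (ε / 2) * ‖b - c‖)]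
    calc ∏ i, ((N : ℝ) / (N : ℝ) ^ (ε / 2) + (N : ℝ) ^ (ε / 2) * ‖β i - c‖)
        ≤ ∏ i : Fin Q.natDegree, (5 * (N : ℝ) ^ (1 - ε / 2)) := by
          refine prod_le_prod (fun i _ => by positivity) fun i _ => ?_
          have h6 : (N : ℝ) / (N : ℝ) ^ (ε / 2) = (N : ℝ) ^ (1 - ε / 2) := by
            rw [Real.rpow_sub hN0, Real.rpow_one]
          have h7 : (N : ℝ) ^ (ε / 2) * (N : ℝ) ^ (1 - ε) = (N : ℝ) ^ (1 - ε / 2) := by
            rw [← Real.rpow_add hN0]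
            congr 1
            ring
          have h8 : (N : ℝ) ^ (ε / 2) * ‖β i - c‖ ≤
              (N : ℝ) ^ (ε / 2) * (2 * (N : ℝ) ^ (1 - ε)) := by
            apply mul_le_mul_of_nonneg_left (hb i) (by positivity)
          have h9 : (0 : ℝ) ≤ (N : ℝ) ^ (1 - ε / 2) := by positivity
          rw [h6]
          nlinarith
      _ = 5 ^ Q.natDegree * ((N : ℝ) ^ (1 - ε / 2)) ^ Q.natDegree := by
          rw [prod_const, card_univ, Fintype.card_fin, mul_pow]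
      _ ≤ 5 ^ r * (N : ℝ) ^ ((Q.natDegree : ℝ) * (1 - ε / 2)) := by
          have h6 : ((N : ℝ) ^ (1 - ε / 2)) ^ Q.natDegree =
              (N : ℝ) ^ ((Q.natDegree : ℝ) * (1 - ε / 2)) := by
            rw [← Real.rpow_natCast, ← Real.rpow_mul hN0.le]
            congr 1
            ring
          rw [h6]
          have h7 : (5 : ℝ) ^ Q.natDegree ≤ 5 ^ r := pow_le_pow_right₀ (by norm_num) hmr
          gcongr
  have h6 : (5 : ℝ) ^ r * (N : ℝ) ^ ((Q.natDegree : ℝ) * (1 - ε / 2)) <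
      (N : ℝ) ^ (ε / 2) * (N : ℝ) ^ ((Q.natDegree : ℝ) * (1 - ε / 2)) :=
    mul_lt_mul_of_pos_right h5 (by positivity)
  have h7 : (N : ℝ) ^ (ε / 2) * (N : ℝ) ^ ((Q.natDegree : ℝ) * (1 - ε / 2)) ≤
      (N : ℝ) ^ ((Q.natDegree : ℝ) - δ) := by
    rw [← Real.rpow_add hN0]
    apply Real.rpow_le_rpow_of_exponent_le hN
    have h8 : (2 : ℝ) ≤ Q.natDegree := by exact_mod_cast h2
    nlinarith
  linarith

/-- **Structure and degree of the polynomial of the Chern roots.** -/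
theorem main_all_le (hK : S_KOS) (hL : S_LSP) (hC : S_CUB) (hM2 : S_M2) (r : ℕ) (A ε : ℝ)
    (hA : 0 ≤ A) (hε : 0 < ε) (hε1 : ε ≤ 1) : ∀ᶠ N : ℕ in atTop, ∀ P : ℤ[X], P.Monic → P.natDegree = r →
    (∀ i, 0 ≤ (-1) ^ (r - i) * (P.comp (X + 1)).coeff i) →
    (∀ t : ℤ, ∃ z : ℤ, kos N (rootsOf P) (N + t) = z) →
    (∀ t : ℤ, ∃ z : ℤ, ((rootsOf P).map fun b => kos N (rootsOf P) (N + t - b)).sum = z) →
    |((P.coeff 0 : ℤ) : ℝ)| ≤ (N : ℝ) ^ A →
    (∀ Q : ℤ[X], Q.Monic → Irreducible Q → Q ∣ P → 2 ≤ Q.natDegree →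
      ∀ (c : ℤ) (Y : ℝ), 1 ≤ Y → Y ≤ N → (N : ℝ) ^ ((Q.natDegree : ℝ) - ε) ≤
          ((rootsOf Q).map fun b : ℂ => (N : ℝ) / Y + Y * ‖b - c‖).prod) ∧
    (∀ s : Multiset ℤ[X], (∀ Q ∈ s, Q.Monic ∧ Irreducible Q) → s.prod = P →
      (N : ℝ) ^ ((s.map fun Q => cost Q.natDegree).sum - ε) ≤ |((P.coeff 0 : ℤ) : ℝ)|) ∧
    ((|((P.coeff 0 : ℤ) : ℝ)| ≤ (N : ℝ) ^ (Real.exp (1 / 2) - ε) ∨
        ∃ c : ℤ, ∀ j ≤ r, |(((P.comp (X + C c)).coeff (r - j) : ℤ) : ℝ)| ≤
          ((N : ℝ) ^ (1 - ε)) ^ j) →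
      ∃ a : Fin r → ℤ, (∀ i, 1 ≤ a i) ∧ P = ∏ i, (X - C (a i))) := by
  have hε' : 0 < ε / (r + 2) := by positivity
  have hconst : ∀ᶠ N : ℕ in atTop, (5 : ℝ) ^ r < (N : ℝ) ^ (ε / 2) :=
    ((tendsto_rpow_atTop (by positivity : 0 < ε / 2)).comp
      tendsto_natCast_atTop_atTop).eventually_gt_atTop _
  filter_upwards [main hK hL hC hM2 r A (ε / (r + 2)) hA hε', hconst, eventually_ge_atTop 2]
    with N hN hN5 hN2 P hP hr hpos h1 h2 hPA
  have hN2r : (2 : ℝ) ≤ N := by exact_mod_cast hN2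
  have hN0 : (0 : ℝ) < N := by linarith
  have hN1 : (1 : ℝ) ≤ N := by linarith
  have hr0 : (0 : ℝ) ≤ r := Nat.cast_nonneg _
  have hεr : ε / (r + 2) ≤ ε / 2 := by
    apply div_le_div_of_nonneg_left hε.le (by norm_num)
    linarith
  have hQ := hN P hP hr hpos h1 h2 hPA
  refine ⟨?_, ?_, ?_⟩
  · intro Q hQm hQi hQP hd c Y hY1 hYN
    refine le_trans ?_ ((hQ Q hQm hQi hQP).2 hd c Y hY1 hYN)
    apply Real.rpow_le_rpow_of_exponent_le hN1
    linarith
  · intro s hs hsP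
    have h3 := prod_cost hN0 s fun Q hQs => (hQ Q (hs Q hQs).1 (hs Q hQs).2
      (by rw [← hsP]; exact Multiset.dvd_prod hQs)).1 1
    rw [← mah_prod s (fun Q hQs => (hs Q hQs).1.ne_zero), hsP] at h3
    refine le_trans ?_ (h3.trans (mah_le hP hr hpos))
    apply Real.rpow_le_rpow_of_exponent_le hN1
    have h4 : (Multiset.card s : ℝ) ≤ r := by
      have := card_le_of_irr s hs
      rw [hsP, hr] at this
      exact_mod_cast this
    have h5 : (Multiset.card s : ℝ) * (ε / (r + 2)) ≤ ε := by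
      rw [mul_div_assoc', div_le_iff₀ (by positivity)]
      nlinarith
    linarith
  · intro hle
    obtain ⟨a, ha⟩ := linear_factors r P hP hr (by
      intro Q hQm hQi hQP
      by_contra hcon
      push Not at hcon
      rcases hle with hle | ⟨c, hc⟩
      · have h3 := (hQ Q hQm hQi hQP).1 1
        have h4 := (mah_dvd hP.ne_zero hQP 1).trans ((mah_le hP hr hpos).trans hle)
        have h5 : (N : ℝ) ^ (Real.exp (1 / 2) - ε) <
            (N : ℝ) ^ (cost Q.natDegree - ε / (r + 2)) := by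
          apply Real.rpow_lt_rpow_of_exponent_lt (by linarith)
          have := le_cost Q.natDegree (by omega)
          linarith
        linarith
      · exact cluster hP hr hQm hQP (by omega) hN1 hN5 hεr hε.le hε1 c hc
          ((hQ Q hQm hQi hQP).2 (by omega) c))
    refine ⟨a, fun i => ?_, ha⟩
    apply root_pos hP hr hpos
    rw [ha, eval_prod]
    exact prod_eq_zero (mem_univ i) (by simp)

/-- **Structure and degree of the polynomial of the Chern roots.** -/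
theorem main_all (hK : S_KOS) (hL : S_LSP) (hC : S_CUB) (hM2 : S_M2) (r : ℕ) (A ε : ℝ)
    (hε : 0 < ε) : ∀ᶠ N : ℕ in atTop, ∀ P : ℤ[X], P.Monic → P.natDegree = r →
    (∀ i, 0 ≤ (-1) ^ (r - i) * (P.comp (X + 1)).coeff i) →
    (∀ t : ℤ, ∃ z : ℤ, kos N (rootsOf P) (N + t) = z) →
    (∀ t : ℤ, ∃ z : ℤ, ((rootsOf P).map fun b => kos N (rootsOf P) (N + t - b)).sum = z) →
    |((P.coeff 0 : ℤ) : ℝ)| ≤ (N : ℝ) ^ A →
    (∀ Q : ℤ[X], Q.Monic → Irreducible Q → Q ∣ P → 2 ≤ Q.natDegree →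
      ∀ (c : ℤ) (Y : ℝ), 1 ≤ Y → Y ≤ N → (N : ℝ) ^ ((Q.natDegree : ℝ) - ε) ≤
          ((rootsOf Q).map fun b : ℂ => (N : ℝ) / Y + Y * ‖b - c‖).prod) ∧
    (∀ s : Multiset ℤ[X], (∀ Q ∈ s, Q.Monic ∧ Irreducible Q) → s.prod = P →
      (N : ℝ) ^ ((s.map fun Q => cost Q.natDegree).sum - ε) ≤ |((P.coeff 0 : ℤ) : ℝ)|) ∧
    ((|((P.coeff 0 : ℤ) : ℝ)| ≤ (N : ℝ) ^ (Real.exp (1 / 2) - ε) ∨
        ∃ c : ℤ, ∀ j ≤ r, |(((P.comp (X + C c)).coeff (r - j) : ℤ) : ℝ)| ≤
          ((N : ℝ) ^ (1 - ε)) ^ j) →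
      ∃ a : Fin r → ℤ, (∀ i, 1 ≤ a i) ∧ P = ∏ i, (X - C (a i))) := by
  filter_upwards [main_all_le hK hL hC hM2 r (max A 0) (min ε 1) (le_max_right _ _)
    (lt_min hε one_pos) (min_le_right _ _), eventually_ge_atTop 1]
    with N hN hN1 P hP hr hpos h1 h2 hPA
  have hN1r : (1 : ℝ) ≤ N := by exact_mod_cast hN1
  have hmin : min ε 1 ≤ ε := min_le_left _ _
  obtain ⟨h3, h4, h5⟩ := hN P hP hr hpos h1 h2
    (hPA.trans (Real.rpow_le_rpow_of_exponent_le hN1r (le_max_left _ _)))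
  refine ⟨?_, ?_, ?_⟩
  · intro Q hQm hQi hQP hd c Y hY1 hYN
    refine le_trans ?_ (h3 Q hQm hQi hQP hd c Y hY1 hYN)
    exact Real.rpow_le_rpow_of_exponent_le hN1r (by linarith)
  · intro s hs hsP
    refine le_trans ?_ (h4 s hs hsP)
    exact Real.rpow_le_rpow_of_exponent_le hN1r (by linarith)
  · rintro (hle | ⟨c, hc⟩)
    · apply h5
      left
      refine hle.trans ?_
      exact Real.rpow_le_rpow_of_exponent_le hN1r (by linarith)
    · apply h5
      right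
      refine ⟨c, fun j hj => (hc j hj).trans ?_⟩
      apply pow_le_pow_left₀ (by positivity)
      exact Real.rpow_le_rpow_of_exponent_le hN1r (by linarith)

end Pool.Agent.J4.H53.CI
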