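import Pool.Agent.J4.H53.CI.CanA
import Pool.Agent.J4.H53.CI.CutD
import Pool.Agent.J4.H53.CI.Fin

set_option autoImplicit false

/-! # The canonical class: the theorem -/

open Polynomial Finset Filter

namespace Pool.Agent.J4.H53.CI

namespace Can

open Pool.Agent.N17.HC Cut

/-- sums over subsets and over submultisets -/
lemma sum_subsets {ι : Type} [DecidableEq ι] (β : ι → ℂ) (F : ℂ → ℂ) (s : Finset ι) : ∀ x : ℂ,
    ∑ S ∈ s.powerset, (-1) ^ S.card * F (x + ∑ i ∈ S, β i) =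
      (((s.val.map β).powerset.map fun t => (-1) ^ Multiset.card t * F (x + t.sum)).sum) := by
  induction s using Finset.induction_on with
  | empty => intro x; simp
  | insert a s ha ih =>
    intro x
    rw [Finset.sum_powerset_insert ha, ih x, Finset.insert_val_of_notMem ha, Multiset.map_cons,
      Multiset.powerset_cons, Multiset.map_add, Multiset.sum_add]
    congr 1
    rw [Multiset.map_map]
    have h1 : ∑ S ∈ s.powerset, (-1) ^ (insert a S).card * F (x + ∑ i ∈ insert a S, β i) =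
        - ∑ S ∈ s.powerset, (-1) ^ S.card * F (x + β a + ∑ i ∈ S, β i) := by
      rw [← Finset.sum_neg_distrib]
      refine Finset.sum_congr rfl fun S hS => ?_
      have haS : a ∉ S := fun h => ha (Finset.mem_powerset.1 hS h)
      rw [Finset.card_insert_of_notMem haS, Finset.sum_insert haS, add_assoc]
      ring
    rw [h1, ih (x + β a), ← Multiset.sum_map_neg', Multiset.map_map]
    congr 1
    refine Multiset.map_congr rfl fun t _ => ?_
    simp only [Function.comp, Multiset.card_cons, Multiset.sum_cons]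
    rw [add_assoc]
    ring

lemma rootsOf_eq {r : ℕ} {P : ℤ[X]} {β : Fin r → ℂ}
    (hβ : P.map (Int.castRingHom ℂ) = ∏ i, (X - C (β i))) : rootsOf P = univ.val.map β := by
  unfold rootsOf
  have h1 : (∏ i, (X - C (β i))) = ((univ.val.map β).map fun a => X - C a).prod := by
    rw [Multiset.map_map]
    rfl
  rw [hβ, h1, roots_multiset_prod_X_sub_C]

lemma bin_eq' (N : ℕ) (x : ℂ) : bin N (N + x) = (∏ j ∈ range N, (x + j + 1)) / N.factorial := by
  unfold bin
  congr 1
  rw [← Finset.prod_range_reflect]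
  refine Finset.prod_congr rfl fun j hj => ?_
  have hj' := Finset.mem_range.1 hj
  rw [show N - 1 - j = N - (j + 1) by omega, Nat.cast_sub (by omega)]
  push_cast
  ring

lemma kos_eq' {r : ℕ} {P : ℤ[X]} {β : Fin r → ℂ}
    (hβ : P.map (Int.castRingHom ℂ) = ∏ i, (X - C (β i))) (N : ℕ) (x : ℂ) :
    kos N (rootsOf P) (N + x) = ∑ S : Finset (Fin r), (-1) ^ S.card *
      ((∏ j ∈ range N, (x - ∑ i ∈ S, β i + j + 1)) / N.factorial) := by
  have h1 := sum_subsets β (fun y => (∏ j ∈ range N, (x - y + j + 1)) / N.factorial) univ 0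
  rw [Finset.powerset_univ] at h1
  simp only [zero_add] at h1
  rw [h1, kos, rootsOf_eq hβ]
  congr 1
  refine Multiset.map_congr rfl fun t _ => ?_
  rw [add_sub_assoc, bin_eq']

/-- the location of the Chern roots -/
lemma chern_roots (r N : ℕ) (hr : 1 ≤ r) (h2r : 2 * r ≤ N) (h6 : 6 * r ^ 2 ≤ N) (P : ℤ[X])
    (β : Fin r → ℂ) (hβ : P.map (Int.castRingHom ℂ) = ∏ i, (X - C (β i)))
    (hschur : ∀ (l : ℕ) (lam : Fin l → ℕ), Monotone lam → (∀ i, lam i ≤ r) →
      ∑ i, lam i + r ≤ N →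
      0 < Matrix.det (fun i j : Fin l => if (j : ℕ) ≤ lam i + i then
        (if lam i + i - j ≤ r then (-1) ^ (lam i + i - (j : ℕ)) * P.coeff (r - (lam i + i - j))
          else 0) else 0)) (i : Fin r) :
    0 < (β i).re ∧ ‖β i‖ ≤ 2 * (β i).re ∧ |(β i).im| * N ≤ 13 * r ^ 2 * (β i).re := by
  have hinj : Function.Injective (Int.castRingHom ℂ) := RingHom.injective_int (Int.castRingHom ℂ)
  have hPm : P.Monic := monic_of_injective hinj (by
    rw [hβ]
    exact monic_prod_of_monic _ _ fun i _ => monic_X_sub_C _)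
  have hPd : P.natDegree = r := by
    have h1 := hPm.natDegree_map (Int.castRingHom ℂ)
    rw [hβ, natDegree_prod_of_monic _ _ fun i _ => monic_X_sub_C _] at h1
    simp at h1
    exact h1.symm
  have hroot : ∀ i, (P.map (Int.castRingHom ℂ)).eval (β i) = 0 := by
    intro i
    rw [hβ, eval_prod]
    exact Finset.prod_eq_zero (mem_univ i) (by simp)
  set c : ℕ → ℤ := fun j => if j ≤ r then (-1) ^ j * P.coeff (r - j) else 0 with hc
  set e : ℕ → ℝ := fun j => ((c j : ℤ) : ℝ) with he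
  have hdet := det_of_partition r N c hschur
  have he0 : e 0 = 1 := by
    have h1 : P.coeff r = 1 := by
      have := hPm.coeff_natDegree
      rwa [hPd] at this
    simp [he, hc, h1]
  have her : ∀ j, r < j → e j = 0 := by
    intro j hj
    simp [he, hc, show ¬ j ≤ r by omega]
  have hcr : 0 < c r := by
    have h1 : 0 < Matrix.det (Matrix.of fun i j : Fin 1 =>
        if (j : ℕ) ≤ r then ((c (r - j) : ℤ) : ℝ) else 0) :=
      hdet 1 (by omega) (fun _ => r) (Subsingleton.strictMono _) (fun i => by simp)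
    rw [Matrix.det_fin_one] at h1
    simp only [Matrix.of_apply, Fin.val_zero, Nat.zero_le, if_true, Nat.sub_zero] at h1
    exact_mod_cast h1
  have hβ0 : β i ≠ 0 := by
    intro hi
    have h1 := hroot i
    rw [hi, ← coeff_zero_eq_eval_zero, coeff_map] at h1
    have h2 : P.coeff 0 = 0 := by
      have : ((P.coeff 0 : ℤ) : ℂ) = 0 := h1
      exact_mod_cast this
    have h3 : c r = 0 := by simp [hc, h2]
    omega
  exact root_sector r N hr h6 e he0 her hdet (β i) hβ0 (sum_chern r P hPd (β i) hβ0 (hroot i))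

/-- a product over the roots, one of which is large -/
lemma prod_roots (R : Multiset ℂ) (b₀ : ℂ) (hb₀ : b₀ ∈ R) (f : ℂ → ℝ) (c₁ c₂ : ℝ)
    (hf : ∀ b, 0 ≤ f b) (h1 : ∀ b ∈ R.erase b₀, f b ≤ c₁) (h2 : f b₀ ≤ c₂) (hc₁ : 0 ≤ c₁) :
    (R.map f).prod ≤ c₂ * c₁ ^ (Multiset.card R - 1) := by
  rw [← Multiset.cons_erase hb₀, Multiset.map_cons, Multiset.prod_cons, Multiset.card_cons,
    Nat.add_sub_cancel]
  have hc₂ : 0 ≤ c₂ := (hf b₀).trans h2
  have h3 : ((R.erase b₀).map f).prod ≤ c₁ ^ Multiset.card (R.erase b₀) := by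
    generalize R.erase b₀ = T at h1
    induction T using Multiset.induction_on with
    | empty => simp
    | cons a T ih =>
      rw [Multiset.map_cons, Multiset.prod_cons, Multiset.card_cons, pow_succ, mul_comm]
      exact mul_le_mul (ih fun b hb => h1 b (Multiset.mem_cons_of_mem hb))
        (h1 a (Multiset.mem_cons_self a T)) (hf a) (by positivity)
  exact mul_le_mul h2 h3 (Multiset.prod_nonneg (by
    intro x hx
    obtain ⟨b, -, rfl⟩ := Multiset.mem_map.1 hx
    exact hf b)) hc₂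

lemma big2 (r V : ℕ) : ∃ a C₀ : ℕ, ∀ N : ℕ, C₀ ≤ N →
    (2 : ℝ) ^ r * ((2 * N : ℝ) ^ (2 * V + 1) * ((4 * N : ℝ) ^ r *
      ((r + 1) * (4 * N) + 1 : ℝ) ^ (2 ^ r))) < ((N - r - 2 ^ r).choose a : ℝ) := by
  set E := 2 ^ r with hE
  set a := 2 * V + 1 + r + E + 1 with ha
  set M : ℕ := 2 ^ r * (2 ^ (2 * V + 1) * (4 ^ r * (4 * r + 5) ^ E)) with hM
  refine ⟨a, 2 * (r + E + a) + M * (2 ^ a * a.factorial) + 1, fun N hN => ?_⟩
  have hN1 : 2 * (r + E + a) ≤ N := by omega
  have hN2 : M * (2 ^ a * a.factorial) + 1 ≤ N := by omega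
  have hN2' : (M : ℝ) * (2 ^ a * a.factorial) + 1 ≤ N := by exact_mod_cast hN2
  have hN0 : (1 : ℝ) ≤ N := by
    have : (0 : ℝ) ≤ (M : ℝ) * (2 ^ a * a.factorial) := by positivity
    linarith
  have hf : (0 : ℝ) < a.factorial := by exact_mod_cast a.factorial_pos
  have h1 := Nat.pow_le_choose (α := ℝ) a (N - r - E)
  have h2 : (N : ℝ) / 2 ≤ ((N - r - E + 1 - a : ℕ) : ℝ) := by
    rw [div_le_iff₀ (by norm_num)]
    have : N ≤ (N - r - E + 1 - a) * 2 := by omega
    exact_mod_cast this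
  have h3 : ((N : ℝ) / 2) ^ a / a.factorial ≤ ((N - r - E).choose a : ℝ) := by
    refine le_trans ?_ h1
    apply div_le_div_of_nonneg_right _ hf.le
    exact pow_le_pow_left₀ (by positivity) h2 a
  refine lt_of_lt_of_le ?_ h3
  have h4 : (2 : ℝ) ^ r * ((2 * N : ℝ) ^ (2 * V + 1) * ((4 * N : ℝ) ^ r *
      ((r + 1) * (4 * N) + 1 : ℝ) ^ E)) ≤ M * (N : ℝ) ^ (2 * V + 1 + r + E) := by
    have h5 : ((r + 1) * (4 * N) + 1 : ℝ) ^ E ≤ ((4 * r + 5) * N : ℝ) ^ E := by
      apply pow_le_pow_left₀ (by positivity)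
      nlinarith
    calc (2 : ℝ) ^ r * ((2 * N : ℝ) ^ (2 * V + 1) * ((4 * N : ℝ) ^ r *
          ((r + 1) * (4 * N) + 1 : ℝ) ^ E))
        ≤ (2 : ℝ) ^ r * ((2 * N : ℝ) ^ (2 * V + 1) * ((4 * N : ℝ) ^ r *
          ((4 * r + 5) * N : ℝ) ^ E)) := by gcongr
      _ = _ := by
        rw [hM]
        push_cast
        rw [mul_pow, mul_pow, mul_pow, pow_add, pow_add]
        ring
  refine lt_of_le_of_lt h4 ?_
  rw [lt_div_iff₀ hf, div_pow, lt_div_iff₀ (by positivity)]
  have h5 : (N : ℝ) ^ a = (N : ℝ) ^ (2 * V + 1 + r + E) * N := by rw [ha, pow_succ]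
  rw [h5]
  have h6 : (0 : ℝ) < (N : ℝ) ^ (2 * V + 1 + r + E) := by positivity
  nlinarith

end Can

end Pool.Agent.J4.H53.CI
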