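import Pool.Agent.J4.H53.CI.CanB

set_option autoImplicit false

/-! # The canonical class: the theorem -/

open Polynomial Finset Filter

namespace Pool.Agent.J4.H53.CI

namespace Can

open Pool.Agent.N17.HC Cut

lemma nodup_rootsOf (Q : ℤ[X]) (hQ : Q.Monic) (hirr : Irreducible Q) : (rootsOf Q).Nodup := by
  have h1 : (Q.map (Int.castRingHom ℚ)).Separable := (irr_rat hQ hirr).separable
  have h2 : (Q.map (Int.castRingHom ℂ)).Separable := by
    have h3 := h1.map (f := algebraMap ℚ ℂ)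
    rw [Polynomial.map_map] at h3
    exact h3
  exact nodup_roots h2

theorem canonical_le (hK : S_KOS) (hL : S_LSP) (hC : S_CUB) (hM2 : S_M2) (r : ℕ) (ε : ℝ)
    (hε : 0 < ε) (hε1 : ε ≤ 1) : ∀ᶠ N : ℕ in atTop, ∀ (P : ℤ[X]) (β : Fin r → ℂ),
    P.map (Int.castRingHom ℂ) = ∏ i, (X - C (β i)) →
    (∀ (l : ℕ) (lam : Fin l → ℕ), Monotone lam → (∀ i, lam i ≤ r) →
      ∑ i, lam i + r ≤ N →
      0 < Matrix.det (fun i j : Fin l => if (j : ℕ) ≤ lam i + i then
        (if lam i + i - j ≤ r then (-1) ^ (lam i + i - (j : ℕ)) * P.coeff (r - (lam i + i - j))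
          else 0) else 0)) →
    (∀ i, 0 ≤ (-1) ^ (r - i) * (P.comp (X + 1)).coeff i) →
    (∀ t : ℤ, ∃ z : ℤ, ∑ S : Finset (Fin r), (-1) ^ S.card *
      ((∏ j ∈ range N, ((t : ℂ) - ∑ i ∈ S, β i + j + 1)) / N.factorial) = z) →
    (∀ t : ℤ, ∃ z : ℤ, ∑ k, ∑ S : Finset (Fin r), (-1) ^ S.card *
      ((∏ j ∈ range N, ((t : ℂ) - β k - ∑ i ∈ S, β i + j + 1)) / N.factorial) = z) →
    ∑ i, (β i).re ≤ N + 1 + (N : ℝ) ^ (1 - ε) →
    ∀ i, ∃ n : ℤ, β i = n := by
  rcases Nat.eq_zero_or_pos r with hr0 | hr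
  · subst hr0
    exact Filter.Eventually.of_forall fun N P β _ _ _ _ _ _ i => i.elim0
  obtain ⟨a, C₀, hbig⟩ := big2 r (26 * r ^ 2)
  set C₁ : ℕ := 2 * a + 1 + r + 2 ^ r with hC₁
  have hrr : (1 : ℝ) ≤ r := by exact_mod_cast hr
  -- the conditions on `N`
  have ev1 : ∀ᶠ N : ℕ in atTop, (C₁ : ℝ) + 1 + (N : ℝ) ^ (1 - ε) ≤ (N : ℝ) ^ (1 - ε / 2) := by
    have h1 : ∀ᶠ N : ℕ in atTop, (2 : ℝ) ≤ (N : ℝ) ^ (ε / 2) :=
      ((tendsto_rpow_atTop (by positivity : 0 < ε / 2)).comp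
        tendsto_natCast_atTop_atTop).eventually_ge_atTop _
    have h2 : ∀ᶠ N : ℕ in atTop, 2 * ((C₁ : ℝ) + 1) ≤ (N : ℝ) ^ (1 - ε / 2) :=
      ((tendsto_rpow_atTop (by linarith : 0 < 1 - ε / 2)).comp
        tendsto_natCast_atTop_atTop).eventually_ge_atTop _
    filter_upwards [h1, h2, eventually_ge_atTop 1] with N h1 h2 hN
    have hN0 : (0 : ℝ) < N := by exact_mod_cast hN
    have h3 : (N : ℝ) ^ (1 - ε / 2) = (N : ℝ) ^ (1 - ε) * (N : ℝ) ^ (ε / 2) := by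
      rw [← Real.rpow_add hN0]
      congr 1
      ring
    have h4 : (0 : ℝ) < (N : ℝ) ^ (1 - ε) := by positivity
    nlinarith
  have ev2 : ∀ᶠ N : ℕ in atTop, (5 : ℝ) ^ r < (N : ℝ) ^ (ε / 8) :=
    ((tendsto_rpow_atTop (by positivity : 0 < ε / 8)).comp
      tendsto_natCast_atTop_atTop).eventually_gt_atTop _
  have ev3 : ∀ᶠ N : ℕ in atTop, (8 : ℝ) < (N : ℝ) ^ (1 / 2 : ℝ) :=
    ((tendsto_rpow_atTop (by norm_num : (0 : ℝ) < 1 / 2)).comp
      tendsto_natCast_atTop_atTop).eventually_gt_atTop _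
  filter_upwards [main hK hL hC hM2 r ((3 * r : ℕ) : ℝ) (ε / 8) (Nat.cast_nonneg _)
    (by positivity), ev1, ev2, ev3, eventually_ge_atTop
    (C₀ + C₁ + 26 * r ^ 2 + 6 * r ^ 2 + 2 * r + 2)]
    with N hmain hX h5 h8 hN P β hβ hschur hpos hint hcon hsum
  by_contra hnot
  push Not at hnot
  have hN' : C₀ + C₁ + 26 * r ^ 2 + 6 * r ^ 2 + 2 * r + 2 ≤ N := hN
  clear hN
  have h2pow : 0 < 2 ^ r := by positivity
  have hN2 : (2 : ℝ) ≤ N := by exact_mod_cast (by omega : 2 ≤ N)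
  have hN1 : (1 : ℝ) ≤ N := by linarith
  have hN0 : (0 : ℝ) < N := by linarith
  have hinj : Function.Injective (Int.castRingHom ℂ) := RingHom.injective_int (Int.castRingHom ℂ)
  have hPm : P.Monic := monic_of_injective hinj (by
    rw [hβ]
    exact monic_prod_of_monic _ _ fun i _ => monic_X_sub_C _)
  have hPd : P.natDegree = r := by
    have h1 := hPm.natDegree_map (Int.castRingHom ℂ)
    rw [hβ, natDegree_prod_of_monic _ _ fun i _ => monic_X_sub_C _] at h1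
    simp at h1
    exact h1.symm
  have hsec := chern_roots r N hr (by omega) (by omega) P β hβ hschur
  set Z : ℝ := (N : ℝ) ^ (1 - ε / 2) with hZ
  have hZN : Z ≤ N := by
    calc Z ≤ (N : ℝ) ^ (1 : ℝ) := Real.rpow_le_rpow_of_exponent_le hN1 (by linarith)
      _ = N := Real.rpow_one _
  have hC₁0 : (0 : ℝ) ≤ C₁ := Nat.cast_nonneg _
  have hsum2 : ∑ i, (β i).re ≤ N + Z := by linarith
  have hre : ∀ i, (β i).re ≤ 2 * N := by
    intro i
    have h1 : (β i).re ≤ ∑ j, (β j).re :=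
      Finset.single_le_sum (f := fun j => (β j).re) (fun j _ => (hsec j).1.le) (mem_univ i)
    linarith
  have hnorm : ∀ i, ‖β i‖ ≤ 4 * N := fun i => (hsec i).2.1.trans (by linarith [hre i])
  have hV : ∀ i, |(β i).im| ≤ ((26 * r ^ 2 : ℕ) : ℝ) := by
    intro i
    have h1 := (hsec i).2.2
    have h2 : |(β i).im| * N ≤ (26 * r ^ 2) * N :=
      h1.trans (by
        calc 13 * (r : ℝ) ^ 2 * (β i).re ≤ 13 * r ^ 2 * (2 * N) :=
              mul_le_mul_of_nonneg_left (hre i) (by positivity)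
          _ = _ := by ring)
    push_cast
    exact le_of_mul_le_mul_right h2 hN0
  obtain ⟨Q, hQm, hQi, hQP, hQd, ⟨i₀, hi₀, hQi₀⟩, -, -⟩ := exists_large r N (N - C₁) (26 * r ^ 2) a
    (4 * N) P β hβ hint (fun i => (hsec i).1) hV hnorm (by linarith) (by omega) (by omega)
    (hbig N (by omega)) hnot
  have hi₀' : (N : ℝ) - C₁ < (β i₀).re := by
    rw [Nat.cast_sub (by omega)] at hi₀
    exact hi₀
  -- the degree
  have hP0 : |((P.coeff 0 : ℤ) : ℝ)| ≤ (N : ℝ) ^ (((3 * r : ℕ) : ℝ)) := by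
    have h1 : ((P.coeff 0 : ℤ) : ℂ) = ∏ i, (- β i) := by
      have h2 : (P.map (Int.castRingHom ℂ)).eval 0 = ((P.coeff 0 : ℤ) : ℂ) := by
        rw [← coeff_zero_eq_eval_zero, coeff_map]
        rfl
      rw [← h2, hβ, eval_prod]
      exact Finset.prod_congr rfl fun i _ => by simp
    have h2 : |((P.coeff 0 : ℤ) : ℝ)| = ‖((P.coeff 0 : ℤ) : ℂ)‖ := by
      rw [Complex.norm_intCast]
    rw [h2, h1, norm_prod, Real.rpow_natCast, pow_mul]
    calc ∏ i, ‖-β i‖ ≤ ∏ _i : Fin r, (4 * N : ℝ) := by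
          apply Finset.prod_le_prod (fun _ _ => norm_nonneg _)
          intro i _
          rw [norm_neg]
          exact hnorm i
      _ = (4 * N : ℝ) ^ r := by simp
      _ ≤ ((N : ℝ) ^ 3) ^ r := by
          apply pow_le_pow_left₀ (by positivity)
          have h4 : (4 : ℝ) ≤ N * N := by nlinarith
          calc (4 * N : ℝ) ≤ (N * N) * N := mul_le_mul_of_nonneg_right h4 hN0.le
            _ = (N : ℝ) ^ 3 := by ring
  obtain ⟨hm1, hm2⟩ := hmain P hPm hPd hpos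
    (fun t => by
      obtain ⟨z, hz⟩ := hint t
      exact ⟨z, by rw [kos_eq' hβ]; exact hz⟩)
    (fun t => by
      obtain ⟨z, hz⟩ := hcon t
      refine ⟨z, ?_⟩
      rw [← hz]
      have h1 : ((rootsOf P).map fun b => kos N (rootsOf P) (N + t - b)) =
          (univ.val.map β).map fun b => kos N (rootsOf P) (N + t - b) := by
        rw [rootsOf_eq hβ]
      rw [h1, Multiset.map_map]
      change ∑ k, kos N (rootsOf P) (N + t - β k) = _
      refine Finset.sum_congr rfl fun k _ => ?_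
      rw [add_sub_assoc, kos_eq' hβ])
    hP0 Q hQm hQi hQP
  -- the other roots of `Q`
  have hmem₀ : β i₀ ∈ rootsOf Q := by
    rw [rootsOf, mem_roots (hQm.map _).ne_zero]
    exact hQi₀
  have hnd := nodup_rootsOf Q hQm hQi
  have hother : ∀ b ∈ (rootsOf Q).erase (β i₀), ‖b‖ ≤ 2 * Z := by
    intro b hb
    rw [hnd.mem_erase_iff] at hb
    obtain ⟨hbne, hb⟩ := hb
    rw [rootsOf, mem_roots (hQm.map _).ne_zero, IsRoot.def] at hb
    have h1 : (P.map (Int.castRingHom ℂ)).eval b = 0 := by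
      obtain ⟨R, hR⟩ := hQP
      rw [hR, Polynomial.map_mul, eval_mul, hb, zero_mul]
    rw [hβ, eval_prod, Finset.prod_eq_zero_iff] at h1
    obtain ⟨j, -, hj⟩ := h1
    rw [eval_sub, eval_X, eval_C, sub_eq_zero] at hj
    rw [hj] at hbne ⊢
    have hij : i₀ ≠ j := fun h => hbne (by rw [h])
    have h2 : (β i₀).re + (β j).re ≤ ∑ i, (β i).re := by
      rw [← Finset.sum_pair hij (f := fun i => (β i).re)]
      exact Finset.sum_le_sum_of_subset_of_nonneg (Finset.subset_univ _)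
        fun i _ _ => (hsec i).1.le
    have h3 := (hsec j).2.1
    linarith
  have hcard : Multiset.card (rootsOf Q) = Q.natDegree := FIN.card_rootsOf Q
  have hZ1 : 1 ≤ Z := by linarith [show (0 : ℝ) ≤ (N : ℝ) ^ (1 - ε) by positivity]
  rcases Nat.lt_or_ge Q.natDegree 3 with hlt | hge
  · -- quadratic factors
    have hd2 : Q.natDegree = 2 := by omega
    have h1 := hm1 0
    have h2 : mah Q 0 ≤ (4 * N) * (2 * Z) ^ (Multiset.card (rootsOf Q) - 1) := by
      unfold mah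
      apply prod_roots (rootsOf Q) (β i₀) hmem₀
      · intro b
        positivity
      · intro b hb
        rw [Int.cast_zero, sub_zero]
        exact max_le (by linarith) (hother b hb)
      · rw [Int.cast_zero, sub_zero]
        exact max_le (by linarith) (hnorm i₀)
      · linarith
    rw [hcard, hd2] at h2
    rw [hd2] at h1
    have h3 : (N : ℝ) ^ (2.5 : ℝ) ≤ (N : ℝ) ^ (cost 2 - ε / 8) := by
      apply Real.rpow_le_rpow_of_exponent_le hN1
      have := FIN.exp_lb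
      unfold cost
      norm_num at this ⊢
      linarith
    have h4 : (N : ℝ) ^ (2.5 : ℝ) = N * N * (N : ℝ) ^ (1 / 2 : ℝ) := by
      rw [show (2.5 : ℝ) = 1 + 1 + 1 / 2 by norm_num, Real.rpow_add hN0, Real.rpow_add hN0,
        Real.rpow_one]
    have h5 : (N : ℝ) * N * (N : ℝ) ^ (1 / 2 : ℝ) ≤ (4 * N) * (2 * Z) := by
      rw [← h4]
      refine h3.trans (h1.trans ?_)
      simpa using h2
    have h6 : (4 * N : ℝ) * (2 * Z) ≤ N * N * 8 := by nlinarith
    have h7 : (N : ℝ) * N * 8 < N * N * (N : ℝ) ^ (1 / 2 : ℝ) :=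
      mul_lt_mul_of_pos_left h8 (by positivity)
    linarith
  · -- factors of larger degree
    have hYdef : (1 : ℝ) ≤ (N : ℝ) ^ (ε / 4) := Real.one_le_rpow hN1 (by positivity)
    have hYN : (N : ℝ) ^ (ε / 4) ≤ N := by
      calc (N : ℝ) ^ (ε / 4) ≤ (N : ℝ) ^ (1 : ℝ) :=
            Real.rpow_le_rpow_of_exponent_le hN1 (by linarith)
        _ = N := Real.rpow_one _
    have h1 := hm2 (by omega) 0 ((N : ℝ) ^ (ε / 4)) hYdef hYN
    have e1 : (N : ℝ) / (N : ℝ) ^ (ε / 4) = (N : ℝ) ^ (1 - ε / 4) := by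
      rw [Real.rpow_sub hN0, Real.rpow_one]
    have e2 : (N : ℝ) ^ (ε / 4) * Z = (N : ℝ) ^ (1 - ε / 4) := by
      rw [hZ, ← Real.rpow_add hN0]
      congr 1
      ring
    have e3 : (N : ℝ) ^ (ε / 4) * N = (N : ℝ) ^ (1 + ε / 4) := by
      rw [add_comm, Real.rpow_add hN0, Real.rpow_one]
    have e4 : (N : ℝ) ^ (1 - ε / 4) ≤ (N : ℝ) ^ (1 + ε / 4) :=
      Real.rpow_le_rpow_of_exponent_le hN1 (by linarith)
    have hp1 : (0 : ℝ) < (N : ℝ) ^ (1 - ε / 4) := by positivity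
    have hp2 : (0 : ℝ) < (N : ℝ) ^ (1 + ε / 4) := by positivity
    have h2 : ((rootsOf Q).map fun b : ℂ => (N : ℝ) / (N : ℝ) ^ (ε / 4) +
        (N : ℝ) ^ (ε / 4) * ‖b - ((0 : ℤ) : ℂ)‖).prod ≤
        (5 * (N : ℝ) ^ (1 + ε / 4)) * (5 * (N : ℝ) ^ (1 - ε / 4)) ^
          (Multiset.card (rootsOf Q) - 1) := by
      apply prod_roots (rootsOf Q) (β i₀) hmem₀
      · intro b
        positivity
      · intro b hb
        rw [Int.cast_zero, sub_zero, e1]
        have h3 := hother b hb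
        have h4 : (N : ℝ) ^ (ε / 4) * ‖b‖ ≤ (N : ℝ) ^ (ε / 4) * (2 * Z) :=
          mul_le_mul_of_nonneg_left h3 (by positivity)
        have h5 : (N : ℝ) ^ (ε / 4) * (2 * Z) = 2 * (N : ℝ) ^ (1 - ε / 4) := by
          rw [← e2]; ring
        linarith
      · rw [Int.cast_zero, sub_zero, e1]
        have h4 : (N : ℝ) ^ (ε / 4) * ‖β i₀‖ ≤ (N : ℝ) ^ (ε / 4) * (4 * N) :=
          mul_le_mul_of_nonneg_left (hnorm i₀) (by positivity)
        have h5 : (N : ℝ) ^ (ε / 4) * (4 * N) = 4 * (N : ℝ) ^ (1 + ε / 4) := by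
          rw [← e3]; ring
        linarith
      · positivity
    rw [hcard] at h2
    obtain ⟨m, hm⟩ : ∃ m, Q.natDegree = m + 3 := ⟨Q.natDegree - 3, by omega⟩
    have hmr : m + 3 ≤ r := by
      rw [← hm, ← hPd]
      exact natDegree_le_of_dvd hQP hPm.ne_zero
    rw [hm, show m + 3 - 1 = m + 2 by omega] at h2
    rw [hm] at h1
    have h3 : (5 * (N : ℝ) ^ (1 + ε / 4)) * (5 * (N : ℝ) ^ (1 - ε / 4)) ^ (m + 2) =
        5 ^ (m + 3) * (N : ℝ) ^ ((1 + ε / 4) + (1 - ε / 4) * (m + 2)) := by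
      have e5 : (N : ℝ) ^ ((1 + ε / 4) + (1 - ε / 4) * (m + 2)) =
          (N : ℝ) ^ (1 + ε / 4) * ((N : ℝ) ^ (1 - ε / 4)) ^ (m + 2) := by
        rw [Real.rpow_add hN0 (1 + ε / 4) ((1 - ε / 4) * (m + 2)), Real.rpow_mul hN0.le,
          show ((m : ℝ) + 2) = ((m + 2 : ℕ) : ℝ) by push_cast; ring, Real.rpow_natCast]
      rw [e5, mul_pow]
      ring
    have h4 : (N : ℝ) ^ ((1 + ε / 4) + (1 - ε / 4) * ((m : ℝ) + 2)) ≤
        (N : ℝ) ^ (((m + 3 : ℕ) : ℝ) - ε / 4) := by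
      apply Real.rpow_le_rpow_of_exponent_le hN1
      push_cast
      have : (0 : ℝ) ≤ m := Nat.cast_nonneg _
      nlinarith
    have h5' : (5 : ℝ) ^ (m + 3) ≤ 5 ^ r := pow_le_pow_right₀ (by norm_num) hmr
    have h6 : (N : ℝ) ^ (((m + 3 : ℕ) : ℝ) - ε / 8) =
        (N : ℝ) ^ (ε / 8) * (N : ℝ) ^ (((m + 3 : ℕ) : ℝ) - ε / 4) := by
      rw [← Real.rpow_add hN0]
      congr 1
      ring
    have h7 : (0 : ℝ) < (N : ℝ) ^ (((m + 3 : ℕ) : ℝ) - ε / 4) := by positivity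
    have h9 : (N : ℝ) ^ (ε / 8) * (N : ℝ) ^ (((m + 3 : ℕ) : ℝ) - ε / 4) ≤
        5 ^ r * (N : ℝ) ^ (((m + 3 : ℕ) : ℝ) - ε / 4) := by
      rw [← h6]
      refine h1.trans (h2.trans ?_)
      rw [h3]
      exact mul_le_mul h5' h4 (by positivity) (by positivity)
    have h10 := mul_lt_mul_of_pos_right h5 h7
    linarith

end Can

end Pool.Agent.J4.H53.CI
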