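import Mathlib

/-!
# A lower bound for a product of weights with integral power sums
-/

set_option autoImplicit false

open Polynomial Finset

namespace Pool.Agent.J4.H53.CI

namespace Nrm

lemma sum_card_Ioi (m : ℕ) : (∑ i : Fin m, (Finset.Ioi i).card) * 2 ≤ m ^ 2 := by
  have h1 : (∑ i : Fin m, (Finset.Ioi i).card) = ∑ i ∈ Finset.range m, (m - 1 - i) := by
    rw [← Fin.sum_univ_eq_sum_range (fun i => m - 1 - i)]
    apply Finset.sum_congr rfl
    intro i _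
    rw [Fin.card_Ioi]
  rw [h1, Finset.sum_range_reflect (fun i => i), Finset.sum_range_id_mul_two, sq]
  exact Nat.mul_le_mul_left _ (Nat.sub_le _ _)

lemma det_vdm_le {m : ℕ} (ω : Fin m → ℂ) {H : ℝ} (hH : 1 ≤ H) (hω : ∀ i, ‖ω i‖ ≤ H) :
    ‖(Matrix.vandermonde ω).det‖ * ‖(Matrix.vandermonde ω).det‖ ≤ (2 * H) ^ (m ^ 2) := by
  have h0 : ‖(Matrix.vandermonde ω).det‖ ≤ (2 * H) ^ (∑ i : Fin m, (Finset.Ioi i).card) := by
    rw [Matrix.det_vandermonde, norm_prod, ← Finset.prod_pow_eq_pow_sum]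
    apply Finset.prod_le_prod
    · intro i _
      exact norm_nonneg _
    · intro i _
      rw [norm_prod]
      calc ∏ j ∈ Finset.Ioi i, ‖ω j - ω i‖ ≤ ∏ _j ∈ Finset.Ioi i, (2 * H) := by
            apply Finset.prod_le_prod
            · intro j _
              exact norm_nonneg _
            · intro j _
              calc ‖ω j - ω i‖ ≤ ‖ω j‖ + ‖ω i‖ := norm_sub_le _ _
                _ ≤ 2 * H := by linarith [hω i, hω j]
        _ = _ := Finset.prod_const _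
  calc ‖(Matrix.vandermonde ω).det‖ * ‖(Matrix.vandermonde ω).det‖ ≤
      (2 * H) ^ (∑ i : Fin m, (Finset.Ioi i).card) * (2 * H) ^ (∑ i : Fin m, (Finset.Ioi i).card) :=
        mul_le_mul h0 h0 (norm_nonneg _) (by positivity)
    _ = (2 * H) ^ ((∑ i : Fin m, (Finset.Ioi i).card) * 2) := by
        rw [← pow_add, mul_two]
    _ ≤ (2 * H) ^ (m ^ 2) := pow_le_pow_right₀ (by linarith) (sum_card_Ioi m)

end Nrm

open Nrm

theorem norm_ge (O : Finset ℂ) (γ : ℂ → ℂ) (hγ : ∀ w ∈ O, γ w ≠ 0) (H : ℝ) (hH : 1 ≤ H)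
    (hO : ∀ w ∈ O, ‖w‖ ≤ H)
    (hint : ∀ k ≤ 2 * O.card, ∃ z : ℤ, ∑ w ∈ O, γ w * w ^ k = z) :
    1 ≤ (∏ w ∈ O, ‖γ w‖) * (2 * H) ^ (O.card ^ 2) := by
  classical
  set m := O.card with hm
  set ω : Fin m → ℂ := fun i => (O.equivFin.symm i : ℂ) with hω
  have hωO : ∀ i, ω i ∈ O := fun i => (O.equivFin.symm i).2
  have hinj : Function.Injective ω := fun i j h => O.equivFin.symm.injective (Subtype.ext h)
  have hsum : ∀ f : ℂ → ℂ, ∑ i, f (ω i) = ∑ w ∈ O, f w := by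
    intro f
    rw [← Finset.sum_coe_sort O f]
    exact Equiv.sum_comp O.equivFin.symm (fun w : O => f w)
  have hprod : ∏ i, ‖γ (ω i)‖ = ∏ w ∈ O, ‖γ w‖ := by
    rw [← Finset.prod_coe_sort O fun w => ‖γ w‖]
    exact Equiv.prod_comp O.equivFin.symm (fun w : O => ‖γ w‖)
  choose z hz using hint
  set Z : Matrix (Fin m) (Fin m) ℤ := fun b c => z ((b : ℕ) + (c : ℕ)) (by have := b.2; have := c.2; lia)
    with hZ
  have hM : (Matrix.vandermonde ω).transpose * Matrix.diagonal (fun i => γ (ω i)) *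
      Matrix.vandermonde ω = Z.map (Int.castRingHom ℂ) := by
    ext b c
    rw [Matrix.mul_apply, Matrix.map_apply, hZ]
    simp only [Matrix.mul_diagonal, Matrix.transpose_apply, Matrix.vandermonde_apply, eq_intCast]
    rw [← hz, ← hsum fun w => γ w * w ^ ((b : ℕ) + (c : ℕ))]
    apply Finset.sum_congr rfl
    intro i _
    rw [pow_add]
    ring
  have hdet := congrArg Matrix.det hM
  rw [Matrix.det_mul, Matrix.det_mul, Matrix.det_transpose, Matrix.det_diagonal, ← RingHom.mapMatrix_apply,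
    ← RingHom.map_det, eq_intCast] at hdet
  have hV0 : (Matrix.vandermonde ω).det ≠ 0 := Matrix.det_vandermonde_ne_zero_iff.2 hinj
  have hγ0 : ∏ i, γ (ω i) ≠ 0 := Finset.prod_ne_zero_iff.2 fun i _ => hγ _ (hωO i)
  have hZ0 : Z.det ≠ 0 := by
    intro h
    rw [h, Int.cast_zero] at hdet
    rcases mul_eq_zero.1 hdet with h | h
    · rcases mul_eq_zero.1 h with h | h
      · exact hV0 h
      · exact hγ0 h
    · exact hV0 h
  have h1 : (1 : ℝ) ≤ ‖((Z.det : ℤ) : ℂ)‖ := by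
    rw [Complex.norm_intCast]
    exact_mod_cast Int.one_le_abs hZ0
  rw [← hdet, norm_mul, norm_mul, norm_prod, hprod] at h1
  have h2 := det_vdm_le ω hH fun i => hO _ (hωO i)
  have h3 : 0 ≤ ∏ w ∈ O, ‖γ w‖ := Finset.prod_nonneg fun w _ => norm_nonneg _
  calc (1 : ℝ) ≤ ‖(Matrix.vandermonde ω).det‖ * (∏ w ∈ O, ‖γ w‖) * ‖(Matrix.vandermonde ω).det‖ := h1
    _ = (∏ w ∈ O, ‖γ w‖) * (‖(Matrix.vandermonde ω).det‖ * ‖(Matrix.vandermonde ω).det‖) := by ring
    _ ≤ _ := mul_le_mul_of_nonneg_left h2 h3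

end Pool.Agent.J4.H53.CI
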