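import Pool.Agent.J4.H53.CI.Kil

/-!
# Multiplicities of sums of roots are the same for conjugate numbers
-/

set_option autoImplicit false

open Polynomial Finset

namespace Pool.Agent.J4.H53.CI

namespace Wgt

open Kil

variable {r : ℕ}

/-- the sets with a given parity of the number of elements -/
def par (r b : ℕ) : Finset (Finset (Fin r)) := univ.filter fun S => S.card % 2 = b

/-- the generic polynomial of the sets of a given parity -/
noncomputable def genP (r b : ℕ) : (MvPolynomial (Fin r) ℤ)[X] :=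
  ∏ S ∈ par r b, (X - C (∑ i ∈ S, MvPolynomial.X i))

lemma genP_sym (b n : ℕ) : ((genP r b).coeff n).IsSymmetric := by
  intro σ
  have h1 : (MvPolynomial.rename σ) ((genP r b).coeff n) =
      ((genP r b).map (MvPolynomial.rename (R := ℤ) σ).toRingHom).coeff n := by
    rw [coeff_map]; rfl
  rw [h1]
  congr 1
  unfold genP
  rw [Polynomial.map_prod]
  refine Finset.prod_equiv (Equiv.finsetCongr σ) (fun S => ?_) fun S _ => ?_
  · simp [par, Equiv.finsetCongr_apply]
  · rw [Polynomial.map_sub, map_X, map_C]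
    congr 2
    simp [Equiv.finsetCongr_apply]

lemma exists_EP {P : ℤ[X]} {β : Fin r → ℂ}
    (hβ : P.map (Int.castRingHom ℂ) = ∏ i, (X - C (β i))) (b : ℕ) :
    ∃ E : ℤ[X], E.Monic ∧
      E.map (Int.castRingHom ℂ) = ∏ S ∈ par r b, (X - C (∑ i ∈ S, β i)) := by
  set D : ℂ[X] := ∏ S ∈ par r b, (X - C (∑ i ∈ S, β i)) with hD
  have hDg : D = (genP r b).map (MvPolynomial.aeval (R := ℤ) β).toRingHom := by
    rw [hD, genP, Polynomial.map_prod]
    refine Finset.prod_congr rfl fun S _ => ?_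
    rw [Polynomial.map_sub, map_X, map_C]
    congr 2
    simp
  have hDm : D.Monic := monic_prod_of_monic _ _ fun S _ => monic_X_sub_C _
  have hlift : D ∈ lifts (Int.castRingHom ℂ) := by
    rw [lifts_iff_coeff_lifts]
    intro n
    obtain ⟨z, hz⟩ := sym_int hβ _ (genP_sym (r := r) b n)
    refine ⟨z, ?_⟩
    rw [hDg, coeff_map]
    exact hz.symm
  obtain ⟨E, h1, h2, h3⟩ := lifts_and_natDegree_eq_and_monic hlift hDm
  exact ⟨E, h3, h1⟩

/-- a polynomial with the root `s` is divisible by `Q` -/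
lemma dvd_of_root {Q : ℤ[X]} (hQ : Q.Monic) (hirr : Irreducible Q) {s : ℂ}
    (hs : (Q.map (Int.castRingHom ℂ)).eval s = 0) (G : ℤ[X])
    (hG : (G.map (Int.castRingHom ℂ)).eval s = 0) : Q ∣ G := by
  have hQs : aeval s Q = 0 := by
    rw [aeval_def, ← eval_map]; exact hs
  have hGs' : aeval s G = 0 := by
    rw [aeval_def, ← eval_map]; exact hG
  have hint : IsIntegral ℤ s := ⟨Q, hQ, hQs⟩
  have h1 : minpoly ℤ s ∣ Q := minpoly.isIntegrallyClosed_dvd hint hQs
  have h2 : minpoly ℤ s ∣ G := minpoly.isIntegrallyClosed_dvd hint hGs'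
  have h3 : Associated (minpoly ℤ s) Q :=
    ((minpoly.irreducible hint).associated_of_dvd hirr h1)
  exact h3.symm.dvd.trans h2

lemma simple_root {Q : ℤ[X]} (hQ : Q.Monic) (hirr : Irreducible Q) {s : ℂ}
    (hs : (Q.map (Int.castRingHom ℂ)).eval s = 0) :
    (Q.map (Int.castRingHom ℂ)).rootMultiplicity s = 1 := by
  have hne : Q.map (Int.castRingHom ℂ) ≠ 0 := (hQ.map _).ne_zero
  have h1 : 0 < (Q.map (Int.castRingHom ℂ)).rootMultiplicity s := by
    rw [rootMultiplicity_pos hne]
    exact hs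
  have h2 : ¬ 1 < (Q.map (Int.castRingHom ℂ)).rootMultiplicity s := by
    rw [one_lt_rootMultiplicity_iff_isRoot hne]
    rintro ⟨-, h3⟩
    rw [derivative_map] at h3
    have h4 := dvd_of_root hQ hirr hs _ h3
    have hd : 0 < Q.natDegree := by
      rw [hQ.natDegree_pos]
      exact hirr.ne_one
    have h5 : derivative Q ≠ 0 := by
      intro h6
      have := natDegree_eq_zero_of_derivative_eq_zero h6
      omega
    have h6 := natDegree_le_of_dvd h4 h5
    have h7 := natDegree_derivative_lt hd.ne'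
    omega
  omega

open Classical in
lemma count_eq (β : Fin r → ℂ) (b : ℕ) (w : ℂ) :
    (∏ S ∈ par r b, (X - C (∑ i ∈ S, β i)) : ℂ[X]).rootMultiplicity w =
      ((par r b).filter fun S => ∑ i ∈ S, β i = w).card := by
  rw [← count_roots]
  have h1 : (∏ S ∈ par r b, (X - C (∑ i ∈ S, β i)) : ℂ[X]) =
      (((par r b).val.map fun S => ∑ i ∈ S, β i).map fun a => X - C a).prod := by
    rw [Multiset.map_map]
    rfl
  rw [h1, roots_multiset_prod_X_sub_C, Multiset.count_map]
  rw [Finset.card_def, Finset.filter_val]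
  congr 1
  exact Multiset.filter_congr fun S _ => eq_comm

open Classical in
lemma card_const {P Q : ℤ[X]} {β : Fin r → ℂ}
    (hβ : P.map (Int.castRingHom ℂ) = ∏ i, (X - C (β i)))
    (hQ : Q.Monic) (hirr : Irreducible Q) (b : ℕ) :
    ∃ m : ℕ, ∀ w : ℂ, (Q.map (Int.castRingHom ℂ)).eval w = 0 →
      ((par r b).filter fun S => ∑ i ∈ S, β i = w).card = m := by
  obtain ⟨E, hEm, hE⟩ := exists_EP hβ b
  have hQd : 0 < Q.degree := by
    rw [hQ.degree_pos]
    exact hirr.ne_one
  obtain ⟨G, hG, hnd⟩ := (finiteMultiplicity_of_degree_pos_of_monic hQd hQ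
    hEm.ne_zero).exists_eq_pow_mul_and_not_dvd
  set m := multiplicity Q E with hm
  refine ⟨m, fun w hw => ?_⟩
  have hGm : G.Monic := by
    have h1 : (Q ^ m * G).Monic := by rw [← hG]; exact hEm
    exact (hQ.pow m).of_mul_monic_left h1
  rw [← count_eq, ← hE, hG, Polynomial.map_mul, Polynomial.map_pow, rootMultiplicity_mul
    (mul_ne_zero (pow_ne_zero _ (hQ.map _).ne_zero) (hGm.map _).ne_zero)]
  have h1 : (G.map (Int.castRingHom ℂ)).rootMultiplicity w = 0 := by
    apply rootMultiplicity_eq_zero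
    intro h2
    exact hnd (dvd_of_root hQ hirr hw G h2)
  have h2 : (Q.map (Int.castRingHom ℂ) ^ m).rootMultiplicity w = m := by
    rw [← count_roots, roots_pow, Multiset.count_nsmul, count_roots, simple_root hQ hirr hw, mul_one]
  rw [h1, h2, add_zero]

end Wgt

open Wgt in
theorem weights (r : ℕ) (P Q : ℤ[X]) (β : Fin r → ℂ)
    (hβ : P.map (Int.castRingHom ℂ) = ∏ i, (X - C (β i)))
    (hQ : Q.Monic) (hirr : Irreducible Q) (u v : ℂ)
    (hu : (Q.map (Int.castRingHom ℂ)).eval u = 0) (hv : (Q.map (Int.castRingHom ℂ)).eval v = 0) :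
    ∑ S : Finset (Fin r), (if ∑ i ∈ S, β i = u then (-1 : ℂ) ^ S.card else 0) =
      ∑ S : Finset (Fin r), (if ∑ i ∈ S, β i = v then (-1 : ℂ) ^ S.card else 0) := by
  classical
  obtain ⟨m₀, h₀⟩ := card_const hβ hQ hirr 0
  obtain ⟨m₁, h₁⟩ := card_const hβ hQ hirr 1
  have key : ∀ w : ℂ, (Q.map (Int.castRingHom ℂ)).eval w = 0 →
      ∑ S : Finset (Fin r), (if ∑ i ∈ S, β i = w then (-1 : ℂ) ^ S.card else 0) = m₀ - m₁ := by
    intro w hw
    rw [← h₀ w hw, ← h₁ w hw, Finset.card_filter, Finset.card_filter]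
    unfold par
    rw [Finset.sum_filter, Finset.sum_filter]
    push_cast
    rw [← Finset.sum_sub_distrib]
    refine Finset.sum_congr rfl fun S _ => ?_
    rcases Nat.mod_two_eq_zero_or_one S.card with h | h
    · have he : Even S.card := Nat.even_iff.2 h
      by_cases hw' : ∑ i ∈ S, β i = w
      · simp [h, hw', he.neg_one_pow]
      · simp [h, hw']
    · have he : Odd S.card := Nat.odd_iff.2 h
      by_cases hw' : ∑ i ∈ S, β i = w
      · simp [h, hw', he.neg_one_pow]
      · simp [h, hw']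
  rw [key u hu, key v hv]

end Pool.Agent.J4.H53.CI
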