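import Pool.Agent.J4.H53.CI.CanA
import Pool.Agent.J4.H53.CI.Wgt
import Pool.Agent.J4.H53.CI.Nrm
import Pool.Agent.J4.H53.CI.Bic

set_option autoImplicit false

/-! # The canonical class: the norm of an integer valued polynomial -/

open Polynomial Finset

namespace Pool.Agent.J4.H53.CI

namespace Cut

open Tin

/-- the values of the binomial polynomial at the conjugates of the smallest non-integral Chern root -/
theorem norm_bound (r N K a : ℕ) (H : ℝ) (P Q : ℤ[X]) (β : Fin r → ℂ)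
    (hβ : P.map (Int.castRingHom ℂ) = ∏ i, (X - C (β i)))
    (hint : ∀ t : ℤ, ∃ z : ℤ, ∑ S : Finset (Fin r), (-1) ^ S.card *
      ((∏ j ∈ range N, ((t : ℂ) - ∑ i ∈ S, β i + j + 1)) / N.factorial) = z)
    (hn : ∀ i, ‖β i‖ ≤ H) (hH : 1 ≤ H) (hK : K + 2 * r + 2 ^ r ≤ N)
    (hQm : Q.Monic) (hQi : Irreducible Q) (hQP : Q ∣ P)
    (hQint : ∀ n : ℤ, (Q.map (Int.castRingHom ℂ)).eval (n : ℂ) ≠ 0)
    (s : ℂ) (hs : (Q.map (Int.castRingHom ℂ)).eval s = 0)
    (hw : ∑ S : Finset (Fin r), (if ∑ i ∈ S, β i = s then (-1 : ℂ) ^ S.card else 0) ≠ 0) :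
    1 ≤ (∏ w ∈ (Q.map (Int.castRingHom ℂ)).roots.toFinset,
        ‖aeval w ((Fun.bin K).comp (X + C (a : ℚ)))‖) *
      ((2 ^ r * ((r + 1) * H + 1) ^ (2 ^ r)) ^ r * (2 * H) ^ (r ^ 2)) := by
  classical
  have hPm : P.Monic := monic_of_injective (RingHom.injective_int (Int.castRingHom ℂ)) (by
    rw [hβ]
    exact monic_prod_of_monic _ _ fun i _ => monic_X_sub_C _)
  have hPd : P.natDegree = r := by
    have h1 := hPm.natDegree_map (Int.castRingHom ℂ)
    rw [hβ, natDegree_prod_of_monic _ _ fun i _ => monic_X_sub_C _] at h1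
    simp at h1
    exact h1.symm
  obtain ⟨G, hGd, hG1, hG2, hG3⟩ := killer2 r P Q hPm β hβ hQm hQi H hH hn
  set O := (Q.map (Int.castRingHom ℂ)).roots.toFinset with hO
  have hQ0 : Q.map (Int.castRingHom ℂ) ≠ 0 := (hQm.map _).ne_zero
  have hmemO : ∀ w : ℂ, w ∈ O ↔ (Q.map (Int.castRingHom ℂ)).eval w = 0 := by
    intro w
    rw [hO, Multiset.mem_toFinset, mem_roots hQ0]
    rfl
  have hOr : O.card ≤ r := by
    refine (Multiset.toFinset_card_le _).trans ?_
    refine (card_roots' _).trans ?_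
    rw [hQm.natDegree_map, ← hPd]
    exact natDegree_le_of_dvd hQP hPm.ne_zero
  have hOn : ∀ w ∈ O, ‖w‖ ≤ H := by
    intro w hwO
    have h1 : (P.map (Int.castRingHom ℂ)).eval w = 0 := by
      obtain ⟨R, hR⟩ := hQP
      rw [hR, Polynomial.map_mul, eval_mul, (hmemO w).1 hwO, zero_mul]
    rw [hβ, eval_prod, Finset.prod_eq_zero_iff] at h1
    obtain ⟨i, -, hi⟩ := h1
    rw [eval_sub, eval_X, eval_C, sub_eq_zero] at hi
    rw [hi]
    exact hn i
  set φ : ℚ[X] := (Fun.bin K).comp (X + C (a : ℚ)) with hφ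
  set W : ℂ → ℂ := fun w => ∑ S : Finset (Fin r),
    (if ∑ i ∈ S, β i = w then (-1 : ℂ) ^ S.card else 0) with hW
  set γ : ℂ → ℂ := fun w => W w * (aeval w φ * (G.map (Int.castRingHom ℂ)).eval w) with hγdef
  have hW0 : ∀ w ∈ O, W w ≠ 0 := by
    intro w hwO
    have h1 := weights r P Q β hβ hQm hQi w s ((hmemO w).1 hwO) hs
    change W w = W s at h1
    rw [h1]
    exact hw
  have hφ0 : ∀ w ∈ O, aeval w φ ≠ 0 := by
    intro w hwO
    have h3 : aeval w φ = (K.factorial : ℂ)⁻¹ * ∏ j ∈ range K, (w + a - j) := by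
      rw [hφ, aeval_comp, ← Fun.aeval_bin]
      congr 1
      simp
    rw [h3]
    apply mul_ne_zero
    · exact inv_ne_zero (by exact_mod_cast K.factorial_ne_zero)
    · rw [Finset.prod_ne_zero_iff]
      intro j _ h4
      apply hQint (j - a)
      have h5 : (((j : ℤ) - (a : ℤ) : ℤ) : ℂ) = w := by
        push_cast
        linear_combination -h4
      rw [h5]
      exact (hmemO w).1 hwO
  have hγ0 : ∀ w ∈ O, γ w ≠ 0 := fun w hwO =>
    mul_ne_zero (hW0 w hwO) (mul_ne_zero (hφ0 w hwO) (hG2 w ((hmemO w).1 hwO)))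
  -- the integers
  set f : ℕ → ℚ[X] := fun b => φ * X ^ b * G.map (Int.castRingHom ℚ) with hf
  have hφint : ∀ m : ℤ, ∃ z : ℤ, φ.eval (m : ℚ) = z := by
    intro m
    obtain ⟨z, hz⟩ := bin_int K (m + a)
    refine ⟨z, ?_⟩
    rw [hφ, eval_comp, eval_add, eval_X, eval_C, ← hz]
    push_cast
    rfl
  have hfint : ∀ (b : ℕ) (m : ℤ), ∃ z : ℤ, (f b).eval (m : ℚ) = z := by
    intro b m
    obtain ⟨z, hz⟩ := hφint m
    refine ⟨z * m ^ b * G.eval m, ?_⟩
    have h2 : (G.map (Int.castRingHom ℚ)).eval (m : ℚ) = ((G.eval m : ℤ) : ℚ) := by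
      rw [eval_map]
      simp
    rw [hf]
    simp only [eval_mul, eval_pow, eval_X]
    rw [hz, h2]
    push_cast
    rfl
  have hφd : φ.natDegree ≤ K := by
    rw [hφ]
    refine (natDegree_comp_le).trans ?_
    calc (Fun.bin K).natDegree * (X + C (a : ℚ)).natDegree ≤ K * 1 :=
          Nat.mul_le_mul (Fun.natDegree_bin K) (by rw [natDegree_X_add_C])
      _ = K := mul_one K
  have hfd : ∀ b ≤ 2 * r, (f b).natDegree ≤ N := by
    intro b hb
    rw [hf]
    refine (natDegree_mul_le).trans ?_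
    have h1 : (φ * X ^ b).natDegree ≤ K + b := by
      refine (natDegree_mul_le).trans ?_
      rw [natDegree_X_pow]
      omega
    have h2 : (G.map (Int.castRingHom ℚ)).natDegree ≤ 2 ^ r := (natDegree_map_le).trans hGd
    omega
  have haev : ∀ (b : ℕ) (w : ℂ), aeval w (f b) =
      aeval w φ * w ^ b * (G.map (Int.castRingHom ℂ)).eval w := by
    intro b w
    rw [hf]
    simp only [map_mul, map_pow, aeval_X]
    congr 1
    rw [aeval_def, eval₂_map, eval_map]
    congr 1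
  have hsum : ∀ k ≤ 2 * O.card, ∃ z : ℤ, ∑ w ∈ O, γ w * w ^ k = z := by
    intro k hk
    obtain ⟨z, hz⟩ := functional N r β hint (f k) (hfint k) (hfd k (by omega))
    refine ⟨z, ?_⟩
    rw [← hz]
    have h1 : ∀ w ∈ O, γ w * w ^ k = ∑ S : Finset (Fin r),
        (if ∑ i ∈ S, β i = w then (-1 : ℂ) ^ S.card * aeval w (f k) else 0) := by
      intro w _
      rw [hγdef]
      simp only
      rw [hW]
      simp only
      rw [mul_assoc, Finset.sum_mul]
      refine Finset.sum_congr rfl fun S _ => ?_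
      split_ifs
      · rw [haev]; ring
      · rw [zero_mul]
    rw [Finset.sum_congr rfl h1, Finset.sum_comm]
    refine Finset.sum_congr rfl fun S _ => ?_
    by_cases hS : ∑ i ∈ S, β i ∈ O
    · rw [Finset.sum_ite_eq O (∑ i ∈ S, β i) (fun w => (-1 : ℂ) ^ S.card * aeval w (f k)), if_pos hS]
    · rw [Finset.sum_ite_eq O (∑ i ∈ S, β i) (fun w => (-1 : ℂ) ^ S.card * aeval w (f k)),
        if_neg hS, haev, hG1 S (fun h => hS ((hmemO _).2 h)), mul_zero, mul_zero]
  have h1 := norm_ge O γ hγ0 H hH hOn hsum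
  set A : ℝ := 2 ^ r * ((r + 1) * H + 1) ^ (2 ^ r) with hA
  have hA1 : 1 ≤ A := by
    have e1 : (1 : ℝ) ≤ 2 ^ r := one_le_pow₀ (by norm_num)
    have e2 : (1 : ℝ) ≤ ((r + 1) * H + 1) ^ (2 ^ r) := by
      apply one_le_pow₀
      have : (0 : ℝ) ≤ (r + 1) * H := by positivity
      linarith
    calc (1 : ℝ) = 1 * 1 := by ring
      _ ≤ _ := mul_le_mul e1 e2 (by norm_num) (by positivity)
  have hγle : ∀ w ∈ O, ‖γ w‖ ≤ A * ‖aeval w φ‖ := by
    intro w hwO
    have e1 : ‖W w‖ ≤ 2 ^ r := by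
      rw [hW]
      refine (norm_sum_le _ _).trans ?_
      calc ∑ S : Finset (Fin r), ‖(if ∑ i ∈ S, β i = w then (-1 : ℂ) ^ S.card else 0)‖
          ≤ ∑ _S : Finset (Fin r), (1 : ℝ) := by
            refine Finset.sum_le_sum fun S _ => ?_
            split_ifs
            · rw [norm_pow, norm_neg, norm_one, one_pow]
            · rw [norm_zero]; norm_num
        _ = 2 ^ r := by simp
    have e2 : ‖(G.map (Int.castRingHom ℂ)).eval w‖ ≤ ((r + 1) * H + 1) ^ (2 ^ r) := by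
      refine (hG3 w).trans ?_
      apply pow_le_pow_left₀ (by positivity)
      have := hOn w hwO
      linarith
    rw [hγdef]
    simp only
    rw [norm_mul, norm_mul]
    calc ‖W w‖ * (‖aeval w φ‖ * ‖(G.map (Int.castRingHom ℂ)).eval w‖)
        ≤ 2 ^ r * (‖aeval w φ‖ * ((r + 1) * H + 1) ^ (2 ^ r)) := by
          apply mul_le_mul e1 _ (by positivity) (by positivity)
          exact mul_le_mul_of_nonneg_left e2 (norm_nonneg _)
      _ = A * ‖aeval w φ‖ := by rw [hA]; ring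
  have h2 : ∏ w ∈ O, ‖γ w‖ ≤ A ^ r * ∏ w ∈ O, ‖aeval w φ‖ := by
    calc ∏ w ∈ O, ‖γ w‖ ≤ ∏ w ∈ O, (A * ‖aeval w φ‖) :=
          Finset.prod_le_prod (fun _ _ => norm_nonneg _) hγle
      _ = A ^ O.card * ∏ w ∈ O, ‖aeval w φ‖ := by
          rw [Finset.prod_mul_distrib, Finset.prod_const]
      _ ≤ _ := by
          apply mul_le_mul_of_nonneg_right _ (Finset.prod_nonneg fun _ _ => norm_nonneg _)
          exact pow_le_pow_right₀ hA1 hOr
  have h3 : (2 * H) ^ (O.card ^ 2) ≤ (2 * H) ^ (r ^ 2) := by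
    apply pow_le_pow_right₀ (by linarith)
    exact Nat.pow_le_pow_left hOr 2
  calc 1 ≤ (∏ w ∈ O, ‖γ w‖) * (2 * H) ^ (O.card ^ 2) := h1
    _ ≤ (A ^ r * ∏ w ∈ O, ‖aeval w φ‖) * (2 * H) ^ (r ^ 2) := by
        apply mul_le_mul h2 h3 (by positivity)
        exact mul_nonneg (by positivity) (Finset.prod_nonneg fun _ _ => norm_nonneg _)
    _ = _ := by ring

/-- the value of the binomial polynomial at a large root -/
lemma large_value (K V a M : ℕ) (s : ℂ) (h1 : (K : ℝ) ≤ s.re + a) (h2 : s.re + a + V ≤ M)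
    (hV : |s.im| ≤ V) :
    ‖aeval s ((Fun.bin K).comp (X + C (a : ℚ)))‖ ≤ (M.choose K : ℝ) := by
  set s' : ℂ := s + a with hs'
  have hre : s'.re = s.re + a := by simp [hs']
  have him : s'.im = s.im := by simp [hs']
  have h3 : aeval s ((Fun.bin K).comp (X + C (a : ℚ))) =
      (K.factorial : ℂ)⁻¹ * ∏ j ∈ range K, (s' - j) := by
    rw [aeval_comp, ← Fun.aeval_bin]
    congr 1
    simp [hs']
  have hK0 : (0 : ℝ) < K.factorial := by exact_mod_cast K.factorial_pos
  have hV0 : (0 : ℝ) ≤ V := Nat.cast_nonneg _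
  have hKM : (K : ℝ) ≤ M := by linarith
  have h4 : ‖∏ j ∈ range K, (s' - j)‖ ≤ ((M.descFactorial K : ℕ) : ℝ) := by
    rw [norm_prod, Nat.descFactorial_eq_prod_range]
    push_cast
    refine Finset.prod_le_prod (fun _ _ => norm_nonneg _) fun j hj => ?_
    have hjK : j < K := mem_range.1 hj
    have hjK' : (j : ℝ) ≤ K := by exact_mod_cast hjK.le
    have hjM : j ≤ M := by
      have : (j : ℝ) ≤ M := hjK'.trans hKM
      exact_mod_cast this
    rw [Nat.cast_sub hjM]
    refine (Complex.norm_le_abs_re_add_abs_im _).trans ?_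
    have e1 : (s' - j).re = s.re + a - j := by simp [hs']
    have e2 : (s' - j).im = s.im := by simp [hs']
    rw [e1, e2, abs_of_nonneg (by linarith)]
    linarith
  rw [h3, norm_mul, norm_inv, Complex.norm_natCast, inv_mul_le_iff₀ hK0]
  refine h4.trans ?_
  rw [Nat.descFactorial_eq_factorial_mul_choose]
  push_cast
  exact le_rfl

end Cut

end Pool.Agent.J4.H53.CI
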