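import Pool.Agent.J4.H53.CI.CanC
import Pool.Agent.J4.H53.CI.CanD

set_option autoImplicit false

/-! # Small canonical class: the theorem -/

open Polynomial Finset Filter

namespace Pool.Agent.J4.H53.CI

namespace Can

open Pool.Agent.N17.HC Cut

/-- exponential decay -/
lemma decay (k : ℕ) (C q : ℝ) (hq0 : 0 < q) (hq1 : q < 1) :
    ∀ᶠ N : ℕ in atTop, C * (N : ℝ) ^ k * q ^ (N : ℝ) < 1 := by
  have h1 := tendsto_pow_const_mul_const_pow_of_abs_lt_one k (r := q)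
    (by rw [abs_of_pos hq0]; exact hq1)
  have h2 := h1.const_mul C
  rw [mul_zero] at h2
  filter_upwards [h2.eventually (gt_mem_nhds one_pos)] with N hN
  rw [Real.rpow_natCast, mul_assoc]
  exact hN

/-- the inequality of the binomial coefficients, real version -/
lemma binom_real (K a b : ℕ) (h1 : b ≤ 2 * a) (h2 : 2 * a ≤ K) (hK : 1 ≤ K) (q : ℝ)
    (hq : (b : ℝ) ≤ (2 * q - 1) * K) :
    ((K + b).choose K : ℝ) ≤ ((K.choose a : ℕ) : ℝ) ^ 2 * (2 * a + 1) * q ^ b := by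
  have h := binom_ineq K a b h1 h2
  have hr : (((K + b).choose b : ℕ) : ℝ) * (2 * K) ^ b ≤
      ((K.choose a : ℕ) : ℝ) ^ 2 * (2 * a + 1) * (K + b) ^ b := by exact_mod_cast h
  have hK0 : (0 : ℝ) < K := by exact_mod_cast hK
  have hsym : (K + b).choose K = (K + b).choose b := by
    rw [← Nat.choose_symm_add]
  rw [hsym]
  have h2K : (0 : ℝ) < (2 * K : ℝ) ^ b := by positivity
  rw [← mul_le_mul_iff_left₀ h2K]
  refine hr.trans ?_
  have h3 : ((K : ℝ) + b) ^ b ≤ (q * (2 * K)) ^ b := by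
    apply pow_le_pow_left₀ (by positivity)
    linarith
  rw [mul_pow] at h3
  calc ((K.choose a : ℕ) : ℝ) ^ 2 * (2 * a + 1) * (K + b) ^ b
      ≤ ((K.choose a : ℕ) : ℝ) ^ 2 * (2 * a + 1) * (q ^ b * (2 * K) ^ b) :=
        mul_le_mul_of_nonneg_left h3 (by positivity)
    _ = _ := by ring

/-- The conclusion for factors of degree at least three. -/
theorem no_large_factor (r N V K a b : ℕ) (ε q : ℝ) (P Q : ℤ[X]) (β : Fin r → ℂ)
    (hβ : P.map (Int.castRingHom ℂ) = ∏ i, (X - C (β i)))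
    (hint : ∀ t : ℤ, ∃ z : ℤ, ∑ S : Finset (Fin r), (-1) ^ S.card *
      ((∏ j ∈ range N, ((t : ℂ) - ∑ i ∈ S, β i + j + 1)) / N.factorial) = z)
    (hre : ∀ i, 0 < (β i).re) (hV : ∀ i, |(β i).im| ≤ V)
    (hn : ∀ i, ‖β i‖ ≤ 4 * N) (hN1 : 1 ≤ N) (hK : K + 2 * r + 2 ^ r ≤ N) (hK1 : 1 ≤ K)
    (hQm : Q.Monic) (hQi : Irreducible Q) (hQP : Q ∣ P)
    (hQint : ∀ n : ℤ, (Q.map (Int.castRingHom ℂ)).eval (n : ℂ) ≠ 0)
    (s : ℂ) (hs : (Q.map (Int.castRingHom ℂ)).eval s = 0)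
    (hw : ∑ S : Finset (Fin r), (if ∑ i ∈ S, β i = s then (-1 : ℂ) ^ S.card else 0) ≠ 0)
    (hQd : 3 ≤ Q.natDegree) (i₀ : Fin r) (hi₀ : (Q.map (Int.castRingHom ℂ)).eval (β i₀) = 0)
    (x : ℕ) (hx : ∀ j, j ≠ i₀ → (β j).re ≤ x) (hxa : x + 2 * a + 1 ≤ K)
    (hb1 : b ≤ 2 * a) (hbq : (b : ℝ) ≤ (2 * q - 1) * K) (hq0 : 0 ≤ q)
    (hKa : (K : ℝ) ≤ (β i₀).re + a) (hM : (β i₀).re + a + V ≤ ((K + b : ℕ) : ℝ))
    (hBC : ((2 * N : ℝ) ^ (2 * V + 1)) ≤ (K.choose a : ℝ)) (hVN : V + 1 ≤ N) :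
    1 ≤ ((2 * N : ℝ) ^ (2 * V + 1)) ^ 2 * (2 * a + 1) * q ^ b *
      ((2 ^ r * ((r + 1) * (4 * N) + 1) ^ (2 ^ r)) ^ r * (2 * (4 * N)) ^ (r ^ 2)) := by
  classical
  have h2pow : 0 < 2 ^ r := by positivity
  have hNr1 : (1 : ℝ) ≤ N := by exact_mod_cast hN1
  have h1 := norm_bound r N K a (4 * N) P Q β hβ hint hn (by linarith) hK hQm hQi hQP hQint s hs hw
  refine h1.trans ?_
  apply mul_le_mul_of_nonneg_right _ (by positivity)
  set O := (Q.map (Int.castRingHom ℂ)).roots.toFinset with hO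
  have hQ0 : Q.map (Int.castRingHom ℂ) ≠ 0 := (hQm.map _).ne_zero
  have hmemO : ∀ w : ℂ, w ∈ O ↔ (Q.map (Int.castRingHom ℂ)).eval w = 0 := by
    intro w
    rw [hO, Multiset.mem_toFinset, mem_roots hQ0]
    rfl
  have hnd := nodup_rootsOf Q hQm hQi
  have hcard : O.card = Q.natDegree := by
    exact (Multiset.toFinset_card_of_nodup (m := (Q.map (Int.castRingHom ℂ)).roots) hnd).trans
      (FIN.card_rootsOf Q)
  set φ : ℚ[X] := (Fun.bin K).comp (X + C (a : ℚ)) with hφ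
  set B : ℝ := (2 * N : ℝ) ^ (2 * V + 1) with hB
  have hB0 : 0 < B := by positivity
  have hCh : (0 : ℝ) < K.choose a := lt_of_lt_of_le hB0 hBC
  have hmem₀ : β i₀ ∈ O := (hmemO _).2 hi₀
  have hsmall : ∀ w ∈ O.erase (β i₀), ‖aeval w φ‖ ≤ B / K.choose a := by
    intro w hw
    obtain ⟨hne, hwO⟩ := Finset.mem_erase.1 hw
    have h2 : (P.map (Int.castRingHom ℂ)).eval w = 0 := by
      obtain ⟨R, hR⟩ := hQP
      rw [hR, Polynomial.map_mul, eval_mul, (hmemO w).1 hwO, zero_mul]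
    rw [hβ, eval_prod, Finset.prod_eq_zero_iff] at h2
    obtain ⟨j, -, hj⟩ := h2
    rw [eval_sub, eval_X, eval_C, sub_eq_zero] at hj
    have hji : j ≠ i₀ := fun h => hne (by rw [hj, h])
    have h3 := small K V a x w (by rw [hj]; exact hre j) (by rw [hj]; exact hx j hji)
      (by rw [hj]; exact hV j) hxa
    rw [← hφ, ← le_div_iff₀ hCh] at h3
    refine h3.trans (div_le_div_of_nonneg_right ?_ hCh.le)
    rw [hB]
    apply pow_le_pow_left₀ (by positivity)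
    have h5 : (K : ℝ) ≤ N := by exact_mod_cast (by omega : K ≤ N)
    have h6 : (V : ℝ) + 1 ≤ N := by exact_mod_cast hVN
    linarith
  have hlarge : ‖aeval (β i₀) φ‖ ≤ ((K + b).choose K : ℝ) :=
    large_value K V a (K + b) (β i₀) hKa hM (hV i₀)
  have hprod : ∏ w ∈ O.erase (β i₀), ‖aeval w φ‖ ≤ (B / K.choose a) ^ 2 := by
    have e1 : ∏ w ∈ O.erase (β i₀), ‖aeval w φ‖ ≤ ∏ _w ∈ O.erase (β i₀), (B / K.choose a) :=
      Finset.prod_le_prod (fun _ _ => norm_nonneg _) hsmall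
    rw [Finset.prod_const, Finset.card_erase_of_mem hmem₀, hcard] at e1
    refine e1.trans ?_
    apply pow_le_pow_of_le_one (by positivity)
    · rw [div_le_one hCh]
      exact hBC
    · omega
  rw [← Finset.mul_prod_erase O _ hmem₀]
  have h4 := binom_real K a b hb1 (by omega) hK1 q hbq
  calc ‖aeval (β i₀) φ‖ * ∏ w ∈ O.erase (β i₀), ‖aeval w φ‖
      ≤ ((K + b).choose K : ℝ) * (B / K.choose a) ^ 2 :=
        mul_le_mul hlarge hprod (Finset.prod_nonneg fun _ _ => norm_nonneg _) (by positivity)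
    _ ≤ (((K.choose a : ℕ) : ℝ) ^ 2 * (2 * a + 1) * q ^ b) * (B / K.choose a) ^ 2 :=
        mul_le_mul_of_nonneg_right h4 (by positivity)
    _ = B ^ 2 * (2 * a + 1) * q ^ b := by field_simp

end Can

end Pool.Agent.J4.H53.CI
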