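import Pool.Agent.J4.H53.CI.CanE

set_option autoImplicit false

/-! # Small canonical class: the theorem -/

open Polynomial Finset Filter

namespace Pool.Agent.J4.H53.CI

namespace Can

open Pool.Agent.N17.HC Cut Tin

set_option maxHeartbeats 1000000 in
theorem canonical2 (hK : S_KOS) (hL : S_LSP) (hC : S_CUB) (hM2 : S_M2) (r : ℕ) (ε : ℝ)
    (hε : 0 < ε) (hε1 : ε ≤ 1 / 2) : ∀ᶠ N : ℕ in atTop, ∀ (P : ℤ[X]) (β : Fin r → ℂ),
    P.map (Int.castRingHom ℂ) = ∏ i, (X - C (β i)) →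
    (∀ (l : ℕ) (lam : Fin l → ℕ), Monotone lam → (∀ i, lam i ≤ r) →
      ∑ i, lam i + r ≤ N →
      0 < Matrix.det (fun i j : Fin l => if (j : ℕ) ≤ lam i + i then
        (if lam i + i - j ≤ r then (-1) ^ (lam i + i - (j : ℕ)) * P.coeff (r - (lam i + i - j))
          else 0) else 0)) →
    (∀ i, 0 ≤ (-1) ^ (r - i) * (P.comp (X + 1)).coeff i) →
    (∀ t : ℤ, ∃ z : ℤ, ∑ S : Finset (Fin r), (-1) ^ S.card *
      ((∏ j ∈ range N, ((t : ℂ) - ∑ i ∈ S, β i + j + 1)) / N.factorial) = z) →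
    (∀ t : ℤ, ∃ z : ℤ, ∑ k, ∑ S : Finset (Fin r), (-1) ^ S.card *
      ((∏ j ∈ range N, ((t : ℂ) - β k - ∑ i ∈ S, β i + j + 1)) / N.factorial) = z) →
    ∑ i, (β i).re ≤ (3 / 2 - ε) * N + 1 →
    ∀ i, ∃ n : ℤ, β i = n := by
  rcases Nat.eq_zero_or_pos r with hr0 | hr
  · subst hr0
    exact Filter.Eventually.of_forall fun N P β _ _ _ _ _ _ i => i.elim0
  obtain ⟨a₀, C₀, hbig⟩ := big2 r (26 * r ^ 2)
  set V : ℕ := 26 * r ^ 2 with hVdef
  set C₁ : ℕ := 2 * a₀ + 1 + r + 2 ^ r with hC₁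
  set c₂ : ℕ := 2 * r + 2 ^ r with hc₂
  set q : ℝ := 1 - ε / 4 with hq
  have hq0 : 0 < q := by rw [hq]; linarith
  have hq1 : q < 1 := by rw [hq]; linarith
  have hrr : (1 : ℝ) ≤ r := by exact_mod_cast hr
  have h2pow : 0 < 2 ^ r := by positivity
  -- the conditions on `N`
  set Cst : ℝ := 2 ^ (4 * V + 2) * ((2 ^ r * (4 * r + 5 : ℝ) ^ (2 ^ r)) ^ r * 8 ^ (r ^ 2)) with hCst
  set k₀ : ℕ := (4 * V + 2) + 1 + (2 ^ r * r + r ^ 2) with hk₀
  have ev1 := decay k₀ Cst (q ^ (1 / 8 : ℝ)) (by positivity)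
    (Real.rpow_lt_one hq0.le hq1 (by norm_num))
  have ev2 := decay (2 * V + 1) (2 ^ (2 * V + 1)) ((1 / 2 : ℝ) ^ (1 / 8 : ℝ)) (by positivity)
    (Real.rpow_lt_one (by norm_num) (by norm_num) (by norm_num))
  have ev3 : ∀ᶠ N : ℕ in atTop, (16 : ℝ) < (N : ℝ) ^ (1 / 2 : ℝ) :=
    ((tendsto_rpow_atTop (by norm_num : (0 : ℝ) < 1 / 2)).comp
      tendsto_natCast_atTop_atTop).eventually_gt_atTop _
  have ev4 : ∀ᶠ N : ℕ in atTop, 3 * (c₂ : ℝ) + 2 * V + 7 ≤ ε * N :=
    (tendsto_natCast_atTop_atTop.const_mul_atTop hε).eventually_ge_atTop _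
  filter_upwards [main hK hL hC hM2 r ((3 * r : ℕ) : ℝ) (1 / 8) (Nat.cast_nonneg _)
    (by norm_num), ev1, ev2, ev3, ev4, eventually_ge_atTop
    (C₀ + 20 * C₁ + 20 * c₂ + V + 6 * r ^ 2 + 2 * r + 100)]
    with N hmain hd1 hd2 h16 h4 hN P β hβ hschur hpos hint hcon hsum
  by_contra hnot
  push Not at hnot
  have hN' : C₀ + 20 * C₁ + 20 * c₂ + V + 6 * r ^ 2 + 2 * r + 100 ≤ N := hN
  clear hN
  have hN2 : (2 : ℝ) ≤ N := by exact_mod_cast (by omega : 2 ≤ N)
  have hN1 : (1 : ℝ) ≤ N := by linarith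
  have hN0 : (0 : ℝ) < N := by linarith
  have hεN : ε * N ≤ 1 / 2 * N := mul_le_mul_of_nonneg_right hε1 hN0.le
  have hεN0 : 0 < ε * N := by positivity
  have hinj : Function.Injective (Int.castRingHom ℂ) := RingHom.injective_int (Int.castRingHom ℂ)
  have hPm : P.Monic := monic_of_injective hinj (by
    rw [hβ]
    exact monic_prod_of_monic _ _ fun i _ => monic_X_sub_C _)
  have hPd : P.natDegree = r := by
    have h1 := hPm.natDegree_map (Int.castRingHom ℂ)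
    rw [hβ, natDegree_prod_of_monic _ _ fun i _ => monic_X_sub_C _] at h1
    simp at h1
    exact h1.symm
  have hsec := chern_roots r N hr (by omega) (by omega) P β hβ hschur
  set c := ∑ i, (β i).re with hc
  have hc2 : c ≤ 2 * N := by nlinarith
  have hre : ∀ i, (β i).re ≤ c := fun i =>
    Finset.single_le_sum (f := fun j => (β j).re) (fun j _ => (hsec j).1.le) (mem_univ i)
  have hnorm : ∀ i, ‖β i‖ ≤ 4 * N := fun i => (hsec i).2.1.trans (by linarith [hre i])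
  have hV : ∀ i, |(β i).im| ≤ (V : ℝ) := by
    intro i
    have h1 := (hsec i).2.2
    have h2 : |(β i).im| * N ≤ (26 * r ^ 2) * N :=
      h1.trans (by
        calc 13 * (r : ℝ) ^ 2 * (β i).re ≤ 13 * r ^ 2 * (2 * N) :=
              mul_le_mul_of_nonneg_left ((hre i).trans hc2) (by positivity)
          _ = _ := by ring)
    rw [hVdef]
    push_cast
    exact le_of_mul_le_mul_right h2 hN0
  obtain ⟨Q, hQm, hQi, hQP, hQd, ⟨i₀, hi₀, hQi₀⟩, hQint, s, hs, hw⟩ :=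
    exists_large r N (N - C₁) V a₀
    (4 * N) P β hβ hint (fun i => (hsec i).1) hV hnorm (by linarith) (by omega) (by omega)
    (hbig N (by omega)) hnot
  set R := (β i₀).re with hR
  have hR1 : (N : ℝ) - C₁ < R := by
    rw [Nat.cast_sub (by omega)] at hi₀
    exact hi₀
  have hRc : R ≤ c := hre i₀
  -- the degree
  have hP0 : |((P.coeff 0 : ℤ) : ℝ)| ≤ (N : ℝ) ^ (((3 * r : ℕ) : ℝ)) := by
    have h1 : ((P.coeff 0 : ℤ) : ℂ) = ∏ i, (- β i) := by
      have h2 : (P.map (Int.castRingHom ℂ)).eval 0 = ((P.coeff 0 : ℤ) : ℂ) := by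
        rw [← coeff_zero_eq_eval_zero, coeff_map]
        rfl
      rw [← h2, hβ, eval_prod]
      exact Finset.prod_congr rfl fun i _ => by simp
    have h2 : |((P.coeff 0 : ℤ) : ℝ)| = ‖((P.coeff 0 : ℤ) : ℂ)‖ := by
      rw [Complex.norm_intCast]
    rw [h2, h1, norm_prod, Real.rpow_natCast, pow_mul]
    calc ∏ i, ‖-β i‖ ≤ ∏ _i : Fin r, (4 * N : ℝ) := by
          apply Finset.prod_le_prod (fun _ _ => norm_nonneg _)
          intro i _
          rw [norm_neg]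
          exact hnorm i
      _ = (4 * N : ℝ) ^ r := by simp
      _ ≤ ((N : ℝ) ^ 3) ^ r := by
          apply pow_le_pow_left₀ (by positivity)
          have h4 : (4 : ℝ) ≤ N * N := by nlinarith
          calc (4 * N : ℝ) ≤ (N * N) * N := mul_le_mul_of_nonneg_right h4 hN0.le
            _ = (N : ℝ) ^ 3 := by ring
  rcases Nat.lt_or_ge Q.natDegree 3 with hlt | hge
  · -- quadratic factors
    obtain ⟨hm1, -⟩ := hmain P hPm hPd hpos
      (fun t => by
        obtain ⟨z, hz⟩ := hint t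
        exact ⟨z, by rw [kos_eq' hβ]; exact hz⟩)
      (fun t => by
        obtain ⟨z, hz⟩ := hcon t
        refine ⟨z, ?_⟩
        rw [← hz]
        have h1 : ((rootsOf P).map fun b => kos N (rootsOf P) (N + t - b)) =
            (univ.val.map β).map fun b => kos N (rootsOf P) (N + t - b) := by
          rw [rootsOf_eq hβ]
        rw [h1, Multiset.map_map]
        change ∑ k, kos N (rootsOf P) (N + t - β k) = _
        refine Finset.sum_congr rfl fun k _ => ?_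
        rw [add_sub_assoc, kos_eq' hβ])
      hP0 Q hQm hQi hQP
    have hmem₀ : β i₀ ∈ rootsOf Q := by
      rw [rootsOf, mem_roots (hQm.map _).ne_zero]
      exact hQi₀
    have hcard : Multiset.card (rootsOf Q) = Q.natDegree := FIN.card_rootsOf Q
    have hall : ∀ b ∈ rootsOf Q, ‖b‖ ≤ 4 * N := by
      intro b hb
      rw [rootsOf, mem_roots (hQm.map _).ne_zero, IsRoot.def] at hb
      have h1 : (P.map (Int.castRingHom ℂ)).eval b = 0 := by
        obtain ⟨R, hR⟩ := hQP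
        rw [hR, Polynomial.map_mul, eval_mul, hb, zero_mul]
      rw [hβ, eval_prod, Finset.prod_eq_zero_iff] at h1
      obtain ⟨j, -, hj⟩ := h1
      rw [eval_sub, eval_X, eval_C, sub_eq_zero] at hj
      rw [hj]
      exact hnorm j
    have hd2 : Q.natDegree = 2 := by omega
    have h1 := hm1 0
    have h2 : mah Q 0 ≤ (4 * N) * (4 * N) ^ (Multiset.card (rootsOf Q) - 1) := by
      unfold mah
      apply prod_roots (rootsOf Q) (β i₀) hmem₀
      · intro b
        positivity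
      · intro b hb
        rw [Int.cast_zero, sub_zero]
        exact max_le (by linarith) (hall b (Multiset.mem_of_mem_erase hb))
      · rw [Int.cast_zero, sub_zero]
        exact max_le (by linarith) (hnorm i₀)
      · linarith
    rw [hcard, hd2] at h2
    rw [hd2] at h1
    have h3 : (N : ℝ) ^ (2.5 : ℝ) ≤ (N : ℝ) ^ (cost 2 - 1 / 8) := by
      apply Real.rpow_le_rpow_of_exponent_le hN1
      have := FIN.exp_lb
      unfold cost
      norm_num at this ⊢
      linarith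
    have h4' : (N : ℝ) ^ (2.5 : ℝ) = N * N * (N : ℝ) ^ (1 / 2 : ℝ) := by
      rw [show (2.5 : ℝ) = 1 + 1 + 1 / 2 by norm_num, Real.rpow_add hN0, Real.rpow_add hN0,
        Real.rpow_one]
    have h5 : (N : ℝ) * N * (N : ℝ) ^ (1 / 2 : ℝ) ≤ (4 * N) * (4 * N) := by
      rw [← h4']
      refine h3.trans (h1.trans ?_)
      simpa using h2
    have h7 : (N : ℝ) * N * 16 < N * N * (N : ℝ) ^ (1 / 2 : ℝ) :=
      mul_lt_mul_of_pos_left h16 (by positivity)
    linarith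
  · -- factors of larger degree
    set K : ℕ := N - c₂ with hKdef
    have hKc : K + c₂ = N := by omega
    have hKr : (K : ℝ) + c₂ = N := by exact_mod_cast hKc
    set x : ℕ := ⌈c - R⌉₊ with hx
    have hx1 : c - R ≤ x := Nat.le_ceil _
    have hx2 : (x : ℝ) < c - R + 1 := Nat.ceil_lt_add_one (by linarith)
    have hc20 : (0 : ℝ) ≤ c₂ := Nat.cast_nonneg _
    have hC10 : (0 : ℝ) ≤ C₁ := Nat.cast_nonneg _
    have hV0 : (0 : ℝ) ≤ V := Nat.cast_nonneg _
    have hNbig : 20 * (C₁ : ℝ) + 20 * c₂ + V + 100 ≤ N := by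
      exact_mod_cast (by omega : 20 * C₁ + 20 * c₂ + V + 100 ≤ N)
    have hxK' : (x : ℝ) + 1 ≤ K := by
      have : (1 / 2 : ℝ) * N - ε * N + C₁ + 3 ≤ N - c₂ := by linarith
      have e1 : (3 / 2 - ε) * (N : ℝ) = 3 / 2 * N - ε * N := by ring
      rw [e1] at hsum
      linarith
    have hxK : x + 1 ≤ K := by exact_mod_cast hxK'
    set a : ℕ := (K - x - 1) / 2 with ha
    have ha1 : x + 2 * a + 1 ≤ K := by omega
    have ha2 : K ≤ x + 2 * a + 2 := by omega
    have ha1' : (x : ℝ) + 2 * a + 1 ≤ K := by exact_mod_cast ha1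
    have ha2' : (K : ℝ) ≤ x + 2 * a + 2 := by exact_mod_cast ha2
    have e1 : (3 / 2 - ε) * (N : ℝ) = 3 / 2 * N - ε * N := by ring
    rw [e1] at hsum
    set y : ℕ := ⌈R⌉₊ with hy
    have hRpos : 0 < R := (hsec i₀).1
    have hy1 : R ≤ y := Nat.le_ceil _
    have hy2 : (y : ℝ) < R + 1 := Nat.ceil_lt_add_one hRpos.le
    have haC : (C₁ : ℝ) ≤ a := by linarith
    have hKy' : (K : ℝ) ≤ y + V + a := by linarith
    have hKy : K ≤ y + V + a := by exact_mod_cast hKy'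
    set b : ℕ := y + V + a - K with hb
    have hKb : K + b = y + V + a := by omega
    have hKb' : (K : ℝ) + b = y + V + a := by exact_mod_cast hKb
    have hb1 : b ≤ 2 * a := by
      have : (b : ℝ) ≤ 2 * a := by linarith
      exact_mod_cast this
    have hbq : (b : ℝ) ≤ (2 * q - 1) * K := by
      have e2 : (2 * q - 1) * (K : ℝ) = K - ε / 2 * K := by rw [hq]; ring
      have e3 : ε / 2 * (K : ℝ) ≤ ε / 2 * N := by
        apply mul_le_mul_of_nonneg_left _ (by linarith)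
        linarith
      rw [e2]
      have e4 : ε / 2 * (N : ℝ) = (ε * N) / 2 := by ring
      rw [e4] at e3
      linarith
    have hb8 : (N : ℝ) * (1 / 8) ≤ b := by linarith
    have hBC : ((2 * N : ℝ) ^ (2 * V + 1)) ≤ (K.choose a : ℝ) := by
      have e2 : (2 : ℝ) ^ a ≤ (K.choose a : ℝ) := by
        exact_mod_cast two_pow_le_choose a K (by omega)
      have e3 : (N : ℝ) * (1 / 8) ≤ a := by linarith
      have e4 : (2 : ℝ) ^ ((N : ℝ) * (1 / 8)) ≤ 2 ^ a := by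
        rw [← Real.rpow_natCast]
        exact Real.rpow_le_rpow_of_exponent_le (by norm_num) e3
      have e5 : ((1 / 2 : ℝ) ^ (1 / 8 : ℝ)) ^ (N : ℝ) * (2 : ℝ) ^ ((N : ℝ) * (1 / 8)) = 1 := by
        rw [← Real.rpow_mul (by norm_num), mul_comm (1 / 8 : ℝ) (N : ℝ),
          ← Real.mul_rpow (by norm_num) (by norm_num)]
        norm_num
      have e6 : (0 : ℝ) < (2 : ℝ) ^ ((N : ℝ) * (1 / 8)) := by positivity
      have e7 : (2 * N : ℝ) ^ (2 * V + 1) < (2 : ℝ) ^ ((N : ℝ) * (1 / 8)) := by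
        have e8 := mul_lt_mul_of_pos_right hd2 e6
        rw [one_mul, mul_assoc, e5, mul_one] at e8
        rw [mul_pow]
        exact e8
      linarith
    have hfin := no_large_factor r N V K a b ε q P Q β hβ hint (fun i => (hsec i).1) hV hnorm
      (by omega) (by omega) (by omega) hQm hQi hQP hQint s hs hw hge i₀ hQi₀ x
      (fun j hj => by
        have h2 : (β i₀).re + (β j).re ≤ ∑ i, (β i).re := by
          rw [← Finset.sum_pair hj.symm (f := fun i => (β i).re)]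
          exact Finset.sum_le_sum_of_subset_of_nonneg (Finset.subset_univ _)
            fun i _ _ => (hsec i).1.le
        linarith)
      ha1 hb1 hbq hq0.le (by linarith) (by push_cast; linarith) hBC (by omega)
    -- the contradiction
    have g1 : q ^ b ≤ (q ^ (1 / 8 : ℝ)) ^ (N : ℝ) := by
      rw [← Real.rpow_mul hq0.le, ← Real.rpow_natCast]
      apply Real.rpow_le_rpow_of_exponent_ge hq0 hq1.le
      linarith
    have g2 : (2 * (a : ℝ) + 1) ≤ N := by linarith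
    have g3 : ((2 : ℝ) ^ r * ((r + 1) * (4 * N) + 1) ^ (2 ^ r)) ^ r ≤
        (2 ^ r * (4 * r + 5 : ℝ) ^ (2 ^ r)) ^ r * (N : ℝ) ^ (2 ^ r * r) := by
      have g4 : ((2 : ℝ) ^ r * ((r + 1) * (4 * N) + 1) ^ (2 ^ r)) ≤
          (2 ^ r * (4 * r + 5 : ℝ) ^ (2 ^ r)) * (N : ℝ) ^ (2 ^ r) := by
        rw [mul_assoc, ← mul_pow]
        apply mul_le_mul_of_nonneg_left _ (by positivity)
        apply pow_le_pow_left₀ (by positivity)
        nlinarith
      calc ((2 : ℝ) ^ r * ((r + 1) * (4 * N) + 1) ^ (2 ^ r)) ^ r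
          ≤ ((2 ^ r * (4 * r + 5 : ℝ) ^ (2 ^ r)) * (N : ℝ) ^ (2 ^ r)) ^ r :=
            pow_le_pow_left₀ (by positivity) g4 r
        _ = _ := by rw [mul_pow _ ((N : ℝ) ^ (2 ^ r)), ← pow_mul]
    have g5 : ((2 * N : ℝ) ^ (2 * V + 1)) ^ 2 * (2 * a + 1) * q ^ b *
        ((2 ^ r * ((r + 1) * (4 * N) + 1) ^ (2 ^ r)) ^ r * (2 * (4 * N)) ^ (r ^ 2)) ≤
        ((2 * N : ℝ) ^ (2 * V + 1)) ^ 2 * N * (q ^ (1 / 8 : ℝ)) ^ (N : ℝ) *
        (((2 ^ r * (4 * r + 5 : ℝ) ^ (2 ^ r)) ^ r * (N : ℝ) ^ (2 ^ r * r)) *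
          (2 * (4 * N)) ^ (r ^ 2)) := by
      gcongr
    have g6 : ((2 * N : ℝ) ^ (2 * V + 1)) ^ 2 * N * (q ^ (1 / 8 : ℝ)) ^ (N : ℝ) *
        (((2 ^ r * (4 * r + 5 : ℝ) ^ (2 ^ r)) ^ r * (N : ℝ) ^ (2 ^ r * r)) *
          (2 * (4 * N)) ^ (r ^ 2)) = Cst * (N : ℝ) ^ k₀ * (q ^ (1 / 8 : ℝ)) ^ (N : ℝ) := by
      have g7 : (2 * (4 * N) : ℝ) ^ (r ^ 2) = 8 ^ (r ^ 2) * (N : ℝ) ^ (r ^ 2) := by
        rw [← mul_pow]; congr 1; ring
      have g8 : ((2 * N : ℝ) ^ (2 * V + 1)) ^ 2 = 2 ^ (4 * V + 2) * (N : ℝ) ^ (4 * V + 2) := by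
        rw [← pow_mul, ← mul_pow]; congr 1; ring
      rw [g7, g8, hCst, hk₀, pow_add (N : ℝ), pow_add (N : ℝ), pow_add (N : ℝ), pow_one]
      ring
    linarith

end Can

end Pool.Agent.J4.H53.CI
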