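import Pool.Agent.J4.H53.CI.CanF

set_option autoImplicit false

/-! # Small canonical class: the final form -/

open Polynomial Finset Filter

namespace Pool.Agent.J4.H53.CI

namespace Can

open Pool.Agent.N17.HC Cut

theorem canonical3 (hK : S_KOS) (hL : S_LSP) (hC : S_CUB) (hM2 : S_M2) (r : ℕ) (ε : ℝ)
    (hε : 0 < ε) : ∃ N₀ : ℕ, ∀ N : ℕ, N₀ ≤ N → ∀ (P : ℤ[X]) (β : Fin r → ℂ),
    P.map (Int.castRingHom ℂ) = ∏ i, (X - C (β i)) →
    (∀ (l : ℕ) (lam : Fin l → ℕ), Monotone lam → (∀ i, lam i ≤ r) →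
      ∑ i, lam i + r ≤ N →
      0 < Matrix.det (fun i j : Fin l => if (j : ℕ) ≤ lam i + i then
        (if lam i + i - j ≤ r then (-1) ^ (lam i + i - (j : ℕ)) * P.coeff (r - (lam i + i - j))
          else 0) else 0)) →
    (∀ i, 0 ≤ (-1) ^ (r - i) * (P.comp (X + 1)).coeff i) →
    (∀ t : ℤ, ∃ z : ℤ, ∑ S : Finset (Fin r), (-1) ^ S.card *
      ((∏ j ∈ range N, ((t : ℂ) - ∑ i ∈ S, β i + j + 1)) / N.factorial) = z) →
    (∀ t : ℤ, ∃ z : ℤ, ∑ k, ∑ S : Finset (Fin r), (-1) ^ S.card *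
      ((∏ j ∈ range N, ((t : ℂ) - β k - ∑ i ∈ S, β i + j + 1)) / N.factorial) = z) →
    ∀ k : ℤ, (k : ℂ) = ∑ i, β i - N - 1 → (k : ℝ) ≤ (1 / 2 - ε) * N →
    ∃ a : Fin r → ℤ, (∀ i, 1 ≤ a i) ∧ P = ∏ i, (X - C (a i)) := by
  have hmin : 0 < min ε (1 / 2) := lt_min hε (by norm_num)
  obtain ⟨N₀, h⟩ := eventually_atTop.1
    (canonical2 hK hL hC hM2 r (min ε (1 / 2)) hmin (min_le_right _ _))
  refine ⟨N₀ + 2 * r + 6 * r ^ 2, fun N hN P β hβ hschur hpos hint hcon k hk hkN => ?_⟩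
  have hsum : ∑ i, (β i).re ≤ (3 / 2 - min ε (1 / 2)) * N + 1 := by
    have h1 : ∑ i, (β i).re = k + N + 1 := by
      have h2 : ∑ i, β i = ((k + N + 1 : ℝ) : ℂ) := by
        push_cast
        rw [hk]
        ring
      rw [← Complex.re_sum, h2, Complex.ofReal_re]
    have h3 : (1 / 2 - ε) * (N : ℝ) ≤ (1 / 2 - min ε (1 / 2)) * N := by
      apply mul_le_mul_of_nonneg_right _ (Nat.cast_nonneg _)
      linarith [min_le_left ε (1 / 2)]
    rw [h1]
    linarith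
  have hall := h N (by omega) P β hβ hschur hpos hint hcon hsum
  choose n hn using hall
  refine ⟨n, fun i => ?_, ?_⟩
  · have hr : 1 ≤ r := by have := i.2; omega
    have h1 := (chern_roots r N hr (by omega) (by omega) P β hβ hschur i).1
    rw [hn i, Complex.intCast_re] at h1
    have h2 : 0 < n i := by exact_mod_cast h1
    omega
  · apply Polynomial.map_injective _ (RingHom.injective_int (Int.castRingHom ℂ))
    rw [hβ, Polynomial.map_prod]
    refine Finset.prod_congr rfl fun i _ => ?_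
    rw [Polynomial.map_sub, map_X, map_C, hn i]
    simp

end Can

end Pool.Agent.J4.H53.CI
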