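import Pool.Agent.J4.H53.CI.Fin

set_option autoImplicit false

/-! # Cubic factors of the polynomial of the Chern roots -/

open Polynomial Finset Filter

namespace Pool.Agent.J4.H53.CI

open Pool.Agent.N17.HC

/-- cubic factors with roots of the size of `y` (after `factor_three`) -/
theorem factor_three_box (hC : S_CUB) (r k : ℕ) (A : ℝ) (hA : 0 ≤ A) :
    ∀ᶠ y : ℕ in atTop, ∀ (P Q : ℤ[X]) (B : ℤ), P.Monic → Q.Monic → Irreducible Q →
    Q.natDegree = 3 → Q ∣ P → B ≠ 0 → |(B : ℝ)| ≤ (y : ℝ) ^ A →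
    (∀ b ∈ rootsOf Q, ‖b‖ ≤ (y : ℝ) ^ A) → (∀ b ∈ rootsOf Q, ‖b‖ ≤ 10 * y) →
    SplitsModPrimes r k y P B → False := by
  have hconst : ∀ᶠ y : ℕ in atTop, (20 : ℝ) ^ 6 ≤ (y : ℝ) ^ (3 / 20 : ℝ) :=
    ((tendsto_rpow_atTop (by norm_num : (0 : ℝ) < 3 / 20)).comp
      tendsto_natCast_atTop_atTop).eventually_ge_atTop _
  filter_upwards [hC k (3 * A + 2) (1 / 4) (by norm_num), hconst, eventually_ge_atTop 3]
    with y hy hyc hy1 P Q B hP hQ hirr hdeg hQP hB hBA hroots hroots2 hsp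
  have hy3 : (3 : ℝ) ≤ y := by exact_mod_cast hy1
  have hy1r : (1 : ℝ) ≤ y := by linarith
  have hy0 : (0 : ℝ) < y := by linarith
  obtain ⟨β, hβr, hβ⟩ := exists_roots' hQ hdeg (IsAlgClosed.splits (Q.map (Int.castRingHom ℂ)))
  have hH1 : (1 : ℝ) ≤ (y : ℝ) ^ A := Real.one_le_rpow hy1r hA
  have hbd : ∀ i, ‖β i‖ ≤ (y : ℝ) ^ A := by
    intro i
    apply hroots
    rw [rootsOf, ← hβr]
    exact Multiset.mem_map_of_mem β (mem_univ_val i)
  set a := -Q.coeff 2 with ha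
  set b := Q.coeff 1 with hb
  set e := -Q.coeff 0 with he
  have hQf : Q = FIN.P3 a b e := FIN.form3 Q hQ hdeg
  obtain ⟨k0, k1, k2⟩ : ((a : ℤ) : ℂ) = β 0 + β 1 + β 2 ∧
      ((b : ℤ) : ℂ) = β 0 * β 1 + β 1 * β 2 + β 2 * β 0 ∧ ((e : ℤ) : ℂ) = β 0 * β 1 * β 2 := by
    have h1 := hβ
    rw [hQf, FIN.prod3, FIN.map3] at h1
    have h2 := FIN.inj3 h1
    simp only [eq_intCast] at h2
    exact h2
  have hY : (y : ℝ) ^ A * (y : ℝ) ^ A * (y : ℝ) ^ A * (y : ℝ) ^ (2 : ℝ) =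
      (y : ℝ) ^ (3 * A + 2) := by
    rw [← Real.rpow_add hy0, ← Real.rpow_add hy0, ← Real.rpow_add hy0]
    congr 1
    ring
  have hy2 : (3 : ℝ) ≤ (y : ℝ) ^ (2 : ℝ) := by
    rw [show (2 : ℝ) = ((2 : ℕ) : ℝ) by norm_num, Real.rpow_natCast]
    nlinarith
  set H := (y : ℝ) ^ A with hH
  have hH0 : 0 ≤ H := by linarith
  have hHH : H ≤ H * H := by nlinarith
  have hHHH : H * H ≤ H * H * H := by nlinarith [mul_nonneg hH0 hH0]
  have key3 : 3 * (H * H * H) ≤ (y : ℝ) ^ (3 * A + 2) := by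
    rw [← hY]
    have : 0 ≤ H * H * H := by positivity
    nlinarith
  have hA1 : |((a : ℤ) : ℝ)| ≤ (y : ℝ) ^ (3 * A + 2) := by
    rw [← Complex.norm_intCast, k0]
    refine (norm_add₃_le).trans ?_
    linarith [hbd 0, hbd 1, hbd 2]
  have hnn : ∀ i, 0 ≤ ‖β i‖ := fun i => norm_nonneg _
  have hA2 : |((b : ℤ) : ℝ)| ≤ (y : ℝ) ^ (3 * A + 2) := by
    rw [← Complex.norm_intCast, k1]
    refine (norm_add₃_le).trans ?_
    rw [norm_mul, norm_mul, norm_mul]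
    have h1 := mul_le_mul (hbd 0) (hbd 1) (hnn 1) hH0
    have h2 := mul_le_mul (hbd 1) (hbd 2) (hnn 2) hH0
    have h3 := mul_le_mul (hbd 2) (hbd 0) (hnn 0) hH0
    linarith
  have hA3 : |((e : ℤ) : ℝ)| ≤ (y : ℝ) ^ (3 * A + 2) := by
    rw [← Complex.norm_intCast, k2, norm_mul, norm_mul]
    have h1 := mul_le_mul (mul_le_mul (hbd 0) (hbd 1) (hnn 1) hH0) (hbd 2) (hnn 2)
      (mul_nonneg hH0 hH0)
    have : 0 ≤ H * H * H := by positivity
    linarith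
  have hBA' : |((B : ℤ) : ℝ)| ≤ (y : ℝ) ^ (3 * A + 2) := by
    refine hBA.trans ?_
    apply Real.rpow_le_rpow_of_exponent_le hy1r
    linarith
  have hdisc : ((disc3 a b e : ℤ) : ℂ) =
      ((β 0 - β 1) * (β 1 - β 2) * (β 2 - β 0)) ^ 2 := by
    rw [disc3]
    push_cast
    rw [k0, k1, k2]
    ring
  have hbd2 : ∀ i, ‖β i‖ ≤ 10 * y := by
    intro i
    apply hroots2
    rw [rootsOf, ← hβr]
    exact Multiset.mem_map_of_mem β (mem_univ_val i)
  have hdle : |((disc3 a b e : ℤ) : ℝ)| ≤ (y : ℝ) ^ (4 * Real.exp (1 / 2) - 1 / 4) := by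
    rw [← Complex.norm_intCast, hdisc, norm_pow, norm_mul, norm_mul]
    have hd : ∀ i j, ‖β i - β j‖ ≤ 20 * y := fun i j =>
      (norm_sub_le _ _).trans (by linarith [hbd2 i, hbd2 j])
    have h20 : (0 : ℝ) ≤ 20 * y := by positivity
    calc (‖β 0 - β 1‖ * ‖β 1 - β 2‖ * ‖β 2 - β 0‖) ^ 2
        ≤ ((20 * y) * (20 * y) * (20 * y)) ^ 2 := by
          apply pow_le_pow_left₀ (by positivity)
          exact mul_le_mul (mul_le_mul (hd 0 1) (hd 1 2) (norm_nonneg _) h20) (hd 2 0)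
            (norm_nonneg _) (by positivity)
      _ = 20 ^ 6 * (y : ℝ) ^ (6 : ℝ) := by
          rw [show (6 : ℝ) = ((6 : ℕ) : ℝ) by norm_num, Real.rpow_natCast]
          ring
      _ ≤ (y : ℝ) ^ (3 / 20 : ℝ) * (y : ℝ) ^ (6 : ℝ) :=
          mul_le_mul_of_nonneg_right hyc (by positivity)
      _ = (y : ℝ) ^ (3 / 20 + 6 : ℝ) := by rw [← Real.rpow_add hy0]
      _ ≤ _ := by
          apply Real.rpow_le_rpow_of_exponent_le hy1r
          have := FIN.exp_lb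
          norm_num at this ⊢
          linarith
  obtain ⟨x0, x1, x2, e0, e1, e2⟩ := hy a b e B hB (by exact_mod_cast hBA')
    (by exact_mod_cast hA1) (by exact_mod_cast hA2) (by exact_mod_cast hA3)
    (by exact_mod_cast hdle) (by
      intro p hp hkp hpy hpB
      have : Fact p.Prime := ⟨hp⟩
      obtain ⟨x, hx⟩ := hsp p hp hkp hpy hpB
      obtain ⟨t, ht⟩ := factor_splits' hP hQ hdeg hQP hx
      rw [hQf] at ht
      exact FIN.spl3 a b e p t ht)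
  apply eval_rat_ne hQ hirr (by omega) (x0 : ℚ)
  rw [hQf, FIN.map3, FIN.P3]
  simp only [eval_sub, eval_add, eval_mul, eval_pow, eval_X, eval_C, eq_intCast]
  rw [e0, e1, e2]
  push_cast
  ring


/-- there are no cubic factors whose roots are smaller than `4 N` -/
theorem cubic_case (hK : S_KOS) (hL : S_LSP) (hC : S_CUB) (r : ℕ) (A : ℝ) (hA : 0 ≤ A) :
    ∀ᶠ N : ℕ in atTop, ∀ P : ℤ[X], P.Monic → P.natDegree = r →
    (∀ i, 0 ≤ (-1) ^ (r - i) * (P.comp (X + 1)).coeff i) →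
    (∀ t : ℤ, ∃ z : ℤ, kos N (rootsOf P) (N + t) = z) →
    (∀ t : ℤ, ∃ z : ℤ, ((rootsOf P).map fun b => kos N (rootsOf P) (N + t - b)).sum = z) →
    |((P.coeff 0 : ℤ) : ℝ)| ≤ (N : ℝ) ^ A →
    ∀ Q : ℤ[X], Q.Monic → Irreducible Q → Q ∣ P → Q.natDegree = 3 →
      (∀ b ∈ rootsOf Q, ‖b‖ ≤ 4 * N) → False := by
  have htend : Tendsto (fun N : ℕ => N + 1 - 2 * r) atTop atTop := by
    apply tendsto_atTop_atTop.2
    intro b
    exact ⟨b + 2 * r, fun n hn => by omega⟩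
  have hy2 : ∀ᶠ y : ℕ in atTop, (2 : ℝ) ^ A + 1 ≤ (y : ℝ) :=
    tendsto_natCast_atTop_atTop.eventually_ge_atTop _
  filter_upwards [htend.eventually (factor_three_box hC r r (A + 1) (by linarith)),
    htend.eventually hy2, eventually_ge_atTop (4 * r + 2)]
    with N e1 hy2 hNr P hP hr hpos h1 h2 hPA Q hQ hirr hQP hd3 hbox
  set y : ℕ := N + 1 - 2 * r with hy
  have hyN' : y ≤ N + 1 := by omega
  have hr0 : r = 0 ∨ y ≤ N := by omega
  -- the degree is positive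
  have hdegQ : 0 < Q.natDegree := by
    rcases Nat.eq_zero_or_pos Q.natDegree with h | h
    · exfalso
      rw [hQ.natDegree_eq_zero.1 h] at hirr
      exact hirr.not_isUnit isUnit_one
    · exact h
  have hmr : Q.natDegree ≤ r := by
    rw [← hr]
    exact natDegree_le_of_dvd hQP hP.ne_zero
  have hyN : y ≤ N := by omega
  have hyNr : (y : ℝ) ≤ N := by exact_mod_cast hyN
  have hy1 : 1 ≤ y := by omega
  have hy1r : (1 : ℝ) ≤ y := by exact_mod_cast hy1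
  have hy0 : (0 : ℝ) < y := by linarith
  have hN1 : (1 : ℝ) ≤ N := hy1r.trans hyNr
  have h2y : (N : ℝ) ≤ 2 * y := by
    have : N ≤ 2 * y := by omega
    exact_mod_cast this
  -- the sizes
  have hNA : 1 + (N : ℝ) ^ A ≤ (y : ℝ) ^ (A + 1) := by
    have h3 : (N : ℝ) ^ A ≤ 2 ^ A * (y : ℝ) ^ A := by
      rw [← Real.mul_rpow (by norm_num) hy0.le]
      exact Real.rpow_le_rpow (by linarith) h2y hA
    have h4 : (1 : ℝ) ≤ (y : ℝ) ^ A := Real.one_le_rpow hy1r hA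
    rw [Real.rpow_add hy0, Real.rpow_one]
    nlinarith
  have hNA' : (N : ℝ) ^ A ≤ (y : ℝ) ^ (A + 1) := by linarith
  have hmah : mah P 1 ≤ (N : ℝ) ^ A := (mah_le hP hr hpos).trans hPA
  have hc0 : P.coeff 0 ≠ 0 := by
    intro h
    have h3 := mah_le hP hr hpos
    rw [h] at h3
    have h4 := one_le_mah P 1
    simp at h3
    linarith
  set d : ℤ := (-1) ^ r * P.coeff 0 with hd
  have hd0 : d ≠ 0 := mul_ne_zero (pow_ne_zero _ (by norm_num)) hc0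
  have hdA : |((d : ℤ) : ℝ)| ≤ (y : ℝ) ^ (A + 1) := by
    rw [hd]
    push_cast
    rw [abs_mul, abs_pow, abs_neg, abs_one, one_pow, one_mul]
    exact hPA.trans hNA'
  have hroots : ∀ b ∈ rootsOf Q, ‖b‖ ≤ (y : ℝ) ^ (A + 1) := by
    intro b hb
    have h3 := (norm_le_mah hb 1).trans ((mah_dvd hP.ne_zero hQP 1).trans hmah)
    have h4 : ‖b‖ ≤ ‖b - ((1 : ℤ) : ℂ)‖ + 1 := by
      have h5 : b = (b - ((1 : ℤ) : ℂ)) + ((1 : ℤ) : ℂ) := by ring
      calc ‖b‖ = ‖(b - ((1 : ℤ) : ℂ)) + ((1 : ℤ) : ℂ)‖ := by rw [← h5]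
        _ ≤ ‖b - ((1 : ℤ) : ℂ)‖ + ‖((1 : ℤ) : ℂ)‖ := norm_add_le _ _
        _ = _ := by simp
    linarith
  have hsp : SplitsModPrimes r r y P d := by
    intro p hp hrp hpy hpd
    exact FIN.loc hK hL N r P hP hr d rfl h1 h2 p hp hrp (by omega) hpd
  exact e1 P Q d hP hQ hirr hd3 hQP hd0 hdA hroots (fun b hb => (hbox b hb).trans (by linarith)) hsp

end Pool.Agent.J4.H53.CI
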