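import Pool.Agent.J4.H53.CI.Gain
import Pool.Agent.J4.H53.CI.Cub3

set_option autoImplicit false

/-! # Small canonical class: the theorem -/

open Polynomial Finset Filter

namespace Pool.Agent.J4.H53.CI

namespace Can

open Pool.Agent.N17.HC Cut Tin

/-- the binomial coefficient is larger than a fixed power -/
lemma choose_large (D : ℕ) (M : ℝ) : ∀ᶠ N : ℕ in atTop, ∀ K a : ℕ, D + 1 ≤ a → 2 * a ≤ K →
    N ≤ 2 * K → M * (N : ℝ) ^ D ≤ ((K.choose a : ℕ) : ℝ) := by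
  have ev1 : ∀ᶠ N : ℕ in atTop, M * ((D + 1).factorial * 4 ^ (D + 1)) ≤ (N : ℝ) :=
    tendsto_natCast_atTop_atTop.eventually_ge_atTop _
  filter_upwards [ev1, eventually_ge_atTop (4 * D + 4)] with N h1 hN K a ha haK hNK
  have h2 : K.choose (D + 1) ≤ K.choose a := by
    obtain ⟨m, rfl⟩ := Nat.exists_eq_add_of_le ha
    clear ha
    induction m with
    | zero => exact le_rfl
    | succ m ih =>
      refine (ih (by omega)).trans ?_
      exact Nat.choose_le_succ_of_lt_half_left (by omega)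
  have h3 := Nat.pow_le_choose (α := ℝ) (D + 1) K
  have h4 : ((K + 1 - (D + 1) : ℕ) : ℝ) ^ (D + 1) ≤
      ((D + 1).factorial : ℝ) * (K.choose (D + 1) : ℕ) := by
    rw [div_le_iff₀ (by positivity)] at h3
    rw [mul_comm]
    exact h3
  have h5 : (N : ℝ) / 4 ≤ ((K + 1 - (D + 1) : ℕ) : ℝ) := by
    have h6 : N ≤ 4 * (K + 1 - (D + 1)) := by omega
    have h7 : (N : ℝ) ≤ 4 * ((K + 1 - (D + 1) : ℕ) : ℝ) := by exact_mod_cast h6
    linarith
  have hN0 : (0 : ℝ) ≤ N := Nat.cast_nonneg _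
  have hf0 : (0 : ℝ) < (D + 1).factorial := by positivity
  have h8 : ((N : ℝ) / 4) ^ (D + 1) ≤ ((D + 1).factorial : ℝ) * (K.choose a : ℕ) := by
    calc ((N : ℝ) / 4) ^ (D + 1) ≤ ((K + 1 - (D + 1) : ℕ) : ℝ) ^ (D + 1) :=
          pow_le_pow_left₀ (by positivity) h5 _
      _ ≤ ((D + 1).factorial : ℝ) * (K.choose (D + 1) : ℕ) := h4
      _ ≤ _ := by
          apply mul_le_mul_of_nonneg_left _ hf0.le
          exact_mod_cast h2
  have h9 : ((D + 1).factorial : ℝ) * (M * (N : ℝ) ^ D) ≤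
      ((D + 1).factorial : ℝ) * (K.choose a : ℕ) := by
    refine le_trans ?_ h8
    rw [div_pow, le_div_iff₀ (by positivity)]
    calc ((D + 1).factorial : ℝ) * (M * (N : ℝ) ^ D) * 4 ^ (D + 1)
        = (M * ((D + 1).factorial * 4 ^ (D + 1))) * (N : ℝ) ^ D := by ring
      _ ≤ N * (N : ℝ) ^ D := mul_le_mul_of_nonneg_right h1 (by positivity)
      _ = _ := by ring
  exact le_of_mul_le_mul_left h9 hf0

/-- The conclusion for factors of degree at least four. -/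
theorem no_large_factor4 (r N V K a b : ℕ) (P Q : ℤ[X]) (β : Fin r → ℂ)
    (hβ : P.map (Int.castRingHom ℂ) = ∏ i, (X - C (β i)))
    (hint : ∀ t : ℤ, ∃ z : ℤ, ∑ S : Finset (Fin r), (-1) ^ S.card *
      ((∏ j ∈ range N, ((t : ℂ) - ∑ i ∈ S, β i + j + 1)) / N.factorial) = z)
    (hre : ∀ i, 0 < (β i).re) (hV : ∀ i, |(β i).im| ≤ V)
    (hn : ∀ i, ‖β i‖ ≤ 4 * N) (hN1 : 1 ≤ N) (hK : K + 2 * r + 2 ^ r ≤ N) (hK1 : 1 ≤ K)
    (hQm : Q.Monic) (hQi : Irreducible Q) (hQP : Q ∣ P)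
    (hQint : ∀ n : ℤ, (Q.map (Int.castRingHom ℂ)).eval (n : ℂ) ≠ 0)
    (s : ℂ) (hs : (Q.map (Int.castRingHom ℂ)).eval s = 0)
    (hw : ∑ S : Finset (Fin r), (if ∑ i ∈ S, β i = s then (-1 : ℂ) ^ S.card else 0) ≠ 0)
    (hQd : 4 ≤ Q.natDegree) (i₀ : Fin r) (hi₀ : (Q.map (Int.castRingHom ℂ)).eval (β i₀) = 0)
    (x : ℕ) (hx : ∀ j, j ≠ i₀ → (β j).re ≤ x) (hxa : x + 2 * a + 1 ≤ K)
    (hKa : (K : ℝ) ≤ (β i₀).re + a) (hM : (β i₀).re + a + V ≤ ((K + b : ℕ) : ℝ))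
    (hBC : ((2 * N : ℝ) ^ (2 * V + 1)) ≤ (K.choose a : ℝ)) (hVN : V + 1 ≤ N) :
    ((K.choose a : ℕ) : ℝ) ^ 3 ≤ ((K + b).choose K : ℝ) * (((2 * N : ℝ) ^ (2 * V + 1)) ^ 3 *
      ((2 ^ r * ((r + 1) * (4 * N) + 1) ^ (2 ^ r)) ^ r * (2 * (4 * N)) ^ (r ^ 2))) := by
  classical
  have h2pow : 0 < 2 ^ r := by positivity
  have hNr1 : (1 : ℝ) ≤ N := by exact_mod_cast hN1
  have h1 := norm_bound r N K a (4 * N) P Q β hβ hint hn (by linarith) hK hQm hQi hQP hQint s hs hw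
  set POLY : ℝ := ((2 ^ r * ((r + 1) * (4 * N) + 1) ^ (2 ^ r)) ^ r * (2 * (4 * N)) ^ (r ^ 2))
    with hPOLY
  have hPOLY0 : 0 ≤ POLY := by positivity
  set O := (Q.map (Int.castRingHom ℂ)).roots.toFinset with hO
  have hQ0 : Q.map (Int.castRingHom ℂ) ≠ 0 := (hQm.map _).ne_zero
  have hmemO : ∀ w : ℂ, w ∈ O ↔ (Q.map (Int.castRingHom ℂ)).eval w = 0 := by
    intro w
    rw [hO, Multiset.mem_toFinset, mem_roots hQ0]
    rfl
  have hnd := nodup_rootsOf Q hQm hQi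
  have hcard : O.card = Q.natDegree := by
    exact (Multiset.toFinset_card_of_nodup (m := (Q.map (Int.castRingHom ℂ)).roots) hnd).trans
      (FIN.card_rootsOf Q)
  set φ : ℚ[X] := (Fun.bin K).comp (X + C (a : ℚ)) with hφ
  set B : ℝ := (2 * N : ℝ) ^ (2 * V + 1) with hB
  have hB0 : 0 < B := by positivity
  have hCh : (0 : ℝ) < K.choose a := lt_of_lt_of_le hB0 hBC
  have hmem₀ : β i₀ ∈ O := (hmemO _).2 hi₀
  have hsmall : ∀ w ∈ O.erase (β i₀), ‖aeval w φ‖ ≤ B / K.choose a := by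
    intro w hw
    obtain ⟨hne, hwO⟩ := Finset.mem_erase.1 hw
    have h2 : (P.map (Int.castRingHom ℂ)).eval w = 0 := by
      obtain ⟨R, hR⟩ := hQP
      rw [hR, Polynomial.map_mul, eval_mul, (hmemO w).1 hwO, zero_mul]
    rw [hβ, eval_prod, Finset.prod_eq_zero_iff] at h2
    obtain ⟨j, -, hj⟩ := h2
    rw [eval_sub, eval_X, eval_C, sub_eq_zero] at hj
    have hji : j ≠ i₀ := fun h => hne (by rw [hj, h])
    have h3 := small K V a x w (by rw [hj]; exact hre j) (by rw [hj]; exact hx j hji)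
      (by rw [hj]; exact hV j) hxa
    rw [← hφ, ← le_div_iff₀ hCh] at h3
    refine h3.trans (div_le_div_of_nonneg_right ?_ hCh.le)
    rw [hB]
    apply pow_le_pow_left₀ (by positivity)
    have h5 : (K : ℝ) ≤ N := by exact_mod_cast (by omega : K ≤ N)
    have h6 : (V : ℝ) + 1 ≤ N := by exact_mod_cast hVN
    linarith
  have hlarge : ‖aeval (β i₀) φ‖ ≤ ((K + b).choose K : ℝ) :=
    large_value K V a (K + b) (β i₀) hKa hM (hV i₀)
  have hprod : ∏ w ∈ O.erase (β i₀), ‖aeval w φ‖ ≤ (B / K.choose a) ^ 3 := by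
    have e1 : ∏ w ∈ O.erase (β i₀), ‖aeval w φ‖ ≤ ∏ _w ∈ O.erase (β i₀), (B / K.choose a) :=
      Finset.prod_le_prod (fun _ _ => norm_nonneg _) hsmall
    rw [Finset.prod_const, Finset.card_erase_of_mem hmem₀, hcard] at e1
    refine e1.trans ?_
    apply pow_le_pow_of_le_one (by positivity)
    · rw [div_le_one hCh]
      exact hBC
    · omega
  rw [← Finset.mul_prod_erase O _ hmem₀] at h1
  have h5 : ‖aeval (β i₀) φ‖ * ∏ w ∈ O.erase (β i₀), ‖aeval w φ‖ ≤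
      ((K + b).choose K : ℝ) * (B / K.choose a) ^ 3 :=
    mul_le_mul hlarge hprod (Finset.prod_nonneg fun _ _ => norm_nonneg _) (by positivity)
  have h6 : 1 ≤ (((K + b).choose K : ℝ) * (B / K.choose a) ^ 3) * POLY :=
    h1.trans (mul_le_mul_of_nonneg_right h5 hPOLY0)
  have h7 : (((K + b).choose K : ℝ) * (B / K.choose a) ^ 3) * POLY =
      ((K + b).choose K : ℝ) * (B ^ 3 * POLY) / ((K.choose a : ℕ) : ℝ) ^ 3 := by
    rw [div_pow]
    ring
  rw [h7, one_le_div (by positivity)] at h6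
  exact h6

set_option maxHeartbeats 1000000 in
theorem canonical6 (hK : S_KOS) (hL : S_LSP) (hC : S_CUB) (hM2 : S_M2) (r : ℕ) :
    ∃ T : ℕ, ∀ᶠ N : ℕ in atTop, ∀ (P : ℤ[X]) (β : Fin r → ℂ),
    P.map (Int.castRingHom ℂ) = ∏ i, (X - C (β i)) →
    (∀ (l : ℕ) (lam : Fin l → ℕ), Monotone lam → (∀ i, lam i ≤ r) →
      ∑ i, lam i + r ≤ N →
      0 < Matrix.det (fun i j : Fin l => if (j : ℕ) ≤ lam i + i then
        (if lam i + i - j ≤ r then (-1) ^ (lam i + i - (j : ℕ)) * P.coeff (r - (lam i + i - j))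
          else 0) else 0)) →
    (∀ i, 0 ≤ (-1) ^ (r - i) * (P.comp (X + 1)).coeff i) →
    (∀ t : ℤ, ∃ z : ℤ, ∑ S : Finset (Fin r), (-1) ^ S.card *
      ((∏ j ∈ range N, ((t : ℂ) - ∑ i ∈ S, β i + j + 1)) / N.factorial) = z) →
    (∀ t : ℤ, ∃ z : ℤ, ∑ k, ∑ S : Finset (Fin r), (-1) ^ S.card *
      ((∏ j ∈ range N, ((t : ℂ) - β k - ∑ i ∈ S, β i + j + 1)) / N.factorial) = z) →
    ∑ i, (β i).re + T ≤ 2 * N →
    ∀ i, ∃ n : ℤ, β i = n := by
  rcases Nat.eq_zero_or_pos r with hr0 | hr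
  · subst hr0
    exact ⟨0, Filter.Eventually.of_forall fun N P β _ _ _ _ _ _ i => i.elim0⟩
  obtain ⟨a₀, C₀, hbig⟩ := big2 r (26 * r ^ 2)
  set V : ℕ := 26 * r ^ 2 with hVdef
  set C₁ : ℕ := 2 * a₀ + 1 + r + 2 ^ r with hC₁
  set c₂ : ℕ := 2 * r + 2 ^ r with hc₂
  have hrr : (1 : ℝ) ≤ r := by exact_mod_cast hr
  have h2pow : 0 < 2 ^ r := by positivity
  -- the conditions on `N`
  set Cst : ℝ := 2 ^ (6 * V + 3) * ((2 ^ r * (4 * r + 5 : ℝ) ^ (2 ^ r)) ^ r * 8 ^ (r ^ 2))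
    with hCst
  set k₀ : ℕ := (6 * V + 3) + (2 ^ r * r + r ^ 2) with hk₀
  obtain ⟨t, ht⟩ := gain (k₀ + 1)
  refine ⟨10 * C₁ + 10 * c₂ + 10 * V + 10 * t + 100, ?_⟩
  have ev1 : ∀ᶠ N : ℕ in atTop, Cst < (N : ℝ) :=
    tendsto_natCast_atTop_atTop.eventually_gt_atTop _
  have ev2 := choose_large (2 * V + 1) (2 ^ (2 * V + 1))
  have ev3 : ∀ᶠ N : ℕ in atTop, (16 : ℝ) < (N : ℝ) ^ (1 / 2 : ℝ) :=
    ((tendsto_rpow_atTop (by norm_num : (0 : ℝ) < 1 / 2)).comp
      tendsto_natCast_atTop_atTop).eventually_gt_atTop _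
  filter_upwards [main hK hL hC hM2 r ((3 * r : ℕ) : ℝ) (1 / 8) (Nat.cast_nonneg _)
    (by norm_num), cubic_case hK hL hC r ((3 * r : ℕ) : ℝ) (Nat.cast_nonneg _), ev1, ev2, ev3,
    ht, eventually_ge_atTop
    (C₀ + 20 * C₁ + 20 * c₂ + V + 6 * r ^ 2 + 2 * r + 100)]
    with N hmain hcub hd1 hd2 h16 hgain hN P β hβ hschur hpos hint hcon hsum
  by_contra hnot
  push Not at hnot
  have hN' : C₀ + 20 * C₁ + 20 * c₂ + V + 6 * r ^ 2 + 2 * r + 100 ≤ N := hN
  clear hN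
  have hN2 : (2 : ℝ) ≤ N := by exact_mod_cast (by omega : 2 ≤ N)
  have hN1 : (1 : ℝ) ≤ N := by linarith
  have hN0 : (0 : ℝ) < N := by linarith
  have hC10 : (0 : ℝ) ≤ C₁ := Nat.cast_nonneg _
  have hc20 : (0 : ℝ) ≤ c₂ := Nat.cast_nonneg _
  have hV0 : (0 : ℝ) ≤ V := Nat.cast_nonneg _
  have ht0 : (0 : ℝ) ≤ t := Nat.cast_nonneg _
  push_cast at hsum
  have hinj : Function.Injective (Int.castRingHom ℂ) := RingHom.injective_int (Int.castRingHom ℂ)
  have hPm : P.Monic := monic_of_injective hinj (by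
    rw [hβ]
    exact monic_prod_of_monic _ _ fun i _ => monic_X_sub_C _)
  have hPd : P.natDegree = r := by
    have h1 := hPm.natDegree_map (Int.castRingHom ℂ)
    rw [hβ, natDegree_prod_of_monic _ _ fun i _ => monic_X_sub_C _] at h1
    simp at h1
    exact h1.symm
  have hsec := chern_roots r N hr (by omega) (by omega) P β hβ hschur
  set c := ∑ i, (β i).re with hc
  have hc2 : c ≤ 2 * N := by linarith
  have hre : ∀ i, (β i).re ≤ c := fun i =>
    Finset.single_le_sum (f := fun j => (β j).re) (fun j _ => (hsec j).1.le) (mem_univ i)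
  have hnorm : ∀ i, ‖β i‖ ≤ 4 * N := fun i => (hsec i).2.1.trans (by linarith [hre i])
  have hV : ∀ i, |(β i).im| ≤ (V : ℝ) := by
    intro i
    have h1 := (hsec i).2.2
    have h2 : |(β i).im| * N ≤ (26 * r ^ 2) * N :=
      h1.trans (by
        calc 13 * (r : ℝ) ^ 2 * (β i).re ≤ 13 * r ^ 2 * (2 * N) :=
              mul_le_mul_of_nonneg_left ((hre i).trans hc2) (by positivity)
          _ = _ := by ring)
    rw [hVdef]
    push_cast
    exact le_of_mul_le_mul_right h2 hN0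
  obtain ⟨Q, hQm, hQi, hQP, hQd, ⟨i₀, hi₀, hQi₀⟩, hQint, s, hs, hw⟩ :=
    exists_large r N (N - C₁) V a₀
    (4 * N) P β hβ hint (fun i => (hsec i).1) hV hnorm (by linarith) (by omega) (by omega)
    (hbig N (by omega)) hnot
  set R := (β i₀).re with hR
  have hR1 : (N : ℝ) - C₁ < R := by
    rw [Nat.cast_sub (by omega)] at hi₀
    exact hi₀
  have hRc : R ≤ c := hre i₀
  -- the degree
  have hP0 : |((P.coeff 0 : ℤ) : ℝ)| ≤ (N : ℝ) ^ (((3 * r : ℕ) : ℝ)) := by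
    have h1 : ((P.coeff 0 : ℤ) : ℂ) = ∏ i, (- β i) := by
      have h2 : (P.map (Int.castRingHom ℂ)).eval 0 = ((P.coeff 0 : ℤ) : ℂ) := by
        rw [← coeff_zero_eq_eval_zero, coeff_map]
        rfl
      rw [← h2, hβ, eval_prod]
      exact Finset.prod_congr rfl fun i _ => by simp
    have h2 : |((P.coeff 0 : ℤ) : ℝ)| = ‖((P.coeff 0 : ℤ) : ℂ)‖ := by
      rw [Complex.norm_intCast]
    rw [h2, h1, norm_prod, Real.rpow_natCast, pow_mul]
    calc ∏ i, ‖-β i‖ ≤ ∏ _i : Fin r, (4 * N : ℝ) := by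
          apply Finset.prod_le_prod (fun _ _ => norm_nonneg _)
          intro i _
          rw [norm_neg]
          exact hnorm i
      _ = (4 * N : ℝ) ^ r := by simp
      _ ≤ ((N : ℝ) ^ 3) ^ r := by
          apply pow_le_pow_left₀ (by positivity)
          have h4 : (4 : ℝ) ≤ N * N := by nlinarith
          calc (4 * N : ℝ) ≤ (N * N) * N := mul_le_mul_of_nonneg_right h4 hN0.le
            _ = (N : ℝ) ^ 3 := by ring
  have hi1 : ∀ t : ℤ, ∃ z : ℤ, kos N (rootsOf P) (N + t) = z := by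
    intro t
    obtain ⟨z, hz⟩ := hint t
    exact ⟨z, by rw [kos_eq' hβ]; exact hz⟩
  have hi2 : ∀ t : ℤ, ∃ z : ℤ,
      ((rootsOf P).map fun b => kos N (rootsOf P) (N + t - b)).sum = z := by
    intro t
    obtain ⟨z, hz⟩ := hcon t
    refine ⟨z, ?_⟩
    rw [← hz]
    have h1 : ((rootsOf P).map fun b => kos N (rootsOf P) (N + t - b)) =
        (univ.val.map β).map fun b => kos N (rootsOf P) (N + t - b) := by
      rw [rootsOf_eq hβ]
    rw [h1, Multiset.map_map]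
    change ∑ k, kos N (rootsOf P) (N + t - β k) = _
    refine Finset.sum_congr rfl fun k _ => ?_
    rw [add_sub_assoc, kos_eq' hβ]
  have hall : ∀ b ∈ rootsOf Q, ‖b‖ ≤ 4 * N := by
    intro b hb
    rw [rootsOf, mem_roots (hQm.map _).ne_zero, IsRoot.def] at hb
    have h1 : (P.map (Int.castRingHom ℂ)).eval b = 0 := by
      obtain ⟨R, hR⟩ := hQP
      rw [hR, Polynomial.map_mul, eval_mul, hb, zero_mul]
    rw [hβ, eval_prod, Finset.prod_eq_zero_iff] at h1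
    obtain ⟨j, -, hj⟩ := h1
    rw [eval_sub, eval_X, eval_C, sub_eq_zero] at hj
    rw [hj]
    exact hnorm j
  rcases Nat.lt_or_ge Q.natDegree 4 with hlt | hge
  · -- quadratic and cubic factors
    have hd2 : Q.natDegree = 2 := by
      by_contra hne
      exact hcub P hPm hPd hpos hi1 hi2 hP0 Q hQm hQi hQP (by omega) hall
    obtain ⟨hm1, -⟩ := hmain P hPm hPd hpos hi1 hi2 hP0 Q hQm hQi hQP
    have hmem₀ : β i₀ ∈ rootsOf Q := by
      rw [rootsOf, mem_roots (hQm.map _).ne_zero]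
      exact hQi₀
    have hcard : Multiset.card (rootsOf Q) = Q.natDegree := FIN.card_rootsOf Q
    have h1 := hm1 0
    have h2 : mah Q 0 ≤ (4 * N) * (4 * N) ^ (Multiset.card (rootsOf Q) - 1) := by
      unfold mah
      apply prod_roots (rootsOf Q) (β i₀) hmem₀
      · intro b
        positivity
      · intro b hb
        rw [Int.cast_zero, sub_zero]
        exact max_le (by linarith) (hall b (Multiset.mem_of_mem_erase hb))
      · rw [Int.cast_zero, sub_zero]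
        exact max_le (by linarith) (hnorm i₀)
      · linarith
    rw [hcard, hd2] at h2
    rw [hd2] at h1
    have h3 : (N : ℝ) ^ (2.5 : ℝ) ≤ (N : ℝ) ^ (cost 2 - 1 / 8) := by
      apply Real.rpow_le_rpow_of_exponent_le hN1
      have := FIN.exp_lb
      unfold cost
      norm_num at this ⊢
      linarith
    have h4' : (N : ℝ) ^ (2.5 : ℝ) = N * N * (N : ℝ) ^ (1 / 2 : ℝ) := by
      rw [show (2.5 : ℝ) = 1 + 1 + 1 / 2 by norm_num, Real.rpow_add hN0, Real.rpow_add hN0,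
        Real.rpow_one]
    have h5 : (N : ℝ) * N * (N : ℝ) ^ (1 / 2 : ℝ) ≤ (4 * N) * (4 * N) := by
      rw [← h4']
      refine h3.trans (h1.trans ?_)
      simpa using h2
    have h7 : (N : ℝ) * N * 16 < N * N * (N : ℝ) ^ (1 / 2 : ℝ) :=
      mul_lt_mul_of_pos_left h16 (by positivity)
    linarith
  · -- factors of larger degree
    set K : ℕ := N - c₂ with hKdef
    have hKc : K + c₂ = N := by omega
    have hKr : (K : ℝ) + c₂ = N := by exact_mod_cast hKc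
    set x : ℕ := ⌈c - R⌉₊ with hx
    have hx1 : c - R ≤ x := Nat.le_ceil _
    have hx2 : (x : ℝ) < c - R + 1 := Nat.ceil_lt_add_one (by linarith)
    have hNbig : 20 * (C₁ : ℝ) + 20 * c₂ + V + 100 ≤ N := by
      exact_mod_cast (by omega : 20 * C₁ + 20 * c₂ + V + 100 ≤ N)
    have hxK' : (x : ℝ) + 1 ≤ K := by linarith
    have hxK : x + 1 ≤ K := by exact_mod_cast hxK'
    set a : ℕ := (K - x - 1) / 2 with ha
    have ha1 : x + 2 * a + 1 ≤ K := by omega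
    have ha2 : K ≤ x + 2 * a + 2 := by omega
    have ha1' : (x : ℝ) + 2 * a + 1 ≤ K := by exact_mod_cast ha1
    have ha2' : (K : ℝ) ≤ x + 2 * a + 2 := by exact_mod_cast ha2
    set y : ℕ := ⌈R⌉₊ with hy
    have hRpos : 0 < R := (hsec i₀).1
    have hy1 : R ≤ y := Nat.le_ceil _
    have hy2 : (y : ℝ) < R + 1 := Nat.ceil_lt_add_one hRpos.le
    have haC : (C₁ : ℝ) ≤ a := by linarith
    have hKy' : (K : ℝ) ≤ y + V + a := by linarith
    have hKy : K ≤ y + V + a := by exact_mod_cast hKy'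
    set b : ℕ := y + V + a - K with hb
    have hKb : K + b = y + V + a := by omega
    have hKb' : (K : ℝ) + b = y + V + a := by exact_mod_cast hKb
    have hb1 : b + t ≤ 3 * a := by
      have : (b : ℝ) + t ≤ 3 * a := by linarith
      exact_mod_cast this
    have haV' : (2 * V + 1 : ℝ) + 1 ≤ a := by linarith
    have haV : 2 * V + 1 + 1 ≤ a := by exact_mod_cast haV'
    have hBC : ((2 * N : ℝ) ^ (2 * V + 1)) ≤ (K.choose a : ℝ) := by
      rw [mul_pow]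
      exact hd2 K a haV (by omega) (by omega)
    have hfin := no_large_factor4 r N V K a b P Q β hβ hint (fun i => (hsec i).1) hV hnorm
      (by omega) (by omega) (by omega) hQm hQi hQP hQint s hs hw hge i₀ hQi₀ x
      (fun j hj => by
        have h2 : (β i₀).re + (β j).re ≤ ∑ i, (β i).re := by
          rw [← Finset.sum_pair hj.symm (f := fun i => (β i).re)]
          exact Finset.sum_le_sum_of_subset_of_nonneg (Finset.subset_univ _)
            fun i _ _ => (hsec i).1.le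
        linarith)
      ha1 (by linarith) (by push_cast; linarith) hBC (by omega)
    have hg := hgain K a b hb1 (by omega) (by omega)
    -- the contradiction
    have g3 : ((2 : ℝ) ^ r * ((r + 1) * (4 * N) + 1) ^ (2 ^ r)) ^ r ≤
        (2 ^ r * (4 * r + 5 : ℝ) ^ (2 ^ r)) ^ r * (N : ℝ) ^ (2 ^ r * r) := by
      have g4 : ((2 : ℝ) ^ r * ((r + 1) * (4 * N) + 1) ^ (2 ^ r)) ≤
          (2 ^ r * (4 * r + 5 : ℝ) ^ (2 ^ r)) * (N : ℝ) ^ (2 ^ r) := by
        rw [mul_assoc, ← mul_pow]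
        apply mul_le_mul_of_nonneg_left _ (by positivity)
        apply pow_le_pow_left₀ (by positivity)
        nlinarith
      calc ((2 : ℝ) ^ r * ((r + 1) * (4 * N) + 1) ^ (2 ^ r)) ^ r
          ≤ ((2 ^ r * (4 * r + 5 : ℝ) ^ (2 ^ r)) * (N : ℝ) ^ (2 ^ r)) ^ r :=
            pow_le_pow_left₀ (by positivity) g4 r
        _ = _ := by rw [mul_pow _ ((N : ℝ) ^ (2 ^ r)), ← pow_mul]
    have g5 : ((2 * N : ℝ) ^ (2 * V + 1)) ^ 3 *
        ((2 ^ r * ((r + 1) * (4 * N) + 1) ^ (2 ^ r)) ^ r * (2 * (4 * N)) ^ (r ^ 2)) ≤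
        ((2 * N : ℝ) ^ (2 * V + 1)) ^ 3 *
        (((2 ^ r * (4 * r + 5 : ℝ) ^ (2 ^ r)) ^ r * (N : ℝ) ^ (2 ^ r * r)) *
          (2 * (4 * N)) ^ (r ^ 2)) := by
      gcongr
    have g6 : ((2 * N : ℝ) ^ (2 * V + 1)) ^ 3 *
        (((2 ^ r * (4 * r + 5 : ℝ) ^ (2 ^ r)) ^ r * (N : ℝ) ^ (2 ^ r * r)) *
          (2 * (4 * N)) ^ (r ^ 2)) = Cst * (N : ℝ) ^ k₀ := by
      have g7 : (2 * (4 * N) : ℝ) ^ (r ^ 2) = 8 ^ (r ^ 2) * (N : ℝ) ^ (r ^ 2) := by
        rw [← mul_pow]; congr 1; ring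
      have g8 : ((2 * N : ℝ) ^ (2 * V + 1)) ^ 3 = 2 ^ (6 * V + 3) * (N : ℝ) ^ (6 * V + 3) := by
        rw [← pow_mul, ← mul_pow]; congr 1; ring
      rw [g7, g8, hCst, hk₀, pow_add (N : ℝ), pow_add (N : ℝ)]
      ring
    have hch : (0 : ℝ) < ((K + b).choose K : ℝ) := by
      exact_mod_cast Nat.choose_pos (Nat.le_add_right K b)
    have g9 : ((K + b).choose K : ℝ) * (N : ℝ) ^ (k₀ + 1) ≤
        ((K + b).choose K : ℝ) * (Cst * (N : ℝ) ^ k₀) :=
      hg.trans (hfin.trans (mul_le_mul_of_nonneg_left (g5.trans g6.le) hch.le))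
    have g10 := le_of_mul_le_mul_left g9 hch
    rw [pow_succ, mul_comm ((N : ℝ) ^ k₀)] at g10
    have g11 := le_of_mul_le_mul_right g10 (by positivity)
    linarith

set_option maxHeartbeats 1000000 in
theorem canonical7 (hK : S_KOS) (hL : S_LSP) (hC : S_CUB) (hM2 : S_M2) (r : ℕ) :
    ∃ T : ℕ, ∀ N : ℕ, T ≤ N → ∀ (P : ℤ[X]) (β : Fin r → ℂ),
    P.map (Int.castRingHom ℂ) = ∏ i, (X - C (β i)) →
    (∀ (l : ℕ) (lam : Fin l → ℕ), Monotone lam → (∀ i, lam i ≤ r) →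
      ∑ i, lam i + r ≤ N →
      0 < Matrix.det (fun i j : Fin l => if (j : ℕ) ≤ lam i + i then
        (if lam i + i - j ≤ r then (-1) ^ (lam i + i - (j : ℕ)) * P.coeff (r - (lam i + i - j))
          else 0) else 0)) →
    (∀ i, 0 ≤ (-1) ^ (r - i) * (P.comp (X + 1)).coeff i) →
    (∀ t : ℤ, ∃ z : ℤ, ∑ S : Finset (Fin r), (-1) ^ S.card *
      ((∏ j ∈ range N, ((t : ℂ) - ∑ i ∈ S, β i + j + 1)) / N.factorial) = z) →
    (∀ t : ℤ, ∃ z : ℤ, ∑ k, ∑ S : Finset (Fin r), (-1) ^ S.card *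
      ((∏ j ∈ range N, ((t : ℂ) - β k - ∑ i ∈ S, β i + j + 1)) / N.factorial) = z) →
    ∀ k : ℤ, (k : ℂ) = ∑ i, β i - N - 1 → k + T ≤ N →
    ∃ a : Fin r → ℤ, (∀ i, 1 ≤ a i) ∧ P = ∏ i, (X - C (a i)) := by
  obtain ⟨T, hT⟩ := canonical6 hK hL hC hM2 r
  obtain ⟨N₀, h⟩ := eventually_atTop.1 hT
  refine ⟨N₀ + 2 * r + 6 * r ^ 2 + T + 1, fun N hN P β hβ hschur hpos hint hcon k hk hkN => ?_⟩
  have hsum : ∑ i, (β i).re + T ≤ 2 * N := by
    have h1 : ∑ i, (β i).re = k + N + 1 := by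
      have h2 : ∑ i, β i = ((k + N + 1 : ℝ) : ℂ) := by
        push_cast
        rw [hk]
        ring
      rw [← Complex.re_sum, h2, Complex.ofReal_re]
    have h3 : k + T + 1 ≤ N := by
      push_cast at hkN
      have h5 : (0 : ℤ) ≤ (r : ℤ) ^ 2 := by positivity
      have h6 : (0 : ℤ) ≤ N₀ := Int.natCast_nonneg _
      have h7 : (0 : ℤ) ≤ r := Int.natCast_nonneg _
      linarith
    have h4 : (k : ℝ) + T + 1 ≤ N := by exact_mod_cast h3
    rw [h1]
    linarith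
  have hall := h N (by omega) P β hβ hschur hpos hint hcon hsum
  choose n hn using hall
  refine ⟨n, fun i => ?_, ?_⟩
  · have hr : 1 ≤ r := by have := i.2; omega
    have h1 := (chern_roots r N hr (by omega) (by omega) P β hβ hschur i).1
    rw [hn i, Complex.intCast_re] at h1
    have h2 : 0 < n i := by exact_mod_cast h1
    omega
  · apply Polynomial.map_injective _ (RingHom.injective_int (Int.castRingHom ℂ))
    rw [hβ, Polynomial.map_prod]
    refine Finset.prod_congr rfl fun i _ => ?_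
    rw [Polynomial.map_sub, map_X, map_C, hn i]
    simp

end Can

end Pool.Agent.J4.H53.CI
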