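import Mathlib

set_option autoImplicit false

/-!
# Products of pairs of points `x - β y` and polynomials which split modulo many primes

`form P x y` is the binary form `y ^ m P(x / y)` of the monic polynomial `P` of degree `m`.
-/

open Polynomial Finset

namespace Pool.Agent.J4.H53.CI

/-- the binary form of `P` -/
noncomputable def form (P : ℤ[X]) (x y : ℤ) : ℤ := (P.scaleRoots y).eval x

lemma scaleRoots_prod {K : Type*} [Field K] {ι : Type*} (s : Finset ι) (t : ι → K) (y : K) :
    (∏ i ∈ s, (X - C (t i))).scaleRoots y = ∏ i ∈ s, (X - C (y * t i)) := by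
  classical
  induction s using Finset.induction_on with
  | empty => simp
  | insert a s ha ih =>
    rw [prod_insert ha, prod_insert ha, mul_scaleRoots_of_noZeroDivisors, ih, X_sub_C_scaleRoots,
      mul_comm (t a) y]

lemma form_field {K : Type*} [Field K] {P : ℤ[X]} (hP : P.Monic) {m : ℕ} (t : Fin m → K)
    (ht : P.map (Int.castRingHom K) = ∏ i, (X - C (t i))) (x y : ℤ) :
    ((form P x y : ℤ) : K) = ∏ i, ((x : K) - y * t i) := by
  have h1 : ((form P x y : ℤ) : K) =
      ((P.map (Int.castRingHom K)).scaleRoots (y : K)).eval (x : K) := by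
    have h2 := map_scaleRoots P y (Int.castRingHom K) (by rw [hP.leadingCoeff]; simp)
    rw [eq_intCast] at h2
    rw [← h2, eval_intCast_map]
    rfl
  rw [h1, ht, scaleRoots_prod, eval_prod]
  simp

lemma form_dvd (P : ℤ[X]) (p x y : ℤ) (hx : p ∣ x) (hy : p ∣ y) :
    p ^ P.natDegree ∣ form P x y := by
  rw [form, eval_eq_sum_range, natDegree_scaleRoots]
  refine dvd_sum fun k hk => ?_
  rw [mem_range] at hk
  rw [coeff_scaleRoots, mul_assoc]
  refine Dvd.dvd.mul_left ?_ _
  have h1 : p ^ P.natDegree = p ^ (P.natDegree - k) * p ^ k := by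
    rw [← pow_add]
    congr 1
    omega
  rw [h1]
  exact mul_dvd_mul (pow_dvd_pow_of_dvd hy _) (pow_dvd_pow_of_dvd hx _)

lemma natDegree_of_map {K : Type*} [Field K] {P : ℤ[X]} (hP : P.Monic) {m : ℕ} (t : Fin m → K)
    (ht : P.map (Int.castRingHom K) = ∏ i, (X - C (t i))) : P.natDegree = m := by
  rw [← hP.natDegree_map (Int.castRingHom K), ht, natDegree_prod_of_monic _ _
    fun i _ => monic_X_sub_C _]
  simp

lemma local_dvd {P : ℤ[X]} (hP : P.Monic) {p : ℕ} (hp : p.Prime) {m : ℕ} (t : Fin m → ZMod p)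
    (hinj : Function.Injective t)
    (ht : P.map (Int.castRingHom (ZMod p)) = ∏ i, (X - C (t i))) (x y : ℤ) :
    (p : ℤ) ^ (univ.filter fun i => (x : ZMod p) = y * t i).card ∣ form P x y := by
  have : Fact p.Prime := ⟨hp⟩
  by_cases hy : (y : ZMod p) = 0
  · by_cases hx : (x : ZMod p) = 0
    · have h1 : (univ.filter fun i : Fin m => (x : ZMod p) = y * t i) = univ := by
        rw [filter_true_of_mem]
        intro i _
        rw [hx, hy, zero_mul]
      rw [h1, card_univ, Fintype.card_fin, ← natDegree_of_map hP t ht]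
      exact form_dvd P p x y ((ZMod.intCast_zmod_eq_zero_iff_dvd _ _).1 hx)
        ((ZMod.intCast_zmod_eq_zero_iff_dvd _ _).1 hy)
    · have h1 : (univ.filter fun i : Fin m => (x : ZMod p) = y * t i) = ∅ := by
        rw [filter_eq_empty_iff]
        intro i _
        rw [hy, zero_mul]
        exact hx
      rw [h1]
      simp
  · have hc : (univ.filter fun i : Fin m => (x : ZMod p) = y * t i).card ≤ 1 := by
      rw [card_le_one]
      intro a ha b hb
      rw [mem_filter] at ha hb
      apply hinj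
      exact mul_left_cancel₀ hy (ha.2.symm.trans hb.2)
    rcases Nat.le_one_iff_eq_zero_or_eq_one.1 hc with h | h
    · rw [h]
      simp
    · rw [h, pow_one]
      obtain ⟨i, hi⟩ := card_eq_one.1 h
      have hi2 : i ∈ (univ.filter fun i : Fin m => (x : ZMod p) = y * t i) := by
        rw [hi]
        exact mem_singleton_self i
      rw [mem_filter] at hi2
      rw [← ZMod.intCast_zmod_eq_zero_iff_dvd]
      rw [form_field hP t ht]
      exact prod_eq_zero (mem_univ i) (by rw [hi2.2, sub_self])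

/-- the number of pairs in the same class -/
lemma pairs {α : Type*} [DecidableEq α] {p : ℕ} (hp : p.Prime) (S : Finset α) (φ : α → ZMod p) :
    ((S.card : ℝ) ^ 2 / p - S.card) ≤
      ((S.offDiag.filter fun q => φ q.1 = φ q.2).card : ℝ) := by
  have : Fact p.Prime := ⟨hp⟩
  have hp0 : (0 : ℝ) < p := by exact_mod_cast hp.pos
  have h1 : ((S ×ˢ S).filter fun q => φ q.1 = φ q.2).card =
      ∑ z : ZMod p, (S.filter fun a => φ a = z).card ^ 2 := by
    rw [card_eq_sum_card_fiberwise (f := fun q : α × α => φ q.1) (t := univ) (by intro q _; simp)]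
    refine sum_congr rfl fun z _ => ?_
    rw [sq, ← card_product]
    congr 1
    ext ⟨a, b⟩
    simp only [mem_filter, mem_product]
    constructor
    · rintro ⟨⟨⟨h1, h2⟩, h3⟩, h4⟩
      exact ⟨⟨h1, h4⟩, h2, h3.symm.trans h4⟩
    · rintro ⟨⟨h1, h2⟩, h3, h4⟩
      exact ⟨⟨⟨h1, h3⟩, h2.trans h4.symm⟩, h2⟩
  have h2 : ∑ z : ZMod p, (S.filter fun a => φ a = z).card = S.card := by
    rw [← card_eq_sum_card_fiberwise (f := φ) (t := univ) (by intro q _; simp)]
  have h3 : (S.card : ℝ) ^ 2 ≤ p * ∑ z : ZMod p, ((S.filter fun a => φ a = z).card : ℝ) ^ 2 := by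
    have h4 := sq_sum_le_card_mul_sum_sq (s := (univ : Finset (ZMod p)))
      (f := fun z => ((S.filter fun a => φ a = z).card : ℝ))
    rw [card_univ, ZMod.card] at h4
    rw [← h2]
    push_cast
    exact h4
  have h5 : ((S ×ˢ S).filter fun q => φ q.1 = φ q.2).card =
      (S.offDiag.filter fun q => φ q.1 = φ q.2).card + S.card := by
    have h6 : (S ×ˢ S).filter (fun q => φ q.1 = φ q.2) =
        (S.offDiag.filter fun q => φ q.1 = φ q.2) ∪ S.diag := by
      ext ⟨a, b⟩
      simp only [mem_filter, mem_product, mem_union, mem_offDiag, mem_diag]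
      constructor
      · rintro ⟨⟨h1, h2⟩, h3⟩
        by_cases hab : a = b
        · exact Or.inr ⟨h1, hab⟩
        · exact Or.inl ⟨⟨h1, h2, hab⟩, h3⟩
      · rintro (⟨⟨h1, h2, -⟩, h3⟩ | ⟨h1, rfl⟩)
        · exact ⟨⟨h1, h2⟩, h3⟩
        · exact ⟨⟨h1, h1⟩, rfl⟩
    rw [h6, card_union_of_disjoint, diag_card]
    rw [disjoint_left]
    rintro ⟨a, b⟩ h1 h2
    rw [mem_filter, mem_offDiag] at h1
    rw [mem_diag] at h2
    exact h1.1.2.2 h2.2
  have h6 : ((S.offDiag.filter fun q => φ q.1 = φ q.2).card : ℝ) =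
      ∑ z : ZMod p, ((S.filter fun a => φ a = z).card : ℝ) ^ 2 - S.card := by
    have h7 := h5.symm.trans h1
    have h8 : ((S.offDiag.filter fun q => φ q.1 = φ q.2).card : ℝ) + S.card =
        ∑ z : ZMod p, ((S.filter fun a => φ a = z).card : ℝ) ^ 2 := by exact_mod_cast h7
    linarith
  rw [h6]
  have : (S.card : ℝ) ^ 2 / p ≤ ∑ z : ZMod p, ((S.filter fun a => φ a = z).card : ℝ) ^ 2 := by
    rw [div_le_iff₀ hp0]
    linarith
  linarith

/-- **The inequality.** -/
theorem core {P : ℤ[X]} (hP : P.Monic) {m : ℕ} (β : Fin m → ℂ)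
    (hβ : P.map (Int.castRingHom ℂ) = ∏ i, (X - C (β i)))
    (hne : ∀ x y : ℤ, (x ≠ 0 ∨ y ≠ 0) → form P x y ≠ 0)
    (G : Finset ℕ) (hG : ∀ p ∈ G, p.Prime ∧ ∃ t : Fin m → ZMod p, Function.Injective t ∧
      P.map (Int.castRingHom (ZMod p)) = ∏ i, (X - C (t i)))
    (c : ℤ) (M L : ℕ) (hM : 1 ≤ M) :
    (m : ℝ) * (∑ p ∈ G, Real.log p / p - (∑ p ∈ G, Real.log p) / ((M + 1) * (L + 1))) ≤
      ∑ i, Real.log (M + ‖β i - c‖ * L) := by
  classical
  set S : Finset (ℕ × ℕ) := range (M + 1) ×ˢ range (L + 1) with hS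
  set n : ℝ := (M + 1) * (L + 1) with hn
  have hSn : (S.card : ℝ) = n := by
    rw [hS, card_product, card_range, card_range]
    push_cast
    rfl
  have hn0 : 0 < n := by positivity
  set F : (ℕ × ℕ) × (ℕ × ℕ) → ℤ := fun q =>
    form P ((q.1.1 : ℤ) - q.2.1 + c * ((q.1.2 : ℤ) - q.2.2)) ((q.1.2 : ℤ) - q.2.2) with hF
  set Λ : ℝ := ∑ i, Real.log (M + ‖β i - c‖ * L) with hΛ
  have hM1 : (1 : ℝ) ≤ M := by exact_mod_cast hM
  have hΛ0 : 0 ≤ Λ := by
    refine sum_nonneg fun i _ => Real.log_nonneg ?_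
    have : 0 ≤ ‖β i - c‖ * L := by positivity
    linarith
  have hF0 : ∀ q ∈ S.offDiag, F q ≠ 0 := by
    rintro ⟨⟨a, b⟩, ⟨a', b'⟩⟩ hq
    rw [mem_offDiag] at hq
    apply hne
    by_contra hcon
    push Not at hcon
    obtain ⟨h1, h2⟩ := hcon
    simp only at h1 h2
    rw [h2, mul_zero, add_zero] at h1
    apply hq.2.2
    rw [Prod.mk.injEq]
    constructor <;> omega
  -- the archimedean bound
  have hFle : ∀ q ∈ S.offDiag, Real.log ((F q).natAbs : ℝ) ≤ Λ := by
    rintro ⟨⟨a, b⟩, ⟨a', b'⟩⟩ hq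
    have hq0 := hF0 _ hq
    rw [mem_offDiag, hS, mem_product, mem_product, mem_range, mem_range, mem_range, mem_range] at hq
    obtain ⟨⟨ha, hb⟩, ⟨ha', hb'⟩, -⟩ := hq
    simp only at ha hb ha' hb'
    have h1 : ((F ((a, b), (a', b'))).natAbs : ℝ) = ‖((F ((a, b), (a', b')) : ℤ) : ℂ)‖ := by
      rw [Complex.norm_intCast, Nat.cast_natAbs, Int.cast_abs]
    have h2 : ‖((F ((a, b), (a', b')) : ℤ) : ℂ)‖ ≤ ∏ i, (M + ‖β i - c‖ * L) := by
      rw [hF]
      simp only
      rw [form_field hP β hβ, norm_prod]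
      refine prod_le_prod (fun i _ => norm_nonneg _) fun i _ => ?_
      push_cast
      have h3 : ((a : ℂ) - a' + c * ((b : ℂ) - b')) - ((b : ℂ) - b') * β i =
          ((a : ℂ) - a') - (β i - c) * ((b : ℂ) - b') := by ring
      rw [h3]
      refine (norm_sub_le _ _).trans ?_
      rw [norm_mul]
      have h4 : ‖(a : ℂ) - a'‖ ≤ M := by
        have : (a : ℂ) - a' = (((a : ℤ) - a' : ℤ) : ℂ) := by push_cast; ring
        rw [this, Complex.norm_intCast]
        have h5 : |(a : ℤ) - a'| ≤ M := by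
          rw [abs_le]; constructor <;> omega
        exact_mod_cast h5
      have h4' : ‖(b : ℂ) - b'‖ ≤ L := by
        have : (b : ℂ) - b' = (((b : ℤ) - b' : ℤ) : ℂ) := by push_cast; ring
        rw [this, Complex.norm_intCast]
        have h5 : |(b : ℤ) - b'| ≤ L := by
          rw [abs_le]; constructor <;> omega
        exact_mod_cast h5
      gcongr
    have h3 : (0 : ℝ) < ((F ((a, b), (a', b'))).natAbs : ℝ) := by
      have := Int.natAbs_pos.2 hq0
      exact_mod_cast this
    calc Real.log ((F ((a, b), (a', b'))).natAbs : ℝ)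
        ≤ Real.log (∏ i, (M + ‖β i - c‖ * L)) := by
          apply Real.log_le_log h3
          rw [h1]
          exact h2
      _ = Λ := by
          rw [Real.log_prod]
          intro i _
          have : 0 ≤ ‖β i - c‖ * L := by positivity
          linarith
  set D : ℕ := ∏ q ∈ S.offDiag, (F q).natAbs with hD
  have hD0 : D ≠ 0 := by
    rw [hD]
    exact prod_ne_zero_iff.2 fun q hq => Int.natAbs_ne_zero.2 (hF0 q hq)
  have hlogD : Real.log D ≤ n ^ 2 * Λ := by
    rw [hD]
    push_cast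
    rw [Real.log_prod (fun q hq => by
      have := Int.natAbs_ne_zero.2 (hF0 q hq)
      exact_mod_cast this)]
    calc ∑ q ∈ S.offDiag, Real.log ((F q).natAbs : ℝ) ≤ ∑ q ∈ S.offDiag, Λ := sum_le_sum hFle
      _ = S.offDiag.card * Λ := by rw [sum_const, nsmul_eq_mul]
      _ ≤ n ^ 2 * Λ := by
          apply mul_le_mul_of_nonneg_right _ hΛ0
          rw [← hSn]
          have h1 : S.offDiag.card ≤ (S ×ˢ S).card := card_le_card (by
            intro q hq
            rw [mem_offDiag] at hq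
            exact mem_product.2 ⟨hq.1, hq.2.1⟩)
          rw [card_product] at h1
          rw [sq]
          exact_mod_cast h1
  -- the exponents of the primes
  have hexp : ∀ p ∈ G, (m : ℝ) * (n ^ 2 / p - n) ≤ D.factorization p := by
    intro p hpG
    obtain ⟨hp, t, hinj, ht⟩ := hG p hpG
    have : Fact p.Prime := ⟨hp⟩
    set e : (ℕ × ℕ) × (ℕ × ℕ) → ℕ := fun q => (univ.filter fun i : Fin m =>
      ((q.1.1 : ZMod p) + (c - t i) * q.1.2) = (q.2.1 : ZMod p) + (c - t i) * q.2.2).card with he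
    have h1 : ∀ q ∈ S.offDiag, p ^ e q ∣ (F q).natAbs := by
      intro q _
      have h2 := local_dvd hP hp t hinj ht ((q.1.1 : ℤ) - q.2.1 + c * ((q.1.2 : ℤ) - q.2.2))
        ((q.1.2 : ℤ) - q.2.2)
      have h3 : (univ.filter fun i : Fin m =>
          (((q.1.1 : ℤ) - q.2.1 + c * ((q.1.2 : ℤ) - q.2.2) : ℤ) : ZMod p) =
            (((q.1.2 : ℤ) - q.2.2 : ℤ) : ZMod p) * t i).card = e q := by
        rw [he]
        congr 1
        refine filter_congr fun i _ => ?_
        push_cast
        constructor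
        · intro h
          linear_combination h
        · intro h
          linear_combination h
      rw [h3] at h2
      have h4 := Int.natAbs_dvd_natAbs.2 h2
      rwa [Int.natAbs_pow, Int.natAbs_natCast] at h4
    have h2 : p ^ (∑ q ∈ S.offDiag, e q) ∣ D := by
      rw [hD, ← prod_pow_eq_pow_sum]
      exact prod_dvd_prod_of_dvd _ _ h1
    have h3 : ∑ q ∈ S.offDiag, e q ≤ D.factorization p :=
      (hp.pow_dvd_iff_le_factorization hD0).1 h2
    have h4 : ∑ q ∈ S.offDiag, e q = ∑ i : Fin m, (S.offDiag.filter fun q =>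
        ((q.1.1 : ZMod p) + (c - t i) * q.1.2) = (q.2.1 : ZMod p) + (c - t i) * q.2.2).card := by
      rw [he]
      simp only [card_filter]
      exact sum_comm
    have h5 : (m : ℝ) * (n ^ 2 / p - n) ≤ ((∑ q ∈ S.offDiag, e q : ℕ) : ℝ) := by
      rw [h4]
      push_cast
      calc (m : ℝ) * (n ^ 2 / p - n) = ∑ i : Fin m, (n ^ 2 / p - n) := by
            rw [sum_const, card_univ, Fintype.card_fin, nsmul_eq_mul]
        _ ≤ _ := by
            refine sum_le_sum fun i _ => ?_
            have := pairs hp S (fun s : ℕ × ℕ => (s.1 : ZMod p) + (c - t i) * s.2)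
            rw [hSn] at this
            exact this
    exact h5.trans (by exact_mod_cast h3)
  have hsum : ∑ p ∈ G, (D.factorization p : ℝ) * Real.log p ≤ Real.log D := by
    have h1 : ∏ p ∈ G, p ^ D.factorization p ∣ D := by
      apply prod_dvd_of_isRelPrime
      · intro p hp q hq hpq
        have h2 : Nat.Coprime (p ^ D.factorization p) (q ^ D.factorization q) :=
          Nat.Coprime.pow _ _ ((Nat.coprime_primes (hG p hp).1 (hG q hq).1).2 hpq)
        exact Nat.coprime_iff_isRelPrime.1 h2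
      · intro p hp
        exact Nat.ordProj_dvd D p
    have h2 : ((∏ p ∈ G, p ^ D.factorization p : ℕ) : ℝ) ≤ D := by
      exact_mod_cast Nat.le_of_dvd (Nat.pos_of_ne_zero hD0) h1
    have h3 : Real.log ((∏ p ∈ G, p ^ D.factorization p : ℕ) : ℝ) =
        ∑ p ∈ G, (D.factorization p : ℝ) * Real.log p := by
      push_cast
      rw [Real.log_prod]
      · refine sum_congr rfl fun p _ => ?_
        rw [Real.log_pow]
      · intro p hp
        have := (hG p hp).1.ne_zero
        positivity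
    rw [← h3]
    apply Real.log_le_log _ h2
    have : 0 < ∏ p ∈ G, p ^ D.factorization p :=
      prod_pos fun p hp => pow_pos (hG p hp).1.pos _
    exact_mod_cast this
  have h1 : ∑ p ∈ G, (m : ℝ) * (n ^ 2 / p - n) * Real.log p ≤ n ^ 2 * Λ := by
    refine (sum_le_sum fun p hp => ?_).trans (hsum.trans hlogD)
    exact mul_le_mul_of_nonneg_right (hexp p hp) (Real.log_natCast_nonneg p)
  have h2 : ∑ p ∈ G, (m : ℝ) * (n ^ 2 / p - n) * Real.log p =
      n ^ 2 * ((m : ℝ) * (∑ p ∈ G, Real.log p / p - (∑ p ∈ G, Real.log p) / n)) := by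
    rw [sum_div, ← sum_sub_distrib, mul_sum, mul_sum]
    refine sum_congr rfl fun p hp => ?_
    have hp0 : (p : ℝ) ≠ 0 := by exact_mod_cast (hG p hp).1.ne_zero
    field_simp
  rw [h2] at h1
  exact le_of_mul_le_mul_left h1 (by positivity)

end Pool.Agent.J4.H53.CI
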