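import Mathlib

/-!
# Project CI: integrality for all integer valued polynomials
-/

set_option autoImplicit false

open Polynomial Finset

namespace Pool.Agent.J4.H53.CI

namespace Fun

/-- the binomial polynomials -/
noncomputable def bin (k : ℕ) : ℚ[X] := C ((k.factorial : ℚ)⁻¹) * descPochhammer ℚ k

lemma natDegree_bin (k : ℕ) : (bin k).natDegree ≤ k := by
  rw [bin]
  refine (natDegree_C_mul_le _ _).trans ?_
  rw [descPochhammer_natDegree]

lemma aeval_bin (k : ℕ) (x : ℂ) : aeval x (bin k) =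
    (k.factorial : ℂ)⁻¹ * ∏ j ∈ Finset.range k, (x - j) := by
  rw [bin, map_mul, aeval_C]
  congr 1
  · simp
  · have h2 : aeval x (descPochhammer ℚ k) = (descPochhammer ℂ k).eval x := by
      rw [← descPochhammer_map (algebraMap ℚ ℂ) k, eval_map]
      rfl
    rw [h2, descPochhammer_eval_eq_prod_range]

theorem bin_eval (k m : ℕ) : (bin k).eval (m : ℚ) = m.choose k := by
  rw [bin, eval_mul, eval_C, descPochhammer_eval_eq_descFactorial,
    Nat.descFactorial_eq_factorial_mul_choose]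
  push_cast
  have : (k.factorial : ℚ) ≠ 0 := by exact_mod_cast k.factorial_ne_zero
  field_simp

open fwdDiff in
/-- Newton's expansion -/
theorem newton (n : ℕ) (g : ℚ[X]) (hg : ∀ m : ℤ, ∃ z : ℤ, g.eval (m : ℚ) = z)
    (hd : g.natDegree ≤ n) :
    ∃ c : ℕ → ℤ, g = ∑ k ∈ Finset.range (n + 1), C (c k : ℚ) * bin k := by
  choose F hF using hg
  refine ⟨fun k => (fwdDiff (1 : ℕ))^[k] (fun m : ℕ => F m) 0, ?_⟩
  apply Polynomial.eq_of_natDegree_lt_card_of_eval_eq' _ _
    ((Finset.range (n + 1)).image (fun m : ℕ => (m : ℚ)))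
  · intro x hx
    rw [Finset.mem_image] at hx
    obtain ⟨m, hm, rfl⟩ := hx
    rw [Finset.mem_range] at hm
    have h := shift_eq_sum_fwdDiff_iter (1 : ℕ) (fun m : ℕ => F m) m 0
    simp only [zero_add, smul_eq_mul, mul_one] at h
    have h1 := hF m
    rw [Int.cast_natCast] at h1
    rw [h1, h, eval_finsetSum]
    push_cast
    rw [← Finset.sum_subset (Finset.range_subset_range.2 hm)]
    · refine Finset.sum_congr rfl fun k _ => ?_
      rw [eval_mul, eval_C, bin_eval, nsmul_eq_mul, Int.cast_mul, mul_comm]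
      rfl
    · intro k _ hk
      rw [Finset.mem_range, not_lt] at hk
      rw [eval_mul, bin_eval, Nat.choose_eq_zero_of_lt (by omega)]
      simp
  · rw [Finset.card_image_of_injective _ Nat.cast_injective, Finset.card_range]
    refine max_lt (by omega) (Nat.lt_succ_of_le ?_)
    refine natDegree_sum_le_of_forall_le _ _ fun k hk => ?_
    rw [Finset.mem_range] at hk
    exact (natDegree_C_mul_le _ _).trans ((natDegree_bin k).trans (by omega))

/-- `binom (x + k, k)` -/
noncomputable def rb (k : ℕ) (x : ℂ) : ℂ := (∏ j ∈ range k, (x + j + 1)) / k.factorial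

lemma rb_succ (k : ℕ) (x : ℂ) : rb k x = rb (k + 1) x - rb (k + 1) (x - 1) := by
  have h1 : ∏ j ∈ range (k + 1), (x + j + 1) = (∏ j ∈ range k, (x + j + 1)) * (x + k + 1) :=
    prod_range_succ _ _
  have h2 : ∏ j ∈ range (k + 1), (x - 1 + j + 1) = (∏ j ∈ range k, (x + j + 1)) * x := by
    rw [prod_range_succ']
    congr 1
    · refine prod_congr rfl fun j _ => ?_
      push_cast
      ring
    · push_cast
      ring
  have h3 : ((k + 1).factorial : ℂ) = (k + 1) * k.factorial := by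
    rw [Nat.factorial_succ]
    push_cast
    ring
  have h4 : (k.factorial : ℂ) ≠ 0 := by exact_mod_cast k.factorial_ne_zero
  have h5 : (k : ℂ) + 1 ≠ 0 := by exact_mod_cast Nat.succ_ne_zero k
  unfold rb
  rw [h1, h2, h3]
  field_simp
  ring

lemma bin_rb (k : ℕ) (y : ℂ) : aeval y (bin k) = (-1) ^ k * rb k (((-1 : ℤ) : ℂ) - y) := by
  rw [aeval_bin]
  unfold rb
  have h1 : ∏ j ∈ range k, ((((-1 : ℤ) : ℂ) - y) + j + 1) =
      (-1) ^ k * ∏ j ∈ range k, (y - j) := by
    have h2 : ∏ j ∈ range k, ((((-1 : ℤ) : ℂ) - y) + j + 1) = ∏ j ∈ range k, ((-1) * (y - j)) := by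
      refine prod_congr rfl fun j _ => ?_
      push_cast
      ring
    rw [h2, prod_mul_distrib, prod_const, card_range]
  rw [h1, ← mul_div_assoc, ← mul_assoc, ← mul_pow]
  norm_num
  ring

end Fun

open Fun

theorem functional (N r : ℕ) (β : Fin r → ℂ)
    (h : ∀ t : ℤ, ∃ z : ℤ, ∑ S : Finset (Fin r), (-1) ^ S.card *
      ((∏ j ∈ range N, ((t : ℂ) - ∑ i ∈ S, β i + j + 1)) / N.factorial) = z)
    (f : ℚ[X]) (hf : ∀ m : ℤ, ∃ z : ℤ, f.eval (m : ℚ) = z) (hd : f.natDegree ≤ N) :
    ∃ z : ℤ, ∑ S : Finset (Fin r), (-1) ^ S.card * aeval (∑ i ∈ S, β i) f = z := by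
  have key : ∀ d k : ℕ, k + d = N → ∀ t : ℤ, ∃ z : ℤ,
      ∑ S : Finset (Fin r), (-1) ^ S.card * rb k ((t : ℂ) - ∑ i ∈ S, β i) = z := by
    intro d
    induction d with
    | zero =>
      intro k hk t
      rw [add_zero] at hk
      subst hk
      exact h t
    | succ d ih =>
      intro k hk t
      obtain ⟨z1, h1⟩ := ih (k + 1) (by omega) t
      obtain ⟨z2, h2⟩ := ih (k + 1) (by omega) (t - 1)
      refine ⟨z1 - z2, ?_⟩
      rw [Int.cast_sub, ← h1, ← h2, ← sum_sub_distrib]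
      refine sum_congr rfl fun S _ => ?_
      rw [rb_succ, mul_sub]
      congr 3
      push_cast
      ring
  obtain ⟨c, hc⟩ := newton N f hf hd
  have h1 : ∀ k, ∃ z : ℤ, k ≤ N → ∑ S : Finset (Fin r), (-1) ^ S.card *
      rb k (((-1 : ℤ) : ℂ) - ∑ i ∈ S, β i) = z := by
    intro k
    by_cases hk : k ≤ N
    · obtain ⟨z, hz⟩ := key (N - k) k (by omega) (-1)
      exact ⟨z, fun _ => hz⟩
    · exact ⟨0, fun h => absurd h hk⟩
  choose z hz using h1
  refine ⟨∑ k ∈ range (N + 1), c k * ((-1) ^ k * z k), ?_⟩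
  have h2 : ∀ y : ℂ, aeval y f = ∑ k ∈ range (N + 1), (c k : ℂ) * ((-1) ^ k *
      rb k (((-1 : ℤ) : ℂ) - y)) := by
    intro y
    rw [hc, map_sum]
    refine sum_congr rfl fun k _ => ?_
    rw [map_mul, aeval_C, bin_rb]
    simp
  simp only [h2, mul_sum]
  rw [sum_comm, Int.cast_sum]
  refine sum_congr rfl fun k hk => ?_
  have hk' : k ≤ N := by
    rw [mem_range] at hk
    omega
  rw [Int.cast_mul, Int.cast_mul, ← hz k hk', mul_sum, mul_sum]
  refine sum_congr rfl fun S _ => ?_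
  push_cast
  ring

end Pool.Agent.J4.H53.CI
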