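import Mathlib

/-!
# A polynomial which kills the sums of roots that are not conjugate to a given one
-/

set_option autoImplicit false

open Polynomial Finset

namespace Pool.Agent.J4.H53.CI

namespace Kil

variable {r : ℕ}

/-- the elementary symmetric functions of the roots are integers -/
lemma esymm_int {P : ℤ[X]} {β : Fin r → ℂ}
    (hβ : P.map (Int.castRingHom ℂ) = ∏ i, (X - C (β i))) (j : ℕ) (hj : j ≤ r) :
    ∃ z : ℤ, ((univ : Finset (Fin r)).val.map β).esymm j = (z : ℂ) := by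
  have hcard : Multiset.card ((univ : Finset (Fin r)).val.map β) = r := by simp
  have h1 := Multiset.prod_X_sub_C_coeff ((univ : Finset (Fin r)).val.map β)
    (k := r - j) (by rw [hcard]; omega)
  rw [hcard, Nat.sub_sub_self hj, Multiset.map_map] at h1
  have h2 : (Multiset.map ((fun t => X - C t) ∘ β) (univ : Finset (Fin r)).val).prod =
      P.map (Int.castRingHom ℂ) := by
    rw [hβ]; rfl
  rw [h2, coeff_map] at h1
  refine ⟨(-1) ^ j * P.coeff (r - j), ?_⟩
  push_cast
  have h3 : (Int.castRingHom ℂ) (P.coeff (r - j)) = ((P.coeff (r - j) : ℤ) : ℂ) := rfl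
  rw [h3] at h1
  rw [h1, ← mul_assoc, ← mul_pow]
  norm_num

lemma sym_int {P : ℤ[X]} {β : Fin r → ℂ}
    (hβ : P.map (Int.castRingHom ℂ) = ∏ i, (X - C (β i))) (φ : MvPolynomial (Fin r) ℤ)
    (hφ : φ.IsSymmetric) : ∃ z : ℤ, MvPolynomial.aeval β φ = (z : ℂ) := by
  obtain ⟨g, hg⟩ := MvPolynomial.esymmAlgHom_surjective (σ := Fin r) (n := r) ℤ (by simp)
    ⟨φ, hφ⟩
  have h1 : φ = MvPolynomial.aeval (fun i : Fin r => MvPolynomial.esymm (Fin r) ℤ (i + 1)) g := by
    rw [← MvPolynomial.esymmAlgHom_apply, hg]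
  have h2 : ∀ i : Fin r, ∃ z : ℤ,
      MvPolynomial.aeval β (MvPolynomial.esymm (Fin r) ℤ (i + 1)) = (z : ℂ) := by
    intro i
    rw [MvPolynomial.aeval_esymm_eq_multiset_esymm]
    exact esymm_int hβ _ (by omega)
  choose z hz using h2
  refine ⟨MvPolynomial.aeval z g, ?_⟩
  have h3 : MvPolynomial.aeval β φ = MvPolynomial.aeval
      (fun i : Fin r => MvPolynomial.aeval β (MvPolynomial.esymm (Fin r) ℤ (i + 1))) g := by
    rw [h1, ← AlgHom.comp_apply, MvPolynomial.comp_aeval]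
  rw [h3]
  simp only [hz]
  have h4 := MvPolynomial.aeval_algebraMap_apply (R := ℤ) (B := ℂ) z g
  simpa [Function.comp_def] using h4

/-- the generic polynomial -/
noncomputable def gen (r : ℕ) : (MvPolynomial (Fin r) ℤ)[X] :=
  ∏ S : Finset (Fin r), (X - C (∑ i ∈ S, MvPolynomial.X i))

lemma gen_sym (n : ℕ) : ((gen r).coeff n).IsSymmetric := by
  intro σ
  have h1 : (MvPolynomial.rename σ) ((gen r).coeff n) =
      ((gen r).map (MvPolynomial.rename (R := ℤ) σ).toRingHom).coeff n := by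
    rw [coeff_map]; rfl
  rw [h1]
  congr 1
  unfold gen
  rw [Polynomial.map_prod]
  refine Fintype.prod_equiv (Equiv.finsetCongr σ) _ _ fun S => ?_
  rw [Polynomial.map_sub, map_X, map_C]
  congr 2
  simp [Equiv.finsetCongr_apply]

lemma exists_E {P : ℤ[X]} {β : Fin r → ℂ}
    (hβ : P.map (Int.castRingHom ℂ) = ∏ i, (X - C (β i))) :
    ∃ E : ℤ[X], E.Monic ∧ E.natDegree = 2 ^ r ∧
      E.map (Int.castRingHom ℂ) = ∏ S : Finset (Fin r), (X - C (∑ i ∈ S, β i)) := by
  set D : ℂ[X] := ∏ S : Finset (Fin r), (X - C (∑ i ∈ S, β i)) with hD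
  have hDg : D = (gen r).map (MvPolynomial.aeval (R := ℤ) β).toRingHom := by
    rw [hD, gen, Polynomial.map_prod]
    refine Finset.prod_congr rfl fun S _ => ?_
    rw [Polynomial.map_sub, map_X, map_C]
    congr 2
    simp
  have hDm : D.Monic := monic_prod_of_monic _ _ fun S _ => monic_X_sub_C _
  have hlift : D ∈ lifts (Int.castRingHom ℂ) := by
    rw [lifts_iff_coeff_lifts]
    intro n
    obtain ⟨z, hz⟩ := sym_int hβ _ (gen_sym (r := r) n)
    refine ⟨z, ?_⟩
    rw [hDg, coeff_map]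
    exact hz.symm
  obtain ⟨E, h1, h2, h3⟩ := lifts_and_natDegree_eq_and_monic hlift hDm
  refine ⟨E, h3, ?_, h1⟩
  rw [h2, hD, natDegree_prod_of_monic _ _ fun S _ => monic_X_sub_C _]
  have h4 : ∀ S : Finset (Fin r), (X - C (∑ i ∈ S, β i)).natDegree = 1 := fun S =>
    natDegree_X_sub_C _
  rw [Finset.sum_congr rfl fun S _ => h4 S, Finset.sum_const, Finset.card_univ,
    Fintype.card_finset, Fintype.card_fin, smul_eq_mul, mul_one]

lemma pow_le_deg (r : ℕ) : 2 ^ r ≤ (r + 1) ^ (r + 1) := by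
  rcases Nat.eq_zero_or_pos r with rfl | hr
  · simp
  · calc 2 ^ r ≤ (r + 1) ^ r := Nat.pow_le_pow_left (by omega) r
      _ ≤ (r + 1) ^ (r + 1) := Nat.pow_le_pow_right (by omega) (by omega)

end Kil

open Kil in
theorem killer (r : ℕ) (P Q : ℤ[X]) (hP : P.Monic) (β : Fin r → ℂ)
    (hβ : P.map (Int.castRingHom ℂ) = ∏ i, (X - C (β i)))
    (hQ : Q.Monic) (hirr : Irreducible Q) (H : ℝ) (hH : 1 ≤ H) (hb : ∀ i, ‖β i‖ ≤ H) :
    ∃ G : ℤ[X], G.natDegree ≤ (r + 1) ^ (r + 1) ∧
      (∀ S : Finset (Fin r), (Q.map (Int.castRingHom ℂ)).eval (∑ i ∈ S, β i) ≠ 0 →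
        (G.map (Int.castRingHom ℂ)).eval (∑ i ∈ S, β i) = 0) ∧
      (∀ s : ℂ, (Q.map (Int.castRingHom ℂ)).eval s = 0 →
        (G.map (Int.castRingHom ℂ)).eval s ≠ 0) ∧
      (∀ s : ℂ, ‖(G.map (Int.castRingHom ℂ)).eval s‖ ≤ (‖s‖ + r * H + 1) ^ (r + 1) ^ (r + 1)) := by
  obtain ⟨E, hEm, hEd, hE⟩ := exists_E hβ
  have hQd : 0 < Q.degree := by
    rw [hQ.degree_pos]
    exact hirr.ne_one
  obtain ⟨G, hG, hnd⟩ := (finiteMultiplicity_of_degree_pos_of_monic hQd hQ
    hEm.ne_zero).exists_eq_pow_mul_and_not_dvd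
  set m := multiplicity Q E with hm
  have hGm : G.Monic := by
    have h1 : (Q ^ m * G).Monic := by rw [← hG]; exact hEm
    exact (hQ.pow m).of_mul_monic_left h1
  have hGd : G.natDegree ≤ 2 ^ r := by
    rw [← hEd, hG, (hQ.pow m).natDegree_mul hGm]
    omega
  have hroot : ∀ z, (G.map (Int.castRingHom ℂ)).eval z = 0 → ∃ S : Finset (Fin r),
      z = ∑ i ∈ S, β i := by
    intro z hz
    have h1 : (E.map (Int.castRingHom ℂ)).eval z = 0 := by
      rw [hG, Polynomial.map_mul, eval_mul, hz, mul_zero]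
    rw [hE, eval_prod, Finset.prod_eq_zero_iff] at h1
    obtain ⟨S, -, hS⟩ := h1
    rw [eval_sub, eval_X, eval_C, sub_eq_zero] at hS
    exact ⟨S, hS⟩
  refine ⟨G, hGd.trans (pow_le_deg r), fun S hS => ?_, fun s hs hGs => ?_, fun s => ?_⟩
  · have h1 : (E.map (Int.castRingHom ℂ)).eval (∑ i ∈ S, β i) = 0 := by
      rw [hE, eval_prod]
      exact Finset.prod_eq_zero (mem_univ S) (by rw [eval_sub, eval_X, eval_C, sub_self])
    rw [hG, Polynomial.map_mul, Polynomial.map_pow, eval_mul, eval_pow] at h1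
    exact (mul_eq_zero.1 h1).resolve_left (pow_ne_zero _ hS)
  · have hQs : aeval s Q = 0 := by
      rw [aeval_def, ← eval_map]; exact hs
    have hGs' : aeval s G = 0 := by
      rw [aeval_def, ← eval_map]; exact hGs
    have hint : IsIntegral ℤ s := ⟨Q, hQ, hQs⟩
    have h1 : minpoly ℤ s ∣ Q := minpoly.isIntegrallyClosed_dvd hint hQs
    have h2 : minpoly ℤ s ∣ G := minpoly.isIntegrallyClosed_dvd hint hGs'
    have h3 : Associated (minpoly ℤ s) Q :=
      ((minpoly.irreducible hint).associated_of_dvd hirr h1)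
    exact hnd (h3.symm.dvd.trans h2)
  · have hspl : (G.map (Int.castRingHom ℂ)).Splits := IsAlgClosed.splits _
    have hGm' : (G.map (Int.castRingHom ℂ)).Monic := hGm.map _
    rw [hspl.eval_eq_prod_roots_of_monic hGm']
    set B : ℝ := ‖s‖ + r * H + 1 with hB
    have hrH : 0 ≤ (r : ℝ) * H := by positivity
    have hB1 : 1 ≤ B := by
      have := norm_nonneg s
      linarith
    have hfac : ∀ z ∈ (G.map (Int.castRingHom ℂ)).roots, ‖s - z‖ ≤ B := by
      intro z hz
      rw [mem_roots hGm'.ne_zero, IsRoot.def] at hz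
      obtain ⟨S, rfl⟩ := hroot z hz
      have h1 : ‖∑ i ∈ S, β i‖ ≤ r * H := by
        calc ‖∑ i ∈ S, β i‖ ≤ ∑ i ∈ S, ‖β i‖ := norm_sum_le _ _
          _ ≤ ∑ i ∈ S, H := Finset.sum_le_sum fun i _ => hb i
          _ = S.card * H := by rw [Finset.sum_const, nsmul_eq_mul]
          _ ≤ r * H := by
            have h2 : S.card ≤ r := by simpa using Finset.card_le_univ S
            have h3 : (S.card : ℝ) ≤ r := by exact_mod_cast h2
            exact mul_le_mul_of_nonneg_right h3 (by linarith)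
      calc ‖s - ∑ i ∈ S, β i‖ ≤ ‖s‖ + ‖∑ i ∈ S, β i‖ := norm_sub_le _ _
        _ ≤ B := by linarith
    have hprod : ∀ M : Multiset ℂ, (∀ z ∈ M, ‖s - z‖ ≤ B) →
        ‖(M.map (fun z => s - z)).prod‖ ≤ B ^ (Multiset.card M) := by
      intro M
      induction M using Multiset.induction_on with
      | empty => intro _; simp
      | cons a M ih =>
        intro h
        rw [Multiset.map_cons, Multiset.prod_cons, norm_mul, Multiset.card_cons, pow_succ,
          mul_comm]
        exact mul_le_mul (ih fun z hz => h z (Multiset.mem_cons_of_mem hz))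
          (h a (Multiset.mem_cons_self a M)) (norm_nonneg _) (by positivity)
    refine (hprod _ hfac).trans (pow_le_pow_right₀ hB1 ?_)
    refine (card_roots' _).trans ?_
    rw [hGm.natDegree_map]
    exact hGd.trans (pow_le_deg r)

end Pool.Agent.J4.H53.CI
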