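import Mathlib

/-! # Project CI, piece TIN (helper45) -/

open Polynomial Finset

namespace Pool.Agent.J4.H53.CI

namespace Tin

/-- `n! / V!` as a product. -/
theorem prod_shift (n V : ℕ) :
    (∏ i ∈ range n, ((i : ℝ) + 1 + V)) * V.factorial = (n + V).factorial := by
  induction n with
  | zero => simp
  | succ n ih =>
    have h : (n + 1 + V).factorial = (n + V + 1) * (n + V).factorial := by
      rw [show n + 1 + V = (n + V) + 1 by ring, Nat.factorial_succ]
    rw [prod_range_succ, h]
    push_cast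
    rw [← ih]
    ring

theorem prod_shift_le (n V : ℕ) :
    (∏ i ∈ range n, ((i : ℝ) + 1 + V)) ≤ (n + V).factorial := by
  rw [← prod_shift]
  have h1 : (1 : ℝ) ≤ V.factorial := by exact_mod_cast Nat.one_le_iff_ne_zero.mpr V.factorial_ne_zero
  exact le_mul_of_one_le_right (prod_nonneg fun i _ => by positivity) h1

theorem fact_add_le (n k : ℕ) : (n + k).factorial ≤ n.factorial * (n + k) ^ k := by
  rw [← Nat.factorial_mul_ascFactorial]
  exact Nat.mul_le_mul_left _ (Nat.ascFactorial_le_pow_add n k)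

/-- `2 ^ x ≤ C(K, x)` for `2 x ≤ K`. -/
theorem two_pow_le_choose (x : ℕ) : ∀ K : ℕ, 2 * x ≤ K → 2 ^ x ≤ K.choose x := by
  induction x with
  | zero => intro K _; simp
  | succ x ih =>
    intro K hK
    obtain ⟨L, rfl⟩ : ∃ L, K = L + 1 := ⟨K - 1, by omega⟩
    have h1 := ih L (by omega)
    have h2 : (L + 1) * L.choose x = (L + 1).choose (x + 1) * (x + 1) := Nat.add_one_mul_choose_eq L x
    have h3 : 2 ^ (x + 1) * (x + 1) ≤ (L + 1).choose (x + 1) * (x + 1) := by
      rw [← h2, pow_succ]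
      calc 2 ^ x * 2 * (x + 1) = (2 * (x + 1)) * 2 ^ x := by ring
        _ ≤ (L + 1) * L.choose x := Nat.mul_le_mul hK h1
    exact Nat.le_of_mul_le_mul_right h3 (Nat.succ_pos x)

theorem two_pow_min_le_choose (K x : ℕ) (hx : x ≤ K) : 2 ^ (min x (K - x)) ≤ K.choose x := by
  rcases le_total x (K - x) with h | h
  · rw [min_eq_left h]
    exact two_pow_le_choose x K (by omega)
  · rw [min_eq_right h, ← Nat.choose_symm hx]
    exact two_pow_le_choose (K - x) K (by omega)

end Tin

open Tin

theorem tiny (K V x : ℕ) (s : ℂ) (hx : (x : ℝ) ≤ s.re) (hx1 : s.re ≤ x + 1) (hV : |s.im| ≤ V)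
    (hxK : x + 1 ≤ K) :
    ‖∏ j ∈ range K, (s - j)‖ * 2 ^ (min x (K - x)) ≤
      K.factorial * ((K : ℝ) + V + 1) ^ (2 * V + 1) := by
  obtain ⟨m, rfl⟩ : ∃ m, K = (x + 1) + m := ⟨K - (x + 1), by omega⟩
  -- the norm of a factor
  have hn : ∀ j : ℕ, ‖s - (j : ℂ)‖ ≤ |s.re - j| + V := by
    intro j
    refine (Complex.norm_le_abs_re_add_abs_im _).trans ?_
    simpa using hV
  have hA : ∏ j ∈ range (x + 1), ‖s - (j : ℂ)‖ ≤ ((x + 1 + V).factorial : ℝ) := by
    refine le_trans ?_ (prod_shift_le (x + 1) V)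
    rw [← prod_range_reflect (fun i : ℕ => ((i : ℝ) + 1 + V)) (x + 1)]
    refine prod_le_prod (fun _ _ => norm_nonneg _) fun j hj => ?_
    have hj' : j ≤ x := by
      have := mem_range.mp hj
      omega
    refine (hn j).trans ?_
    have hjr : (j : ℝ) ≤ x := by exact_mod_cast hj'
    have e1 : ((x + 1 - 1 - j : ℕ) : ℝ) = (x : ℝ) - j := by
      rw [show x + 1 - 1 - j = x - j by omega, Nat.cast_sub hj']
    rw [e1, abs_of_nonneg (by linarith)]
    linarith
  have hB : ∏ j ∈ range m, ‖s - ((x + 1 + j : ℕ) : ℂ)‖ ≤ ((m + V).factorial : ℝ) := by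
    refine le_trans ?_ (prod_shift_le m V)
    refine prod_le_prod (fun _ _ => norm_nonneg _) fun j _ => ?_
    refine (hn _).trans ?_
    push_cast
    rw [abs_of_nonpos (by
      have : (0 : ℝ) ≤ j := Nat.cast_nonneg j
      linarith)]
    linarith
  have hprod : ‖∏ j ∈ range (x + 1 + m), (s - (j : ℂ))‖ ≤
      ((x + 1 + V).factorial : ℝ) * ((m + V).factorial : ℝ) := by
    rw [norm_prod, prod_range_add]
    exact mul_le_mul hA hB (prod_nonneg fun _ _ => norm_nonneg _) (by positivity)
  -- natural number estimate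
  have h1 : (x + 1 + V).factorial ≤ x.factorial * (x + 1 + m + V + 1) ^ (V + 1) := by
    have := fact_add_le x (V + 1)
    rw [show x + (V + 1) = x + 1 + V by ring] at this
    refine this.trans (Nat.mul_le_mul_left _ (Nat.pow_le_pow_left (by omega) _))
  have h2 : (m + V).factorial ≤ (m + 1).factorial * (x + 1 + m + V + 1) ^ V := by
    have := fact_add_le m V
    refine this.trans (Nat.mul_le_mul (Nat.factorial_le (by omega)) (Nat.pow_le_pow_left (by omega) _))
  have h3 : x.factorial * (m + 1).factorial * 2 ^ (min x (x + 1 + m - x)) ≤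
      (x + 1 + m).factorial := by
    have hc := two_pow_min_le_choose (x + 1 + m) x (by omega)
    have hf := Nat.choose_mul_factorial_mul_factorial (show x ≤ x + 1 + m by omega)
    rw [show x + 1 + m - x = m + 1 by omega] at hf hc ⊢
    calc x.factorial * (m + 1).factorial * 2 ^ (min x (m + 1))
        ≤ x.factorial * (m + 1).factorial * (x + 1 + m).choose x := Nat.mul_le_mul_left _ hc
      _ = (x + 1 + m).choose x * x.factorial * (m + 1).factorial := by ring
      _ = _ := hf
  have h4 : (x + 1 + V).factorial * (m + V).factorial * 2 ^ (min x (x + 1 + m - x)) ≤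
      (x + 1 + m).factorial * (x + 1 + m + V + 1) ^ (2 * V + 1) := by
    calc (x + 1 + V).factorial * (m + V).factorial * 2 ^ (min x (x + 1 + m - x))
        ≤ (x.factorial * (x + 1 + m + V + 1) ^ (V + 1)) *
          ((m + 1).factorial * (x + 1 + m + V + 1) ^ V) * 2 ^ (min x (x + 1 + m - x)) :=
          Nat.mul_le_mul_right _ (Nat.mul_le_mul h1 h2)
      _ = (x.factorial * (m + 1).factorial * 2 ^ (min x (x + 1 + m - x))) *
          (x + 1 + m + V + 1) ^ (2 * V + 1) := by ring
      _ ≤ _ := Nat.mul_le_mul_right _ h3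
  have h5 : ((x + 1 + V).factorial : ℝ) * ((m + V).factorial : ℝ) *
      2 ^ (min x (x + 1 + m - x)) ≤
      ((x + 1 + m).factorial : ℝ) * (((x + 1 + m : ℕ) : ℝ) + V + 1) ^ (2 * V + 1) := by
    exact_mod_cast h4
  exact (mul_le_mul_of_nonneg_right hprod (by positivity)).trans h5

end Pool.Agent.J4.H53.CI
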