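import Pool.Agent.J4.H53.CI.Sec
import Pool.Agent.J4.H53.CI.Fun
import Pool.Agent.J4.H53.CI.Kil
import Pool.Agent.J4.H53.CI.Tin

set_option autoImplicit false

/-! # Varieties cut out by hypersurfaces of small degree: preparations -/

open Polynomial Finset

namespace Pool.Agent.J4.H53.CI

namespace Cut

open Tin

/-- a bound for the binomial polynomial (after `tiny` of helper45) -/
theorem tiny' (K V x : ℕ) (s : ℂ) (hx : (x : ℝ) ≤ s.re) (hx1 : s.re ≤ x + 1) (hV : |s.im| ≤ V)
    (hxK : x + 1 ≤ K) :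
    ‖∏ j ∈ range K, (s - j)‖ * (K.choose x : ℝ) ≤
      K.factorial * ((K : ℝ) + V + 1) ^ (2 * V + 1) := by
  obtain ⟨m, rfl⟩ : ∃ m, K = (x + 1) + m := ⟨K - (x + 1), by omega⟩
  have hn : ∀ j : ℕ, ‖s - (j : ℂ)‖ ≤ |s.re - j| + V := by
    intro j
    refine (Complex.norm_le_abs_re_add_abs_im _).trans ?_
    simpa using hV
  have hA : ∏ j ∈ range (x + 1), ‖s - (j : ℂ)‖ ≤ ((x + 1 + V).factorial : ℝ) := by
    refine le_trans ?_ (prod_shift_le (x + 1) V)
    rw [← prod_range_reflect (fun i : ℕ => ((i : ℝ) + 1 + V)) (x + 1)]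
    refine prod_le_prod (fun _ _ => norm_nonneg _) fun j hj => ?_
    have hj' : j ≤ x := by
      have := mem_range.mp hj
      omega
    refine (hn j).trans ?_
    have hjr : (j : ℝ) ≤ x := by exact_mod_cast hj'
    have e1 : ((x + 1 - 1 - j : ℕ) : ℝ) = (x : ℝ) - j := by
      rw [show x + 1 - 1 - j = x - j by omega, Nat.cast_sub hj']
    rw [e1, abs_of_nonneg (by linarith)]
    linarith
  have hB : ∏ j ∈ range m, ‖s - ((x + 1 + j : ℕ) : ℂ)‖ ≤ ((m + V).factorial : ℝ) := by
    refine le_trans ?_ (prod_shift_le m V)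
    refine prod_le_prod (fun _ _ => norm_nonneg _) fun j _ => ?_
    refine (hn _).trans ?_
    push_cast
    rw [abs_of_nonpos (by
      have : (0 : ℝ) ≤ j := Nat.cast_nonneg j
      linarith)]
    linarith
  have hprod : ‖∏ j ∈ range (x + 1 + m), (s - (j : ℂ))‖ ≤
      ((x + 1 + V).factorial : ℝ) * ((m + V).factorial : ℝ) := by
    rw [norm_prod, prod_range_add]
    exact mul_le_mul hA hB (prod_nonneg fun _ _ => norm_nonneg _) (by positivity)
  have h1 : (x + 1 + V).factorial ≤ x.factorial * (x + 1 + m + V + 1) ^ (V + 1) := by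
    have := fact_add_le x (V + 1)
    rw [show x + (V + 1) = x + 1 + V by ring] at this
    refine this.trans (Nat.mul_le_mul_left _ (Nat.pow_le_pow_left (by omega) _))
  have h2 : (m + V).factorial ≤ (m + 1).factorial * (x + 1 + m + V + 1) ^ V := by
    have := fact_add_le m V
    refine this.trans (Nat.mul_le_mul (Nat.factorial_le (by omega)) (Nat.pow_le_pow_left (by omega) _))
  have h3 : x.factorial * (m + 1).factorial * (x + 1 + m).choose x = (x + 1 + m).factorial := by
    have hf := Nat.choose_mul_factorial_mul_factorial (show x ≤ x + 1 + m by omega)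
    rw [show x + 1 + m - x = m + 1 by omega] at hf
    rw [← hf]
    ring
  have h4 : (x + 1 + V).factorial * (m + V).factorial * (x + 1 + m).choose x ≤
      (x + 1 + m).factorial * (x + 1 + m + V + 1) ^ (2 * V + 1) := by
    calc (x + 1 + V).factorial * (m + V).factorial * (x + 1 + m).choose x
        ≤ (x.factorial * (x + 1 + m + V + 1) ^ (V + 1)) *
          ((m + 1).factorial * (x + 1 + m + V + 1) ^ V) * (x + 1 + m).choose x :=
          Nat.mul_le_mul_right _ (Nat.mul_le_mul h1 h2)
      _ = (x.factorial * (m + 1).factorial * (x + 1 + m).choose x) *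
          (x + 1 + m + V + 1) ^ (2 * V + 1) := by ring
      _ = _ := by rw [h3]
  have h5 : ((x + 1 + V).factorial : ℝ) * ((m + V).factorial : ℝ) *
      ((x + 1 + m).choose x : ℝ) ≤
      ((x + 1 + m).factorial : ℝ) * (((x + 1 + m : ℕ) : ℝ) + V + 1) ^ (2 * V + 1) := by
    exact_mod_cast h4
  exact (mul_le_mul_of_nonneg_right hprod (by positivity)).trans h5

/-- binomial coefficients increase up to the middle -/
lemma choose_mono_left (K a x : ℕ) (h1 : a ≤ x) (h2 : 2 * x ≤ K) : K.choose a ≤ K.choose x := by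
  induction x, h1 using Nat.le_induction with
  | base => exact le_rfl
  | succ x hx ih => exact (ih (by omega)).trans (Nat.choose_le_succ_of_lt_half_left (by omega))

lemma choose_le (K a x : ℕ) (h1 : a ≤ x) (h2 : x + a ≤ K) : K.choose a ≤ K.choose x := by
  rcases le_total (2 * x) K with h | h
  · exact choose_mono_left K a x h1 h
  · rw [← Nat.choose_symm (show x ≤ K by omega)]
    exact choose_mono_left K a (K - x) (by omega) (by omega)

/-- the binomial polynomials are integer valued -/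
lemma bin_int (k : ℕ) (m : ℤ) : ∃ z : ℤ, (Fun.bin k).eval (m : ℚ) = z := by
  refine ⟨Ring.choose m k, ?_⟩
  have h := Ring.descPochhammer_eq_factorial_smul_choose m k
  rw [← eval_eq_smeval] at h
  have h2 : (descPochhammer ℚ k).eval (m : ℚ) = (((descPochhammer ℤ k).eval m : ℤ) : ℚ) := by
    rw [← descPochhammer_map (Int.castRingHom ℚ) k, eval_map]
    simp
  rw [Fun.bin, eval_mul, eval_C, h2, h]
  have : (k.factorial : ℚ) ≠ 0 := by exact_mod_cast k.factorial_ne_zero
  push_cast [nsmul_eq_mul]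
  field_simp

open Kil in
/-- the theorem `killer` of helper97 with the degree `2 ^ r` -/
theorem killer2 (r : ℕ) (P Q : ℤ[X]) (hP : P.Monic) (β : Fin r → ℂ)
    (hβ : P.map (Int.castRingHom ℂ) = ∏ i, (X - C (β i)))
    (hQ : Q.Monic) (hirr : Irreducible Q) (H : ℝ) (hH : 1 ≤ H) (hb : ∀ i, ‖β i‖ ≤ H) :
    ∃ G : ℤ[X], G.natDegree ≤ 2 ^ r ∧
      (∀ S : Finset (Fin r), (Q.map (Int.castRingHom ℂ)).eval (∑ i ∈ S, β i) ≠ 0 →
        (G.map (Int.castRingHom ℂ)).eval (∑ i ∈ S, β i) = 0) ∧
      (∀ s : ℂ, (Q.map (Int.castRingHom ℂ)).eval s = 0 →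
        (G.map (Int.castRingHom ℂ)).eval s ≠ 0) ∧
      (∀ s : ℂ, ‖(G.map (Int.castRingHom ℂ)).eval s‖ ≤ (‖s‖ + r * H + 1) ^ 2 ^ r) := by
  obtain ⟨E, hEm, hEd, hE⟩ := exists_E hβ
  have hQd : 0 < Q.degree := by
    rw [hQ.degree_pos]
    exact hirr.ne_one
  obtain ⟨G, hG, hnd⟩ := (finiteMultiplicity_of_degree_pos_of_monic hQd hQ
    hEm.ne_zero).exists_eq_pow_mul_and_not_dvd
  set m := multiplicity Q E with hm
  have hGm : G.Monic := by
    have h1 : (Q ^ m * G).Monic := by rw [← hG]; exact hEm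
    exact (hQ.pow m).of_mul_monic_left h1
  have hGd : G.natDegree ≤ 2 ^ r := by
    rw [← hEd, hG, (hQ.pow m).natDegree_mul hGm]
    omega
  have hroot : ∀ z, (G.map (Int.castRingHom ℂ)).eval z = 0 → ∃ S : Finset (Fin r),
      z = ∑ i ∈ S, β i := by
    intro z hz
    have h1 : (E.map (Int.castRingHom ℂ)).eval z = 0 := by
      rw [hG, Polynomial.map_mul, eval_mul, hz, mul_zero]
    rw [hE, eval_prod, Finset.prod_eq_zero_iff] at h1
    obtain ⟨S, -, hS⟩ := h1
    rw [eval_sub, eval_X, eval_C, sub_eq_zero] at hS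
    exact ⟨S, hS⟩
  refine ⟨G, hGd, fun S hS => ?_, fun s hs hGs => ?_, fun s => ?_⟩
  · have h1 : (E.map (Int.castRingHom ℂ)).eval (∑ i ∈ S, β i) = 0 := by
      rw [hE, eval_prod]
      exact Finset.prod_eq_zero (mem_univ S) (by rw [eval_sub, eval_X, eval_C, sub_self])
    rw [hG, Polynomial.map_mul, Polynomial.map_pow, eval_mul, eval_pow] at h1
    exact (mul_eq_zero.1 h1).resolve_left (pow_ne_zero _ hS)
  · have hQs : aeval s Q = 0 := by
      rw [aeval_def, ← eval_map]; exact hs
    have hGs' : aeval s G = 0 := by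
      rw [aeval_def, ← eval_map]; exact hGs
    have hint : IsIntegral ℤ s := ⟨Q, hQ, hQs⟩
    have h1 : minpoly ℤ s ∣ Q := minpoly.isIntegrallyClosed_dvd hint hQs
    have h2 : minpoly ℤ s ∣ G := minpoly.isIntegrallyClosed_dvd hint hGs'
    have h3 : Associated (minpoly ℤ s) Q :=
      ((minpoly.irreducible hint).associated_of_dvd hirr h1)
    exact hnd (h3.symm.dvd.trans h2)
  · have hspl : (G.map (Int.castRingHom ℂ)).Splits := IsAlgClosed.splits _
    have hGm' : (G.map (Int.castRingHom ℂ)).Monic := hGm.map _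
    rw [hspl.eval_eq_prod_roots_of_monic hGm']
    set B : ℝ := ‖s‖ + r * H + 1 with hB
    have hrH : 0 ≤ (r : ℝ) * H := by positivity
    have hB1 : 1 ≤ B := by
      have := norm_nonneg s
      linarith
    have hfac : ∀ z ∈ (G.map (Int.castRingHom ℂ)).roots, ‖s - z‖ ≤ B := by
      intro z hz
      rw [mem_roots hGm'.ne_zero, IsRoot.def] at hz
      obtain ⟨S, rfl⟩ := hroot z hz
      have h1 : ‖∑ i ∈ S, β i‖ ≤ r * H := by
        calc ‖∑ i ∈ S, β i‖ ≤ ∑ i ∈ S, ‖β i‖ := norm_sum_le _ _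
          _ ≤ ∑ i ∈ S, H := Finset.sum_le_sum fun i _ => hb i
          _ = S.card * H := by rw [Finset.sum_const, nsmul_eq_mul]
          _ ≤ r * H := by
            have h2 : S.card ≤ r := by simpa using Finset.card_le_univ S
            have h3 : (S.card : ℝ) ≤ r := by exact_mod_cast h2
            exact mul_le_mul_of_nonneg_right h3 (by linarith)
      calc ‖s - ∑ i ∈ S, β i‖ ≤ ‖s‖ + ‖∑ i ∈ S, β i‖ := norm_sub_le _ _
        _ ≤ B := by linarith
    have hprod : ∀ M : Multiset ℂ, (∀ z ∈ M, ‖s - z‖ ≤ B) →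
        ‖(M.map (fun z => s - z)).prod‖ ≤ B ^ (Multiset.card M) := by
      intro M
      induction M using Multiset.induction_on with
      | empty => intro _; simp
      | cons a M ih =>
        intro h
        rw [Multiset.map_cons, Multiset.prod_cons, norm_mul, Multiset.card_cons, pow_succ,
          mul_comm]
        exact mul_le_mul (ih fun z hz => h z (Multiset.mem_cons_of_mem hz))
          (h a (Multiset.mem_cons_self a M)) (norm_nonneg _) (by positivity)
    refine (hprod _ hfac).trans (pow_le_pow_right₀ hB1 ?_)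
    refine (card_roots' _).trans ?_
    rw [hGm.natDegree_map]
    exact hGd


end Cut

end Pool.Agent.J4.H53.CI
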