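import Pool.Agent.J4.H53.CI.Sec

set_option autoImplicit false

/-! # Varieties cut out by hypersurfaces of small degree: the location of the Chern roots -/

open Polynomial Finset

namespace Pool.Agent.J4.H53.CI

namespace Cut

/-- a polynomial with nonnegative coefficients has no zero in a small sector -/
lemma wedge (r : ℕ) (q : ℕ → ℝ) (hq : ∀ j, 0 ≤ q j) (hr : q r = 1) (z : ℂ) (hz0 : z ≠ 0)
    (hz : ∑ j ∈ range (r + 1), (q j : ℂ) * z ^ j = 0) : Real.pi ≤ r * |z.arg| := by
  by_contra hcon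
  push Not at hcon
  set α := z.arg with hα
  have hz1 : z = ‖z‖ * Complex.exp (α * Complex.I) := (Complex.norm_mul_exp_arg_mul_I z).symm
  have hn : 0 < ‖z‖ := norm_pos_iff.2 hz0
  have key : ∀ j : ℕ, (z ^ j * Complex.exp ((-(r * α / 2) : ℝ) * Complex.I)).re =
      ‖z‖ ^ j * Real.cos (j * α - r * α / 2) := by
    intro j
    have h1 : z ^ j * Complex.exp ((-(r * α / 2) : ℝ) * Complex.I) =
        ((‖z‖ ^ j : ℝ) : ℂ) * Complex.exp ((j * α - r * α / 2 : ℝ) * Complex.I) := by
      conv_lhs => rw [hz1]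
      rw [mul_pow, ← Complex.exp_nat_mul, mul_assoc, ← Complex.exp_add]
      push_cast
      congr 2
      ring
    rw [h1, Complex.re_ofReal_mul, Complex.exp_ofReal_mul_I_re]
  have h0 : ∑ j ∈ range (r + 1), q j * (‖z‖ ^ j * Real.cos (j * α - r * α / 2)) = 0 := by
    have h1 : ((∑ j ∈ range (r + 1), (q j : ℂ) * z ^ j) *
        Complex.exp ((-(r * α / 2) : ℝ) * Complex.I)).re = 0 := by
      rw [hz, zero_mul, Complex.zero_re]
    rw [Finset.sum_mul, Complex.re_sum] at h1
    rw [← h1]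
    refine Finset.sum_congr rfl fun j _ => ?_
    rw [mul_assoc, Complex.re_ofReal_mul, key]
  have hcos : ∀ j ≤ r, 0 < Real.cos (j * α - r * α / 2) := by
    intro j hj
    apply Real.cos_pos_of_mem_Ioo
    have hjr : (j : ℝ) ≤ r := by exact_mod_cast hj
    have hj0 : (0 : ℝ) ≤ j := Nat.cast_nonneg _
    have h2 : |(j : ℝ) * α - r * α / 2| ≤ r * |α| / 2 := by
      have h3 : (j : ℝ) * α - r * α / 2 = (j - r / 2) * α := by ring
      rw [h3, abs_mul]
      have h4 : |(j : ℝ) - r / 2| ≤ r / 2 := by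
        rw [abs_le]; constructor <;> linarith
      calc |(j : ℝ) - r / 2| * |α| ≤ r / 2 * |α| := mul_le_mul_of_nonneg_right h4 (abs_nonneg _)
        _ = _ := by ring
    have h5 := abs_le.1 h2
    constructor <;> linarith [h5.1, h5.2]
  have h1 : ∀ j ∈ range (r + 1), 0 ≤ q j * (‖z‖ ^ j * Real.cos (j * α - r * α / 2)) := by
    intro j hj
    have := hcos j (by have := mem_range.1 hj; omega)
    have := hq j
    positivity
  have h2 := (Finset.sum_eq_zero_iff_of_nonneg h1).1 h0 r (by simp)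
  rw [hr, one_mul] at h2
  have h3 := hcos r le_rfl
  have h4 : 0 < ‖z‖ ^ r * Real.cos (r * α - r * α / 2) := by positivity
  linarith

/-- the Chern roots are near the positive real axis -/
lemma root_sector (r N : ℕ) (hr : 1 ≤ r) (hN : 6 * r ^ 2 ≤ N) (e : ℕ → ℝ) (he0 : e 0 = 1)
    (her : ∀ j, r < j → e j = 0)
    (hpos : ∀ l, l * r + r ≤ N → ∀ R : Fin l → ℕ, StrictMono R → (∀ i, R i ≤ r + i) →
      0 < Matrix.det (fun i j : Fin l => if (j : ℕ) ≤ R i then e (R i - j) else 0))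
    (b : ℂ) (hb0 : b ≠ 0) (hb : ∑ j ∈ range (r + 1), (e j : ℂ) * (-b⁻¹) ^ j = 0) :
    0 < b.re ∧ ‖b‖ ≤ 2 * b.re ∧ |b.im| * N ≤ 13 * r ^ 2 * b.re := by
  have hrr : (1 : ℝ) ≤ r := by exact_mod_cast hr
  have hNr : (6 : ℝ) * r ^ 2 ≤ N := by exact_mod_cast hN
  have hN0 : (0 : ℝ) < N := by nlinarith
  have h6 : 6 * r ≤ N := le_trans (by nlinarith) hN
  have hk6 : 6 ≤ N / r := by
    rw [Nat.le_div_iff_mul_le (by omega)]
    exact h6
  set k := N / r - 1 with hk
  have hk1 : 1 ≤ k := by omega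
  have hkr : (k + 1) * r ≤ N := by
    rw [show k + 1 = N / r by omega]
    exact Nat.div_mul_le_self N r
  have hkN : N < (k + 2) * r := by
    have := Nat.lt_div_mul_add (a := N) (b := r) (by omega)
    rw [show k + 2 = N / r + 1 by omega, add_mul, one_mul]
    omega
  have hs := sector r k hk1 e he0 her (fun l hl R hR hRi => hpos l (by nlinarith) R hR hRi)
    (-b⁻¹) hb
  set z := -b⁻¹ with hz
  have hz0 : z ≠ 0 := by rw [hz]; exact neg_ne_zero.2 (inv_ne_zero hb0)
  have hargpi := Complex.abs_arg_le_pi z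
  set φ := Real.pi - |z.arg| with hφ
  have hφ0 : 0 ≤ φ := by linarith
  have hpi := Real.pi_pos
  have hk1r : (1 : ℝ) ≤ k := by exact_mod_cast hk1
  have h1 : k * φ ≤ r * Real.pi := by
    have h2 : ((r : ℝ) + k - 1) * φ ≤ (r - 1) * Real.pi := by
      rw [hφ]
      linarith
    have h3 : (k : ℝ) * φ ≤ ((r : ℝ) + k - 1) * φ := by
      apply mul_le_mul_of_nonneg_right _ hφ0
      linarith
    nlinarith
  have hkN' : (N : ℝ) ≤ 2 * r * k := by
    have h2 : (N : ℝ) ≤ (k + 2) * r := by exact_mod_cast hkN.le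
    have h3 : (6 : ℝ) * r ≤ N := by exact_mod_cast h6
    nlinarith
  have h4 : φ * N ≤ 2 * r ^ 2 * Real.pi := by
    calc φ * N ≤ φ * (2 * r * k) := mul_le_mul_of_nonneg_left hkN' hφ0
      _ = 2 * r * (k * φ) := by ring
      _ ≤ 2 * r * (r * Real.pi) := by
        apply mul_le_mul_of_nonneg_left h1
        positivity
      _ = _ := by ring
  have h5 : φ ≤ Real.pi / 3 := by
    by_contra hcon
    push Not at hcon
    have h6 : Real.pi / 3 * N < φ * N := mul_lt_mul_of_pos_right hcon hN0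
    nlinarith
  have hcos : 1 / 2 ≤ Real.cos φ := by
    rw [← Real.cos_pi_div_three]
    exact Real.cos_le_cos_of_nonneg_of_le_pi hφ0 (by linarith) h5
  have hsin : Real.sin φ ≤ φ := Real.sin_le hφ0
  have hbn : 0 < ‖b‖ := norm_pos_iff.2 hb0
  have hzn : ‖z‖ = ‖b‖⁻¹ := by rw [hz, norm_neg, norm_inv]
  have hsq : Complex.normSq b = ‖b‖ ^ 2 := Complex.normSq_eq_norm_sq b
  have hre : b.re = ‖b‖ * Real.cos φ := by
    have h7 : z.re = ‖z‖ * Real.cos z.arg := (Complex.norm_mul_cos_arg z).symm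
    have h8 : Real.cos z.arg = - Real.cos φ := by
      rw [hφ, Real.cos_pi_sub, Real.cos_abs, neg_neg]
    rw [h8, hzn, hz, Complex.neg_re, Complex.inv_re, hsq] at h7
    field_simp at h7
    linarith
  have him : |b.im| = ‖b‖ * Real.sin φ := by
    have h7 : z.im = ‖z‖ * Real.sin z.arg := (Complex.norm_mul_sin_arg z).symm
    have h8 : |Real.sin z.arg| = Real.sin φ := by
      rw [hφ, Real.sin_pi_sub]
      rcases le_total 0 z.arg with h | h
      · rw [abs_of_nonneg h, abs_of_nonneg]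
        exact Real.sin_nonneg_of_nonneg_of_le_pi h (Complex.arg_le_pi z)
      · rw [abs_of_nonpos h, Real.sin_neg, abs_of_nonpos]
        exact Real.sin_nonpos_of_nonpos_of_neg_pi_le h (Complex.neg_pi_lt_arg z).le
    have h9 : |z.im| = ‖b‖⁻¹ * Real.sin φ := by
      rw [h7, abs_mul, h8, hzn, abs_of_pos (by positivity)]
    rw [hz, Complex.neg_im, Complex.inv_im, hsq, abs_neg, abs_div, abs_neg, abs_pow,
      abs_of_pos hbn] at h9
    field_simp at h9
    linarith
  have hre2 : ‖b‖ ≤ 2 * b.re := by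
    rw [hre]
    nlinarith
  refine ⟨by linarith, hre2, ?_⟩
  have hpi4 : Real.pi < 3.15 := Real.pi_lt_d2
  have hsin0 : 0 ≤ Real.sin φ := Real.sin_nonneg_of_nonneg_of_le_pi hφ0 (by linarith)
  calc |b.im| * N = ‖b‖ * (Real.sin φ * N) := by rw [him]; ring
    _ ≤ ‖b‖ * (φ * N) := by
      apply mul_le_mul_of_nonneg_left _ hbn.le
      exact mul_le_mul_of_nonneg_right hsin hN0.le
    _ ≤ ‖b‖ * (2 * r ^ 2 * Real.pi) := mul_le_mul_of_nonneg_left h4 hbn.le
    _ ≤ (2 * b.re) * (2 * r ^ 2 * Real.pi) := by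
      apply mul_le_mul_of_nonneg_right hre2
      positivity
    _ ≤ 13 * r ^ 2 * b.re := by
      have h10 : 0 ≤ (r : ℝ) ^ 2 * b.re := by
        have : 0 < b.re := by linarith
        positivity
      nlinarith

/-- the real parts of the Chern roots are at most `D + O(1)` -/
lemma root_upper (r N D : ℕ) (hr : 1 ≤ r) (hN : 13 * r ^ 3 ≤ N) (hD : D ≤ N) (b : ℂ)
    (h1 : |b.im| * N ≤ 13 * r ^ 2 * b.re)
    (h2 : b - D ≠ 0 → Real.pi ≤ r * |(b - D).arg|) : b.re ≤ D + 7 * r ^ 3 := by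
  have hrr : (1 : ℝ) ≤ r := by exact_mod_cast hr
  have hNr : (13 : ℝ) * r ^ 3 ≤ N := by exact_mod_cast hN
  have hDN : (D : ℝ) ≤ N := by exact_mod_cast hD
  have hN0 : (0 : ℝ) < N := lt_of_lt_of_le (by positivity) hNr
  have hr3 : (0 : ℝ) ≤ 7 * r ^ 3 := by positivity
  by_contra hcon
  push Not at hcon
  set x := b.re - D with hx
  have hx0 : 0 < x := by linarith
  have hre : (b - D).re = x := by simp [hx]
  have him : (b - D).im = b.im := by simp
  have hne : b - D ≠ 0 := by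
    intro h
    rw [h, Complex.zero_re] at hre
    linarith
  have h3 := h2 hne
  set α := |(b - D).arg| with hα
  have hα0 : 0 ≤ α := abs_nonneg _
  have hα2 : α < Real.pi / 2 := Complex.abs_arg_lt_pi_div_two_iff.2 (Or.inl (by rw [hre]; exact hx0))
  have h4 : α ≤ Real.tan α := Real.le_tan hα0 hα2
  have h5 : Real.tan α ≤ |b.im| / x := by
    have h6 := Complex.tan_arg (b - D)
    rw [hre, him] at h6
    rcases le_total 0 (b - D).arg with h | h
    · rw [hα, abs_of_nonneg h, h6]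
      exact div_le_div_of_nonneg_right (le_abs_self _) hx0.le
    · rw [hα, abs_of_nonpos h, Real.tan_neg, h6, ← neg_div]
      exact div_le_div_of_nonneg_right (neg_le_abs _) hx0.le
  have h7 : Real.pi * x ≤ r * |b.im| := by
    have h8 : α * x ≤ |b.im| := by
      rw [← le_div_iff₀ hx0]
      exact h4.trans h5
    calc Real.pi * x ≤ (r * α) * x := mul_le_mul_of_nonneg_right h3 hx0.le
      _ = r * (α * x) := by ring
      _ ≤ _ := mul_le_mul_of_nonneg_left h8 (by linarith)
  have hpi3 : 3 < Real.pi := Real.pi_gt_three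
  have h9 : 3 * x * N ≤ 13 * r ^ 3 * (N + x) := by
    have h10 : b.re ≤ N + x := by linarith
    calc 3 * x * N ≤ Real.pi * x * N := by
          apply mul_le_mul_of_nonneg_right _ hN0.le
          exact mul_le_mul_of_nonneg_right hpi3.le hx0.le
      _ ≤ (r * |b.im|) * N := mul_le_mul_of_nonneg_right h7 hN0.le
      _ = r * (|b.im| * N) := by ring
      _ ≤ r * (13 * r ^ 2 * b.re) := mul_le_mul_of_nonneg_left h1 (by linarith)
      _ = 13 * r ^ 3 * b.re := by ring
      _ ≤ _ := mul_le_mul_of_nonneg_left h10 (by positivity)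
  have h11 : 13 * (r : ℝ) ^ 3 * x ≤ N * x := mul_le_mul_of_nonneg_right hNr hx0.le
  have h12 : 2 * x * N ≤ 13 * r ^ 3 * N := by nlinarith
  have h13 : 2 * x ≤ 13 * r ^ 3 := le_of_mul_le_mul_right h12 hN0
  have h14 : 7 * (r : ℝ) ^ 3 < x := by linarith
  have h15 : (0 : ℝ) < r ^ 3 := by positivity
  linarith

end Cut

end Pool.Agent.J4.H53.CI
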