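import Pool.Agent.Erdos456.Mertens

set_option autoImplicit false

/-! # The primes which do not divide a given integer -/

open Finset Filter

namespace Pool.Agent.J4.H53.CI

/-- the primes `p`, `k < p ≤ N`, which do not divide `B` -/
noncomputable def good (k N : ℕ) (B : ℤ) : Finset ℕ :=
  (Icc 1 N).filter fun p => p.Prime ∧ k < p ∧ ¬ (p : ℤ) ∣ B

lemma sum_log_dvd (B : ℤ) (hB : B ≠ 0) (S : Finset ℕ) (hS : ∀ p ∈ S, p.Prime ∧ (p : ℤ) ∣ B) :
    ∑ p ∈ S, Real.log p ≤ Real.log |(B : ℝ)| := by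
  have h1 : ∏ p ∈ S, p ∣ B.natAbs := by
    apply Finset.prod_primes_dvd
    · intro p hp
      exact (hS p hp).1.prime
    · intro p hp
      exact Int.natCast_dvd.1 (hS p hp).2
  have h2 : ((∏ p ∈ S, p : ℕ) : ℝ) ≤ |(B : ℝ)| := by
    rw [← Int.cast_abs, ← Nat.cast_natAbs]
    exact_mod_cast Nat.le_of_dvd (Int.natAbs_pos.2 hB) h1
  have h3 : Real.log ((∏ p ∈ S, p : ℕ) : ℝ) = ∑ p ∈ S, Real.log p := by
    push_cast
    rw [Real.log_prod]
    intro p hp
    exact_mod_cast (hS p hp).1.ne_zero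
  rw [← h3]
  apply Real.log_le_log _ h2
  have : 0 < ∏ p ∈ S, p := prod_pos fun p hp => (hS p hp).1.pos
  exact_mod_cast this

lemma sum_log_primes (N : ℕ) : ∑ p ∈ (Icc 1 N).filter Nat.Prime, Real.log p ≤ 2 * N := by
  have h1 : ∑ p ∈ (Icc 1 N).filter Nat.Prime, Real.log p = Real.log (primorial N) := by
    rw [primorial]
    push_cast
    rw [Real.log_prod]
    · apply sum_congr _ fun _ _ => rfl
      ext p
      simp only [mem_filter, mem_Icc, mem_range]
      constructor
      · rintro ⟨⟨h1, h2⟩, h3⟩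
        exact ⟨by omega, h3⟩
      · rintro ⟨h1, h2⟩
        exact ⟨⟨h2.one_lt.le, by omega⟩, h2⟩
    · intro p hp
      rw [mem_filter] at hp
      exact_mod_cast hp.2.ne_zero
  rw [h1]
  have h2 : (primorial N : ℝ) ≤ 4 ^ N := by exact_mod_cast primorial_le_four_pow N
  have h3 : (0 : ℝ) < primorial N := by exact_mod_cast primorial_pos N
  calc Real.log (primorial N) ≤ Real.log ((4 : ℝ) ^ N) := Real.log_le_log h3 h2
    _ = N * Real.log 4 := by rw [Real.log_pow]
    _ ≤ 2 * N := by
        have h4 : Real.log 4 ≤ 2 := by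
          have : Real.log 4 = 2 * Real.log 2 := by
            rw [show (4 : ℝ) = 2 ^ 2 by norm_num, Real.log_pow]; norm_num
          have := Real.log_two_lt_d9
          linarith
        have : (0 : ℝ) ≤ N := by positivity
        nlinarith

lemma logdiv_nonneg (p : ℕ) : 0 ≤ Real.log p / p :=
  div_nonneg (Real.log_natCast_nonneg p) (Nat.cast_nonneg p)

lemma union_le (s t : Finset ℕ) : ∑ p ∈ s ∪ t, Real.log p / p ≤
    ∑ p ∈ s, Real.log p / p + ∑ p ∈ t, Real.log p / p := by
  have h1 := sum_union_inter (s₁ := s) (s₂ := t) (f := fun p : ℕ => Real.log p / p)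
  have h2 : 0 ≤ ∑ p ∈ s ∩ t, Real.log p / p := sum_nonneg fun p _ => logdiv_nonneg p
  linarith

theorem mert (k : ℕ) (A ε : ℝ) (hε : 0 < ε) : ∀ᶠ N : ℕ in atTop, ∀ B : ℤ, B ≠ 0 →
    |(B : ℝ)| ≤ (N : ℝ) ^ A → ∀ n : ℝ, (N : ℝ) ≤ n →
    (1 - ε) * Real.log N ≤
      ∑ p ∈ good k N B, Real.log p / p - (∑ p ∈ good k N B, Real.log p) / n := by
  obtain ⟨C, hC⟩ := Pool.Agent.Erdos456.Mert.mertens_log
  obtain ⟨z, hz⟩ := exists_nat_ge (max 1 (2 * A / ε))
  have hz1 : (1 : ℝ) ≤ z := (le_max_left _ _).trans hz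
  have hz2 : 2 * A / ε ≤ z := (le_max_right _ _).trans hz
  have hz1' : 1 ≤ z := by exact_mod_cast hz1
  set K : ℝ := ∑ p ∈ Icc 1 k, Real.log p / p with hK
  have hlim : ∀ᶠ N : ℕ in atTop, C + K + (Real.log z + C) + 2 ≤ (ε / 2) * Real.log N := by
    have h1 : Tendsto (fun N : ℕ => (ε / 2) * Real.log N) atTop atTop :=
      (Real.tendsto_log_atTop.comp tendsto_natCast_atTop_atTop).const_mul_atTop (by positivity)
    exact h1.eventually_ge_atTop _
  filter_upwards [hlim, eventually_ge_atTop 1] with N hN hN1 B hB hBA n hn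
  have hNr : (1 : ℝ) ≤ N := by exact_mod_cast hN1
  have hlogN : 0 ≤ Real.log N := Real.log_nonneg hNr
  set PP := (Icc 1 N).filter Nat.Prime with hPP
  have hmert := (abs_le.1 (hC N hN1)).1
  have hmertz := (abs_le.1 (hC z hz1')).2
  -- the split
  have h1 : ∑ p ∈ PP, Real.log p / p ≤ ∑ p ∈ good k N B, Real.log p / p + K +
      ∑ p ∈ PP.filter (fun p : ℕ => (p : ℤ) ∣ B), Real.log p / p := by
    have hsub : PP ⊆ good k N B ∪ (Icc 1 k ∪ PP.filter (fun p : ℕ => (p : ℤ) ∣ B)) := by
      intro p hp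
      have hp' := hp
      rw [hPP, mem_filter, mem_Icc] at hp
      rw [mem_union, mem_union, good, mem_filter, mem_filter, mem_Icc, mem_Icc]
      by_cases h2 : (p : ℤ) ∣ B
      · exact Or.inr (Or.inr ⟨hp', h2⟩)
      · by_cases h3 : k < p
        · exact Or.inl ⟨hp.1, hp.2, h3, h2⟩
        · exact Or.inr (Or.inl ⟨hp.1.1, by omega⟩)
    calc ∑ p ∈ PP, Real.log p / p ≤ ∑ p ∈ good k N B ∪ (Icc 1 k ∪
          PP.filter (fun p : ℕ => (p : ℤ) ∣ B)), Real.log p / p :=
          sum_le_sum_of_subset_of_nonneg hsub fun p _ _ => logdiv_nonneg p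
      _ ≤ _ := by
          refine (union_le _ _).trans ?_
          rw [add_assoc]
          gcongr
          exact union_le _ _
  have h2 : ∑ p ∈ PP.filter (fun p : ℕ => (p : ℤ) ∣ B), Real.log p / p ≤
      (Real.log z + C) + (ε / 2) * Real.log N := by
    have h3 : ∑ p ∈ PP.filter (fun p : ℕ => (p : ℤ) ∣ B), Real.log p / p ≤
        ∑ p ∈ (Icc 1 z).filter Nat.Prime, Real.log p / p +
        ∑ p ∈ PP.filter (fun p : ℕ => (p : ℤ) ∣ B), Real.log p / z := by
      have hsplit : ∀ p ∈ PP.filter (fun p : ℕ => (p : ℤ) ∣ B), Real.log p / p ≤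
          (if p ≤ z then Real.log p / p else 0) + Real.log p / z := by
        intro p hp
        rw [mem_filter, hPP, mem_filter] at hp
        have hp0 : (0 : ℝ) < p := by exact_mod_cast hp.1.2.pos
        split_ifs with h
        · have : 0 ≤ Real.log p / z := div_nonneg (Real.log_natCast_nonneg p) (by positivity)
          linarith
        · rw [zero_add]
          push Not at h
          have hzp : (z : ℝ) ≤ p := by exact_mod_cast h.le
          exact div_le_div_of_nonneg_left (Real.log_natCast_nonneg p) (by linarith) hzp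
      refine (sum_le_sum hsplit).trans ?_
      rw [sum_add_distrib]
      gcongr
      rw [← sum_filter]
      apply sum_le_sum_of_subset_of_nonneg
      · intro p hp
        rw [mem_filter, mem_filter, hPP, mem_filter, mem_Icc] at hp
        rw [mem_filter, mem_Icc]
        exact ⟨⟨hp.1.1.1.1, hp.2⟩, hp.1.1.2⟩
      · intro p _ _
        exact logdiv_nonneg p
    have h4 : ∑ p ∈ PP.filter (fun p : ℕ => (p : ℤ) ∣ B), Real.log p / z ≤
        (ε / 2) * Real.log N := by
      rw [← sum_div]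
      have h5 : ∑ p ∈ PP.filter (fun p : ℕ => (p : ℤ) ∣ B), Real.log p ≤ A * Real.log N := by
        refine (sum_log_dvd B hB _ ?_).trans ?_
        · intro p hp
          rw [mem_filter, hPP, mem_filter] at hp
          exact ⟨hp.1.2, hp.2⟩
        · rw [← Real.log_rpow (by linarith)]
          apply Real.log_le_log _ hBA
          have : (B : ℝ) ≠ 0 := by exact_mod_cast hB
          positivity
      rw [div_le_iff₀ (by linarith)]
      refine h5.trans ?_
      have h6 : A ≤ ε / 2 * z := by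
        rw [div_le_iff₀ hε] at hz2
        linarith
      nlinarith
    linarith
  have h3 : (∑ p ∈ good k N B, Real.log p) / n ≤ 2 := by
    have hn0 : 0 < n := by linarith
    rw [div_le_iff₀ hn0]
    calc ∑ p ∈ good k N B, Real.log p ≤ ∑ p ∈ PP, Real.log p := by
          apply sum_le_sum_of_subset_of_nonneg
          · intro p hp
            rw [good, mem_filter] at hp
            exact mem_filter.2 ⟨hp.1, hp.2.1⟩
          · intro p _ _
            exact Real.log_natCast_nonneg p
      _ ≤ 2 * N := sum_log_primes N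
      _ ≤ 2 * n := by linarith
  have h4 : Real.log N - C ≤ ∑ p ∈ PP, Real.log p / p := by linarith
  have h5 : (1 - ε) * Real.log N = Real.log N - (ε / 2) * Real.log N - (ε / 2) * Real.log N := by
    ring
  rw [h5]
  linarith

end Pool.Agent.J4.H53.CI
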