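import Pool.Agent.J4.H53.CI.Alg
import Pool.Agent.J4.H53.CI.Mert
import Pool.Agent.N17.HC.Stm

set_option autoImplicit false

/-! # The size of the roots of the irreducible factors -/

open Polynomial Finset Filter

namespace Pool.Agent.J4.H53.CI

open Pool.Agent.N17.HC

/-- `P` splits modulo the primes `p`, `k < p ≤ y`, which do not divide `B` -/
def SplitsModPrimes (r k y : ℕ) (P : ℤ[X]) (B : ℤ) : Prop :=
  ∀ p : ℕ, p.Prime → k < p → p ≤ y → ¬ (p : ℤ) ∣ B →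
    ∃ x : Fin r → ZMod p, P.map (Int.castRingHom (ZMod p)) = ∏ i, (X - C (x i))

lemma roots_prod {m : ℕ} {Q : ℤ[X]} (β : Fin m → ℂ)
    (hβr : (univ.val.map β : Multiset ℂ) = (Q.map (Int.castRingHom ℂ)).roots) (f : ℂ → ℝ) :
    ((rootsOf Q).map f).prod = ∏ i, f (β i) := by
  rw [rootsOf, ← hβr, Multiset.map_map]
  rfl

theorem factor_ineq (r k : ℕ) (A ε : ℝ) (hA : 0 ≤ A) (hε : 0 < ε) : ∀ᶠ y : ℕ in atTop,
    ∀ (P Q : ℤ[X]) (B : ℤ), P.Monic → P.natDegree = r → Q.Monic → Irreducible Q →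
    2 ≤ Q.natDegree → Q ∣ P → B ≠ 0 → |(B : ℝ)| ≤ (y : ℝ) ^ A →
    (∀ b ∈ rootsOf Q, ‖b‖ ≤ (y : ℝ) ^ A) → SplitsModPrimes r k y P B →
    ∀ (c : ℤ) (Y : ℝ), 1 ≤ Y → Y ≤ y →
      (y : ℝ) ^ ((Q.natDegree : ℝ) - ε) ≤
        ((rootsOf Q).map fun b : ℂ => (y : ℝ) / Y + Y * ‖b - c‖).prod := by
  set ε' : ℝ := ε / (r + 1) with hε'
  have hε'0 : 0 < ε' := by positivity
  have hconst : ∀ᶠ y : ℕ in atTop, ((r : ℝ) ^ r * 2 ^ (r * r)) ≤ (y : ℝ) :=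
    tendsto_natCast_atTop_atTop.eventually_ge_atTop _
  filter_upwards [mert k (A + (A * (r * r : ℕ) + 1)) ε' hε'0, hconst, eventually_ge_atTop 1]
    with y hmert hyc hy1 P Q B hP hPr hQ hirr h2 hQP hB hBA hroots hsp c Y hY1 hYy
  have hy1r : (1 : ℝ) ≤ y := by exact_mod_cast hy1
  have hy0 : (0 : ℝ) < y := by linarith
  have hY0 : (0 : ℝ) < Y := by linarith
  obtain ⟨β, hβr, hβ⟩ := exists_roots hQ (IsAlgClosed.splits (Q.map (Int.castRingHom ℂ)))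
  have hmr : Q.natDegree ≤ r := by
    rw [← hPr]
    exact natDegree_le_of_dvd hQP hP.ne_zero
  have hH1 : (1 : ℝ) ≤ (y : ℝ) ^ A := Real.one_le_rpow hy1r hA
  have hb : ∀ i, ‖β i‖ ≤ (y : ℝ) ^ A := by
    intro i
    apply hroots
    rw [rootsOf, ← hβr]
    exact Multiset.mem_map_of_mem β (mem_univ_val i)
  have hres := res_le hQ β hβr hβ _ hH1 hb r hmr
  have hres2 : |((res Q : ℤ) : ℝ)| ≤ (y : ℝ) ^ (A * (r * r : ℕ) + 1) := by
    refine hres.trans ?_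
    have e1 : ((r : ℝ) * (2 * (y : ℝ) ^ A) ^ r) ^ r =
        (r : ℝ) ^ r * (2 ^ (r * r) * ((y : ℝ) ^ A) ^ (r * r)) := by
      rw [mul_pow, mul_pow (2 : ℝ) ((y : ℝ) ^ A) r, mul_pow ((2 : ℝ) ^ r) (((y : ℝ) ^ A) ^ r) r,
        ← pow_mul, ← pow_mul]
    rw [e1, Real.rpow_add hy0, Real.rpow_one, Real.rpow_mul hy0.le, Real.rpow_natCast]
    have h1 : (0 : ℝ) ≤ ((y : ℝ) ^ A) ^ (r * r) := by positivity
    calc (r : ℝ) ^ r * (2 ^ (r * r) * ((y : ℝ) ^ A) ^ (r * r))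
        = ((r : ℝ) ^ r * 2 ^ (r * r)) * ((y : ℝ) ^ A) ^ (r * r) := by ring
      _ ≤ (y : ℝ) * ((y : ℝ) ^ A) ^ (r * r) := mul_le_mul_of_nonneg_right hyc h1
      _ = _ := by ring
  have hB' : B * res Q ≠ 0 := mul_ne_zero hB (res_ne_zero hQ hirr)
  have hB'A : |((B * res Q : ℤ) : ℝ)| ≤ (y : ℝ) ^ (A + (A * (r * r : ℕ) + 1)) := by
    rw [Int.cast_mul, abs_mul, Real.rpow_add hy0]
    exact mul_le_mul hBA hres2 (abs_nonneg _) (by positivity)
  set M : ℕ := ⌊(y : ℝ) / Y⌋₊ with hM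
  set L : ℕ := ⌊Y⌋₊ with hL
  have hyY : 1 ≤ (y : ℝ) / Y := by
    rw [le_div_iff₀ hY0]
    linarith
  have hM1 : 1 ≤ M := Nat.le_floor (by exact_mod_cast hyY)
  have hMl : (M : ℝ) ≤ (y : ℝ) / Y := Nat.floor_le (by linarith)
  have hLl : (L : ℝ) ≤ Y := Nat.floor_le hY0.le
  have hn : (y : ℝ) ≤ (M + 1) * (L + 1) := by
    have h1 : (y : ℝ) / Y ≤ M + 1 := (Nat.lt_floor_add_one _).le
    have h3 : Y ≤ L + 1 := (Nat.lt_floor_add_one _).le
    calc (y : ℝ) = (y : ℝ) / Y * Y := by field_simp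
      _ ≤ (M + 1) * (L + 1) := mul_le_mul h1 h3 hY0.le (by positivity)
  have hcore := core hQ β hβ (form_ne_zero hQ hirr h2) (good k y (B * res Q)) (by
    intro p hp
    rw [good, mem_filter, mem_Icc] at hp
    obtain ⟨⟨-, hpy⟩, hpp, hkp, hpB⟩ := hp
    obtain ⟨x, hx⟩ := hsp p hpp hkp hpy (fun h => hpB (h.mul_right _))
    have : Fact p.Prime := ⟨hpp⟩
    obtain ⟨t, ht⟩ := factor_splits hP hQ hQP hx
    exact ⟨hpp, t, injective_of_res (by omega) hpp (fun h => hpB (h.mul_left _)) t ht, ht⟩)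
    c M L hM1
  have hm := hmert (B * res Q) hB' hB'A ((M + 1) * (L + 1)) hn
  set S := ∑ p ∈ good k y (B * res Q), Real.log p / p -
    (∑ p ∈ good k y (B * res Q), Real.log p) / ((M + 1) * (L + 1)) with hS
  have hlog0 : 0 ≤ Real.log y := Real.log_nonneg hy1r
  have hm0 : (0 : ℝ) ≤ Q.natDegree := Nat.cast_nonneg _
  have h1 : (Q.natDegree : ℝ) * ((1 - ε') * Real.log y) ≤
      ∑ i, Real.log ((y : ℝ) / Y + Y * ‖β i - c‖) := by
    refine (mul_le_mul_of_nonneg_left hm hm0).trans (hcore.trans ?_)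
    refine sum_le_sum fun i _ => ?_
    apply Real.log_le_log
    · have h3 : (0 : ℝ) ≤ ‖β i - c‖ * L := by positivity
      have h4 : (1 : ℝ) ≤ M := by exact_mod_cast hM1
      linarith
    · have h3 : ‖β i - c‖ * L ≤ Y * ‖β i - c‖ := by
        rw [mul_comm]
        exact mul_le_mul_of_nonneg_right hLl (norm_nonneg _)
      linarith
  rw [roots_prod β hβr]
  have hpos : ∀ i : Fin Q.natDegree, 0 < (y : ℝ) / Y + Y * ‖β i - c‖ := by
    intro i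
    have : 0 ≤ Y * ‖β i - c‖ := by positivity
    linarith
  have h3 : ∑ i, Real.log ((y : ℝ) / Y + Y * ‖β i - c‖) =
      Real.log (∏ i, ((y : ℝ) / Y + Y * ‖β i - c‖)) := by
    rw [Real.log_prod fun i _ => (hpos i).ne']
  rw [h3] at h1
  have h4 : (y : ℝ) ^ ((Q.natDegree : ℝ) - ε) ≤ (y : ℝ) ^ ((Q.natDegree : ℝ) * (1 - ε')) := by
    apply Real.rpow_le_rpow_of_exponent_le hy1r
    have h5 : (Q.natDegree : ℝ) * ε' ≤ ε := by
      rw [hε', mul_div_assoc']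
      rw [div_le_iff₀ (by positivity)]
      have : (Q.natDegree : ℝ) ≤ r := by exact_mod_cast hmr
      nlinarith
    nlinarith
  refine h4.trans ?_
  have h5 : (y : ℝ) ^ ((Q.natDegree : ℝ) * (1 - ε')) =
      Real.exp ((Q.natDegree : ℝ) * ((1 - ε') * Real.log y)) := by
    rw [Real.rpow_def_of_pos hy0]
    congr 1
    ring
  rw [h5, ← Real.le_log_iff_exp_le (prod_pos fun i _ => hpos i)]
  exact h1

/-- the product of the `max 1 ‖b - c‖` -/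
noncomputable def mah (Q : ℤ[X]) (c : ℤ) : ℝ :=
  ((rootsOf Q).map fun b : ℂ => max 1 ‖b - c‖).prod

/-- the case of equal sides -/
theorem factor_mah (r k : ℕ) (A ε : ℝ) (hA : 0 ≤ A) (hε : 0 < ε) : ∀ᶠ y : ℕ in atTop,
    ∀ (P Q : ℤ[X]) (B : ℤ), P.Monic → P.natDegree = r → Q.Monic → Irreducible Q →
    2 ≤ Q.natDegree → Q ∣ P → B ≠ 0 → |(B : ℝ)| ≤ (y : ℝ) ^ A →
    (∀ b ∈ rootsOf Q, ‖b‖ ≤ (y : ℝ) ^ A) → SplitsModPrimes r k y P B →
    ∀ c : ℤ, (y : ℝ) ^ ((Q.natDegree : ℝ) / 2 - ε) ≤ mah Q c := by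
  have hconst : ∀ᶠ y : ℕ in atTop, (2 : ℝ) ^ r ≤ (y : ℝ) ^ (ε / 2) :=
    ((tendsto_rpow_atTop (by positivity : 0 < ε / 2)).comp
      tendsto_natCast_atTop_atTop).eventually_ge_atTop _
  filter_upwards [factor_ineq r k A (ε / 2) hA (by positivity), hconst, eventually_ge_atTop 1]
    with y hy hyc hy1 P Q B hP hPr hQ hirr h2 hQP hB hBA hroots hsp c
  have hy1r : (1 : ℝ) ≤ y := by exact_mod_cast hy1
  have hy0 : (0 : ℝ) < y := by linarith
  have hs1 : (1 : ℝ) ≤ Real.sqrt y := by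
    rw [Real.one_le_sqrt]
    exact hy1r
  have hs2 : Real.sqrt y ≤ y := by
    rw [Real.sqrt_le_left hy0.le]
    nlinarith
  have h1 := hy P Q B hP hPr hQ hirr h2 hQP hB hBA hroots hsp c (Real.sqrt y) hs1 hs2
  obtain ⟨β, hβr, hβ⟩ := exists_roots hQ (IsAlgClosed.splits (Q.map (Int.castRingHom ℂ)))
  rw [mah, roots_prod β hβr]
  rw [roots_prod β hβr] at h1
  have hmr : Q.natDegree ≤ r := by
    rw [← hPr]
    exact natDegree_le_of_dvd hQP hP.ne_zero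
  have h3 : ∏ i, ((y : ℝ) / Real.sqrt y + Real.sqrt y * ‖β i - c‖) ≤
      (2 : ℝ) ^ r * (y : ℝ) ^ ((Q.natDegree : ℝ) / 2) * ∏ i, max 1 ‖β i - c‖ := by
    calc ∏ i, ((y : ℝ) / Real.sqrt y + Real.sqrt y * ‖β i - c‖)
        ≤ ∏ i : Fin Q.natDegree, (2 * Real.sqrt y * max 1 ‖β i - c‖) := by
          refine prod_le_prod (fun i _ => by positivity) fun i _ => ?_
          rw [Real.div_sqrt]
          have h4 := le_max_left (1 : ℝ) ‖β i - c‖
          have h5 := le_max_right (1 : ℝ) ‖β i - c‖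
          have h6 : Real.sqrt y * 1 ≤ Real.sqrt y * max 1 ‖β i - c‖ := by gcongr
          have h7 : Real.sqrt y * ‖β i - c‖ ≤ Real.sqrt y * max 1 ‖β i - c‖ := by gcongr
          linarith
      _ = (2 ^ Q.natDegree * (Real.sqrt y) ^ Q.natDegree) * ∏ i, max 1 ‖β i - c‖ := by
          rw [prod_mul_distrib, prod_const, card_univ, Fintype.card_fin, mul_pow]
      _ ≤ (2 : ℝ) ^ r * (y : ℝ) ^ ((Q.natDegree : ℝ) / 2) * ∏ i, max 1 ‖β i - c‖ := by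
          have h4 : (Real.sqrt y) ^ Q.natDegree = (y : ℝ) ^ ((Q.natDegree : ℝ) / 2) := by
            rw [Real.sqrt_eq_rpow, ← Real.rpow_natCast, ← Real.rpow_mul hy0.le]
            congr 1
            ring
          rw [h4]
          have h5 : (0 : ℝ) ≤ ∏ i, max 1 ‖β i - c‖ := prod_nonneg fun i _ => by positivity
          have h6 : (2 : ℝ) ^ Q.natDegree ≤ 2 ^ r := pow_le_pow_right₀ (by norm_num) hmr
          gcongr
  have h4 := h1.trans h3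
  have h5 : (0 : ℝ) < (y : ℝ) ^ ((Q.natDegree : ℝ) / 2) := by positivity
  have h6 : (0 : ℝ) ≤ ∏ i, max 1 ‖β i - c‖ := prod_nonneg fun i _ => by positivity
  have h7 : (y : ℝ) ^ ((Q.natDegree : ℝ) - ε / 2) =
      (y : ℝ) ^ (ε / 2) * (y : ℝ) ^ ((Q.natDegree : ℝ) / 2) *
        (y : ℝ) ^ ((Q.natDegree : ℝ) / 2 - ε) := by
    rw [← Real.rpow_add hy0, ← Real.rpow_add hy0]
    congr 1
    ring
  rw [h7] at h4
  have h8 : (2 : ℝ) ^ r * (y : ℝ) ^ ((Q.natDegree : ℝ) / 2) * ∏ i, max 1 ‖β i - c‖ ≤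
      (y : ℝ) ^ (ε / 2) * (y : ℝ) ^ ((Q.natDegree : ℝ) / 2) * ∏ i, max 1 ‖β i - c‖ := by
    gcongr
  exact le_of_mul_le_mul_left (h4.trans h8) (by positivity)

end Pool.Agent.J4.H53.CI
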