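import Pool.Agent.J4.H53.CI.CanH

set_option autoImplicit false

/-! # Small canonical class: binomial coefficients -/

open Polynomial Finset Filter

namespace Pool.Agent.J4.H53.CI

namespace Can

lemma step1 (K b c s : ℕ) (h : b + s ≤ c) :
    (K + b).choose K * (K + c) ^ s ≤ (K + b + s).choose K * c ^ s := by
  induction s with
  | zero => simp
  | succ s ih =>
    have h1 := ih (by omega)
    have h2 := Nat.choose_mul_succ_eq (K + b + s) K
    rw [show K + b + s + 1 - K = b + s + 1 by omega] at h2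
    have h3 : (b + s + 1) * (K + c) ≤ c * (K + b + s + 1) := by
      have h4 : b + s + 1 ≤ c := by omega
      nlinarith
    have h5 : (K + b).choose K * (K + c) ^ (s + 1) * (b + s + 1) ≤
        (K + b + (s + 1)).choose K * c ^ (s + 1) * (b + s + 1) := by
      calc (K + b).choose K * (K + c) ^ (s + 1) * (b + s + 1)
          = ((K + b).choose K * (K + c) ^ s) * ((b + s + 1) * (K + c)) := by ring
        _ ≤ ((K + b + s).choose K * c ^ s) * (c * (K + b + s + 1)) := Nat.mul_le_mul h1 h3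
        _ = ((K + b + s).choose K * (K + b + s + 1)) * c ^ (s + 1) := by ring
        _ = ((K + b + s + 1).choose K * (b + s + 1)) * c ^ (s + 1) := by rw [h2]
        _ = _ := by ring_nf
    exact Nat.le_of_mul_le_mul_right h5 (by omega)

lemma gain (E : ℕ) : ∃ t : ℕ, ∀ᶠ N : ℕ in atTop, ∀ K a b : ℕ, b + t ≤ 3 * a → 2 * a ≤ K →
    N ≤ 2 * K → ((K + b).choose K : ℝ) * (N : ℝ) ^ E ≤ ((K.choose a : ℕ) : ℝ) ^ 3 := by
  refine ⟨2 * (E + 1), ?_⟩
  -- bounded
  obtain ⟨M, hM⟩ : ∃ M : ℝ, ∀ c : ℕ, ((c : ℝ) + 1) ^ 2 * (5 / 6 : ℝ) ^ c ≤ M := by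
    have h1 := tendsto_pow_const_mul_const_pow_of_abs_lt_one 2 (r := (5 / 6 : ℝ))
      (by rw [abs_of_pos (by norm_num)]; norm_num)
    obtain ⟨M, hM⟩ := h1.bddAbove_range
    refine ⟨4 * M + 1, fun c => ?_⟩
    rcases Nat.eq_zero_or_pos c with hc | hc
    · subst hc
      have h2 : (0 : ℝ) ≤ M := by
        have := hM ⟨0, rfl⟩
        simpa using this
      norm_num
      exact h2
    · have h2 := hM ⟨c, rfl⟩
      simp only at h2
      have hc1 : (1 : ℝ) ≤ c := by exact_mod_cast hc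
      have h3 : ((c : ℝ) + 1) ^ 2 ≤ 4 * (c : ℝ) ^ 2 := by nlinarith
      have h4 : (0 : ℝ) < (5 / 6 : ℝ) ^ c := by positivity
      calc ((c : ℝ) + 1) ^ 2 * (5 / 6 : ℝ) ^ c ≤ 4 * (c : ℝ) ^ 2 * (5 / 6 : ℝ) ^ c :=
            mul_le_mul_of_nonneg_right h3 h4.le
        _ = 4 * ((c : ℝ) ^ 2 * (5 / 6 : ℝ) ^ c) := by ring
        _ ≤ _ := by linarith
  have hM0 : 0 ≤ M := by
    have := hM 0
    simp at this
    linarith
  obtain ⟨c₀, hc₀⟩ := eventually_atTop.1 (decay (2 * E + 2) (2 ^ E * 4) (5 / 6) (by norm_num)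
    (by norm_num))
  have ev1 : ∀ᶠ N : ℕ in atTop, M * 2 ^ (E + 1) ≤ (N : ℝ) :=
    tendsto_natCast_atTop_atTop.eventually_ge_atTop _
  filter_upwards [ev1, eventually_ge_atTop (2 * (c₀ + 1) ^ 2 + 2)] with N h1 hN K a b hab haK hNK
  set c := 3 * a with hc
  have hcpos : 0 < c := by omega
  have hK1 : 1 ≤ K := by omega
  have hcr : (0 : ℝ) < c := by exact_mod_cast hcpos
  have hKr : (1 : ℝ) ≤ K := by exact_mod_cast hK1
  have hN0 : (0 : ℝ) < N := by exact_mod_cast (by omega : 0 < N)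
  have hNK' : (N : ℝ) ≤ 2 * K := by exact_mod_cast hNK
  -- the two inequalities
  have g1 : ((K + b).choose K : ℝ) * ((K : ℝ) + c) ^ (c - b) ≤
      ((K + c).choose K : ℝ) * (c : ℝ) ^ (c - b) := by
    have h2 := step1 K b c (c - b) (by omega)
    rw [show K + b + (c - b) = K + c by omega] at h2
    exact_mod_cast h2
  have g2 := binom_real3 K a c le_rfl haK hK1
  set ρ : ℝ := ((K : ℝ) + c) / c with hρ
  have hρ1 : 1 ≤ ρ := by
    rw [hρ, le_div_iff₀ hcr]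
    linarith
  have g3 : ((K + b).choose K : ℝ) * ρ ^ (c - b) ≤ ((K + c).choose K : ℝ) := by
    rw [hρ, div_pow, ← mul_div_assoc, div_le_iff₀ (by positivity)]
    exact g1
  have g4 : ρ ^ (2 * (E + 1)) ≤ ρ ^ (c - b) := pow_le_pow_right₀ hρ1 (by omega)
  have hac : 3 * (a : ℝ) + 1 = c + 1 := by
    rw [hc]; push_cast; ring
  rw [hac] at g2
  have key : ((c : ℝ) + 1) ^ 2 * (5 / 6 : ℝ) ^ c * (N : ℝ) ^ E ≤ ρ ^ (2 * (E + 1)) := by
    rcases Nat.lt_or_ge K (c * c) with hlt | hge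
    · -- `c` is large
      have hc₀c : c₀ ≤ c := by
        by_contra hcon
        push Not at hcon
        have : c * c ≤ c₀ * c₀ := Nat.mul_le_mul hcon.le hcon.le
        nlinarith
      have h2 := hc₀ c hc₀c
      have hc1 : (1 : ℝ) ≤ c := by exact_mod_cast hcpos
      have h3 : (N : ℝ) ^ E ≤ 2 ^ E * (c : ℝ) ^ (2 * E) := by
        have h4 : (N : ℝ) ≤ 2 * ((c : ℝ) ^ 2) := by
          have h5 : (K : ℝ) ≤ (c : ℝ) * c := by exact_mod_cast hlt.le
          nlinarith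
        calc (N : ℝ) ^ E ≤ (2 * ((c : ℝ) ^ 2)) ^ E := pow_le_pow_left₀ hN0.le h4 E
          _ = _ := by rw [mul_pow, ← pow_mul]
      have h5 : ((c : ℝ) + 1) ^ 2 ≤ 4 * (c : ℝ) ^ 2 := by nlinarith
      rw [Real.rpow_natCast] at h2
      calc ((c : ℝ) + 1) ^ 2 * (5 / 6 : ℝ) ^ c * (N : ℝ) ^ E
          ≤ (4 * (c : ℝ) ^ 2) * (5 / 6 : ℝ) ^ c * (2 ^ E * (c : ℝ) ^ (2 * E)) := by
            gcongr
        _ = 2 ^ E * 4 * (c : ℝ) ^ (2 * E + 2) * (5 / 6 : ℝ) ^ c := by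
            rw [pow_add]; ring
        _ ≤ 1 := h2.le
        _ ≤ _ := one_le_pow₀ hρ1
    · -- `c` is small
      have h2 : ((K : ℝ)) ≤ ρ ^ 2 := by
        have h3 : (c : ℝ) * c ≤ K := by exact_mod_cast hge
        rw [hρ, div_pow, le_div_iff₀ (by positivity)]
        nlinarith
      calc ((c : ℝ) + 1) ^ 2 * (5 / 6 : ℝ) ^ c * (N : ℝ) ^ E
          ≤ M * (N : ℝ) ^ E := mul_le_mul_of_nonneg_right (hM c) (by positivity)
        _ ≤ (N / 2) ^ (E + 1) := by
            rw [div_pow, le_div_iff₀ (by positivity)]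
            calc M * (N : ℝ) ^ E * 2 ^ (E + 1) = (M * 2 ^ (E + 1)) * (N : ℝ) ^ E := by ring
              _ ≤ N * (N : ℝ) ^ E := mul_le_mul_of_nonneg_right h1 (by positivity)
              _ = _ := by ring
        _ ≤ (K : ℝ) ^ (E + 1) := by
            apply pow_le_pow_left₀ (by positivity)
            linarith
        _ ≤ (ρ ^ 2) ^ (E + 1) := pow_le_pow_left₀ (by positivity) h2 _
        _ = _ := by rw [← pow_mul]
  have hρpos : 0 < ρ ^ (2 * (E + 1)) := by positivity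
  have hch0 : (0 : ℝ) ≤ ((K + b).choose K : ℝ) := Nat.cast_nonneg _
  have hNE : (0 : ℝ) < (N : ℝ) ^ E := by positivity
  -- combine
  have g5 : ((K + b).choose K : ℝ) * (N : ℝ) ^ E * ρ ^ (2 * (E + 1)) ≤
      ((K.choose a : ℕ) : ℝ) ^ 3 * ρ ^ (2 * (E + 1)) := by
    calc ((K + b).choose K : ℝ) * (N : ℝ) ^ E * ρ ^ (2 * (E + 1))
        = (((K + b).choose K : ℝ) * ρ ^ (2 * (E + 1))) * (N : ℝ) ^ E := by ring
      _ ≤ (((K + b).choose K : ℝ) * ρ ^ (c - b)) * (N : ℝ) ^ E := by gcongr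
      _ ≤ ((K + c).choose K : ℝ) * (N : ℝ) ^ E := mul_le_mul_of_nonneg_right g3 hNE.le
      _ ≤ (((K.choose a : ℕ) : ℝ) ^ 3 * ((c : ℝ) + 1) ^ 2 * (5 / 6 : ℝ) ^ c) * (N : ℝ) ^ E :=
          mul_le_mul_of_nonneg_right g2 hNE.le
      _ = ((K.choose a : ℕ) : ℝ) ^ 3 * (((c : ℝ) + 1) ^ 2 * (5 / 6 : ℝ) ^ c * (N : ℝ) ^ E) := by
          ring
      _ ≤ _ := mul_le_mul_of_nonneg_left key (by positivity)
  exact le_of_mul_le_mul_right g5 hρpos

end Can

end Pool.Agent.J4.H53.CI
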