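import Pool.Agent.J4.H53.CI.Fac
import Pool.Agent.N17.HC.FIN

set_option autoImplicit false

/-! # Irreducible factors of degree two and three -/

open Polynomial Finset Filter

namespace Pool.Agent.J4.H53.CI

open Pool.Agent.N17.HC

lemma exists_roots' {K : Type*} [Field K] {Q : ℤ[X]} {m : ℕ} (hQ : Q.Monic) (hm : Q.natDegree = m)
    (hs : (Q.map (Int.castRingHom K)).Splits) :
    ∃ t : Fin m → K, (univ.val.map t : Multiset K) = (Q.map (Int.castRingHom K)).roots ∧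
      Q.map (Int.castRingHom K) = ∏ i, (X - C (t i)) := by
  subst hm
  exact exists_roots hQ hs

lemma factor_splits' {K : Type*} [Field K] {r m : ℕ} {P Q : ℤ[X]} (hP : P.Monic) (hQ : Q.Monic)
    (hm : Q.natDegree = m)
    (hQP : Q ∣ P) {x : Fin r → K} (h : P.map (Int.castRingHom K) = ∏ i, (X - C (x i))) :
    ∃ t : Fin m → K, Q.map (Int.castRingHom K) = ∏ i, (X - C (t i)) := by
  subst hm
  exact factor_splits hP hQ hQP h

lemma form2 (P : ℤ[X]) (hP : P.Monic) (h : P.natDegree = 2) :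
    P = X ^ 2 + C (P.coeff 1) * X + C (P.coeff 0) := by
  have h2 : P.coeff 2 = 1 := by rw [← h]; exact hP.coeff_natDegree
  conv_lhs => rw [P.as_sum_range_C_mul_X_pow, h]
  simp only [Finset.sum_range_succ, Finset.sum_range_zero, h2]
  simp only [map_one]
  ring

lemma eval_form2 (P : ℤ[X]) (hP : P.Monic) (h : P.natDegree = 2) (q : ℚ) :
    (P.map (Int.castRingHom ℚ)).eval q = q ^ 2 + (P.coeff 1 : ℤ) * q + (P.coeff 0 : ℤ) := by
  have h1 := congrArg (fun F : ℤ[X] => (F.map (Int.castRingHom ℚ)).eval q) (form2 P hP h)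
  simp only [Polynomial.map_add, Polynomial.map_mul, Polynomial.map_pow, map_X, map_C, eval_add,
    eval_mul, eval_pow, eval_X, eval_C] at h1
  exact h1

lemma coeffs2 {K : Type*} [Field K] {Q : ℤ[X]} (x : Fin 2 → K)
    (h : Q.map (Int.castRingHom K) = ∏ i, (X - C (x i))) :
    ((Q.coeff 1 : ℤ) : K) = -(x 0 + x 1) ∧ ((Q.coeff 0 : ℤ) : K) = x 0 * x 1 := by
  rw [Fin.prod_univ_two] at h
  constructor
  · have h1 := congrArg (fun F => F.coeff 1) h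
    simp only [coeff_map, eq_intCast] at h1
    rw [h1, mul_coeff_one]
    simp
    ring
  · have h1 := congrArg (fun F => F.coeff 0) h
    simp only [coeff_map, eq_intCast] at h1
    rw [h1, mul_coeff_zero]
    simp

lemma norm_sub_le_mul (u v c : ℂ) : ‖u - v‖ ≤ 2 * (max 1 ‖u - c‖ * max 1 ‖v - c‖) := by
  have h1 : ‖u - v‖ ≤ ‖u - c‖ + ‖v - c‖ := by
    have : u - v = (u - c) - (v - c) := by ring
    rw [this]
    exact norm_sub_le _ _
  have h2 := le_max_left (1 : ℝ) ‖u - c‖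
  have h3 := le_max_right (1 : ℝ) ‖u - c‖
  have h4 := le_max_left (1 : ℝ) ‖v - c‖
  have h5 := le_max_right (1 : ℝ) ‖v - c‖
  nlinarith

theorem factor_two (hM2 : S_M2) (r k : ℕ) (A ε : ℝ) (hε : 0 < ε) : ∀ᶠ y : ℕ in atTop,
    ∀ (P Q : ℤ[X]) (B : ℤ), P.Monic → Q.Monic → Irreducible Q →
    Q.natDegree = 2 → Q ∣ P → B ≠ 0 → |(B : ℝ)| ≤ (y : ℝ) ^ A →
    SplitsModPrimes r k y P B →
    ∀ c : ℤ, (y : ℝ) ^ (2 * Real.exp (1 / 2) - ε) ≤ mah Q c := by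
  have hconst : ∀ᶠ y : ℕ in atTop, (4 : ℝ) ≤ (y : ℝ) ^ ε :=
    ((tendsto_rpow_atTop hε).comp tendsto_natCast_atTop_atTop).eventually_ge_atTop _
  filter_upwards [hM2 k A ε hε, hconst, eventually_ge_atTop 1]
    with y hy hyc hy1 P Q B hP hQ hirr hdeg hQP hB hBA hsp c
  have hy1r : (1 : ℝ) ≤ y := by exact_mod_cast hy1
  have hy0 : (0 : ℝ) < y := by linarith
  by_contra hcon
  push Not at hcon
  obtain ⟨β, hβr, hβ⟩ := exists_roots' hQ hdeg (IsAlgClosed.splits (Q.map (Int.castRingHom ℂ)))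
  rw [mah, roots_prod β hβr, Fin.prod_univ_two] at hcon
  obtain ⟨ha, hb⟩ := coeffs2 β hβ
  set D : ℤ := Q.coeff 1 ^ 2 - 4 * Q.coeff 0 with hD
  have hDc : ((D : ℤ) : ℂ) = (β 0 - β 1) ^ 2 := by
    rw [hD]
    push_cast
    rw [ha, hb]
    ring
  have hDle : |((D : ℤ) : ℝ)| ≤ (y : ℝ) ^ (4 * Real.exp (1 / 2) - ε) := by
    have h1 : |((D : ℤ) : ℝ)| = ‖β 0 - β 1‖ ^ 2 := by
      rw [← Complex.norm_intCast, hDc, norm_pow]
    rw [h1]
    have h2 := norm_sub_le_mul (β 0) (β 1) c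
    have h3 : ‖β 0 - β 1‖ ≤ 2 * (y : ℝ) ^ (2 * Real.exp (1 / 2) - ε) := by linarith
    calc ‖β 0 - β 1‖ ^ 2 ≤ (2 * (y : ℝ) ^ (2 * Real.exp (1 / 2) - ε)) ^ 2 := by gcongr
      _ = 4 * (y : ℝ) ^ (4 * Real.exp (1 / 2) - 2 * ε) := by
          rw [mul_pow, ← Real.rpow_natCast ((y : ℝ) ^ _), ← Real.rpow_mul hy0.le]
          norm_num
          ring_nf
      _ ≤ (y : ℝ) ^ ε * (y : ℝ) ^ (4 * Real.exp (1 / 2) - 2 * ε) := by gcongr
      _ = _ := by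
          rw [← Real.rpow_add hy0]
          congr 1
          ring
  have hsq : IsSquare D := by
    refine hy D B hB (by exact_mod_cast hBA) (by exact_mod_cast hDle) ?_
    intro p hp hkp hpy hpB
    have : Fact p.Prime := ⟨hp⟩
    obtain ⟨x, hx⟩ := hsp p hp hkp hpy hpB
    obtain ⟨t, ht⟩ := factor_splits' hP hQ hdeg hQP hx
    obtain ⟨ha', hb'⟩ := coeffs2 t ht
    refine ⟨((t 0 - t 1).val : ℤ), ?_⟩
    rw [← ZMod.intCast_zmod_eq_zero_iff_dvd]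
    rw [hD]
    push_cast
    rw [ZMod.natCast_val, ZMod.cast_id, ha', hb']
    ring
  obtain ⟨s, hs⟩ := hsq
  apply eval_rat_ne hQ hirr (by omega) (((s : ℚ) - Q.coeff 1) / 2)
  rw [eval_form2 Q hQ hdeg]
  have h1 : ((Q.coeff 1 : ℤ) : ℚ) ^ 2 - 4 * ((Q.coeff 0 : ℤ) : ℚ) = (s : ℚ) * s := by
    have h2 : ((D : ℤ) : ℚ) = (s : ℚ) * s := by
      rw [hs]
      push_cast
      ring
    rw [← h2, hD]
    push_cast
    ring
  linear_combination (-1 / 4) * h1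

theorem factor_three (hC : S_CUB) (r k : ℕ) (A ε : ℝ) (hA : 0 ≤ A) (hε : 0 < ε) :
    ∀ᶠ y : ℕ in atTop, ∀ (P Q : ℤ[X]) (B : ℤ), P.Monic → Q.Monic → Irreducible Q →
    Q.natDegree = 3 → Q ∣ P → B ≠ 0 → |(B : ℝ)| ≤ (y : ℝ) ^ A →
    (∀ b ∈ rootsOf Q, ‖b‖ ≤ (y : ℝ) ^ A) → SplitsModPrimes r k y P B →
    ∀ c : ℤ, (y : ℝ) ^ (Real.exp (1 / 2) - ε) ≤ mah Q c := by
  have hconst : ∀ᶠ y : ℕ in atTop, (64 : ℝ) ≤ (y : ℝ) ^ ε :=
    ((tendsto_rpow_atTop hε).comp tendsto_natCast_atTop_atTop).eventually_ge_atTop _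
  filter_upwards [hC k (3 * A + 2) ε hε, hconst, eventually_ge_atTop 3]
    with y hy hyc hy1 P Q B hP hQ hirr hdeg hQP hB hBA hroots hsp c
  have hy3 : (3 : ℝ) ≤ y := by exact_mod_cast hy1
  have hy1r : (1 : ℝ) ≤ y := by linarith
  have hy0 : (0 : ℝ) < y := by linarith
  by_contra hcon
  push Not at hcon
  obtain ⟨β, hβr, hβ⟩ := exists_roots' hQ hdeg (IsAlgClosed.splits (Q.map (Int.castRingHom ℂ)))
  rw [mah, roots_prod β hβr, Fin.prod_univ_three] at hcon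
  have hH1 : (1 : ℝ) ≤ (y : ℝ) ^ A := Real.one_le_rpow hy1r hA
  have hbd : ∀ i, ‖β i‖ ≤ (y : ℝ) ^ A := by
    intro i
    apply hroots
    rw [rootsOf, ← hβr]
    exact Multiset.mem_map_of_mem β (mem_univ_val i)
  set a := -Q.coeff 2 with ha
  set b := Q.coeff 1 with hb
  set e := -Q.coeff 0 with he
  have hQf : Q = FIN.P3 a b e := FIN.form3 Q hQ hdeg
  obtain ⟨k0, k1, k2⟩ : ((a : ℤ) : ℂ) = β 0 + β 1 + β 2 ∧
      ((b : ℤ) : ℂ) = β 0 * β 1 + β 1 * β 2 + β 2 * β 0 ∧ ((e : ℤ) : ℂ) = β 0 * β 1 * β 2 := by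
    have h1 := hβ
    rw [hQf, FIN.prod3, FIN.map3] at h1
    have h2 := FIN.inj3 h1
    simp only [eq_intCast] at h2
    exact h2
  have hY : (y : ℝ) ^ A * (y : ℝ) ^ A * (y : ℝ) ^ A * (y : ℝ) ^ (2 : ℝ) =
      (y : ℝ) ^ (3 * A + 2) := by
    rw [← Real.rpow_add hy0, ← Real.rpow_add hy0, ← Real.rpow_add hy0]
    congr 1
    ring
  have hy2 : (3 : ℝ) ≤ (y : ℝ) ^ (2 : ℝ) := by
    rw [show (2 : ℝ) = ((2 : ℕ) : ℝ) by norm_num, Real.rpow_natCast]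
    nlinarith
  set H := (y : ℝ) ^ A with hH
  have hH0 : 0 ≤ H := by linarith
  have hHH : H ≤ H * H := by nlinarith
  have hHHH : H * H ≤ H * H * H := by nlinarith [mul_nonneg hH0 hH0]
  have key3 : 3 * (H * H * H) ≤ (y : ℝ) ^ (3 * A + 2) := by
    rw [← hY]
    have : 0 ≤ H * H * H := by positivity
    nlinarith
  have hA1 : |((a : ℤ) : ℝ)| ≤ (y : ℝ) ^ (3 * A + 2) := by
    rw [← Complex.norm_intCast, k0]
    refine (norm_add₃_le).trans ?_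
    linarith [hbd 0, hbd 1, hbd 2]
  have hnn : ∀ i, 0 ≤ ‖β i‖ := fun i => norm_nonneg _
  have hA2 : |((b : ℤ) : ℝ)| ≤ (y : ℝ) ^ (3 * A + 2) := by
    rw [← Complex.norm_intCast, k1]
    refine (norm_add₃_le).trans ?_
    rw [norm_mul, norm_mul, norm_mul]
    have h1 := mul_le_mul (hbd 0) (hbd 1) (hnn 1) hH0
    have h2 := mul_le_mul (hbd 1) (hbd 2) (hnn 2) hH0
    have h3 := mul_le_mul (hbd 2) (hbd 0) (hnn 0) hH0
    linarith
  have hA3 : |((e : ℤ) : ℝ)| ≤ (y : ℝ) ^ (3 * A + 2) := by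
    rw [← Complex.norm_intCast, k2, norm_mul, norm_mul]
    have h1 := mul_le_mul (mul_le_mul (hbd 0) (hbd 1) (hnn 1) hH0) (hbd 2) (hnn 2)
      (mul_nonneg hH0 hH0)
    have : 0 ≤ H * H * H := by positivity
    linarith
  have hBA' : |((B : ℤ) : ℝ)| ≤ (y : ℝ) ^ (3 * A + 2) := by
    refine hBA.trans ?_
    apply Real.rpow_le_rpow_of_exponent_le hy1r
    linarith
  have hdisc : ((disc3 a b e : ℤ) : ℂ) =
      ((β 0 - β 1) * (β 1 - β 2) * (β 2 - β 0)) ^ 2 := by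
    rw [disc3]
    push_cast
    rw [k0, k1, k2]
    ring
  have hdle : |((disc3 a b e : ℤ) : ℝ)| ≤ (y : ℝ) ^ (4 * Real.exp (1 / 2) - ε) := by
    rw [← Complex.norm_intCast, hdisc, norm_pow, norm_mul, norm_mul]
    have h1 := norm_sub_le_mul (β 0) (β 1) c
    have h2 := norm_sub_le_mul (β 1) (β 2) c
    have h3 := norm_sub_le_mul (β 2) (β 0) c
    set m0 := max 1 ‖β 0 - c‖ with hm0
    set m1 := max 1 ‖β 1 - c‖ with hm1
    set m2 := max 1 ‖β 2 - c‖ with hm2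
    have p0 : 0 ≤ m0 := by positivity
    have p1 : 0 ≤ m1 := by positivity
    have p2 : 0 ≤ m2 := by positivity
    have h4 : ‖β 0 - β 1‖ * ‖β 1 - β 2‖ * ‖β 2 - β 0‖ ≤ 8 * (m0 * m1 * m2) ^ 2 := by
      calc ‖β 0 - β 1‖ * ‖β 1 - β 2‖ * ‖β 2 - β 0‖
          ≤ (2 * (m0 * m1)) * (2 * (m1 * m2)) * (2 * (m2 * m0)) := by gcongr
        _ = 8 * (m0 * m1 * m2) ^ 2 := by ring
    have h5 : (m0 * m1 * m2) ^ 2 ≤ ((y : ℝ) ^ (Real.exp (1 / 2) - ε)) ^ 2 := by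
      gcongr
    calc (‖β 0 - β 1‖ * ‖β 1 - β 2‖ * ‖β 2 - β 0‖) ^ 2
        ≤ (8 * ((y : ℝ) ^ (Real.exp (1 / 2) - ε)) ^ 2) ^ 2 := by
          apply pow_le_pow_left₀ (by positivity)
          refine h4.trans ?_
          linarith [h5]
      _ = 64 * (y : ℝ) ^ (4 * Real.exp (1 / 2) - 4 * ε) := by
          rw [mul_pow, ← pow_mul, ← Real.rpow_natCast ((y : ℝ) ^ _), ← Real.rpow_mul hy0.le]
          norm_num
          ring_nf
      _ ≤ (y : ℝ) ^ ε * (y : ℝ) ^ (4 * Real.exp (1 / 2) - 4 * ε) := by gcongr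
      _ = (y : ℝ) ^ (4 * Real.exp (1 / 2) - 3 * ε) := by
          rw [← Real.rpow_add hy0]
          congr 1
          ring
      _ ≤ _ := by
          apply Real.rpow_le_rpow_of_exponent_le hy1r
          linarith
  obtain ⟨x0, x1, x2, e0, e1, e2⟩ := hy a b e B hB (by exact_mod_cast hBA')
    (by exact_mod_cast hA1) (by exact_mod_cast hA2) (by exact_mod_cast hA3)
    (by exact_mod_cast hdle) (by
      intro p hp hkp hpy hpB
      have : Fact p.Prime := ⟨hp⟩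
      obtain ⟨x, hx⟩ := hsp p hp hkp hpy hpB
      obtain ⟨t, ht⟩ := factor_splits' hP hQ hdeg hQP hx
      rw [hQf] at ht
      exact FIN.spl3 a b e p t ht)
  apply eval_rat_ne hQ hirr (by omega) (x0 : ℚ)
  rw [hQf, FIN.map3, FIN.P3]
  simp only [eval_sub, eval_add, eval_mul, eval_pow, eval_X, eval_C, eq_intCast]
  rw [e0, e1, e2]
  push_cast
  ring

end Pool.Agent.J4.H53.CI
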