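import Mathlib

/-!
# Project CI (helper53), piece SEC: the sector theorem of Schoenberg

If the minors of order `l ≤ k` (consecutive columns `0, ..., l - 1`) of the Toeplitz matrix of a
polynomial `1 + e_1 z + ... + e_r z^r` are positive, the polynomial has no zeros in the sector
`|arg z| < k π / (r + k - 1)`.
-/

open Polynomial Finset

namespace Pool.Agent.J4.H53.CI

namespace Sec

/-- the entries of the Toeplitz matrix -/
noncomputable def a (e : ℕ → ℝ) (m j : ℕ) : ℝ := if j ≤ m then e (m - j) else 0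

/-- the minors of the rows `row` without the column `c` -/
noncomputable def D {l : ℕ} (e : ℕ → ℝ) (row : Fin l → ℕ) (c : Fin (l + 1)) : ℝ :=
  Matrix.det (fun i j : Fin l => a e (row i) (c.succAbove j))

/-- the coefficient -/
noncomputable def cf {l : ℕ} (e : ℕ → ℝ) (row : Fin l → ℕ) (j : ℕ) : ℝ :=
  ∑ c : Fin (l + 1), (-1) ^ (c : ℕ) * a e j c * D e row c

theorem det_insert {l : ℕ} (e : ℕ → ℝ) (row : Fin l → ℕ) (p : Fin (l + 1)) (j : ℕ) :
    Matrix.det (fun i c : Fin (l + 1) => a e (p.insertNth (α := fun _ => ℕ) j row i) c) =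
      (-1) ^ (p : ℕ) * cf e row j := by
  refine (Matrix.det_succ_row (fun i c : Fin (l + 1) =>
    a e (p.insertNth (α := fun _ => ℕ) j row i) c) p).trans ?_
  rw [cf, Finset.mul_sum]
  refine Finset.sum_congr rfl fun c _ => ?_
  have h1 : Matrix.submatrix (fun i c : Fin (l + 1) =>
      a e (p.insertNth (α := fun _ => ℕ) j row i) c) p.succAbove c.succAbove =
      (fun i j : Fin l => a e (row i) (c.succAbove j)) := by
    funext i j'
    simp [Matrix.submatrix]
  rw [h1, pow_add]
  simp only [Fin.insertNth_apply_same, D]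
  ring

theorem sum_a {r : ℕ} (e : ℕ → ℝ) (her : ∀ j, r < j → e j = 0) (z : ℂ)
    (hz : ∑ j ∈ range (r + 1), (e j : ℂ) * z ^ j = 0) (n c : ℕ) (h : r + c ≤ n) :
    ∑ j ∈ range (n + 1), (a e j c : ℂ) * z ^ j = 0 := by
  obtain ⟨m, rfl⟩ := Nat.exists_eq_add_of_le h
  have h1 : ∑ j ∈ range (r + c + m + 1), (a e j c : ℂ) * z ^ j =
      z ^ c * ∑ i ∈ range (r + m + 1), (e i : ℂ) * z ^ i := by
    have : r + c + m + 1 = c + (r + m + 1) := by ring
    rw [this, Finset.sum_range_add]
    have h0 : ∑ j ∈ range c, (a e j c : ℂ) * z ^ j = 0 := by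
      refine Finset.sum_eq_zero fun j hj => ?_
      rw [Finset.mem_range] at hj
      simp [a, not_le.2 hj]
    rw [h0, zero_add, Finset.mul_sum]
    refine Finset.sum_congr rfl fun i _ => ?_
    have : a e (c + i) c = e i := by simp [a]
    rw [this, pow_add]
    ring
  rw [h1]
  have h2 : ∑ i ∈ range (r + m + 1), (e i : ℂ) * z ^ i = 0 := by
    have : r + m + 1 = (r + 1) + m := by ring
    rw [this, Finset.sum_range_add, hz, zero_add]
    refine Finset.sum_eq_zero fun i _ => ?_
    rw [her _ (by omega)]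
    simp
  rw [h2, mul_zero]

theorem sum_cf {r l : ℕ} (e : ℕ → ℝ) (her : ∀ j, r < j → e j = 0) (z : ℂ)
    (hz : ∑ j ∈ range (r + 1), (e j : ℂ) * z ^ j = 0) (row : Fin l → ℕ) :
    ∑ j ∈ range (r + l + 1), (cf e row j : ℂ) * z ^ j = 0 := by
  have h1 : ∀ j, (cf e row j : ℂ) * z ^ j =
      ∑ c : Fin (l + 1), ((-1) ^ (c : ℕ) * (D e row c : ℂ)) * ((a e j c : ℂ) * z ^ j) := by
    intro j
    rw [cf]
    push_cast
    rw [Finset.sum_mul]
    refine Finset.sum_congr rfl fun c _ => ?_
    ring
  simp only [h1]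
  rw [Finset.sum_comm]
  refine Finset.sum_eq_zero fun c _ => ?_
  rw [← Finset.mul_sum, sum_a e her z hz (r + l) c (by have := c.2; omega), mul_zero]

theorem le_of_strictMono {l r : ℕ} (R : Fin (l + 1) → ℕ) (hR : StrictMono R)
    (h : ∀ i, R i ≤ r + l) (i : Fin (l + 1)) : R i ≤ r + i := by
  have key : ∀ d : ℕ, ∀ i : Fin (l + 1), (i : ℕ) + d = l → R i + d ≤ r + l := by
    intro d
    induction d with
    | zero => intro i _; simpa using h i
    | succ d ih =>
      intro i hi
      have hlt : (i : ℕ) + 1 < l + 1 := by omega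
      have h1 := ih ⟨i + 1, hlt⟩ (by simp; omega)
      have h2 : R i < R ⟨i + 1, hlt⟩ := hR (by rw [Fin.lt_def]; simp)
      omega
  have := key (l - i) i (by have := i.2; omega)
  have := i.2
  omega

theorem insert_strictMono {l : ℕ} (row : Fin l → ℕ) (hrow : StrictMono row) (p : Fin (l + 1))
    (j : ℕ) (h1 : ∀ v : Fin l, (v : ℕ) < p → row v < j) (h2 : ∀ v : Fin l, (p : ℕ) ≤ v → j < row v) :
    StrictMono (p.insertNth (α := fun _ => ℕ) j row) := by
  intro i i' hi
  rcases Fin.eq_self_or_eq_succAbove p i with rfl | ⟨v, rfl⟩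
  · rcases Fin.eq_self_or_eq_succAbove i i' with h | ⟨w, rfl⟩
    · exact absurd hi (by rw [h]; exact lt_irrefl _)
    · rw [Fin.insertNth_apply_same, Fin.insertNth_apply_succAbove]
      apply h2
      by_contra hlt
      push Not at hlt
      rw [Fin.succAbove_of_castSucc_lt _ _ (by rw [Fin.lt_def]; simpa using hlt)] at hi
      rw [Fin.lt_def] at hi
      simp at hi
      omega
  · rcases Fin.eq_self_or_eq_succAbove p i' with rfl | ⟨w, rfl⟩
    · rw [Fin.insertNth_apply_same, Fin.insertNth_apply_succAbove]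
      apply h1
      by_contra hge
      push Not at hge
      rw [Fin.succAbove_of_le_castSucc _ _ (by rw [Fin.le_def]; simpa using hge)] at hi
      rw [Fin.lt_def] at hi
      simp at hi
      omega
    · rw [Fin.insertNth_apply_succAbove, Fin.insertNth_apply_succAbove]
      exact hrow ((Fin.strictMono_succAbove p).lt_iff_lt.1 hi)

/-- the rows -/
theorem exists_rows (l n : ℕ) (ν : ℕ → ℕ) (h0 : ν 0 = 0) (hn : ν n = l) (hm : Monotone ν)
    (hs : ∀ j, ν (j + 1) ≤ ν j + 1) :
    ∃ row : Fin l → ℕ, StrictMono row ∧ (∀ v, row v ≤ n) ∧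
      ∀ (v : Fin l) (j : ℕ), row v ≤ j ↔ (v : ℕ) + 1 ≤ ν j := by
  classical
  have hex : ∀ v : Fin l, ∃ j, (v : ℕ) + 1 ≤ ν j := fun v => ⟨n, by rw [hn]; exact v.2⟩
  have hiff : ∀ (v : Fin l) (j : ℕ), Nat.find (hex v) ≤ j ↔ (v : ℕ) + 1 ≤ ν j := by
    intro v j
    constructor
    · intro h
      exact le_trans (Nat.find_spec (hex v)) (hm h)
    · intro h
      exact Nat.find_min' _ h
  have heq : ∀ v : Fin l, ν (Nat.find (hex v)) = v + 1 := by
    intro v
    apply le_antisymm _ (Nat.find_spec (hex v))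
    rcases Nat.eq_zero_or_pos (Nat.find (hex v)) with h | h
    · have := Nat.find_spec (hex v)
      rw [h, h0] at this
      omega
    · obtain ⟨m, hm'⟩ := Nat.exists_eq_succ_of_ne_zero h.ne'
      have h1 : ¬ ((v : ℕ) + 1 ≤ ν m) := by
        rw [← hiff]
        omega
      have h2 := hs m
      rw [hm']
      simp only [Nat.succ_eq_add_one]
      omega
  refine ⟨fun v => Nat.find (hex v), ?_, ?_, hiff⟩
  · intro v w hvw
    by_contra hle
    push Not at hle
    have := hm hle
    rw [heq, heq] at this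
    rw [Fin.lt_def] at hvw
    omega
  · intro v
    exact Nat.find_min' _ (by rw [hn]; exact v.2)

theorem sin_sign (x : ℝ) (p : ℕ) (h1 : p * Real.pi ≤ x) (h2 : x ≤ (p + 1) * Real.pi) :
    0 ≤ (-1) ^ p * Real.sin x := by
  have h3 : Real.sin x = (-1) ^ p * Real.sin (x - p * Real.pi) := by
    have := Real.sin_add_nat_mul_pi (x - p * Real.pi) p
    rw [sub_add_cancel] at this
    exact this
  rw [h3, ← mul_assoc, ← mul_pow]
  simp only [mul_neg, mul_one, neg_neg, one_pow, one_mul]
  exact Real.sin_nonneg_of_nonneg_of_le_pi (by linarith) (by linarith)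

/-- the contradiction -/
theorem main (r l : ℕ) (e : ℕ → ℝ) (her : ∀ j, r < j → e j = 0)
    (hpos : ∀ R : Fin (l + 1) → ℕ, StrictMono R → (∀ i, R i ≤ r + i) →
      0 < Matrix.det (fun i j : Fin (l + 1) => a e (R i) j))
    (z : ℂ) (hz : ∑ j ∈ range (r + 1), (e j : ℂ) * z ^ j = 0)
    (h0 : 0 ≤ z.arg) (hπ : z.arg < Real.pi) (ψ : ℝ) (hψ : 0 < ψ) (hψ' : ψ < Real.pi)
    (h1 : (l : ℝ) * Real.pi ≤ (r + l : ℕ) * z.arg + ψ)
    (h2 : (r + l : ℕ) * z.arg + ψ < (l + 1) * Real.pi) : False := by
  have hpi := Real.pi_pos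
  set α := z.arg with hα
  set ν : ℕ → ℕ := fun j => ⌊((j : ℝ) * α + ψ) / Real.pi⌋₊ with hν
  have hnn : ∀ j : ℕ, 0 ≤ ((j : ℝ) * α + ψ) / Real.pi := fun j => by positivity
  have hν0 : ν 0 = 0 := by
    simp only [hν]
    rw [Nat.floor_eq_zero, div_lt_one hpi]
    simpa using hψ'
  have hνn : ν (r + l) = l := by
    simp only [hν]
    rw [Nat.floor_eq_iff (hnn _), le_div_iff₀ hpi, div_lt_iff₀ hpi]
    exact ⟨h1, h2⟩
  have hmono : Monotone ν := by
    intro i j hij
    simp only [hν]
    apply Nat.floor_le_floor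
    apply div_le_div_of_nonneg_right _ hpi.le
    have : (i : ℝ) ≤ j := by exact_mod_cast hij
    nlinarith
  have hstep : ∀ j, ν (j + 1) ≤ ν j + 1 := by
    intro j
    simp only [hν]
    rw [← Nat.floor_add_one (hnn j)]
    apply Nat.floor_le_floor
    rw [div_add_one hpi.ne']
    apply div_le_div_of_nonneg_right _ hpi.le
    push_cast
    nlinarith
  obtain ⟨row, hrow, hrn, hiff⟩ := exists_rows l (r + l) ν hν0 hνn hmono hstep
  have hsum := sum_cf (l := l) e her z hz row
  -- signs of the coefficients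
  have hdet : ∀ j ≤ r + l, (∀ v, row v ≠ j) → 0 < (-1 : ℝ) ^ (ν j) * cf e row j := by
    intro j hj hne
    have hp : ν j < l + 1 := by
      have := hmono hj
      rw [hνn] at this
      omega
    have := hpos ((⟨ν j, hp⟩ : Fin (l + 1)).insertNth (α := fun _ => ℕ) j row)
      (insert_strictMono row hrow ⟨ν j, hp⟩ j
        (fun v hv => lt_of_le_of_ne ((hiff v j).2 hv) (hne v))
        (fun v hv => by
          by_contra hle
          push Not at hle
          have := (hiff v j).1 hle
          simp only at hv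
          omega))
      (le_of_strictMono _ (insert_strictMono row hrow ⟨ν j, hp⟩ j
        (fun v hv => lt_of_le_of_ne ((hiff v j).2 hv) (hne v))
        (fun v hv => by
          by_contra hle
          push Not at hle
          have := (hiff v j).1 hle
          simp only at hv
          omega)) (fun i => by
            rcases Fin.eq_self_or_eq_succAbove (⟨ν j, hp⟩ : Fin (l + 1)) i with rfl | ⟨v, rfl⟩
            · rw [Fin.insertNth_apply_same]
              exact hj
            · rw [Fin.insertNth_apply_succAbove]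
              exact hrn v))
    rw [det_insert] at this
    exact this
  have hzero : ∀ j, (∃ v, row v = j) → cf e row j = 0 := by
    rintro j ⟨v, rfl⟩
    have h3 := det_insert e row 0 (row v)
    have h3' : Matrix.det (fun i c : Fin (l + 1) =>
        a e ((0 : Fin (l + 1)).insertNth (α := fun _ => ℕ) (row v) row i) c) = 0 := by
      refine Matrix.det_zero_of_row_eq (i := 0) (j := v.succ) (Fin.succ_ne_zero v).symm ?_
      funext c
      have h4 : ((0 : Fin (l + 1)).insertNth (α := fun _ => ℕ) (row v) row) v.succ = row v := by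
        simp
      have h5 : ((0 : Fin (l + 1)).insertNth (α := fun _ => ℕ) (row v) row) 0 = row v :=
        Fin.insertNth_apply_same (α := fun _ => ℕ) (0 : Fin (l + 1)) (row v) row
      rw [h4, h5]
    rw [h3'] at h3
    simpa using h3.symm
  -- imaginary part
  have him : ∀ j : ℕ, (((cf e row j : ℂ) * z ^ j) * Complex.exp (ψ * Complex.I)).im =
      cf e row j * ‖z‖ ^ j * Real.sin (j * α + ψ) := by
    intro j
    have hzz : z = ‖z‖ * Complex.exp (α * Complex.I) := (Complex.norm_mul_exp_arg_mul_I z).symm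
    have h5 : ((cf e row j : ℂ) * z ^ j) * Complex.exp (ψ * Complex.I) =
        ((cf e row j * ‖z‖ ^ j : ℝ) : ℂ) * Complex.exp (((j * α + ψ : ℝ) : ℂ) * Complex.I) := by
      conv_lhs => rw [hzz]
      rw [mul_pow, ← Complex.exp_nat_mul]
      push_cast
      rw [add_mul, Complex.exp_add]
      ring_nf
    rw [h5, Complex.im_ofReal_mul, Complex.exp_ofReal_mul_I_im]
  have hS : ∑ j ∈ range (r + l + 1), cf e row j * ‖z‖ ^ j * Real.sin (j * α + ψ) = 0 := by
    have h6 := congrArg (fun w => (w * Complex.exp (ψ * Complex.I)).im) hsum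
    simp only [zero_mul, Complex.zero_im] at h6
    rw [Finset.sum_mul, Complex.im_sum] at h6
    rw [← h6]
    exact Finset.sum_congr rfl fun j _ => (him j).symm
  have hterm : ∀ j ∈ range (r + l + 1), 0 ≤ cf e row j * ‖z‖ ^ j * Real.sin (j * α + ψ) := by
    intro j hj
    rw [Finset.mem_range] at hj
    by_cases hex : ∃ v, row v = j
    · rw [hzero j hex]
      simp
    · push Not at hex
      have h7 := hdet j (by omega) hex
      have h8 : 0 ≤ (-1 : ℝ) ^ (ν j) * Real.sin (j * α + ψ) := by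
        apply sin_sign
        · rw [← le_div_iff₀ hpi]
          exact Nat.floor_le (hnn j)
        · rw [← div_le_iff₀ hpi]
          exact (Nat.lt_floor_add_one _).le
      have h9 : cf e row j * ‖z‖ ^ j * Real.sin (j * α + ψ) =
          ‖z‖ ^ j * (((-1 : ℝ) ^ (ν j) * cf e row j) * ((-1 : ℝ) ^ (ν j) * Real.sin (j * α + ψ))) := by
        have : ((-1 : ℝ) ^ (ν j)) * ((-1 : ℝ) ^ (ν j)) = 1 := by
          rw [← mul_pow]; simp
        linear_combination (-(cf e row j * ‖z‖ ^ j * Real.sin (j * α + ψ))) * this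
      rw [h9]
      exact mul_nonneg (pow_nonneg (norm_nonneg _) _) (mul_nonneg h7.le h8)
  have hlast := (Finset.sum_eq_zero_iff_of_nonneg hterm).1 hS 0 (by simp)
  have h10 : ∀ v, row v ≠ 0 := by
    intro v hv
    have := (hiff v 0).1 hv.le
    omega
  have h11 := hdet 0 (by omega) h10
  rw [hν0] at h11
  have h12 : 0 < Real.sin ψ := Real.sin_pos_of_pos_of_lt_pi hψ hψ'
  simp at hlast h11
  rcases hlast with h | h
  · rw [h] at h11
    exact lt_irrefl _ h11
  · exact h12.ne' h

end Sec

/-- **Sector theorem of Schoenberg.** -/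
theorem sector (r k : ℕ) (hk : 1 ≤ k) (e : ℕ → ℝ) (he0 : e 0 = 1) (her : ∀ j, r < j → e j = 0)
    (hpos : ∀ l ≤ k, ∀ R : Fin l → ℕ, StrictMono R → (∀ i, R i ≤ r + i) →
      0 < Matrix.det (fun i j : Fin l => if (j : ℕ) ≤ R i then e (R i - j) else 0))
    (z : ℂ) (hz : ∑ j ∈ range (r + 1), (e j : ℂ) * z ^ j = 0) :
    (k : ℝ) * Real.pi ≤ (r + k - 1) * |z.arg| := by
  have hpi := Real.pi_pos
  -- reduction to nonnegative arguments
  wlog harg : 0 ≤ z.arg generalizing z with H
  · push Not at harg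
    have h1 : (starRingEnd ℂ z).arg = -z.arg := by
      rw [Complex.arg_conj, if_neg]
      intro h
      rw [h] at harg
      linarith
    have h2 := H (starRingEnd ℂ z) (by
      have := congrArg (starRingEnd ℂ) hz
      rw [map_sum, map_zero] at this
      rw [← this]
      refine Finset.sum_congr rfl fun j _ => ?_
      rw [map_mul, map_pow, Complex.conj_ofReal]) (by rw [h1]; linarith)
    rw [h1, abs_neg] at h2
    exact h2
  rw [abs_of_nonneg harg]
  by_contra hlt
  push Not at hlt
  have hr : 1 ≤ r := by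
    rcases Nat.eq_zero_or_pos r with h | h
    · subst h
      simp [he0] at hz
    · exact h
  classical
  have hex : ∃ l : ℕ, 1 ≤ l ∧ ((r : ℝ) + l - 1) * z.arg < l * Real.pi := ⟨k, hk, hlt⟩
  obtain ⟨hl1, hl2⟩ := Nat.find_spec hex
  have hlk : Nat.find hex ≤ k := Nat.find_min' hex ⟨hk, hlt⟩
  have hmin : ∀ m, m < Nat.find hex → ¬ (1 ≤ m ∧ ((r : ℝ) + m - 1) * z.arg < m * Real.pi) :=
    fun m hm => Nat.find_min hex hm
  obtain ⟨l, hl⟩ := Nat.exists_eq_add_of_le hl1
  rw [hl] at hl2 hlk hmin
  push_cast at hl2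
  have hrr : (1 : ℝ) ≤ r := by exact_mod_cast hr
  have hl0 : (0 : ℝ) ≤ l := Nat.cast_nonneg l
  have hαπ : z.arg < Real.pi := by
    by_contra h
    push Not at h
    nlinarith
  have hlow : (l : ℝ) * Real.pi ≤ ((r : ℝ) + l) * z.arg := by
    rcases Nat.eq_zero_or_pos l with h | h
    · subst h
      simp
      positivity
    · have h3 := hmin l (by omega)
      push Not at h3
      have h4 := h3 h
      nlinarith
  refine Sec.main r l e her (fun R hR hR' => ?_) z hz harg hαπ
    (((l + 1 : ℝ) * Real.pi - (r + l) * z.arg) / 2) (by nlinarith) (by nlinarith) ?_ ?_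
  · exact hpos (l + 1) (by omega) R hR hR'
  · push_cast
    nlinarith
  · push_cast
    nlinarith

end Pool.Agent.J4.H53.CI
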